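import Pool.Agent.MP_3a8451_pr.Mg.Soup

attribute [-instance] IsOrderedRing.toIsStrictOrderedRing AddQuantale.instAddLeftMono
  Fintype.decidableForallFintype littleWedderburn RKHS.instFunLike NumberField.to_charZero
  AddQuantale.instAddRightMono IdemSemiring.toCanonicallyOrderedAdd
  Group.IsPerfect.subsingleton_of_isMulCommutative instCharZeroOfIsSemireal Quantale.instMulRightMono
  DivisionSemiring.toSemiring IdemSemiring.toSemiring Order.Coframe.toCompleteLattice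
  Quantale.instMulLeftMono CommMonTypeEquivalenceCommMon.commMonCommMonoid
  AddGroup.addLeftReflectLE_of_addLeftMono DivisionRing.toRing CommRing.toRing

-- part Lp/Df
section

/-! Definitions and basic geometry for the existence of the one-arm exponent. -/

open Finset
open scoped ENNReal NNReal

namespace Pool.Agent.MP_3a8451_pr

open Classical in
/-- Indicator with values in the extended non-negative reals. -/
noncomputable def ie (P : Prop) : ℝ≥0∞ := if P then 1 else 0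

/-- Weighted sum over all words, a word of length `n` having weight `6^(-n)`. -/
noncomputable def WF (F : List D → ℝ≥0∞) : ℝ≥0∞ := ∑' s, (6 : ℝ≥0∞)⁻¹ ^ s.length * F s

/-- Position at time `t` of the walk from `x` along `s`. -/
def pt (x : V) (s : List D) (t : ℕ) : V := x + pos (s.take t)

/-- The set of visited vertices. -/
def tr (x : V) (s : List D) : Set V := Set.range (pt x s)

/-- The walk leaves `U` for the first time at its last vertex. -/
def Exit (U : Set V) (x : V) (s : List D) : Prop :=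
  x + pos s ∉ U ∧ ∀ t < s.length, pt x s t ∈ U

/-- The walk does not visit `Q` after time zero. -/
def NoRet (Q : Set V) (x : V) (s : List D) : Prop :=
  ∀ t, 0 < t → t ≤ s.length → pt x s t ∉ Q

/-- The Green function of the walk killed outside `U`. -/
noncomputable def GG (U : Set V) (x y : V) : ℝ≥0∞ :=
  WF fun s => ie (tr x s ⊆ U ∧ x + pos s = y)

/-- Sup norm. -/
def nrm (v : V) : ℕ := univ.sup fun c => (v c).natAbs

/-- The model kernel. -/
noncomputable def gg (v : V) : ℝ := 1 / (1 + nrm v)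

/-- Box with natural radius. -/
def Bx (x : V) (r : ℕ) : Set V := Box x r

/-- Non-empty closed words. -/
def Closed (s : List D) : Prop := s ≠ [] ∧ pos s = 0

/-- Integral against the measure on based loops. -/
noncomputable def Mu (F : V → List D → ℝ≥0∞) : ℝ≥0∞ :=
  ∑' x, WF fun s => ie (Closed s) * ((s.length : ℝ≥0∞)⁻¹ * F x s)

/-- Integral against the measure on rooted loops (no factor one over the length). -/
noncomputable def Rt (F : V → List D → ℝ≥0∞) : ℝ≥0∞ :=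
  ∑' x, WF fun s => ie (Closed s) * F x s

/-- Two sets have a common point. -/
def Meets (A B : Set V) : Prop := ∃ a ∈ A, a ∈ B

/-- Mass of the loops that visit both sets. -/
noncomputable def mm (K O : Set V) : ℝ :=
  (Mu fun x s => ie (Meets (tr x s) K ∧ Meets (tr x s) O)).toReal

/-- Capacity of `K` in `U`. -/
noncomputable def cap (U K : Set V) : ℝ≥0∞ :=
  ∑' x, ie (x ∈ K) * WF fun s => ie (Exit U x s ∧ NoRet K x s)

/-- Size of a far set `O` seen from the box of radius `R`. -/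
noncomputable def uu (R : ℕ) (O : Set V) : ℝ≥0∞ :=
  ∑' z, ie (z ∈ Bx 0 R) * WF fun s =>
    ie (Exit Oᶜ z s ∧ NoRet (Bx 0 R) z s) * ENNReal.ofReal (gg (z + pos s))

/-- Transition probabilities. -/
noncomputable def PT (n : ℕ) (z : V) : ℝ := Ex n fun s => ind (pos s = z)

/-- Twice the Gaussian kernel with variance `t / 3` per coordinate. -/
noncomputable def psi (t : ℝ) (y : Fin 3 → ℝ) : ℝ :=
  2 * √(3 / (2 * Real.pi * t)) ^ 3 * Real.exp (-(3 * ∑ c, y c ^ 2) / (2 * t))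

/-- The characteristic function of one step. -/
noncomputable def chf (θ : Fin 3 → ℝ) : ℝ := (∑ c, Real.cos (θ c)) / 3

/-- Half of the torus. -/
def HH : Set (Fin 3 → ℝ) :=
  Set.pi Set.univ fun c => Set.Icc (-(![Real.pi / 2, Real.pi, Real.pi] c))
    (![Real.pi / 2, Real.pi, Real.pi] c)

/-- Diameter less than `σ`. -/
def Small (σ : ℕ) (T : Set V) : Prop := ∀ a ∈ T, ∀ b ∈ T, nrm (a - b) < σ

/-- A set that meets the box of radius `32 r` and leaves the box of radius `64 r`. -/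
def Big (c : V) (r : ℕ) (T : Set V) : Prop := Meets T (Bx c (32 * r)) ∧ ¬ T ⊆ Bx c (64 * r)

/-- `K` carries a unit mass whose potential is at most `b` on its support. -/
def Pot (b : ℝ) (K : Set V) : Prop :=
  ∃ (F : Finset V) (ν : V → ℝ), (∀ x, 0 ≤ ν x) ∧ (∀ x ∈ F, x ∈ K) ∧ ∑ x ∈ F, ν x = 1 ∧
    ∀ y ∈ F, ∑ x ∈ F, ν x * gg (x - y) ≤ b

/-- `K` is easy to hit at scale `r` around `c`. -/
def Good (A : ℝ) (K : Set V) (c : V) (r : ℕ) : Prop := Pot (A / r) (K ∩ Bx c (64 * r))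

/-- Good sets are hit with positive probability. -/
def HLp (M1 : ℕ) (c1 : ℝ) : Prop :=
  ∀ (A : ℝ) (K : Set V) (c y : V) (r : ℕ), 1 ≤ A → 1 ≤ r → Good A K c r → y ∈ Bx c (64 * r) →
    ENNReal.ofReal (c1 / A) ≤ WF fun s => ie (Exit Kᶜ y s ∧ tr y s ⊆ Bx c (M1 * r))

/-- Index of the cell of side `a` containing `z`. -/
def cell (a : ℕ) (z : V) : V := fun c => z c / a

/-- Corner of the cell of side `a` with index `g`. -/
def sc (a : ℕ) (g : V) : V := fun c => a * g c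

/-- The cell of side `a` with index `g`. -/
noncomputable def fib (a : ℕ) (g : V) : Finset V :=
  Fintype.piFinset fun c => Ico ((a : ℤ) * g c) (a * (g c + 1))

/-- Corner of the `l`-th ancestor of the box of scale `j` with index `g`. -/
def ctr (M j l : ℕ) (g : V) : V := sc (M ^ (j + l)) (cell (M ^ l) g)

open Classical in
/-- Weight of a box: small if `K` is hard to hit there. -/
noncomputable def wg (M : ℕ) (A : ℝ) (K : Set V) (j : ℕ) (g : V) : ℝ :=
  if Good A K (sc (M ^ j) g) (M ^ j) then 1 else 1 / (2 * (M : ℝ) ^ 3)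

/-- Product of the weights of a box and of its first ancestors. -/
noncomputable def WW (M : ℕ) (A : ℝ) (K : Set V) (j n : ℕ) (g : V) : ℝ :=
  ∏ l ∈ range n, wg M A K (j + l) (cell (M ^ l) g)

/-- Every piece of the word stays within `τ` of its starting point. -/
def Reg (k τ : ℕ) (s : List D) : Prop :=
  ∀ i < k, ∀ t ≤ s.length, i * (s.length / k) ≤ t → t ≤ i * (s.length / k) + s.length / k + k →
    nrm (pos (s.take t) - pos (s.take (i * (s.length / k)))) ≤ τ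

/-- The type of a based loop: time class and cells of `k` sample points. -/
def typ (k a : ℕ) (x : V) (s : List D) : ℕ × (Fin k → V) :=
  (s.length / a ^ 2, fun i => cell a (pt x s (i * (s.length / k))))

/-- The admissible types. -/
noncomputable def TT (k T0 T1 Γ H : ℕ) : Finset (ℕ × (Fin k → V)) :=
  ((range (T1 * H ^ 2 + 1)).filter fun j => H ^ 2 ≤ T0 * j) ×ˢ
    Fintype.piFinset fun _ => grid (Γ * H + 1)

/-- Thickened trace of a type. -/
def Sst {k : ℕ} (f : ℕ) (σ : ℕ × (Fin k → V)) : Set V := {z | ∃ i, nrm (z - σ.2 i) ≤ f}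

/-- Types of large diameter. -/
def Gst {k : ℕ} (e : ℕ) (σ : ℕ × (Fin k → V)) : Prop := ∃ i i', e ≤ nrm (σ.2 i - σ.2 i')

/-- Crossing event for a configuration of types. -/
def Yev {k : ℕ} (T : Finset (ℕ × (Fin k → V))) (f e r R : ℕ) (ω : T → Bool) : Prop :=
  ∃ y ∈ Cl (fun σ : T => Sst f σ.1) (fun σ => Gst e σ.1) ω (Bx 0 r), R ≤ nrm y

open Classical in
/-- The labels carried by some open index. -/
noncomputable def pres {ι β : Type*} (T : Finset β) (π : ι → β) (ω : ι → Bool) : T → Bool :=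
  fun σ => decide (∃ i, π i = σ.1 ∧ ω i = true)

open Classical in
/-- Based loops of length at most `N` inside the box of radius `N`. -/
noncomputable def BLs (N : ℕ) : Finset (V × List D) :=
  (grid N ×ˢ (range (N + 1)).biUnion words).filter fun l => Closed l.2 ∧ tr l.1 l.2 ⊆ Bx 0 N

/-- Index set of the finite model. -/
abbrev Ix (N : ℕ) := {l // l ∈ BLs N}

/-- Traces in the finite model. -/
def SS (N : ℕ) (i : Ix N) : Set V := tr i.1.1 i.1.2

/-- Weight of a based loop. -/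
noncomputable def wl (s : List D) : ℝ := 1 / (s.length : ℝ) * (1 / 6) ^ s.length

/-- Probability that a based loop is present. -/
noncomputable def pp (α : ℝ) (N : ℕ) (i : Ix N) : ℝ := 1 - Real.exp (-(α * wl i.1.2))

/-- The function depends only on the coordinates in `A`. -/
def Dep {ι β : Type*} (A : Set ι) (f : (ι → Bool) → β) : Prop :=
  ∀ ω ω', (∀ i ∈ A, ω i = ω' i) → f ω = f ω'

section
variable {ι : Type*} (S : ι → Set V)

/-- Crossing of the annulus of scale `r` by local sets. -/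
def Sev (c : V) (r : ℕ) (ω : ι → Bool) : Prop :=
  ∃ y ∈ Cl S (fun i => S i ⊆ Bx c (64 * r) ∧ ¬ S i ⊆ Bx c (16 * r)) ω (Bx c (16 * r)),
    y ∉ Bx c (32 * r)

/-- The cluster of `X` made of the sets inside `B`. -/
def Cin (B X : Set V) (ω : ι → Bool) : Set V := Cl S (fun i => S i ⊆ B) ω X

/-- An open large set avoiding `K` meets the annulus of scale `r`. -/
def Lev (K : Set V) (c : V) (r : ℕ) (ω : ι → Bool) : Prop :=
  ∃ i, ω i = true ∧ Disjoint (S i) K ∧ Big c r (S i)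

/-- All annuli of `n` consecutive scales are crossed. -/
def Eev (M : ℕ) (K : Set V) (j n : ℕ) (g : V) (ω : ι → Bool) : Prop :=
  ∀ l < n, Sev S (ctr M j l g) (M ^ (j + l)) ω ∨ Lev S K (ctr M j l g) (M ^ (j + l)) ω

/-- A point near the cluster of the box is joined to distance `hi` by sets avoiding the cluster. -/
def Near (G : ι → Prop) (r0 R0 lo hi : ℕ) (ω : ι → Bool) : Prop :=
  Cl S G ω (Bx 0 r0) ⊆ Bx 0 R0 ∧ ∃ x, Meets (Cl S G ω (Bx 0 r0)) (Bx x lo) ∧
    ∃ y ∈ Cl S (fun i => Disjoint (S i) (Cl S G ω (Bx 0 r0))) ω {x}, y ∉ Bx x hi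

variable [Fintype ι] [DecidableEq ι] (p : ι → ℝ)

/-- Total weight of the sets meeting both `K` and `O`. -/
noncomputable def mS (K O : Set V) : ℝ := ∑ i, p i * ind (Meets (S i) K ∧ Meets (S i) O)

/-- Connection probability. -/
noncomputable def Con (X Y : Set V) : ℝ :=
  EE p fun ω => ind (∃ y ∈ Cl S (fun _ => True) ω X, y ∈ Y)

end

/-- Connection probability in the finite model. -/
noncomputable def PN (α : ℝ) (N : ℕ) (X Y : Set V) : ℝ := Con (SS N) (pp α N) X Y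

/-- Connection probability in the loop soup. -/
noncomputable def PP (α : ℝ≥0) (X Y : Set V) : ℝ :=
  (soup α).real {N | ∃ x ∈ X, ∃ y ∈ Y, Relation.ReflTransGen (Link N) x y}

/-! ### Indicators -/

lemma ie_pos {P : Prop} (h : P) : ie P = 1 := by unfold ie; simp [h]

lemma ie_neg {P : Prop} (h : ¬ P) : ie P = 0 := by unfold ie; simp [h]

lemma ie_le_one (P : Prop) : ie P ≤ 1 := by unfold ie; split_ifs <;> simp

lemma ie_ne_top (P : Prop) : ie P ≠ ∞ := ne_top_of_le_ne_top ENNReal.one_ne_top (ie_le_one P)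

lemma ie_le {P : Prop} {a : ℝ≥0∞} (h : P → 1 ≤ a) : ie P ≤ a := by
  by_cases hP : P
  · rw [ie_pos hP]; exact h hP
  · rw [ie_neg hP]; exact zero_le

lemma ie_mono {P Q : Prop} (h : P → Q) : ie P ≤ ie Q := ie_le fun hP => (ie_pos (h hP)).ge

lemma ie_congr {P Q : Prop} (h : P ↔ Q) : ie P = ie Q := by rw [propext h]

lemma of_ie_ne {P : Prop} (h : ie P ≠ 0) : P := by_contra fun hP => h (ie_neg hP)

lemma ie_and (P Q : Prop) : ie (P ∧ Q) = ie P * ie Q := by
  by_cases hP : P <;> by_cases hQ : Q <;> simp [ie, hP, hQ]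

lemma ie_mul_le {P : Prop} {a b : ℝ≥0∞} (h : P → a ≤ b) : ie P * a ≤ b := by
  by_cases hP : P
  · rw [ie_pos hP, one_mul]; exact h hP
  · rw [ie_neg hP, zero_mul]; exact zero_le

lemma ie_or_le {P Q R : Prop} (h : P → Q ∨ R) : ie P ≤ ie Q + ie R :=
  ie_le fun hP => (h hP).elim (fun h => (ie_pos h).ge.trans le_self_add)
    fun h => (ie_pos h).ge.trans le_add_self

lemma ofReal_ind (P : Prop) : ENNReal.ofReal (ind P) = ie P := by
  by_cases hP : P <;> simp [ie, ind, hP]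

lemma ind_and (P Q : Prop) : ind (P ∧ Q) = ind P * ind Q := by
  by_cases hP : P <;> by_cases hQ : Q <;> simp [ind, hP, hQ]

lemma ind_congr {P Q : Prop} (h : P ↔ Q) : ind P = ind Q := by rw [propext h]

/-! ### The sup norm, boxes and cells -/

lemma le_nrm (v : V) (c : Fin 3) : |v c| ≤ nrm v := by
  rw [← Int.natCast_natAbs]
  exact_mod_cast le_sup (f := fun c => (v c).natAbs) (mem_univ c)

lemma nrm_le {v : V} {r : ℕ} : nrm v ≤ r ↔ ∀ c, |v c| ≤ r := by
  refine ⟨fun h c => (le_nrm v c).trans (by exact_mod_cast h), fun h => Finset.sup_le fun c _ => ?_⟩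
  have := h c
  rw [← Int.natCast_natAbs] at this
  exact_mod_cast this

lemma exists_nrm (v : V) : ∃ c, |v c| = nrm v := by
  obtain ⟨c, -, hc⟩ := exists_mem_eq_sup univ univ_nonempty fun c => (v c).natAbs
  exact ⟨c, by rw [nrm, hc, Int.natCast_natAbs]⟩

lemma nrm_lt {v : V} {r : ℕ} : nrm v < r ↔ ∀ c, |v c| < r := by
  refine ⟨fun h c => (le_nrm v c).trans_lt (by exact_mod_cast h), fun h => ?_⟩
  obtain ⟨c, hc⟩ := exists_nrm v
  have := h c
  rw [hc] at this
  exact_mod_cast this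

@[simp] lemma nrm_zero : nrm 0 = 0 := Nat.le_zero.1 (nrm_le.2 fun _ => by simp)

lemma nrm_add (a b : V) : nrm (a + b) ≤ nrm a + nrm b := nrm_le.2 fun c => by
  have := abs_add_le (a c) (b c)
  have := le_nrm a c
  have := le_nrm b c
  push_cast
  rw [Pi.add_apply]
  linarith

@[simp] lemma nrm_neg (a : V) : nrm (-a) = nrm a := by simp [nrm]

lemma nrm_comm (a b : V) : nrm (a - b) = nrm (b - a) := by rw [← nrm_neg, neg_sub]

lemma nrm_tri (a b c : V) : nrm (a - c) ≤ nrm (a - b) + nrm (b - c) := by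
  have := nrm_add (a - b) (b - c)
  rwa [sub_add_sub_cancel] at this

lemma nrm_dir (d : D) : nrm (dir d) ≤ 1 := nrm_le.2 fun c => by
  simpa only [Nat.cast_one, pos_cons, pos_nil, Pi.add_apply, Pi.zero_apply, add_zero, List.length_cons, List.length_nil, zero_add] using abs_pos_le [d] c

lemma nrm_pos_le (s : List D) : nrm (pos s) ≤ s.length := nrm_le.2 (abs_pos_le s)

lemma mem_Bx {x y : V} {r : ℕ} : y ∈ Bx x r ↔ nrm (y - x) ≤ r := nrm_le.symm

lemma mem_Bx0 {y : V} {r : ℕ} : y ∈ Bx 0 r ↔ nrm y ≤ r := by rw [mem_Bx, sub_zero]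

lemma self_mem_Bx (x : V) (r : ℕ) : x ∈ Bx x r := by simp [mem_Bx]

lemma Bx_sub {x x' : V} {r r' : ℕ} (h : nrm (x - x') + r ≤ r') : Bx x r ⊆ Bx x' r' :=
  fun y hy => mem_Bx.2 (by have := nrm_tri y x x'; have := mem_Bx.1 hy; omega)

lemma Bx_mono {x : V} {r r' : ℕ} (h : r ≤ r') : Bx x r ⊆ Bx x r' := Bx_sub (by simpa using h)

lemma mem_grid' {m : ℕ} {g : V} : g ∈ grid m ↔ nrm g ≤ m := mem_grid.trans nrm_le.symm

lemma Bx_finite (x : V) (r : ℕ) : (Bx x r).Finite :=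
  ((grid r).image (· + x)).finite_toSet.subset fun y hy =>
    Finset.mem_coe.2 (mem_image.2 ⟨y - x, mem_grid'.2 (mem_Bx.1 hy), by simp⟩)

lemma gg_pos (v : V) : 0 < gg v := by unfold gg; positivity

lemma gg_le_one (v : V) : gg v ≤ 1 := by
  unfold gg
  rw [div_le_one (by positivity)]
  linarith [Nat.cast_nonneg (α := ℝ) (nrm v)]

lemma gg_le {v : V} {r : ℕ} (hr : 1 ≤ r) (h : r ≤ nrm v + 1) : gg v ≤ 1 / r :=
  one_div_le_one_div_of_le (by exact_mod_cast hr) (by exact_mod_cast h.trans_eq (add_comm _ _))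

lemma le_gg {v : V} {r : ℕ} (h : nrm v + 1 ≤ r) : 1 / (r : ℝ) ≤ gg v :=
  one_div_le_one_div_of_le (by positivity) (by exact_mod_cast (add_comm _ _).trans_le h)

lemma gg_neg (v : V) : gg (-v) = gg v := by simp [gg]

lemma sm_iff {ι : Type*} {S : ι → Set V} {k : ℕ} {i : ι} : Sm S k i ↔ Small (16 ^ k) (S i) := by
  simp only [Sm, Small, nrm_lt, Pi.sub_apply]
  push_cast
  rfl

lemma Pot.mono {b b' : ℝ} {K K' : Set V} (h : Pot b K) (hb : b ≤ b') (hK : K ⊆ K') : Pot b' K' :=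
  let ⟨F, ν, h0, h1, h2, h3⟩ := h
  ⟨F, ν, h0, fun x hx => hK (h1 x hx), h2, fun y hy => (h3 y hy).trans hb⟩

lemma Good.mono {A A' : ℝ} {K K' : Set V} {c : V} {r : ℕ} (h : Good A K c r) (hA : A ≤ A')
    (hK : K ⊆ K') : Good A' K' c r :=
  Pot.mono h (div_le_div_of_nonneg_right hA (Nat.cast_nonneg _)) (Set.inter_subset_inter_left _ hK)

lemma mem_fib {a : ℕ} (ha : 0 < a) {g z : V} : z ∈ fib a g ↔ cell a z = g := by
  have h : (0 : ℤ) < a := by exact_mod_cast ha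
  simp only [fib, Fintype.mem_piFinset, mem_Ico, cell, funext_iff]
  refine forall_congr' fun c => ?_
  rw [mul_comm, mul_comm (a : ℤ), ← Int.le_ediv_iff_mul_le h, ← Int.ediv_lt_iff_lt_mul h]
  omega

lemma card_fib (a : ℕ) (g : V) : (fib a g).card = a ^ 3 := by
  have : ∀ c, (Ico ((a : ℤ) * g c) (a * (g c + 1))).card = a := fun c => by
    rw [Int.card_Ico, mul_add, mul_one, add_sub_cancel_left, Int.toNat_natCast]
  simp only [fib, Fintype.card_piFinset, this, prod_const, card_univ, Fintype.card_fin]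

lemma cell_cell (a b : ℕ) (z : V) : cell a (cell b z) = cell (b * a) z := funext fun c => by
  simp only [cell]
  rw [Int.ediv_ediv_of_nonneg (Int.natCast_nonneg b)]
  push_cast
  rfl

@[simp] lemma cell_one (z : V) : cell 1 z = z := funext fun c => by simp [cell]

lemma cell_bounds {a : ℕ} (ha : 0 < a) (z : V) (c : Fin 3) :
    a * cell a z c ≤ z c ∧ z c < a * cell a z c + a := by
  have h : (0 : ℤ) < a := by exact_mod_cast ha
  have h1 := Int.emod_nonneg (z c) h.ne'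
  have h2 := Int.emod_lt_of_pos (z c) h
  have h3 := Int.mul_ediv_add_emod (z c) a
  simp only [cell]
  constructor <;> linarith only [h1, h3, h2]

lemma nrm_sub_sc {a : ℕ} (ha : 0 < a) (z : V) : nrm (z - sc a (cell a z)) < a :=
  nrm_lt.2 fun c => by
    have := cell_bounds ha z c
    simp only [Pi.sub_apply, sc]
    exact abs_lt.2 ⟨by linarith, by linarith only [this]⟩

lemma nrm_sc (a : ℕ) (g : V) : nrm (sc a g) = a * nrm g := by
  refine le_antisymm (nrm_le.2 fun c => ?_) ?_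
  · simp only [sc, abs_mul, Nat.abs_cast]
    push_cast
    exact mul_le_mul_of_nonneg_left (le_nrm g c) (Int.natCast_nonneg a)
  · obtain ⟨c, hc⟩ := exists_nrm g
    have := le_nrm (sc a g) c
    simp only [sc, abs_mul, Nat.abs_cast, hc] at this
    exact_mod_cast this

lemma sc_sub (a : ℕ) (g h : V) : sc a g - sc a h = sc a (g - h) :=
  funext fun c => by simp [sc, mul_sub]

lemma sc_sc (a b : ℕ) (g : V) : sc a (sc b g) = sc (a * b) g :=
  funext fun c => by simp [sc, mul_assoc]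

/-- Corners of a box and of its ancestor are close. -/
lemma nrm_sc_cell (a : ℕ) {b : ℕ} (hb : 0 < b) (g : V) :
    nrm (sc a g - sc (a * b) (cell b g)) ≤ a * b := by
  rw [← sc_sc, sc_sub, nrm_sc]
  exact Nat.mul_le_mul_left a (nrm_sub_sc hb g).le

@[simp] lemma ctr_zero (M j : ℕ) (g : V) : ctr M j 0 g = sc (M ^ j) g := by simp [ctr]

lemma ctr_add (M j l l' : ℕ) (g : V) :
    ctr M j (l + l') g = ctr M (j + l) l' (cell (M ^ l) g) := by
  rw [ctr, ctr, cell_cell, ← pow_add, add_assoc]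

lemma nrm_ctr {M : ℕ} (hM : 0 < M) (j l l' : ℕ) (g : V) :
    nrm (ctr M j l g - ctr M j (l + l') g) ≤ M ^ (j + (l + l')) := by
  have := nrm_sc_cell (M ^ (j + l)) (pow_pos hM l') (cell (M ^ l) g)
  rwa [cell_cell, ← pow_add, ← pow_add, add_assoc] at this

lemma sum_fib_mul {a b : ℕ} (ha : 0 < a) (hb : 0 < b) (g : V) {R : Type*} [AddCommMonoid R]
    (f : V → R) : ∑ z ∈ fib (a * b) g, f z = ∑ h ∈ fib b g, ∑ z ∈ fib a h, f z := by
  rw [← sum_fiberwise_of_maps_to (t := fib b g) (g := cell a) fun z hz =>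
    (mem_fib hb).2 (by rw [cell_cell, ← mem_fib (Nat.mul_pos ha hb)]; exact hz)]
  refine sum_congr rfl fun h hh => sum_congr ?_ fun _ _ => rfl
  ext z
  rw [mem_filter, mem_fib (Nat.mul_pos ha hb), mem_fib ha, ← cell_cell]
  exact ⟨fun h => h.2, fun e => ⟨by rw [e, (mem_fib hb).1 hh], e⟩⟩

lemma nrm_cell_sub {a f : ℕ} (ha : 0 < a) {z z' : V} (h : nrm (z - z') ≤ f * a) :
    nrm (cell a z - cell a z') ≤ f := nrm_le.2 fun c => by
  have h0 : (0 : ℤ) < a := by exact_mod_cast ha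
  have h1 := cell_bounds ha z c
  have h2 := cell_bounds ha z' c
  have h3 := abs_le.1 (nrm_le.1 h c)
  simp only [Pi.sub_apply] at h3 ⊢
  push_cast at h3
  refine abs_le.2 ⟨?_, ?_⟩ <;> by_contra hn <;> nlinarith only [h1, h2, h3, hn]

lemma cell_zero (a : ℕ) : cell a 0 = 0 := funext fun c => by simp [cell]

lemma nrm_cell_le {a f : ℕ} (ha : 0 < a) {z : V} (h : nrm z ≤ f * a) : nrm (cell a z) ≤ f := by
  simpa [cell_zero] using nrm_cell_sub ha (z := z) (z' := 0) (by simpa using h)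

lemma nrm_sub_le_cell {a : ℕ} (ha : 0 < a) (z z' : V) :
    nrm (z - z') < (nrm (cell a z - cell a z') + 1) * a := nrm_lt.2 fun c => by
  have h0 : (0 : ℤ) < a := by exact_mod_cast ha
  have h1 := cell_bounds ha z c
  have h2 := cell_bounds ha z' c
  have h3 := abs_le.1 (le_nrm (cell a z - cell a z') c)
  simp only [Pi.sub_apply] at h3 ⊢
  push_cast
  refine abs_lt.2 ⟨?_, ?_⟩ <;> nlinarith only [h1, h2, h3]

lemma nrm_cell_le_sub {a : ℕ} (ha : 0 < a) (z z' : V) :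
    nrm (cell a z - cell a z') * a < nrm (z - z') + a := by
  have h0 : (0 : ℤ) < a := by exact_mod_cast ha
  obtain ⟨c, hc⟩ := exists_nrm (cell a z - cell a z')
  have h1 := cell_bounds ha z c
  have h2 := cell_bounds ha z' c
  have h3 := abs_le.1 (le_nrm (z - z') c)
  simp only [Pi.sub_apply] at h3 hc
  zify
  rw [← hc]
  rcases abs_cases (cell a z c - cell a z' c) with h | h <;> rw [h.1] <;> linarith only [h1, h2, h3]

lemma cell_sc {a : ℕ} (ha : 0 < a) (g : V) : cell a (sc a g) = g := funext fun c => by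
  have h : (a : ℤ) ≠ 0 := by exact_mod_cast ha.ne'
  exact Int.mul_ediv_cancel_left _ h

lemma wg_nonneg (M : ℕ) (A : ℝ) (K : Set V) (j : ℕ) (g : V) : 0 ≤ wg M A K j g := by
  unfold wg; split_ifs <;> positivity

lemma wg_le_one {M : ℕ} (hM : 1 ≤ M) (A : ℝ) (K : Set V) (j : ℕ) (g : V) : wg M A K j g ≤ 1 := by
  have : (1 : ℝ) ≤ (M : ℝ) ^ 3 := one_le_pow₀ (by exact_mod_cast hM)
  unfold wg
  split_ifs
  · exact le_rfl
  · rw [div_le_one (by positivity)]; linarith only [this]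

lemma WW_nonneg (M : ℕ) (A : ℝ) (K : Set V) (j n : ℕ) (g : V) : 0 ≤ WW M A K j n g :=
  prod_nonneg fun _ _ => wg_nonneg _ _ _ _ _

lemma WW_le_one {M : ℕ} (hM : 1 ≤ M) (A : ℝ) (K : Set V) (j n : ℕ) (g : V) :
    WW M A K j n g ≤ 1 :=
  prod_le_one (fun _ _ => wg_nonneg _ _ _ _ _) fun _ _ => wg_le_one hM _ _ _ _

lemma WW_add (M : ℕ) (A : ℝ) (K : Set V) (j n m : ℕ) (g : V) :
    WW M A K j (n + m) g = WW M A K j n g * WW M A K (j + n) m (cell (M ^ n) g) := by
  simp only [WW, prod_range_add, cell_cell, ← pow_add, add_assoc]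

/-! ### The finite model -/

lemma wl_nonneg (s : List D) : 0 ≤ wl s := by unfold wl; positivity

lemma wl_le_one (s : List D) : wl s ≤ 1 :=
  mul_le_one₀ (by rw [one_div]; exact Nat.cast_inv_le_one _) (by positivity)
    (pow_le_one₀ (by norm_num) (by norm_num))

lemma pp_nonneg {α : ℝ} (hα : 0 ≤ α) (N : ℕ) (i : Ix N) : 0 ≤ pp α N i :=
  sub_nonneg.2 (Real.exp_le_one_iff.2 (neg_nonpos.2 (mul_nonneg hα (wl_nonneg _))))

lemma pp_le_one (α : ℝ) (N : ℕ) (i : Ix N) : pp α N i ≤ 1 := sub_le_self _ (Real.exp_pos _).le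

lemma pp_le (α : ℝ) (N : ℕ) (i : Ix N) : pp α N i ≤ α * wl i.1.2 := by
  have := Real.add_one_le_exp (-(α * wl i.1.2))
  rw [pp]
  linarith

lemma half_le_one_sub_exp {x : ℝ} (h0 : 0 ≤ x) (h1 : x ≤ 1) : x / 2 ≤ 1 - Real.exp (-x) := by
  have a := Real.add_one_le_exp x
  have b : Real.exp (-x) * Real.exp x = 1 := by rw [← Real.exp_add]; simp
  have c := Real.exp_pos (-x)
  nlinarith only [mul_le_mul_of_nonneg_left a c.le, h0, h1, b]

lemma le_pp {α : ℝ} (h0 : 0 ≤ α) (h1 : α ≤ 1) (N : ℕ) (i : Ix N) :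
    α * wl i.1.2 / 2 ≤ pp α N i :=
  half_le_one_sub_exp (mul_nonneg h0 (wl_nonneg _)) (mul_le_one₀ h1 (wl_nonneg _) (wl_le_one _))

end Pool.Agent.MP_3a8451_pr

end

-- part Lp/A1
section

/-! Calculus of weighted sums over words. -/

open Finset
open scoped ENNReal NNReal

namespace Pool.Agent.MP_3a8451_pr

variable {F G : List D → ℝ≥0∞}

lemma WF_mono (h : ∀ s, F s ≤ G s) : WF F ≤ WF G :=
  ENNReal.tsum_le_tsum fun s => mul_le_mul_right (h s) _

lemma WF_congr (h : ∀ s, F s = G s) : WF F = WF G := by rw [funext h]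

@[simp] lemma WF_zero : WF (fun _ => 0) = 0 := by simp [WF]

lemma WF_add (F G : List D → ℝ≥0∞) : WF (fun s => F s + G s) = WF F + WF G := by
  simp only [WF, mul_add, ENNReal.tsum_add]

lemma WF_mul_left (a : ℝ≥0∞) (F : List D → ℝ≥0∞) : WF (fun s => a * F s) = a * WF F := by
  simp only [WF, ← ENNReal.tsum_mul_left, mul_left_comm a]

lemma WF_mul_right (a : ℝ≥0∞) (F : List D → ℝ≥0∞) : WF (fun s => F s * a) = WF F * a := by
  simp only [WF, ← ENNReal.tsum_mul_right, mul_assoc]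

lemma WF_tsum {τ : Type*} (F : τ → List D → ℝ≥0∞) :
    WF (fun s => ∑' t, F t s) = ∑' t, WF (F t) := by
  simp only [WF, ← ENNReal.tsum_mul_left]
  exact ENNReal.tsum_comm

lemma WF_sum {τ : Type*} (T : Finset τ) (F : τ → List D → ℝ≥0∞) :
    WF (fun s => ∑ t ∈ T, F t s) = ∑ t ∈ T, WF (F t) := by
  classical
  induction T using Finset.induction_on with
  | empty => simp
  | insert a T ha ih => simp only [sum_insert ha, WF_add, ih]

lemma WF_comm (Φ : List D → List D → ℝ≥0∞) :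
    (WF fun a => WF fun b => Φ a b) = WF fun b => WF fun a => Φ a b := by
  simp only [WF, ← ENNReal.tsum_mul_left]
  rw [ENNReal.tsum_comm]
  simp only [mul_left_comm]

/-- A double sum over two words is a sum over the concatenation and the cutting point. -/
lemma WF_split (Φ : List D → List D → ℝ≥0∞) :
    (WF fun a => WF (Φ a)) =
      WF fun s => ∑ t ∈ range (s.length + 1), Φ (s.take t) (s.drop t) := by
  classical
  have e : ∀ a b : List D, (6 : ℝ≥0∞)⁻¹ ^ a.length * ((6 : ℝ≥0∞)⁻¹ ^ b.length * Φ a b) =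
      ∑' s : List D, if s = a ++ b then (6 : ℝ≥0∞)⁻¹ ^ s.length * Φ a b else 0 := fun a b => by
    rw [tsum_ite_eq, List.length_append, pow_add, mul_assoc]
  simp only [WF, ← ENNReal.tsum_mul_left, e]
  rw [← ENNReal.tsum_prod, ENNReal.tsum_comm]
  refine tsum_congr fun s => ?_
  rw [tsum_eq_sum (s := (range (s.length + 1)).image fun t => (s.take t, s.drop t)), sum_image,
    mul_sum]
  · exact sum_congr rfl fun t _ => by simp
  · intro t ht t' ht' h
    have := congrArg (fun z => z.1.length) h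
    simp only [coe_range, Set.mem_Iio] at ht ht'
    simp only [List.length_take] at this
    omega
  · intro z hz
    refine if_neg fun h => hz (mem_image.2 ⟨z.1.length, ?_, ?_⟩)
    · rw [h, mem_range, List.length_append]; omega
    · rw [h]; simp

lemma WF_le_append {Φ : List D → List D → ℝ≥0∞}
    (h : ∀ s, F s ≠ 0 → ∃ a b, s = a ++ b ∧ F s ≤ Φ a b) : WF F ≤ WF fun a => WF (Φ a) := by
  rw [WF_split]
  refine WF_mono fun s => ?_
  by_cases hs : F s = 0
  · rw [hs]; exact zero_le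
  obtain ⟨a, b, rfl, hle⟩ := h s hs
  refine hle.trans (le_trans ?_ (single_le_sum (f := fun t => Φ ((a ++ b).take t) ((a ++ b).drop t))
    (fun _ _ => zero_le) (a := a.length) (mem_range.2 (by simp))))
  simp

lemma sum_le_of_unique {τ : Type*} {T : Finset τ} {f : τ → ℝ≥0∞} {b : ℝ≥0∞}
    (h : ∀ t ∈ T, f t ≤ b) (hu : ∀ t ∈ T, ∀ t' ∈ T, f t ≠ 0 → f t' ≠ 0 → t = t') :
    ∑ t ∈ T, f t ≤ b := by
  by_cases h0 : ∃ t ∈ T, f t ≠ 0
  · obtain ⟨t, ht, h0⟩ := h0
    rw [sum_eq_single_of_mem t ht fun t' ht' hne => by_contra fun h' => hne (hu _ ht' _ ht h' h0)]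
    exact h t ht
  · rw [sum_eq_zero fun t ht => by_contra fun h' => h0 ⟨t, ht, h'⟩]
    exact zero_le

lemma WF_append_le {Φ : List D → List D → ℝ≥0∞} (h : ∀ a b, Φ a b ≤ F (a ++ b))
    (hu : ∀ a b a' b', Φ a b ≠ 0 → Φ a' b' ≠ 0 → a ++ b = a' ++ b' → a = a') :
    (WF fun a => WF (Φ a)) ≤ WF F := by
  rw [WF_split]
  refine WF_mono fun s => sum_le_of_unique (fun t _ => by simpa using h (s.take t) (s.drop t))
    fun t ht t' ht' h1 h2 => ?_
  have := congrArg List.length (hu _ _ _ _ h1 h2 (by simp))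
  simp only [List.length_take, mem_range] at this ht ht'
  omega

@[simp] lemma rev_rev (s : List D) : rev (rev s) = s := by
  simp [rev, List.map_reverse, Function.comp_def]

@[simp] lemma rev_nil : rev [] = [] := rfl

lemma WF_rev (F : List D → ℝ≥0∞) : WF (fun s => F (rev s)) = WF F := by
  unfold WF
  rw [← (Function.Involutive.toPerm rev rev_rev).tsum_eq]
  simp

lemma tsum_rev (F : V → List D → ℝ≥0∞) :
    ∑' x, WF (F x) = ∑' y, WF fun s => F (y + pos s) (rev s) := by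
  rw [← WF_tsum, ← WF_tsum, ← WF_rev]
  exact WF_congr fun s => ((Equiv.addRight (pos s)).tsum_eq fun x => F x (rev s)).symm

lemma mem_words' {n : ℕ} {s : List D} : s ∈ words n ↔ s.length = n := by
  refine ⟨fun h => ?_, fun h => h ▸ mem_words s⟩
  induction n generalizing s with
  | zero => simpa [words] using h
  | succ n ih =>
    obtain ⟨z, hz, rfl⟩ := mem_image.1 h
    simp [ih (mem_product.1 hz).2]

lemma WF_len (n : ℕ) {G : List D → ℝ} (hG : ∀ s, 0 ≤ G s) :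
    WF (fun s => ie (s.length = n) * ENNReal.ofReal (G s)) = ENNReal.ofReal (Ex n G) := by
  rw [Ex_eq, WF, tsum_eq_sum (s := words n) fun s hs => by
    rw [ie_neg fun h => hs (mem_words'.2 h)]; simp]
  rw [ENNReal.ofReal_mul (by positivity), ENNReal.ofReal_sum_of_nonneg fun s _ => hG s, mul_sum]
  refine sum_congr rfl fun s hs => ?_
  rw [mem_words'.1 hs, ie_pos rfl, one_mul, ENNReal.ofReal_pow (by norm_num),
    ENNReal.ofReal_div_of_pos (by norm_num)]
  simp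

lemma WF_len_ie (n : ℕ) (P : List D → Prop) :
    WF (fun s => ie (s.length = n ∧ P s)) = ENNReal.ofReal (Ex n fun s => ind (P s)) := by
  rw [← WF_len n fun _ => ind_nonneg _]
  exact WF_congr fun s => by rw [ie_and, ofReal_ind]

lemma WF_len_one (n : ℕ) : WF (fun s => ie (s.length = n)) = 1 := by
  have := WF_len n (G := fun _ => 1) fun _ => zero_le_one
  simpa [Ex_const] using this

lemma WF_eq_tsum (F : List D → ℝ≥0∞) : WF F = ∑' n, WF fun s => ie (s.length = n) * F s := by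
  rw [← WF_tsum]
  refine WF_congr fun s => ?_
  rw [tsum_eq_single s.length fun n hn => by rw [ie_neg (Ne.symm hn), zero_mul], ie_pos rfl,
    one_mul]

/-- Sorting a sum by the end point of the walk. -/
lemma WF_end (x : V) (F : List D → ℝ≥0∞) (h : V → ℝ≥0∞) :
    WF (fun s => F s * h (x + pos s)) = ∑' y, WF (fun s => F s * ie (x + pos s = y)) * h y := by
  simp only [← WF_mul_right, ← WF_tsum]
  refine WF_congr fun s => ?_
  rw [tsum_eq_single (x + pos s) fun y hy => by rw [ie_neg (Ne.symm hy)]; simp, ie_pos rfl,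
    mul_one]

/-! ### Positions and traces -/

variable {x z : V} {s a b : List D} {U Q B : Set V}

@[simp] lemma pt_zero (x : V) (s : List D) : pt x s 0 = x := by simp [pt]

lemma pt_of_le {t : ℕ} (h : s.length ≤ t) : pt x s t = x + pos s := by
  rw [pt, List.take_of_length_le h]

lemma pt_append_left {t : ℕ} (h : t ≤ a.length) : pt x (a ++ b) t = pt x a t := by
  rw [pt, pt, List.take_append_of_le_length h]

lemma pt_append_right (x : V) (a b : List D) (t : ℕ) :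
    pt x (a ++ b) (a.length + t) = pt (x + pos a) b t := by
  rw [pt, pt, List.take_length_add_append, pos_append, add_assoc]

lemma pt_take {t n : ℕ} (h : t ≤ n) : pt x (s.take n) t = pt x s t := by
  rw [pt, pt, List.take_take, min_eq_left h]

lemma pt_drop (x : V) (s : List D) (n t : ℕ) : pt (pt x s n) (s.drop n) t = pt x s (n + t) := by
  rw [pt, pt, pt, List.take_add, pos_append, add_assoc]

lemma nrm_pt_sub (x : V) (s : List D) (t d : ℕ) : nrm (pt x s (t + d) - pt x s t) ≤ d := by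
  rw [← pt_drop, pt, add_sub_cancel_left]
  exact (nrm_pos_le _).trans (List.length_take_le _ _)

lemma pt_mem_tr (x : V) (s : List D) (t : ℕ) : pt x s t ∈ tr x s := ⟨t, rfl⟩

lemma mem_tr : z ∈ tr x s ↔ ∃ a b, s = a ++ b ∧ z = x + pos a :=
  ⟨fun ⟨t, h⟩ => ⟨s.take t, s.drop t, by simp, h.symm⟩, fun ⟨a, b, e, h⟩ =>
    ⟨a.length, by rw [e, h, pt_append_left le_rfl, pt_of_le le_rfl]⟩⟩

lemma mem_tr' : z ∈ tr x s ↔ ∃ t ≤ s.length, pt x s t = z :=
  ⟨fun ⟨t, h⟩ => (le_total t s.length).elim (fun h' => ⟨t, h', h⟩) fun h' =>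
    ⟨_, le_rfl, by rw [← h, pt_of_le le_rfl, pt_of_le h']⟩, fun ⟨t, _, h⟩ => ⟨t, h⟩⟩

lemma start_mem_tr (x : V) (s : List D) : x ∈ tr x s := ⟨0, pt_zero x s⟩

lemma end_mem_tr (x : V) (s : List D) : x + pos s ∈ tr x s := ⟨_, pt_of_le le_rfl⟩

@[simp] lemma tr_nil (x : V) : tr x [] = {x} := by
  ext z; simp [mem_tr', eq_comm]

lemma tr_append (x : V) (a b : List D) : tr x (a ++ b) = tr x a ∪ tr (x + pos a) b := by
  ext z
  refine ⟨fun ⟨t, h⟩ => ?_, fun h => h.elim (fun h => ?_) fun ⟨t, h⟩ => ?_⟩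
  · rcases le_total t a.length with h' | h'
    · exact Or.inl ⟨t, by rw [← h, pt_append_left h']⟩
    · obtain ⟨d, rfl⟩ := Nat.exists_eq_add_of_le h'
      exact Or.inr ⟨d, by rw [← h, pt_append_right]⟩
  · obtain ⟨t, ht, h⟩ := mem_tr'.1 h
    exact ⟨t, by rw [← h, pt_append_left ht]⟩
  · exact ⟨_, (pt_append_right x a b t).trans h⟩

lemma tr_left (x : V) (a b : List D) : tr x a ⊆ tr x (a ++ b) :=
  tr_append x a b ▸ Set.subset_union_left

lemma tr_right (x : V) (a b : List D) : tr (x + pos a) b ⊆ tr x (a ++ b) :=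
  tr_append x a b ▸ Set.subset_union_right

lemma tr_rev (x : V) (s : List D) : tr (x + pos s) (rev s) = tr x s := by
  have h : ∀ (x : V) (s : List D), tr x s ⊆ tr (x + pos s) (rev s) := fun x s z hz => by
    obtain ⟨a, b, rfl, rfl⟩ := mem_tr.1 hz
    exact mem_tr.2 ⟨rev b, rev a, rev_append a b, by simp [add_assoc]⟩
  refine Set.Subset.antisymm ?_ (h x s)
  simpa only [pos_rev, add_assoc, add_neg_cancel, add_zero, rev_rev] using h (x + pos s) (rev s)

lemma tr_rot (h : pos (a ++ b) = 0) : tr (x + pos a) (b ++ a) = tr x (a ++ b) := by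
  rw [tr_append, tr_append, add_assoc, ← pos_append, h, add_zero, Set.union_comm]

lemma hit_iff : Hit B x s ↔ Meets (tr x s) B :=
  ⟨fun ⟨a, b, e, h⟩ => ⟨_, mem_tr.2 ⟨a, b, e, rfl⟩, h⟩, fun ⟨_, hz, h⟩ =>
    let ⟨a, b, e, e'⟩ := mem_tr.1 hz
    ⟨a, b, e, e' ▸ h⟩⟩

lemma meets_compl {A : Set V} : Meets A Bᶜ ↔ ¬ A ⊆ B := Set.not_subset.symm

lemma not_meets {A : Set V} : ¬ Meets A B ↔ Disjoint A B := by
  simp only [Meets, not_exists, not_and, Set.disjoint_left]

lemma Meets.mono {A A' B' : Set V} (h : Meets A B) (h1 : A ⊆ A') (h2 : B ⊆ B') : Meets A' B' :=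
  let ⟨a, h, h'⟩ := h
  ⟨a, h1 h, h2 h'⟩

lemma tr_sub_Bx (x : V) (s : List D) : tr x s ⊆ Bx x s.length := fun z hz => by
  obtain ⟨t, ht, rfl⟩ := mem_tr'.1 hz
  simpa [mem_Bx] using (nrm_pt_sub x s 0 t).trans ht

lemma closed_rot (h : Closed (a ++ b)) : Closed (b ++ a) :=
  ⟨fun e => h.1 (by simpa [and_comm] using e), by simpa only [pos_append, add_comm] using h.2⟩

end Pool.Agent.MP_3a8451_pr

end

-- part Lp/A2
section

/-! First exits, last visits and chains of exits. -/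

open Finset Filter Topology
open scoped ENNReal NNReal

namespace Pool.Agent.MP_3a8451_pr

variable {x z c : V} {s a b a' b' : List D} {U U' Q B : Set V}

lemma exit_iff : Exit U x s ↔ x + pos s ∉ U ∧ ∀ a b, s = a ++ b → b ≠ [] → x + pos a ∈ U := by
  refine and_congr_right fun _ => ⟨fun h a b e hb => ?_, fun h t ht => ?_⟩
  · have := h a.length (by rw [e, List.length_append]; have := List.length_pos_iff.2 hb; omega)
    rwa [e, pt_append_left le_rfl, pt_of_le le_rfl] at this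
  · exact h (s.take t) (s.drop t) (by simp) (by simpa using ht)

lemma noRet_iff : NoRet Q x s ↔ ∀ a b, s = a ++ b → a ≠ [] → x + pos a ∉ Q := by
  refine ⟨fun h a b e ha => ?_, fun h t h0 ht => ?_⟩
  · have := h a.length (List.length_pos_iff.2 ha) (by simp [e])
    rwa [e, pt_append_left le_rfl, pt_of_le le_rfl] at this
  · refine h (s.take t) (s.drop t) (by simp) fun e => ?_
    have := congrArg List.length e
    simp only [List.length_take, List.length_nil] at this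
    omega

lemma exit_split (h : ¬ tr x s ⊆ U) : ∃ a b, s = a ++ b ∧ Exit U x a := by
  classical
  have h' : ∃ t, pt x s t ∉ U := by
    obtain ⟨_, ⟨t, rfl⟩, hz⟩ := Set.not_subset.1 h
    exact ⟨t, hz⟩
  refine ⟨s.take (Nat.find h'), s.drop (Nat.find h'), by simp, Nat.find_spec h', fun t ht => ?_⟩
  have ht' : t < Nat.find h' := ht.trans_le (List.length_take_le _ _)
  rw [pt_take ht'.le]
  exact not_not.1 (Nat.find_min h' ht')

lemma exit_unique (h : Exit U x a) (h' : Exit U x a') (e : a ++ b = a' ++ b') : a = a' := by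
  rcases List.append_eq_append_iff.1 e with ⟨d, rfl, -⟩ | ⟨d, rfl, -⟩
  · by_contra hn
    exact h.1 ((exit_iff.1 h').2 a d rfl fun e => hn (by simp [e]))
  · by_contra hn
    exact h'.1 ((exit_iff.1 h).2 a' d rfl fun e => hn (by simp [e]))

lemma last_split (h : Meets (tr x s) Q) :
    ∃ a b, s = a ++ b ∧ x + pos a ∈ Q ∧ NoRet Q (x + pos a) b := by
  classical
  obtain ⟨_, hz, hQ⟩ := h
  obtain ⟨t, ht, rfl⟩ := mem_tr'.1 hz
  refine ⟨s.take (Nat.findGreatest (fun t => pt x s t ∈ Q) s.length),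
    s.drop (Nat.findGreatest (fun t => pt x s t ∈ Q) s.length), by simp,
    Nat.findGreatest_spec (P := fun t => pt x s t ∈ Q) ht hQ, fun d h0 hd => ?_⟩
  have := Nat.findGreatest_le (P := fun t => pt x s t ∈ Q) s.length
  rw [List.length_drop] at hd
  exact pt_drop x s _ d ▸ Nat.findGreatest_is_greatest (P := fun t => pt x s t ∈ Q)
    (Nat.lt_add_of_pos_right h0) (by omega)

lemma last_unique (h1 : x + pos a ∈ Q) (h2 : NoRet Q (x + pos a) b) (h1' : x + pos a' ∈ Q)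
    (h2' : NoRet Q (x + pos a') b') (e : a ++ b = a' ++ b') : a = a' := by
  rcases List.append_eq_append_iff.1 e with ⟨d, rfl, rfl⟩ | ⟨d, rfl, rfl⟩
  · by_contra hn
    exact noRet_iff.1 h2 d b' rfl (fun e => hn (by simp [e])) (by simpa [add_assoc] using h1')
  · by_contra hn
    exact noRet_iff.1 h2' d b rfl (fun e => hn (by simp [e])) (by simpa [add_assoc] using h1)

lemma Exit.right (h : Exit U x (a ++ b)) : Exit U (x + pos a) b :=
  exit_iff.2 ⟨by simpa [add_assoc] using h.1, fun u v e hv => by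
    simpa [add_assoc] using (exit_iff.1 h).2 (a ++ u) v (by simp [e]) hv⟩

lemma Exit.append (h : tr x a ⊆ U) (h' : Exit U (x + pos a) b) : Exit U x (a ++ b) :=
  exit_iff.2 ⟨by simpa [add_assoc] using h'.1, fun u v e hv => by
    rcases List.append_eq_append_iff.1 e with ⟨d, rfl, rfl⟩ | ⟨d, rfl, -⟩
    · simpa [add_assoc] using (exit_iff.1 h').2 d v rfl hv
    · exact h (mem_tr.2 ⟨u, d, rfl, rfl⟩)⟩

lemma Exit.left_sub (h : Exit U x (a ++ b)) (hb : b ≠ []) : tr x a ⊆ U := fun z hz => by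
  obtain ⟨u, v, rfl, rfl⟩ := mem_tr.1 hz
  exact (exit_iff.1 h).2 u (v ++ b) (by simp) (by simp [hb])

lemma Exit.mem (h : Exit U x s) (hz : z ∈ tr x s) : z ∈ U ∨ z = x + pos s := by
  obtain ⟨u, v, rfl, rfl⟩ := mem_tr.1 hz
  by_cases hv : v = []
  · exact Or.inr (by simp [hv])
  · exact Or.inl ((exit_iff.1 h).2 u v rfl hv)

lemma Exit.ne_nil (h : Exit U x s) (hx : x ∈ U) : s ≠ [] := fun e => h.1 (by simpa [e] using hx)

lemma Exit.not_sub (h : Exit U' x s) (hU : U ⊆ U') : ¬ tr x s ⊆ U :=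
  fun h' => h.1 (hU (h' (end_mem_tr x s)))

lemma NoRet.left (h : NoRet Q x (a ++ b)) : NoRet Q x a :=
  noRet_iff.2 fun u v e hu => noRet_iff.1 h u (v ++ b) (by simp [e]) hu

lemma NoRet.right (h : NoRet Q x (a ++ b)) (ha : a ≠ []) : Disjoint (tr (x + pos a) b) Q :=
  Set.disjoint_left.2 fun z hz => by
    obtain ⟨u, v, rfl, rfl⟩ := mem_tr.1 hz
    simpa [add_assoc] using noRet_iff.1 h (a ++ u) v (by simp) (by simp [ha])

lemma NoRet.append (h : NoRet Q x a) (h' : NoRet Q (x + pos a) b) : NoRet Q x (a ++ b) :=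
  noRet_iff.2 fun u v e hu => by
    rcases List.append_eq_append_iff.1 e with ⟨d, rfl, rfl⟩ | ⟨d, rfl, -⟩
    · by_cases hd : d = []
      · subst hd
        exact noRet_iff.1 h _ [] (by simp) hu
      · simpa [add_assoc] using noRet_iff.1 h' d v rfl hd
    · exact noRet_iff.1 h u d rfl hu

lemma noRet_of_disjoint (h : Disjoint (tr x s) Q) : NoRet Q x s :=
  fun t _ _ => Set.disjoint_left.1 h (pt_mem_tr x s t)

lemma NoRet.mono {Q' : Set V} (h : NoRet Q x s) (hQ : Q' ⊆ Q) : NoRet Q' x s :=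
  fun t h0 ht hz => h t h0 ht (hQ hz)

lemma NoRet.mem (h : NoRet Q x s) (hz : z ∈ tr x s) (hQ : z ∈ Q) : z = x := by
  obtain ⟨t, ht, rfl⟩ := mem_tr'.1 hz
  rcases Nat.eq_zero_or_pos t with rfl | h0
  · simp
  · exact absurd hQ (h t h0 ht)

/-- A walk that leaves a box from a point without coming back starts on the boundary. -/
lemma NoRet.nrm_eq {r : ℕ} (h : NoRet (Bx c r) x s) (hs : s ≠ []) (hx : x ∈ Bx c r) :
    nrm (x - c) = r := by
  have h1 := h 1 one_pos (List.length_pos_iff.2 hs)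
  have h2 := nrm_pt_sub x s 0 1
  have h3 := nrm_tri (pt x s 1) x c
  rw [mem_Bx] at h1 hx
  simp only [zero_add, pt_zero] at h2
  omega

lemma Exit.nrm_eq {r : ℕ} (h : Exit (Bx c r) x s) (hx : x ∈ Bx c r) :
    nrm (x + pos s - c) = r + 1 := by
  have hs := List.length_pos_iff.2 (h.ne_nil hx)
  have h1 := mem_Bx.1 (h.2 (s.length - 1) (by omega))
  have h2 := nrm_pt_sub x s (s.length - 1) 1
  have h3 := nrm_tri (x + pos s) (pt x s (s.length - 1)) c
  have h4 := mem_Bx.not.1 h.1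
  rw [pt_of_le (by omega)] at h2
  omega

lemma Exit.tr_sub {r : ℕ} (h : Exit (Bx c r) x s) (hx : x ∈ Bx c r) : tr x s ⊆ Bx c (r + 1) :=
  fun _ hz => (h.mem hz).elim (fun h => Bx_mono (Nat.le_succ r) h) fun e =>
    mem_Bx.2 (e ▸ (h.nrm_eq hx).le)

lemma exit_short (U : Set V) (x : V) (T : ℕ) :
    WF (fun s => ie (Exit U x s ∧ s.length ≤ T)) ≤
      ENNReal.ofReal (Ex T fun s => ind (Hit Uᶜ x s)) := by
  rw [← WF_len_ie]
  refine le_trans (le_of_eq (WF_congr fun a => ?_)) (WF_append_le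
    (Φ := fun a b => ie (Exit U x a ∧ a.length ≤ T) * ie (b.length = T - a.length))
    (fun a b => ?_) fun a b a' b' h h' e => ?_)
  · rw [WF_mul_left, WF_len_one, mul_one]
  · rw [← ie_and]
    exact ie_mono fun ⟨⟨h1, h2⟩, h3⟩ =>
      ⟨by rw [List.length_append]; omega, a, b, rfl, h1.1⟩
  · exact exit_unique (of_ie_ne (left_ne_zero_of_mul h)).1 (of_ie_ne (left_ne_zero_of_mul h')).1 e

lemma Ex_ind_le_one (n : ℕ) (P : List D → Prop) : (Ex n fun s => ind (P s)) ≤ 1 :=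
  (Ex_mono fun _ _ => ind_le_one _).trans (Ex_const n 1).le

lemma exit_le_one (U : Set V) (x : V) : WF (fun s => ie (Exit U x s)) ≤ 1 := by
  refine ENNReal.summable.tsum_le_of_sum_le fun L => ?_
  refine le_trans ?_ ((exit_short U x (L.sup List.length)).trans
    (ENNReal.ofReal_le_one.2 (Ex_ind_le_one _ _)))
  refine le_trans (sum_le_sum fun s hs => mul_le_mul_right (ie_mono fun h => ?_) _)
    (ENNReal.sum_le_tsum L)
  exact ⟨h, le_sup (f := List.length) hs⟩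

lemma exit_mul_le {φ : List D → ℝ≥0∞} {β : ℝ≥0∞} (h : ∀ s, Exit U x s → φ s ≤ β) :
    WF (fun s => ie (Exit U x s) * φ s) ≤ β := by
  refine (WF_mono (G := fun s => ie (Exit U x s) * β) fun s => ?_).trans ?_
  · by_cases hs : Exit U x s
    · exact mul_le_mul_right (h s hs) _
    · simp [ie_neg hs]
  · rw [WF_mul_right]
    exact mul_le_of_le_one_left' (exit_le_one U x)

lemma hit_le_exit (U : Set V) (x : V) (T : ℕ) :
    ENNReal.ofReal (Ex T fun s => ind (Hit Uᶜ x s)) ≤ WF fun s => ie (Exit U x s) := by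
  rw [← WF_len_ie]
  refine (WF_le_append (Φ := fun a b => ie (Exit U x a) * ie (b.length = T - a.length))
    fun s hs => ?_).trans_eq (WF_congr fun a => by rw [WF_mul_left, WF_len_one, mul_one])
  obtain ⟨h1, h2⟩ := of_ie_ne hs
  obtain ⟨a, b, rfl, h⟩ := exit_split (meets_compl.1 (hit_iff.1 h2))
  refine ⟨a, b, rfl, (ie_le_one _).trans_eq ?_⟩
  rw [ie_pos h, ie_pos (by rw [List.length_append] at h1; omega), one_mul]

/-- An event decided by the first `T` steps of a walk stopped at an exit time. -/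
lemma exit_time (U : Set V) (x : V) (T : ℕ) (P : List D → Prop) :
    WF (fun s => ie (Exit U x s ∧ T ≤ s.length ∧ P (s.take T))) ≤
      ENNReal.ofReal (Ex T fun s => ind (P s)) := by
  rw [← WF_len_ie]
  refine (WF_le_append (Φ := fun a b => ie (a.length = T ∧ P a) * ie (Exit U (x + pos a) b))
    fun s hs => ?_).trans (WF_mono fun a => ?_)
  · obtain ⟨h1, h2, h3⟩ := of_ie_ne hs
    refine ⟨s.take T, s.drop T, by simp, (ie_le_one _).trans_eq ?_⟩
    rw [ie_pos ⟨by simpa only [List.length_take, inf_eq_left] using h2, h3⟩, ie_pos (Exit.right (by simpa using h1)), one_mul]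
  · rw [WF_mul_left]
    exact mul_le_of_le_one_right' (exit_le_one _ _)

lemma sum_Bx_le (x : V) (r : ℕ) {f : V → ℝ≥0∞} {β : ℝ≥0∞} (h : ∀ y ∈ Bx x r, f y ≤ β) :
    ∑' y, ie (y ∈ Bx x r) * f y ≤ ENNReal.ofReal ((2 * r + 1) ^ 3) * β := by
  rw [tsum_eq_sum (s := (grid r).image (· + x)) fun y hy => by
    rw [ie_neg fun h => hy (mem_image.2 ⟨y - x, mem_grid'.2 (mem_Bx.1 h), by simp⟩), zero_mul]]
  refine (sum_le_card_nsmul _ _ β fun y _ => ie_mul_le (h y)).trans ?_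
  rw [nsmul_eq_mul, ← card_grid, ENNReal.ofReal_natCast]
  exact mul_le_mul_left (by exact_mod_cast card_image_le) _

lemma exit_eq_one {R : ℕ} (hU : U ⊆ Bx z R) (x : V) : WF (fun s => ie (Exit U x s)) = 1 := by
  refine le_antisymm (exit_le_one U x) ?_
  have key : ∀ T : ℕ, 1 ≤ T → 1 - (2 * R + 1) ^ 3 * (216 / (T * √T)) ≤
      Ex T fun s => ind (Hit Uᶜ x s) := fun T hT => by
    have h1 : (1 : ℝ) ≤ (Ex T fun s => ind (Hit Uᶜ x s)) +
        ∑ g ∈ grid R, Ex T fun s => ind (pos s = g + z - x) := by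
      rw [← Ex_sum, ← Ex_add]
      refine (Ex_const T 1).ge.trans (Ex_mono fun s _ => ?_)
      by_cases h : Hit Uᶜ x s
      · rw [ind_pos h]
        exact le_add_of_nonneg_right (sum_nonneg fun _ _ => ind_nonneg _)
      · have hx : x + pos s ∈ U := by_contra fun h' => h ⟨s, [], by simp, h'⟩
        rw [ind_neg h, zero_add]
        refine le_trans ?_ (single_le_sum (f := fun g => ind (pos s = g + z - x))
          (fun _ _ => ind_nonneg _) (mem_grid'.2 (mem_Bx.1 (hU hx))))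
        rw [ind_pos (by abel)]
    have h2 := sum_le_card_nsmul (grid R) _ _ fun g _ =>
      heat (m := T) hT (by omega) (g + z - x)
    rw [nsmul_eq_mul, card_grid] at h2
    linarith only [h1, h2]
  have lim : Tendsto (fun T : ℕ => ENNReal.ofReal (1 - (2 * R + 1) ^ 3 * (216 / (T * √T)))) atTop
      (𝓝 (ENNReal.ofReal (1 - (2 * R + 1) ^ 3 * 0))) :=
    ENNReal.tendsto_ofReal (tendsto_const_nhds.sub (Tendsto.const_mul _
      (tendsto_const_nhds.div_atTop (tendsto_natCast_atTop_atTop.atTop_mul_atTop₀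
        (Real.tendsto_sqrt_atTop.comp tendsto_natCast_atTop_atTop)))))
  simp only [mul_zero, sub_zero, ENNReal.ofReal_one] at lim
  exact le_of_tendsto lim ((eventually_ge_atTop 1).mono fun T hT =>
    (ENNReal.ofReal_le_ofReal (key T hT)).trans (hit_le_exit U x T))

/-- Stopping earlier only increases the mean of an antitone function of the trace. -/
lemma exit_shrink (hU : U ⊆ U') {φ : Set V → ℝ≥0∞} (hφ : Antitone φ) (x : V) :
    WF (fun s => ie (Exit U' x s) * φ (tr x s)) ≤ WF fun s => ie (Exit U x s) * φ (tr x s) := by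
  refine (WF_le_append (Φ := fun a b => ie (Exit U x a) * φ (tr x a) * ie (Exit U' (x + pos a) b))
    fun s hs => ?_).trans (WF_mono fun a => ?_)
  · have h := of_ie_ne (left_ne_zero_of_mul hs)
    obtain ⟨a, b, rfl, h'⟩ := exit_split (h.not_sub hU)
    refine ⟨a, b, rfl, ?_⟩
    rw [ie_pos h, ie_pos h', ie_pos h.right, mul_one]
    exact mul_le_mul_right (hφ (tr_left x a b)) _
  · rw [WF_mul_left]
    exact mul_le_of_le_one_right' (exit_le_one _ _)

/-- The chain lemma: successive exits from nested sets. -/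
lemma chain (n : ℕ) (U Y : ℕ → Set V) (φ : ℕ → Set V → ℝ≥0∞) (β : ℕ → ℝ≥0∞)
    (hφ : ∀ i, Antitone (φ i)) (hU : ∀ i ≤ n, U i ⊆ U n)
    (hY : ∀ i < n, ∀ y ∈ Y i, ∀ s, Exit (U i) y s → y + pos s ∈ Y (i + 1))
    (hβ : ∀ i ≤ n, ∀ y ∈ Y i, WF (fun s => ie (Exit (U i) y s) * φ i (tr y s)) ≤ β i)
    {x : V} (hx : x ∈ Y 0) :
    WF (fun s => ie (Exit (U n) x s) * ∏ i ∈ range (n + 1), φ i (tr x s)) ≤
      ∏ i ∈ range (n + 1), β i := by
  induction n generalizing U Y φ β x with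
  | zero => simpa using hβ 0 le_rfl x hx
  | succ n ih =>
    refine (WF_le_append (Φ := fun a b => ie (Exit (U 0) x a) * φ 0 (tr x a) *
      (ie (Exit (U (n + 1)) (x + pos a) b) * ∏ i ∈ range (n + 1), φ (i + 1) (tr (x + pos a) b)))
      fun s hs => ?_).trans ?_
    · have h := of_ie_ne (left_ne_zero_of_mul hs)
      obtain ⟨a, b, rfl, h'⟩ := exit_split (h.not_sub (hU 0 (Nat.zero_le _)))
      refine ⟨a, b, rfl, ?_⟩
      rw [ie_pos h, ie_pos h', ie_pos h.right, one_mul, one_mul, one_mul, prod_range_succ',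
        mul_comm]
      exact mul_le_mul' (hφ 0 (tr_left x a b)) (prod_le_prod' fun i _ => hφ _ (tr_right x a b))
    · rw [prod_range_succ', mul_comm]
      refine le_trans (WF_mono fun a => ?_) ((WF_mul_right _ _).trans_le
        (mul_le_mul_left (hβ 0 (Nat.zero_le _) x hx) _))
      rw [WF_mul_left]
      by_cases h : Exit (U 0) x a
      · exact mul_le_mul_right (ih (fun i => U (i + 1)) (fun i => Y (i + 1)) (fun i => φ (i + 1))
          (fun i => β (i + 1)) (fun i => hφ _) (fun i hi => hU _ (by omega))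
          (fun i hi => hY _ (by omega)) (fun i hi => hβ _ (by omega))
          (hY 0 (by omega) x hx a h)) _
      · simp [ie_neg h]

lemma GG_mono (h : U ⊆ U') (x y : V) : GG U x y ≤ GG U' x y :=
  WF_mono fun _ => ie_mono fun h' => ⟨h'.1.trans h, h'.2⟩

lemma GG_symm (U : Set V) (x y : V) : GG U x y = GG U y x := by
  rw [GG, GG, ← WF_rev]
  refine WF_congr fun s => ie_congr ⟨fun ⟨h1, h2⟩ => ?_, fun ⟨h1, h2⟩ => ?_⟩
  · have e : x = y + pos s := by rw [← h2]; simp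
    exact ⟨tr_rev y s ▸ e ▸ h1, e.symm⟩
  · exact ⟨h2 ▸ (tr_rev y s).symm ▸ h1, by rw [← h2]; simp⟩

/-- Sorting the walks that stay in `U` by their end point. -/
lemma WF_GG (U : Set V) (x : V) (h : V → ℝ≥0∞) :
    WF (fun s => ie (tr x s ⊆ U) * h (x + pos s)) = ∑' y, GG U x y * h y := by
  simp only [WF_end, GG, ie_and]

lemma GG_univ (x y : V) : GG Set.univ x y = ∑' n, ENNReal.ofReal (PT n (y - x)) := by
  rw [GG, WF_eq_tsum]
  refine tsum_congr fun n => ?_
  rw [PT, ← WF_len_ie]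
  exact WF_congr fun s => by
    rw [← ie_and]; exact ie_congr (by simp [eq_sub_iff_add_eq'])

end Pool.Agent.MP_3a8451_pr

end

-- part Lp/A3
section

/-! Rooting loops. -/

open Finset
open scoped ENNReal NNReal

namespace Pool.Agent.MP_3a8451_pr

variable {F G Φ : V → List D → ℝ≥0∞} {K O : Set V}

lemma Mu_mono (h : ∀ x s, Closed s → F x s ≤ G x s) : Mu F ≤ Mu G :=
  ENNReal.tsum_le_tsum fun x => WF_mono fun s => by
    by_cases hs : Closed s
    · exact mul_le_mul_right (mul_le_mul_right (h x s hs) _) _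
    · simp [ie_neg hs]

lemma Mu_congr (h : ∀ x s, Closed s → F x s = G x s) : Mu F = Mu G :=
  le_antisymm (Mu_mono fun x s hs => (h x s hs).le) (Mu_mono fun x s hs => (h x s hs).ge)

lemma Mu_add (F G : V → List D → ℝ≥0∞) : Mu (fun x s => F x s + G x s) = Mu F + Mu G := by
  simp only [Mu, mul_add, WF_add, ENNReal.tsum_add]

lemma Mu_mul_left (a : ℝ≥0∞) (F : V → List D → ℝ≥0∞) : Mu (fun x s => a * F x s) = a * Mu F := by
  simp only [Mu, ← ENNReal.tsum_mul_left, ← WF_mul_left, mul_left_comm a]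

lemma Mu_sum {τ : Type*} (T : Finset τ) (F : τ → V → List D → ℝ≥0∞) :
    Mu (fun x s => ∑ t ∈ T, F t x s) = ∑ t ∈ T, Mu (F t) := by
  classical
  induction T using Finset.induction_on with
  | empty => simp only [Mu, sum_empty, mul_zero, WF_zero, tsum_zero]
  | insert a T ha ih => simp only [sum_insert ha, Mu_add, ih]

lemma Mu_ie_mono {P Q : V → List D → Prop} (h : ∀ x s, Closed s → P x s → Q x s) :
    Mu (fun x s => ie (P x s)) ≤ Mu fun x s => ie (Q x s) :=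
  Mu_mono fun x s hs => ie_mono (h x s hs)

lemma Mu_or_le {P Q R : V → List D → Prop} (h : ∀ x s, Closed s → P x s → Q x s ∨ R x s) :
    Mu (fun x s => ie (P x s)) ≤ (Mu fun x s => ie (Q x s)) + Mu fun x s => ie (R x s) :=
  (Mu_mono fun x s hs => ie_or_le (h x s hs)).trans_eq (Mu_add _ _)

/-- The rooted measure is the loop measure weighted by the sum over all roots. -/
lemma Rt_eq (Φ : V → List D → ℝ≥0∞) :
    Rt Φ = Mu fun x s => ∑ t ∈ range s.length, Φ (pt x s t) (s.drop t ++ s.take t) := by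
  have e1 : (Mu fun x s => ∑ t ∈ range s.length, Φ (pt x s t) (s.drop t ++ s.take t)) =
      ∑' x, WF fun a => WF fun b => ie (Closed (a ++ b)) *
        (((a ++ b).length : ℝ≥0∞)⁻¹ * (ie (b ≠ []) * Φ (x + pos a) (b ++ a))) := by
    refine tsum_congr fun x => ?_
    rw [WF_split]
    refine WF_congr fun s => ?_
    simp only [List.take_append_drop, ← mul_sum]
    rw [sum_range_succ, ie_neg (P := s.drop s.length ≠ []) (by simp), zero_mul, add_zero]
    congr 2
    exact sum_congr rfl fun t ht => by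
      rw [ie_pos (P := s.drop t ≠ []) (by simpa using ht), one_mul, pt]
  have e2 : Rt Φ = ∑' y, WF fun b => WF fun a => ie (Closed (b ++ a)) *
      (((b ++ a).length : ℝ≥0∞)⁻¹ * (ie (b ≠ []) * Φ y (b ++ a))) := by
    refine tsum_congr fun y => ?_
    rw [WF_split]
    refine WF_congr fun s => ?_
    simp only [List.take_append_drop, ← mul_sum]
    by_cases hs : Closed s
    · rw [sum_range_succ', ie_neg (P := s.take 0 ≠ []) (by simp), zero_mul, add_zero,
        sum_congr rfl fun t _ => by rw [ie_pos (P := s.take (t + 1) ≠ []) (by simpa using hs.1)],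
        sum_const, card_range, nsmul_eq_mul, one_mul, ← mul_assoc (s.length : ℝ≥0∞)⁻¹,
        ENNReal.inv_mul_cancel (by simpa using hs.1) (by simp), one_mul]
    · simp [ie_neg hs]
  rw [e1, e2, ← WF_tsum, ← WF_tsum]
  simp only [← WF_tsum]
  rw [WF_comm]
  refine WF_congr fun a => WF_congr fun b => ?_
  rw [← (Equiv.addRight (pos a)).tsum_eq, ie_congr ⟨closed_rot, closed_rot⟩]
  simp only [Equiv.coe_addRight, List.length_append, add_comm a.length]

lemma Mu_le_Rt (h : ∀ x s, Closed s → F x s ≠ 0 →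
    ∃ a b, s = a ++ b ∧ F x s ≤ Φ (x + pos a) (b ++ a)) : Mu F ≤ Rt Φ := by
  rw [Rt_eq]
  refine Mu_mono fun x s hs => ?_
  by_cases h0 : F x s = 0
  · rw [h0]; exact zero_le
  obtain ⟨a, b, e, hle⟩ := h x s hs h0
  by_cases hb : b = []
  · refine hle.trans (le_trans ?_ (single_le_sum
      (f := fun t => Φ (pt x s t) (s.drop t ++ s.take t)) (fun _ _ => zero_le)
      (mem_range.2 (List.length_pos_iff.2 hs.1))))
    obtain rfl : s = a := by simpa [hb] using e
    simp [hb, hs.2]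
  · refine hle.trans (le_trans ?_ (single_le_sum
      (f := fun t => Φ (pt x s t) (s.drop t ++ s.take t)) (fun _ _ => zero_le) (a := a.length)
      (mem_range.2 (by simpa [e] using List.length_pos_iff.2 hb))))
    simp [e, pt]

lemma Rt_le_Mu (h : ∀ x a b, Closed (a ++ b) → Φ (x + pos a) (b ++ a) ≤ F x (a ++ b))
    (hu : ∀ x a b, Closed (a ++ b) → a ≠ [] → b ≠ [] → Φ x (a ++ b) ≠ 0 →
      Φ (x + pos a) (b ++ a) = 0) : Rt Φ ≤ Mu F := by
  rw [Rt_eq]
  refine Mu_mono fun x s hs => sum_le_of_unique (fun t _ => ?_) ?_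
  · simpa [pt] using h x (s.take t) (s.drop t) (by simpa using hs)
  have key : ∀ t d, 0 < d → t + d < s.length → Φ (pt x s t) (s.drop t ++ s.take t) ≠ 0 →
      Φ (pt x s (t + d)) (s.drop (t + d) ++ s.take (t + d)) = 0 := fun t d hd ht h0 => by
    have e : s.drop t ++ s.take t = (s.drop t).take d ++ (s.drop (t + d) ++ s.take t) := by
      rw [← List.append_assoc, ← List.drop_drop, List.take_append_drop]
    have := hu (pt x s t) ((s.drop t).take d) (s.drop (t + d) ++ s.take t)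
      (e ▸ closed_rot (by simpa using hs)) (by simp; omega) (by simp; omega) (e ▸ h0)
    rwa [List.append_assoc, ← List.take_add, ← pt, pt_drop] at this
  intro t ht t' ht' h1 h2
  rw [mem_range] at ht ht'
  rcases lt_trichotomy t t' with h' | h' | h'
  · obtain ⟨d, rfl⟩ := Nat.exists_eq_add_of_le h'.le
    exact absurd (key t d (by omega) ht' h1) h2
  · exact h'
  · obtain ⟨d, rfl⟩ := Nat.exists_eq_add_of_le h'.le
    exact absurd (key t' d (by omega) ht h2) h1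

/-- A loop meeting two sets, rooted at the start of an excursion between them. -/
lemma root_pair {x : V} {s : List D} (hs : Closed s) (hK : Meets (tr x s) K)
    (hO : Meets (tr x s) O) : ∃ a b u v, s = a ++ b ∧ b ++ a = u ++ v ∧ x + pos a ∈ K ∧
      Exit Oᶜ (x + pos a) u ∧ NoRet K (x + pos a) u := by
  obtain ⟨_, hz, hzK⟩ := hK
  obtain ⟨a, b, rfl, rfl⟩ := mem_tr.1 hz
  rw [← tr_rot hs.2] at hO
  obtain ⟨u, v, e, hu⟩ := exit_split (U := Oᶜ) (meets_compl.1 (by rwa [compl_compl]))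
  obtain ⟨u1, u2, rfl, h1, h2⟩ := last_split (s := u) (Q := K) ⟨_, start_mem_tr _ _, hzK⟩
  have h3 := hu.right
  rcases List.append_eq_append_iff.1 (e.trans (List.append_assoc _ _ _)) with
    ⟨d, rfl, rfl⟩ | ⟨d, rfl, e'⟩
  · have hp : x + pos (d ++ (u2 ++ v)) + pos (b ++ d) = x + pos d := by
      have := hs.2
      simp only [pos_append] at this ⊢
      linear_combination (exp := 1) this
    rw [hp] at h1 h2 h3
    exact ⟨d, u2 ++ v ++ b, u2, v ++ b ++ d, by simp, by simp, h1, h3, h2⟩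
  · refine ⟨a ++ u1, d, u2, v ++ u1, by simp, ?_, ?_, ?_, ?_⟩
    · rw [← List.append_assoc, ← e', List.append_assoc]
    all_goals rwa [pos_append, ← add_assoc]

lemma Mu_pair (K O : Set V) {Ψ : Set V → ℝ≥0∞}
    (hF : ∀ x s, Closed s → F x s ≠ 0 →
      Meets (tr x s) K ∧ Meets (tr x s) O ∧ F x s ≤ Ψ (tr x s)) :
    Mu F ≤ ∑' x, ie (x ∈ K) * WF fun u => ie (Exit Oᶜ x u ∧ NoRet K x u) *
      WF fun v => ie (x + pos u + pos v = x) * Ψ (tr x u ∪ tr (x + pos u) v) := by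
  refine (Mu_le_Rt (Φ := fun x s => ie (x ∈ K ∧ ∃ u v, s = u ++ v ∧ Exit Oᶜ x u ∧ NoRet K x u) *
    Ψ (tr x s)) fun x s hs h0 => ?_).trans (ENNReal.tsum_le_tsum fun x => ?_)
  · obtain ⟨h1, h2, h3⟩ := hF x s hs h0
    obtain ⟨a, b, u, v, rfl, e, h4, h5, h6⟩ := root_pair hs h1 h2
    exact ⟨a, b, rfl, by rwa [ie_pos ⟨h4, u, v, e, h5, h6⟩, one_mul, tr_rot hs.2]⟩
  · simp only [← WF_mul_left]
    refine WF_le_append fun s h0 => ?_
    have hs := of_ie_ne (left_ne_zero_of_mul h0)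
    obtain ⟨h1, u, v, rfl, h2⟩ := of_ie_ne (left_ne_zero_of_mul (right_ne_zero_of_mul h0))
    refine ⟨u, v, rfl, ?_⟩
    rw [ie_pos hs, ie_pos h1, ie_pos h2, ie_pos ⟨h1, u, v, rfl, h2⟩,
      ie_pos (by rw [add_assoc, ← pos_append, hs.2, add_zero]), tr_append]
    simp

/-- Loops with a single excursion from `K` to `O`. -/
lemma pair_le_Mu (hd : Disjoint K O) :
    ∑' x, ie (x ∈ K) * (WF fun u => ie (Exit Oᶜ x u ∧ NoRet K x u) *
      WF fun v => ie (x + pos u + pos v = x ∧ ∃ v₁ v₂, v = v₁ ++ v₂ ∧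
        Disjoint (tr (x + pos u) v₁) K ∧ Disjoint (tr (x + pos u + pos v₁) v₂) O)) ≤
      Mu fun x s => ie (Meets (tr x s) K ∧ Meets (tr x s) O) := by
  refine le_trans (ENNReal.tsum_le_tsum fun x => ?_) (Rt_le_Mu (Φ := fun x s =>
    ie (x ∈ K ∧ ∃ u v₁ v₂, s = u ++ v₁ ++ v₂ ∧ Exit Oᶜ x u ∧ NoRet K x u ∧
      Disjoint (tr (x + pos u) v₁) K ∧ Disjoint (tr (x + pos u + pos v₁) v₂) O))
    (fun x a b hs => ?_) fun x a b hs ha hb h0 => ie_neg ?_)
  · simp only [← WF_mul_left, ← ie_and]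
    refine WF_append_le (fun u v => ie_mono ?_) fun u v u' v' h h' e =>
      exit_unique (of_ie_ne h).2.1.1 (of_ie_ne h').2.1.1 e
    rintro ⟨h1, ⟨h2, h3⟩, h4, v₁, v₂, rfl, h5, h6⟩
    refine ⟨⟨fun e => h2.ne_nil (Set.disjoint_left.1 hd h1) (List.append_eq_nil_iff.1 e).1, ?_⟩,
      h1, u, v₁, v₂, by simp, h2, h3, h5, h6⟩
    rw [pos_append, ← add_eq_left (a := x), ← add_assoc, h4]
  · refine ie_mono ?_
    rintro ⟨h1, u, v₁, v₂, e, h2, -⟩
    rw [← tr_rot hs.2]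
    exact ⟨⟨_, start_mem_tr _ _, h1⟩, _, mem_tr.2 ⟨u, v₁ ++ v₂, by simp [e], rfl⟩,
      not_not.1 h2.1⟩
  · obtain ⟨h1, u, v₁, v₂, e, h2, h3, h4, h5⟩ := of_ie_ne h0
    rintro ⟨k1, u', w₁, w₂, e', k2, k3, -⟩
    have hb' : Disjoint (tr (x + pos a) b) O := by
      rcases List.append_eq_append_iff.1 e with ⟨d, e1, rfl⟩ | ⟨d, rfl, rfl⟩
      · exfalso
        rcases List.append_eq_append_iff.1 e1 with ⟨d', rfl, rfl⟩ | ⟨d', rfl, -⟩
        · exact Set.disjoint_left.1 h4 (mem_tr.2 ⟨d', d, rfl, by simp [add_assoc]⟩) k1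
        · exact noRet_iff.1 h3 a d' rfl ha k1
      · exact h5.mono_left (by simpa only [List.append_assoc, pos_append, add_assoc] using tr_right (x + pos u + pos v₁) d b)
    rcases List.append_eq_append_iff.1 (e'.trans (List.append_assoc _ _ _)) with
      ⟨d, rfl, -⟩ | ⟨d, rfl, -⟩
    · refine noRet_iff.1 k3 b d rfl hb ?_
      rwa [add_assoc, ← pos_append, hs.2, add_zero]
    · exact Set.disjoint_left.1 hb' (mem_tr.2 ⟨u', d, rfl, rfl⟩) (not_not.1 k2.1)

/-- Sorting loops based in a box by their length. -/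
lemma Mu_le_len (R : ℕ) {P : List D → Prop} {b : ℕ → ℝ}
    (h : ∀ n, 1 ≤ n → (Ex n fun s => ind (pos s = 0 ∧ P s)) ≤ b n) :
    Mu (fun x s => ie (x ∈ Bx 0 R ∧ P s)) ≤
      ENNReal.ofReal ((2 * R + 1) ^ 3) * ∑' n : ℕ, ENNReal.ofReal (b n / n) := by
  refine le_trans (ENNReal.tsum_le_tsum fun x => le_of_eq ?_) (sum_Bx_le 0 R
    (f := fun _ => WF fun s => ie (Closed s) * ((s.length : ℝ≥0∞)⁻¹ * ie (P s))) fun _ _ => ?_)
  · simp only [← WF_mul_left, ie_and, mul_left_comm (ie (x ∈ Bx 0 R))]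
  rw [WF_eq_tsum]
  refine ENNReal.tsum_le_tsum fun n => ?_
  rcases Nat.eq_zero_or_pos n with rfl | hn
  · refine le_trans (WF_mono fun s => ie_mul_le fun hs => ie_mul_le fun hc => ?_)
      (WF_zero.trans_le zero_le)
    exact absurd (List.length_eq_zero_iff.1 hs) hc.1
  refine le_trans (WF_mono (G := fun s => ie (s.length = n ∧ pos s = 0 ∧ P s) * (n : ℝ≥0∞)⁻¹)
    fun s => ie_mul_le fun hs => ie_mul_le fun hc => ?_) ?_
  · rw [hs, mul_comm]
    exact mul_le_mul_left (ie_mono fun hp => ⟨rfl, hc.2, hp⟩) _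
  · rw [WF_mul_right, WF_len_ie, ENNReal.ofReal_div_of_pos (by exact_mod_cast hn),
      ENNReal.ofReal_natCast, div_eq_mul_inv]
    exact mul_le_mul_left (ENNReal.ofReal_le_ofReal (h n hn)) _

end Pool.Agent.MP_3a8451_pr

end

-- part Lp/D1
section

/-! Tools for finite independent families. -/

open Finset
open scoped ENNReal NNReal

namespace Pool.Agent.MP_3a8451_pr

variable {ι : Type*}

section
variable {S : ι → Set V} {G : ι → Prop} {X Y : Set V} {ω ω' : ι → Bool}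

lemma Cl_symm {x y : V} (h : y ∈ Cl S G ω {x}) : x ∈ Cl S G ω {y} := by
  obtain ⟨_, rfl, h⟩ := h
  exact ⟨y, rfl, Relation.ReflTransGen.mono (fun _ _ ⟨i, a, b, c, d⟩ => ⟨i, a, b, d, c⟩) _ _
    h.swap⟩

lemma mem_Cl {y : V} : y ∈ Cl S G ω X ↔ ∃ x ∈ X, y ∈ Cl S G ω {x} := by
  simp only [Cl, Set.mem_ofPred_eq, Set.mem_singleton_iff, exists_eq_left]

lemma Cl_sub {B : Set V} (hX : X ⊆ B) (hG : ∀ i, G i → S i ⊆ B) : Cl S G ω X ⊆ B :=
  fun _ hy => Cl_ind (P := fun y => y ∈ B) hX (fun _ _ _ ⟨i, h1, _, _, h4⟩ => hG i h1 h4) hy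

lemma sub_of_hits {i : ι} (hG : G i) (ho : ω i = true) (h : Meets (S i) (Cl S G ω X)) :
    S i ⊆ Cl S G ω X :=
  let ⟨_, h1, h2⟩ := h
  fun _ hb => Cl_step h2 ⟨i, hG, ho, h1, hb⟩

lemma Cl_dep (S : ι → Set V) (G : ι → Prop) (X : Set V) :
    Dep {i | G i ∧ (S i).Nonempty} fun ω => Cl S G ω X := by
  have key : ∀ ω ω' : ι → Bool, (∀ i ∈ {i | G i ∧ (S i).Nonempty}, ω i = ω' i) →
      Cl S G ω X ⊆ Cl S G ω' X := fun ω ω' h y hy =>
    Cl_ind (P := fun y => y ∈ Cl S G ω' X) (fun _ hx => sub_Cl hx)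
      (fun a _ ha ⟨i, h1, h2, h3, h4⟩ => Cl_step ha ⟨i, h1, h i ⟨h1, a, h3⟩ ▸ h2, h3, h4⟩) hy
  exact fun ω ω' h => (key ω ω' h).antisymm (key ω' ω fun i hi => (h i hi).symm)

lemma stop' (h : ∀ i, G i → Meets (S i) (Cl S G ω X) → ω' i = ω i) :
    Cl S G ω' X = Cl S G ω X := by
  rw [← stop G X ω ω']
  congr 1
  funext i
  by_cases hi : i ∈ {i | G i ∧ Hits S i (Cl S G ω X)}
  · rw [pw_in hi, h i hi.1 hi.2]
  · rw [pw_out hi]

lemma decomp' (G : ι → Prop) {y : V} (hy : y ∈ Cl S (fun _ => True) ω X) :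
    y ∈ Cl S G ω X ∨ ∃ i, ω i = true ∧ ¬ G i ∧ Meets (S i) (Cl S G ω X) ∧
      y ∈ Cl S (fun j => Disjoint (S j) (Cl S G ω X)) ω (S i) := by
  refine Cl_ind (P := fun y => y ∈ Cl S G ω X ∨ ∃ i, ω i = true ∧ ¬ G i ∧
    Meets (S i) (Cl S G ω X) ∧ y ∈ Cl S (fun j => Disjoint (S j) (Cl S G ω X)) ω (S i))
    (fun _ hx => Or.inl (sub_Cl hx)) ?_ hy
  rintro a b ha ⟨j, -, h2, h3, h4⟩
  by_cases h : Meets (S j) (Cl S G ω X)
  · by_cases hs : G j
    · exact Or.inl (sub_of_hits hs h2 h h4)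
    · exact Or.inr ⟨j, h2, hs, h, sub_Cl h4⟩
  · rcases ha with ha | ⟨i, i1, i2, i3, ha⟩
    · exact absurd ⟨a, h3, ha⟩ h
    · exact Or.inr ⟨i, i1, i2, i3, Cl_step ha ⟨j, not_meets.1 h, h2, h3, h4⟩⟩

lemma cross {c x y : V} {r : ℕ} (hx : x ∈ Bx c (16 * r)) (hy : y ∈ Cl S G ω {x})
    (hy' : y ∉ Bx c (32 * r)) : Sev S c r ω ∨ ∃ i, G i ∧ ω i = true ∧ Big c r (S i) := by
  refine (Cl_ind (P := fun z => z ∈ Cl S (fun i => S i ⊆ Bx c (64 * r) ∧ ¬ S i ⊆ Bx c (16 * r)) ω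
    (Bx c (16 * r)) ∨ Sev S c r ω ∨ ∃ i, G i ∧ ω i = true ∧ Big c r (S i))
    (fun z hz => Or.inl (sub_Cl (hz ▸ hx))) ?_ hy).elim (fun h => Or.inl ⟨y, h, hy'⟩) id
  rintro a b (ha | ha) ⟨i, h1, h2, h3, h4⟩
  · by_cases k1 : a ∈ Bx c (32 * r)
    · by_cases k2 : S i ⊆ Bx c (64 * r)
      · by_cases k3 : S i ⊆ Bx c (16 * r)
        · exact Or.inl (sub_Cl (k3 h4))
        · exact Or.inl (Cl_step ha ⟨i, ⟨k2, k3⟩, h2, h3, h4⟩)
      · exact Or.inr (Or.inr ⟨i, h1, h2, ⟨a, h3, k1⟩, k2⟩)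
    · exact Or.inr (Or.inl ⟨a, ha, k1⟩)
  · exact Or.inr ha

end

lemma Dep.mono {β : Type*} {A A' : Set ι} {f : (ι → Bool) → β} (h : Dep A f) (hA : A ⊆ A') :
    Dep A' f := fun ω ω' e => h ω ω' fun i hi => e i (hA hi)

lemma Dep.comp {β γ : Type*} {A : Set ι} {f : (ι → Bool) → β} (h : Dep A f) (g : β → γ) :
    Dep A fun ω => g (f ω) := fun ω ω' e => congrArg g (h ω ω' e)

variable [Fintype ι] [DecidableEq ι] {p : ι → ℝ}

lemma EE_indep {A B : Set ι} (hd : Disjoint A B) {f g : (ι → Bool) → ℝ} (hf : Dep A f)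
    (hg : Dep B g) : EE p (fun ω => f ω * g ω) = EE p f * EE p g := by
  rw [resample p (fun _ => A) (fun _ _ => rfl), ← EE_mul_right]
  congr 1
  funext ω
  rw [← EE_mul_left]
  congr 1
  funext ω'
  rw [hf _ ω fun i hi => pw_in hi, hg _ ω' fun i hi => pw_out (Set.disjoint_right.1 hd hi)]

lemma EE_prod_indep {τ : Type*} (T : Finset τ) {A : τ → Set ι} {f : τ → (ι → Bool) → ℝ}
    (hd : ∀ t ∈ T, ∀ t' ∈ T, t ≠ t' → Disjoint (A t) (A t')) (hf : ∀ t ∈ T, Dep (A t) (f t)) :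
    EE p (fun ω => ∏ t ∈ T, f t ω) = ∏ t ∈ T, EE p (f t) := by
  classical
  induction T using Finset.induction_on with
  | empty => simp [EE_const]
  | insert a T ha ih =>
    simp only [prod_insert ha]
    rw [EE_indep (A := A a) (B := ⋃ t ∈ T, A t) (Set.disjoint_iUnion₂_right.2 fun t ht =>
      hd a (mem_insert_self _ _) t (mem_insert_of_mem ht) fun e => ha (e ▸ ht))
      (hf a (mem_insert_self _ _)) fun ω ω' e => prod_congr rfl fun t ht =>
        hf t (mem_insert_of_mem ht) ω ω' fun i hi => e i (Set.mem_biUnion ht hi),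
      ih (fun t ht t' ht' => hd t (mem_insert_of_mem ht) t' (mem_insert_of_mem ht'))
        fun t ht => hf t (mem_insert_of_mem ht)]

lemma EE_open_sum {A : Set ι} {f : (ι → Bool) → ι → ℝ} (hf : Dep A f)
    (hA : ∀ ω, ∀ i ∈ A, f ω i = 0) :
    EE p (fun ω => ∑ i, ind (ω i = true) * f ω i) = EE p fun ω => ∑ i, p i * f ω i := by
  rw [EE_sum, EE_sum]
  refine sum_congr rfl fun i _ => ?_
  by_cases hi : i ∈ A
  · simp only [hA _ i hi, mul_zero]
  · rw [EE_indep (A := {i}) (Set.disjoint_singleton_left.2 hi)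
      (fun ω ω' e => by rw [e i rfl]) (hf.comp fun g => g i), EE_coord, EE_mul_left]

lemma EE_stop (S : ι → Set V) (G : ι → Prop) (X : Set V) {F : (ι → Bool) → (ι → Bool) → ℝ}
    (h1 : ∀ ω ω', (∀ i, Meets (S i) (Cl S G ω X) → ω' i = ω i) → F ω' = F ω)
    (h2 : ∀ ω, Dep {i | Disjoint (S i) (Cl S G ω X)} (F ω)) :
    EE p (fun ω => F ω ω) = EE p fun ω => EE p (F ω) := by
  rw [resample p (fun ω => {i | Meets (S i) (Cl S G ω X)}) fun ω ω' => by
    rw [stop' fun i _ hi => pw_in (by exact hi)]]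
  congr 1
  funext ω
  congr 1
  funext ω'
  rw [h1 ω _ fun i hi => pw_in (by exact hi)]
  exact h2 ω _ _ fun i hi => pw_out (not_meets.2 hi)

lemma d1_none (p : ι → ℝ) (P : ι → Prop) :
    EE p (fun ω => ind (∃ i, P i ∧ ω i = true)) = 1 - ∏ i, (1 - p i * ind (P i)) := by
  have e : ∀ ω : ι → Bool, ind (∃ i, P i ∧ ω i = true) =
      1 + (-1) * ∏ i, (1 - ind (P i ∧ ω i = true)) := fun ω => by
    by_cases h : ∃ i, P i ∧ ω i = true
    · obtain ⟨i, hi⟩ := h
      rw [ind_pos ⟨i, hi⟩, prod_eq_zero (mem_univ i) (by rw [ind_pos hi, sub_self])]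
      ring
    · rw [ind_neg h, prod_eq_one fun i _ => by rw [ind_neg fun hi => h ⟨i, hi⟩, sub_zero]]
      ring
  simp only [e]
  rw [EE_add, EE_const, EE_mul_left, EE_prod p fun i b => 1 - ind (P i ∧ b = true),
    prod_congr rfl fun i _ => (show _ = 1 - p i * ind (P i) by simp [ind_neg]; ring)]
  ring

lemma EE_group {β : Type*} [DecidableEq β] (T : Finset β) (π : ι → β) (a : ι → ℝ)
    (F : (T → Bool) → ℝ) : EE (fun i => 1 - Real.exp (-a i)) (fun ω => F (pres T π ω)) =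
      EE (fun σ : T => 1 - Real.exp (-∑ i, a i * ind (π i = σ.1))) F := by
  have e : ∀ ω : ι → Bool, F (pres T π ω) = ∑ τ : T → Bool, (∏ σ : T, if τ σ then
      ind (∃ i, π i = σ.1 ∧ ω i = true) else 1 + (-1) * ind (∃ i, π i = σ.1 ∧ ω i = true)) * F τ :=
    fun ω => by
      rw [sum_eq_single (pres T π ω), prod_eq_one, one_mul]
      · intro σ _
        by_cases h : ∃ i, π i = σ.1 ∧ ω i = true <;> simp only [pres, h, decide_true, ↓ reduceIte, ind, decide_false, Bool.false_eq_true, mul_zero, add_zero]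
      · intro τ _ hτ
        obtain ⟨σ, hσ⟩ := Function.ne_iff.1 hτ
        rw [prod_eq_zero (mem_univ σ), zero_mul]
        by_cases h : ∃ i, π i = σ.1 ∧ ω i = true <;> simp_all [pres, ind]
      · simp only [mem_univ, not_true_eq_false, univ_eq_attach, neg_mul, one_mul, mul_eq_zero, IsEmpty.forall_iff]
  have e' : ∀ σ : T, EE (fun i => 1 - Real.exp (-a i))
      (fun ω => ind (∃ i, π i = σ.1 ∧ ω i = true)) =
        1 - Real.exp (-∑ i, a i * ind (π i = σ.1)) := fun σ => by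
    rw [d1_none, ← sum_neg_distrib, Real.exp_sum]
    congr 1
    exact prod_congr rfl fun i _ => by by_cases h : π i = σ.1 <;> simp [ind, h]
  simp only [e]
  rw [EE_sum]
  refine sum_congr rfl fun τ _ => ?_
  rw [EE_mul_right, EE_prod_indep univ (A := fun σ : T => {i | π i = σ.1}), wt]
  · congr 1
    refine prod_congr rfl fun σ _ => ?_
    split_ifs
    · exact e' σ
    · rw [EE_add, EE_const, EE_mul_left, e']; ring
  · exact fun σ _ σ' _ h => Set.disjoint_left.2 fun i h1 h2 => h (Subtype.ext (h1.symm.trans h2))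
  · intro σ _ ω ω' h
    have : (∃ i, π i = σ.1 ∧ ω i = true) ↔ ∃ i, π i = σ.1 ∧ ω' i = true :=
      exists_congr fun i => and_congr_right fun hi => by rw [h i hi]
    simp only [this]

variable (h0 : ∀ i, 0 ≤ p i) (h1 : ∀ i, p i ≤ 1)
include h0 h1

lemma EE_ind_le_one (P : (ι → Bool) → Prop) : EE p (fun ω => ind (P ω)) ≤ 1 :=
  (EE_mono h0 h1 fun _ => ind_le_one _).trans (EE_const p 1).le

lemma EE_exists_le (P : ι → Prop) :
    EE p (fun ω => ind (∃ i, ω i = true ∧ P i)) ≤ ∑ i, p i * ind (P i) := by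
  refine (EE_mono h0 h1 (g := fun ω => ∑ i, ind (ω i = true) * ind (P i))
    fun ω => ind_le_sum (fun _ _ => mul_nonneg (ind_nonneg _) (ind_nonneg _))
      fun ⟨i, a, b⟩ => ⟨i, mem_univ _, by rw [ind_pos a, ind_pos b, one_mul]⟩).trans_eq ?_
  rw [EE_sum]
  exact sum_congr rfl fun i _ => by rw [EE_mul_right, EE_coord]

lemma EE_exists_ge {A : Set ι} {P : (ι → Bool) → ι → Prop} (hP : Dep A P)
    (hA : ∀ ω, ∀ i ∈ A, ¬ P ω i) (h : ∀ ω, ∑ i, p i * ind (P ω i) ≤ 1) :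
    EE p (fun ω => ∑ i, p i * ind (P ω i)) ≤
      2 * EE p fun ω => ind (∃ i, ω i = true ∧ P ω i) := by
  rw [resample p (fun _ => A) (fun _ _ => rfl) fun ω => ind (∃ i, ω i = true ∧ P ω i),
    ← EE_mul_left]
  refine EE_mono h0 h1 fun ω => ?_
  have e : ∀ ω', (∃ i, pw A ω ω' i = true ∧ P (pw A ω ω') i) ↔ ∃ i, P ω i ∧ ω' i = true :=
    fun ω' => exists_congr fun i => by
      rw [hP _ ω fun i hi => pw_in hi, and_comm]
      exact and_congr_right fun hi => by rw [pw_out fun h => hA ω i h hi]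
  simp only [e]
  have a1 := half_le_one_sub_exp (sum_nonneg fun i _ => mul_nonneg (h0 i) (ind_nonneg _)) (h ω)
  have a2 : ∏ i, (1 - p i * ind (P ω i)) ≤ Real.exp (-∑ i, p i * ind (P ω i)) := by
    rw [← sum_neg_distrib, Real.exp_sum]
    exact prod_le_prod (fun i _ => sub_nonneg.2 (mul_le_one₀ (h1 i) (ind_nonneg _) (ind_le_one _)))
      fun i _ => by linarith only [Real.add_one_le_exp (-(p i * ind (P ω i)))]
  rw [d1_none]
  linarith only [a1, a2]

lemma EE_lip {p' : ι → ℝ} (h0' : ∀ i, 0 ≤ p' i) (h1' : ∀ i, p' i ≤ 1) (P : (ι → Bool) → Prop) :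
    EE p (fun ω => ind (P ω)) ≤ EE p' (fun ω => ind (P ω)) + ∑ i, |p i - p' i| := by
  obtain ⟨m, hm⟩ : ∃ m : ι → Bool → ℝ, ∀ i b, m i b =
    min (if b then p i else 1 - p i) (if b then p' i else 1 - p' i) := ⟨_, fun _ _ => rfl⟩
  have m0 : ∀ i b, 0 ≤ m i b := fun i b => by
    rw [hm]
    split_ifs
    exacts [le_min (h0 i) (h0' i), le_min (sub_nonneg.2 (h1 i)) (sub_nonneg.2 (h1' i))]
  have a1 : ∀ ω : ι → Bool, ∏ i, m i (ω i) ≤ wt p ω := fun ω =>
    prod_le_prod (fun i _ => m0 i _) fun i _ => hm i _ ▸ min_le_left _ _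
  have a2 : ∀ ω : ι → Bool, ∏ i, m i (ω i) ≤ wt p' ω := fun ω =>
    prod_le_prod (fun i _ => m0 i _) fun i _ => hm i _ ▸ min_le_right _ _
  have a3 : ∑ ω : ι → Bool, ∏ i, m i (ω i) = ∏ i, (1 - |p i - p' i|) := by
    rw [← Fintype.piFinset_univ, ← prod_univ_sum]
    refine prod_congr rfl fun i _ => ?_
    simp only [Fintype.sum_bool, hm, if_true, Bool.false_eq_true, if_false]
    rcases le_total (p i) (p' i) with h | h
    · rw [min_eq_left h, min_eq_right (by linarith), abs_of_nonpos (by linarith)]; ring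
    · rw [min_eq_right h, min_eq_left (by linarith), abs_of_nonneg (by linarith)]; ring
  have a4 : ∀ T : Finset ι, 1 - ∑ i ∈ T, |p i - p' i| ≤ ∏ i ∈ T, (1 - |p i - p' i|) := fun T => by
    induction T using Finset.induction_on with
    | empty => simp
    | insert i T hi ih =>
      rw [sum_insert hi, prod_insert hi]
      have b1 : |p i - p' i| ≤ 1 := abs_le.2 ⟨by linarith [h0 i, h1' i], by linarith [h1 i, h0' i]⟩
      linarith only [mul_le_mul_of_nonneg_left ih (sub_nonneg.2 b1), mul_nonneg (abs_nonneg (p i - p' i))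
        (sum_nonneg fun i (_ : i ∈ T) => abs_nonneg (p i - p' i))]
  have a5 : EE p (fun ω => ind (P ω)) ≤
      ∑ ω, (wt p' ω * ind (P ω) + (wt p ω - ∏ i, m i (ω i))) := sum_le_sum fun ω _ => by
    linarith only [mul_le_mul_of_nonneg_right (a2 ω) (ind_nonneg (P ω)), mul_le_mul_of_nonneg_left (ind_le_one (P ω)) (sub_nonneg.2 (a1 ω))]
  rw [sum_add_distrib, sum_sub_distrib, sum_wt, a3] at a5
  exact a5.trans (add_le_add_right (by linarith [a4 univ]) _)

end Pool.Agent.MP_3a8451_pr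

end

-- part Lp/D2
section

/-! The weighted arm estimate. -/

open Finset
open scoped ENNReal NNReal

namespace Pool.Agent.MP_3a8451_pr

variable {ι : Type*} {S : ι → Set V}

lemma Bx_ctr {M : ℕ} (hM : 16 ≤ M) (j : ℕ) {l l' : ℕ} (h : l < l') (g : V) :
    Bx (ctr M j l g) (64 * M ^ (j + l)) ⊆ Bx (ctr M j l' g) (16 * M ^ (j + l')) := by
  obtain ⟨d, rfl⟩ := Nat.exists_eq_add_of_le h.le
  have h1 := nrm_ctr (M := M) (by omega) j l d g
  have h2 : M ^ (j + l) * 16 ≤ M ^ (j + (l + d)) :=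
    (Nat.mul_le_mul_left _ hM).trans (Nat.pow_le_pow_right (by omega) (by omega : j + l + 1 ≤ _))
  exact Bx_sub (by omega)

lemma Sev_dep (c : V) (r : ℕ) :
    Dep {i | S i ⊆ Bx c (64 * r) ∧ ¬ S i ⊆ Bx c (16 * r)} (Sev S c r) :=
  ((Cl_dep S _ _).mono fun _ h => h.1).comp fun C => ∃ y ∈ C, y ∉ Bx c (32 * r)

lemma Eev_dep {M : ℕ} (hM : 16 ≤ M) (K : Set V) (j n : ℕ) (g : V) :
    Dep {i | ¬ S i ⊆ Bx (sc (M ^ j) g) (16 * M ^ j)} (Eev S M K j n g) := fun ω ω' h => by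
  have k : ∀ l, Bx (sc (M ^ j) g) (16 * M ^ j) ⊆ Bx (ctr M j l g) (16 * M ^ (j + l)) := fun l => by
    rcases Nat.eq_zero_or_pos l with rfl | hl
    · simp
    · exact (Bx_mono (by omega : _ ≤ 64 * M ^ j)).trans (by simpa using Bx_ctr hM j hl g)
  refine propext (forall₂_congr fun l _ => or_congr ?_ (exists_congr fun i => ?_))
  · rw [Sev_dep _ _ ω ω' fun i hi => h i fun h' => hi.2 (h'.trans (k l))]
  · exact and_congr_left fun hi => by
      rw [h i fun h' => hi.2.2 (h'.trans ((k l).trans (Bx_mono (by omega))))]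

lemma d2_shift {M j n d : ℕ} {K : Set V} {g : V} {ω : ι → Bool} (h : Eev S M K j n g ω) :
    Eev S M K (j + d) (n - d) (cell (M ^ d) g) ω := fun l hl => by
  rw [← ctr_add, add_assoc]
  exact h _ (by omega)

lemma d2_geom {σ ρ : ℝ} (hσ : 0 ≤ σ) (h : σ < ρ) (n : ℕ) :
    ∑ d ∈ range n, σ ^ d * ρ ^ (n - (d + 1)) ≤ ρ ^ n / (ρ - σ) := by
  rw [le_div_iff₀ (sub_pos.2 h)]
  have e := (Commute.all σ ρ).geom_sum₂_mul n
  simp only [Nat.sub_sub, add_comm 1] at e
  linarith [pow_nonneg hσ n]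

variable [Fintype ι] [DecidableEq ι] {p : ι → ℝ} (h0 : ∀ i, 0 ≤ p i) (h1 : ∀ i, p i ≤ 1)
include h0 h1

lemma ABq {M : ℕ} (hM : 16 ≤ M) (A : ℝ) (K : Set V) {η β σ ρ : ℝ} (hη : 0 ≤ η) (hβ : 0 ≤ β)
    (hσ : 0 ≤ σ) (hσρ : σ < ρ) (hρ : η * M ^ 3 + β * ρ / (ρ - σ) ≤ ρ)
    (hS : ∀ j c, EE p (fun ω => ind (Sev S c (M ^ j) ω)) ≤ η)
    (hB : ∀ j d g', ∑ g ∈ fib (M ^ (d + 1)) g', WW M A K j (d + 1) g ^ 2 *
      ∑ i, p i * ind (Disjoint (S i) K ∧ Big (sc (M ^ j) g) (M ^ j) (S i) ∧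
        ¬ S i ⊆ Bx (ctr M j d g) (16 * M ^ (j + d))) ≤ β * σ ^ d) (n j : ℕ) (g' : V) :
    ∑ g ∈ fib (M ^ n) g', WW M A K j n g ^ 2 * EE p (fun ω => ind (Eev S M K j n g ω)) ≤
      ρ ^ n := by
  classical
  have M0 : ∀ l, 0 < M ^ l := fun l => pow_pos (by omega) l
  have E0 := fun j n g => EE_nonneg h0 h1 (f := fun ω => ind (Eev S M K j n g ω))
    fun _ => ind_nonneg _
  induction n using Nat.strong_induction_on generalizing j g' with
  | _ n ih =>
  rcases n with _ | n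
  · refine (sum_le_card_nsmul _ _ 1 fun g _ => ?_).trans (by simp [card_fib])
    simpa [WW] using EE_ind_le_one h0 h1 _
  have split : ∀ d ≤ n, ∀ (f : V → ℝ) (b : ℝ), 0 ≤ b →
      (∀ h, ∑ g ∈ fib (M ^ (d + 1)) h, WW M A K j (d + 1) g ^ 2 * f g ≤ b) →
      ∑ g ∈ fib (M ^ (n + 1)) g', WW M A K j (n + 1) g ^ 2 * (f g * EE p fun ω =>
        ind (Eev S M K (j + (d + 1)) (n + 1 - (d + 1)) (cell (M ^ (d + 1)) g) ω)) ≤
        b * ρ ^ (n + 1 - (d + 1)) := fun d hd f b hb hf => by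
    obtain ⟨m, hm⟩ : ∃ m, n + 1 = d + 1 + m := ⟨n - d, by omega⟩
    rw [hm, add_tsub_cancel_left, pow_add M (d + 1), sum_fib_mul (M0 _) (M0 _)]
    refine le_trans ?_ (mul_le_mul_of_nonneg_left (ih m (by omega) (j + (d + 1)) g') hb)
    rw [mul_sum]
    refine sum_le_sum fun h _ => le_trans (le_of_eq ?_)
      (mul_le_mul_of_nonneg_right (hf h) (mul_nonneg (sq_nonneg _) (E0 _ _ _)))
    rw [sum_mul]
    exact sum_congr rfl fun g hg => by rw [WW_add, (mem_fib (M0 _)).1 hg]; ring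
  obtain ⟨P, hP⟩ : ∃ P : V → ℕ → ι → Prop, ∀ g d i, P g d i ↔ (Disjoint (S i) K ∧
      Big (sc (M ^ j) g) (M ^ j) (S i) ∧ ¬ S i ⊆ Bx (ctr M j d g) (16 * M ^ (j + d))) ∧
      (d = n ∨ S i ⊆ Bx (ctr M j (d + 1) g) (16 * M ^ (j + (d + 1)))) := ⟨_, fun _ _ _ => Iff.rfl⟩
  have key : ∀ g, EE p (fun ω => ind (Eev S M K j (n + 1) g ω)) ≤
      η * EE p (fun ω => ind (Eev S M K (j + (0 + 1)) (n + 1 - (0 + 1)) (cell (M ^ (0 + 1)) g) ω)) +
      ∑ d ∈ range (n + 1), (∑ i, p i * ind (Disjoint (S i) K ∧ Big (sc (M ^ j) g) (M ^ j) (S i) ∧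
        ¬ S i ⊆ Bx (ctr M j d g) (16 * M ^ (j + d)))) * EE p fun ω =>
          ind (Eev S M K (j + (d + 1)) (n + 1 - (d + 1)) (cell (M ^ (d + 1)) g) ω) := fun g => by
    refine (EE_mono h0 h1 (g := fun ω => ind (Sev S (ctr M j 0 g) (M ^ (j + 0)) ω) *
      ind (Eev S M K (j + (0 + 1)) (n + 1 - (0 + 1)) (cell (M ^ (0 + 1)) g) ω) +
      ∑ d ∈ range (n + 1), ind (∃ i, ω i = true ∧ P g d i) *
        ind (Eev S M K (j + (d + 1)) (n + 1 - (d + 1)) (cell (M ^ (d + 1)) g) ω))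
      fun ω => ?_).trans ?_
    · have n1 := fun a b => mul_nonneg (ind_nonneg a) (ind_nonneg b)
      refine ind_le (add_nonneg (n1 _ _) (sum_nonneg fun _ _ => n1 _ _)) fun h => ?_
      rcases h 0 (by omega) with h' | ⟨i, i1, i2, i3⟩
      · rw [ind_pos h', ind_pos (d2_shift h), one_mul]
        exact le_add_of_nonneg_right (sum_nonneg fun _ _ => n1 _ _)
      · have ex : ∃ d, d = n ∨ S i ⊆ Bx (ctr M j (d + 1) g) (16 * M ^ (j + (d + 1))) :=
          ⟨n, Or.inl rfl⟩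
        refine le_add_of_nonneg_of_le (n1 _ _) (le_trans ?_ (single_le_sum (fun _ _ => n1 _ _)
          (mem_range.2 (Nat.lt_succ_of_le (Nat.find_min' ex (Or.inl rfl))))))
        rw [ctr_zero, add_zero] at i3
        have i4 : ¬ S i ⊆ Bx (ctr M j (Nat.find ex) g) (16 * M ^ (j + Nat.find ex)) := by
          rcases hd : Nat.find ex with _ | d
          · rw [ctr_zero, add_zero]
            exact fun h' => i3.2 (h'.trans (Bx_mono (by omega)))
          · exact fun h' => Nat.find_min ex (by omega) (Or.inr h')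
        rw [ind_pos (d2_shift h), ind_pos ⟨i, i1, (hP _ _ _).2 ⟨⟨i2, i3, i4⟩, Nat.find_spec ex⟩⟩,
          one_mul]
    rw [EE_add, EE_sum]
    refine add_le_add ?_ (sum_le_sum fun d hd => ?_)
    · rw [EE_indep _ ((Sev_dep _ _).comp ind) ((Eev_dep hM K _ _ _).comp ind)]
      · exact mul_le_mul_of_nonneg_right (hS _ _) (E0 _ _ _)
      · exact Set.disjoint_left.2 fun i a b => b (a.1.trans (Bx_ctr hM j one_pos g))
    · have a1 := (EE_exists_le h0 h1 (P g d)).trans (sum_le_sum fun i _ =>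
        mul_le_mul_of_nonneg_left (ind_mono fun h => ((hP _ _ _).1 h).1) (h0 i))
      refine le_trans (le_of_eq ?_) (mul_le_mul_of_nonneg_right a1 (E0 _ _ _))
      by_cases hn : d = n
      · simp only [hn, tsub_self, Eev, not_lt_zero, false_imp_iff, implies_true, EE_const,
          EE_mul_right]
      · refine EE_indep (A := {i | P g d i}) ?_
          (fun ω ω' h => ind_congr (exists_congr fun i => and_congr_left fun hi => by rw [h i hi]))
          ((Eev_dep hM K _ _ _).comp ind)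
        exact Set.disjoint_left.2 fun i a b => b (((hP _ _ _).1 a).2.resolve_left hn)
  refine (sum_le_sum fun g _ => mul_le_mul_of_nonneg_left (key g) (sq_nonneg _)).trans ?_
  simp only [mul_add, sum_add_distrib, mul_sum (range (n + 1))]
  rw [sum_comm]
  have ρ0 : 0 ≤ ρ := hσ.trans hσρ.le
  refine (add_le_add (split 0 (Nat.zero_le _) (fun _ => η) (η * M ^ 3) (by positivity) fun h => ?_)
    (sum_le_sum fun d hd => split d (Nat.lt_succ_iff.1 (mem_range.1 hd)) _ _ (by positivity)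
      (hB j d))).trans ?_
  · refine (sum_le_card_nsmul _ _ η fun g _ => mul_le_of_le_one_left hη
      (pow_le_one₀ (WW_nonneg _ _ _ _ _ _) (WW_le_one (by omega) _ _ _ _ _))).trans_eq ?_
    simp [card_fib, mul_comm]
  · simp only [mul_assoc β, ← mul_sum]
    refine (add_le_add_right (mul_le_mul_of_nonneg_left (d2_geom hσ hσρ _) hβ) _).trans
      (le_trans (le_of_eq ?_) ((mul_le_mul_of_nonneg_right hρ (pow_nonneg ρ0 n)).trans_eq
        (pow_succ' _ _).symm))
    simp only [zero_add, add_tsub_cancel_right, Nat.succ_eq_add_one]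
    ring

end Pool.Agent.MP_3a8451_pr

end

-- part Lp/D3
section

/-! Near misses of a cluster are unlikely: abstract form. -/

open Finset
open scoped ENNReal NNReal

namespace Pool.Agent.MP_3a8451_pr

variable {ι : Type*} {S : ι → Set V}

lemma bad_scale {G : ι → Prop} {ω : ι → Bool} {A : ℝ} {c : V} {r r0 : ℕ}
    (hbox : Meets (Bx 0 r0) (Bx c (32 * r)) → Good A (Bx 0 r0) c r)
    (hK : Meets (Cl S G ω (Bx 0 r0)) (Bx c (16 * r))) (hbad : ¬ Good A (Cl S G ω (Bx 0 r0)) c r) :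
    Sev S c r ω ∨ ∃ i, ω i = true ∧ Big c r (S i) ∧ ¬ Good A (S i) c r := by
  obtain ⟨y, hy, hy'⟩ := hK
  obtain ⟨x, hx, hxy⟩ := mem_Cl.1 hy
  have h := Cl_ind (P := fun y => y ∈ Cl S G ω (Bx 0 r0) ∧
      y ∈ Cl S (fun i => G i ∧ S i ⊆ Cl S G ω (Bx 0 r0)) ω {x})
    (fun z hz => ⟨sub_Cl ((Set.mem_singleton_iff.1 hz).symm ▸ hx), sub_Cl hz⟩)
    (fun a b ha ⟨i, h1, h2, h3, h4⟩ => ⟨Cl_step ha.1 ⟨i, h1, h2, h3, h4⟩,
      Cl_step ha.2 ⟨i, ⟨h1, sub_of_hits h1 h2 ⟨a, h3, ha.1⟩⟩, h2, h3, h4⟩⟩) hxy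
  refine (cross hy' (Cl_symm h.2) fun hh => hbad ((hbox ⟨x, hx, hh⟩).mono le_rfl sub_Cl)).imp
    id fun ⟨i, h1, h2, h3⟩ => ⟨i, h2, h3, fun hg => hbad (hg.mono le_rfl h1.2)⟩

lemma d3_one_le {t : ℝ} (ht : 0 ≤ t) (P : Prop) : 1 ≤ 1 + t * ind P :=
  le_add_of_nonneg_right (mul_nonneg ht (ind_nonneg _))

lemma d3_nonneg {τ : Type*} {t : ℝ} (ht : 0 ≤ t) (T : Finset τ) (P : τ → Prop) :
    0 ≤ ∏ l ∈ T, (1 + t * ind (P l)) :=
  prod_nonneg fun _ _ => zero_le_one.trans (d3_one_le ht _)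

open Classical in
lemma d3_prod (t : ℝ) (T : Finset ℕ) (P : ℕ → Prop) :
    ∏ l ∈ T, (1 + t * ind (P l)) = (1 + t) ^ (T.filter P).card := by
  rw [← prod_const, prod_filter]
  refine prod_congr rfl fun l _ => ?_
  by_cases h : P l <;> simp [ind, h]

lemma weight_split {M : ℕ} (hM : 1 ≤ M) {A t : ℝ} (ht : 0 ≤ t) {K : Set V} {j n : ℕ} (m : ℕ)
    {g : V} {P Q : ℕ → Prop}
    (h : ∀ l < n, ¬ Good A K (ctr M j l g) (M ^ (j + l)) → P l ∨ Q l) :
    1 ≤ (4 * (M : ℝ) ^ 6) ^ (2 * m) * WW M A K j n g ^ 2 ∨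
      (1 + t) ^ m ≤ ∏ l ∈ range n, (1 + t * ind (P l)) ∨
        (1 + t) ^ m ≤ ∏ l ∈ range n, (1 + t * ind (Q l)) := by
  classical
  have hM' : (1 : ℝ) ≤ M := by exact_mod_cast hM
  rw [d3_prod, d3_prod]
  set B := (range n).filter fun l => ¬ Good A K (ctr M j l g) (M ^ (j + l)) with hB
  have hW : WW M A K j n g = (1 / (2 * (M : ℝ) ^ 3)) ^ B.card := by
    rw [← prod_const, hB, prod_filter, WW]
    refine prod_congr rfl fun l _ => ?_
    rw [wg, ctr, ite_not]
  have hc : B.card ≤ ((range n).filter P).card + ((range n).filter Q).card :=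
    (card_le_card fun l hl => by
      obtain ⟨h1, h2⟩ := mem_filter.1 hl
      simpa [mem_range.1 h1] using h l (mem_range.1 h1) h2).trans (card_union_le _ _)
  have h1 : (1 : ℝ) ≤ 1 + t := by linarith only [ht]
  by_cases hb : B.card ≤ 2 * m
  · left
    have h4 : (1 : ℝ) ≤ 4 * (M : ℝ) ^ 6 := by linarith only [one_le_pow₀ (n := 6) hM']
    have e : ((1 / (2 * (M : ℝ) ^ 3)) ^ B.card) ^ 2 = ((4 * (M : ℝ) ^ 6) ^ B.card)⁻¹ := by
      rw [← pow_mul, mul_comm B.card, pow_mul, ← inv_pow]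
      congr 1
      field_simp
      norm_num
    rw [hW, e, ← div_eq_mul_inv, one_le_div (by positivity)]
    exact pow_le_pow_right₀ h4 hb
  · right
    rcases le_total m ((range n).filter P).card with h2 | h2
    · exact Or.inl (pow_le_pow_right₀ h1 h2)
    · exact Or.inr (pow_le_pow_right₀ h1 (by omega))

variable [Fintype ι] [DecidableEq ι] {p : ι → ℝ} (h0 : ∀ i, 0 ≤ p i) (h1 : ∀ i, p i ≤ 1)
include h0 h1

lemma S_mom {M : ℕ} (hM : 16 ≤ M) {t η : ℝ} (ht : 0 ≤ t) (htη : t * η ≤ 1)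
    (hS : ∀ j c, EE p (fun ω => ind (Sev S c (M ^ j) ω)) ≤ η) (j n : ℕ) (g : V) :
    EE p (fun ω => ∏ l ∈ range n, (1 + t * ind (Sev S (ctr M j l g) (M ^ (j + l)) ω))) ≤
      2 ^ n := by
  rw [EE_prod_indep (range n) (A := fun l => {i | S i ⊆ Bx (ctr M j l g) (64 * M ^ (j + l)) ∧
    ¬ S i ⊆ Bx (ctr M j l g) (16 * M ^ (j + l))})
    (f := fun l ω => 1 + t * ind (Sev S (ctr M j l g) (M ^ (j + l)) ω)) (fun l _ l' _ h => ?_)
    fun l _ => (Sev_dep _ _).comp fun P => 1 + t * ind P]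
  · refine (prod_le_prod (g := fun _ => 2) (fun l _ => EE_nonneg h0 h1 fun ω =>
      zero_le_one.trans (d3_one_le ht _)) fun l _ => ?_).trans_eq (by simp)
    rw [EE_add, EE_const, EE_mul_left]
    linarith only [mul_le_mul_of_nonneg_left (hS (j + l) (ctr M j l g)) ht, htη]
  · rcases h.lt_or_gt with h | h
    · exact Set.disjoint_left.2 fun i a b => b.2 (a.1.trans (Bx_ctr hM j h g))
    · exact Set.disjoint_left.2 fun i a b => a.2 (b.1.trans (Bx_ctr hM j h g))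

lemma E_mom {t : ℝ} (ht : 0 ≤ t) (n : ℕ) (P : ℕ → ι → Prop) :
    EE p (fun ω => ∏ l ∈ range n, (1 + t * ind (∃ i, ω i = true ∧ P l i))) ≤
      Real.exp (∑ i, p i * (∏ l ∈ range n, (1 + t * ind (P l i)) - 1)) := by
  refine (EE_mono h0 h1 (g := fun ω => ∏ i, (fun i b => ∏ l ∈ range n,
    (1 + t * ind (b = true ∧ P l i))) i (ω i)) fun ω => ?_).trans ?_
  · rw [prod_comm]
    refine prod_le_prod (fun l _ => zero_le_one.trans (d3_one_le ht _)) fun l _ => ?_
    have one : ∀ T : Finset ι, 1 ≤ ∏ i ∈ T, (1 + t * ind (ω i = true ∧ P l i)) := fun T =>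
      prod_induction _ (1 ≤ ·) (fun a b => one_le_mul_of_one_le_of_one_le) le_rfl
        fun i _ => d3_one_le ht _
    by_cases h : ∃ i, ω i = true ∧ P l i
    · rw [ind_pos h]
      obtain ⟨i, hi⟩ := h
      rw [← mul_prod_erase univ _ (mem_univ i), ind_pos hi]
      exact le_mul_of_one_le_right (by linarith) (one _)
    · rw [ind_neg h, mul_zero, add_zero]
      exact one _
  · rw [EE_prod p fun i b => ∏ l ∈ range n, (1 + t * ind (b = true ∧ P l i)), Real.exp_sum]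
    refine prod_le_prod (fun i _ => add_nonneg (mul_nonneg (h0 i) (d3_nonneg ht _ _))
      (mul_nonneg (sub_nonneg.2 (h1 i)) (d3_nonneg ht _ _))) fun i _ => ?_
    refine le_trans (le_of_eq ?_) (Real.add_one_le_exp _)
    simp only [true_and, Bool.false_eq_true, false_and, ind_neg not_false, mul_zero, add_zero,
      prod_const_one]
    ring

lemma AB0 {M : ℕ} (hM : 16 ≤ M) {A t η z : ℝ} (ht : 0 ≤ t) (htη : t * η ≤ 1) {j n : ℕ} (m : ℕ)
    (hS : ∀ j c, EE p (fun ω => ind (Sev S c (M ^ j) ω)) ≤ η)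
    (hZ : ∀ K g', ∑ g ∈ fib (M ^ n) g',
      WW M A K j n g ^ 2 * EE p (fun ω => ind (Eev S M K j n g ω)) ≤ z)
    (hE : ∀ g, ∑ i, p i * (∏ l ∈ range n, (1 + t * ind (Big (ctr M j l g) (M ^ (j + l)) (S i) ∧
      ¬ Good A (S i) (ctr M j l g) (M ^ (j + l)))) - 1) ≤ n / 2)
    (G : ι → Prop) {r0 R0 lo hi Θ : ℕ}
    (hbox : ∀ c r, 1 ≤ r → r ≤ r0 → Meets (Bx 0 r0) (Bx c (32 * r)) → Good A (Bx 0 r0) c r)
    (hlo : lo ≤ M ^ j) (hhi : 33 * M ^ (j + n) ≤ M * hi) (hr0 : hi ≤ r0)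
    (hR : R0 + lo ≤ Θ * M ^ (j + n)) :
    EE p (fun ω => ind (Near S G r0 R0 lo hi ω)) ≤ (2 * Θ + 1) ^ 3 *
      ((4 * (M : ℝ) ^ 6) ^ (2 * m) * z + 2 * (2 * (M : ℝ) ^ 3) ^ n / (1 + t) ^ m) := by
  have hM0 : 0 < M := by omega
  have ht' : 0 < (1 + t) ^ m := by positivity
  set lam : ℝ := (4 * (M : ℝ) ^ 6) ^ (2 * m) with hlam
  have hl0 : 0 ≤ lam := by positivity
  let K := fun ω => Cl S G ω (Bx 0 r0)
  let F : (ι → Bool) → (ι → Bool) → ℝ := fun ω ξ => ind (K ω ⊆ Bx 0 R0 ∧ ∃ x,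
    Meets (K ω) (Bx x lo) ∧ ∃ y ∈ Cl S (fun i => Disjoint (S i) (K ω)) ξ {x}, y ∉ Bx x hi)
  let a : V → (ι → Bool) → ℝ := fun g ω =>
    ∏ l ∈ range n, (1 + t * ind (Sev S (ctr M j l g) (M ^ (j + l)) ω))
  let b : V → (ι → Bool) → ℝ := fun g ω => ∏ l ∈ range n, (1 + t * ind (∃ i, ω i = true ∧
    Big (ctr M j l g) (M ^ (j + l)) (S i) ∧ ¬ Good A (S i) (ctr M j l g) (M ^ (j + l))))
  have ha0 : ∀ g ω, 0 ≤ a g ω := fun g ω => d3_nonneg ht _ _
  have hb0 : ∀ g ω, 0 ≤ b g ω := fun g ω => d3_nonneg ht _ _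
  have hab : ∀ g, EE p (fun ω => (a g ω + b g ω) * ((1 + t) ^ m)⁻¹) ≤
      2 * 2 ^ n * ((1 + t) ^ m)⁻¹ := fun g => by
    rw [EE_mul_right, EE_add]
    refine mul_le_mul_of_nonneg_right ?_ (inv_nonneg.2 ht'.le)
    have e1 : EE p (a g) ≤ 2 ^ n := S_mom h0 h1 hM ht htη hS j n g
    have e2 : EE p (b g) ≤ _ := (E_mom h0 h1 ht n _).trans (Real.exp_le_exp.2 (hE g))
    have e3 : Real.exp (1 / 2) ≤ 2 := by
      have u := Real.add_one_le_exp (-(1 / 2))
      rw [Real.exp_neg, le_inv_comm₀ (by norm_num) (Real.exp_pos _)] at u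
      norm_num at u ⊢
      exact u
    rw [div_eq_mul_one_div, Real.exp_nat_mul] at e2
    linarith only [pow_le_pow_left₀ (Real.exp_pos _).le e3 n, e1, e2]
  have pt : ∀ ω ξ, F ω ξ ≤ ∑ g' ∈ grid Θ, ∑ g ∈ fib (M ^ n) g',
      (lam * (WW M A (K ω) j n g ^ 2 * ind (Eev S M (K ω) j n g ξ)) +
        (a g ω + b g ω) * ((1 + t) ^ m)⁻¹) := fun ω ξ => by
    have nn : ∀ g, 0 ≤ lam * (WW M A (K ω) j n g ^ 2 * ind (Eev S M (K ω) j n g ξ)) := fun g =>
      mul_nonneg hl0 (mul_nonneg (sq_nonneg _) (ind_nonneg _))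
    have nn' : ∀ g, 0 ≤ (a g ω + b g ω) * ((1 + t) ^ m)⁻¹ := fun g =>
      mul_nonneg (add_nonneg (ha0 g ω) (hb0 g ω)) (inv_nonneg.2 ht'.le)
    refine ind_le_sum (fun g' _ => sum_nonneg fun g _ => add_nonneg (nn g) (nn' g))
      fun ⟨hK, x, ⟨k, hk, hkx⟩, y, hy, hy'⟩ => ⟨cell (M ^ n) (cell (M ^ j) x), ?_, ?_⟩
    · rw [cell_cell, ← pow_add, mem_grid']
      refine nrm_cell_le (pow_pos hM0 _) ?_
      have u1 := mem_Bx0.1 (hK hk)
      have u2 := mem_Bx.1 hkx
      have u3 := nrm_tri x k 0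
      rw [sub_zero, sub_zero, nrm_comm] at u3
      omega
    refine le_trans ?_ (single_le_sum (fun g _ => add_nonneg (nn g) (nn' g))
      ((mem_fib (pow_pos hM0 _)).2 rfl))
    have hc : ∀ l, nrm (x - ctr M j l (cell (M ^ j) x)) < M ^ (j + l) := fun l => by
      rw [ctr, cell_cell, ← pow_add]
      exact nrm_sub_sc (pow_pos hM0 _) x
    have hh : ∀ l < n, 33 * M ^ (j + l) ≤ hi := fun l hl => by
      have u : M ^ (j + l + 1) ≤ M ^ (j + n) := Nat.pow_le_pow_right hM0 (by omega)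
      rw [pow_succ'] at u
      refine Nat.le_of_mul_le_mul_left ?_ hM0
      rw [mul_left_comm]
      omega
    have hev : Eev S M (K ω) j n (cell (M ^ j) x) ξ := fun l hl =>
      (cross (mem_Bx.2 (by have := hc l; omega)) hy fun h => hy' (Bx_sub (by
        have := hc l
        have := hh l hl
        rw [nrm_comm]
        omega) h)).imp id fun ⟨i, u1, u2, u3⟩ => ⟨i, u2, u1, u3⟩
    rw [ind_pos hev, mul_one]
    have n1 := nn (cell (M ^ j) x)
    have n2 := nn' (cell (M ^ j) x)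
    rw [ind_pos hev, mul_one] at n1
    have n3 : ∀ u, (1 + t) ^ m ≤ u → 1 ≤ u * ((1 + t) ^ m)⁻¹ := fun u hu => by
      rwa [← div_eq_mul_inv, one_le_div ht']
    rcases weight_split (A := A) (K := K ω) (j := j) (n := n) (g := cell (M ^ j) x) hM0 ht m
      fun l hl hb => bad_scale (hbox _ _ (pow_pos hM0 _) (by have := hh l hl; omega))
        ⟨k, hk, Bx_sub (by
          have := hc l
          have : M ^ j ≤ M ^ (j + l) := Nat.pow_le_pow_right hM0 (by omega)
          omega) hkx⟩ hb with u | u | u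
    · exact u.trans (le_add_of_nonneg_right n2)
    · exact (n3 _ (u.trans (le_add_of_nonneg_right (hb0 _ ω)))).trans (le_add_of_nonneg_left n1)
    · exact (n3 _ (u.trans (le_add_of_nonneg_left (ha0 _ ω)))).trans (le_add_of_nonneg_left n1)
  calc _ = EE p fun ω => EE p (F ω) := EE_stop S G (Bx 0 r0) (F := F) (fun ω ω' h => by
          have e : K ω' = K ω := stop' fun i _ hi => h i hi
          simp only [F, e]) fun ω ξ ξ' h => by
          have e : ∀ x, Cl S (fun i => Disjoint (S i) (K ω)) ξ {x} =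
            Cl S (fun i => Disjoint (S i) (K ω)) ξ' {x} := fun x =>
              Cl_dep S _ {x} ξ ξ' fun i hi => h i hi.1
          simp only [F, e]
    _ ≤ EE p fun ω => ∑ g' ∈ grid Θ, (lam * z + ∑ g ∈ fib (M ^ n) g',
          (a g ω + b g ω) * ((1 + t) ^ m)⁻¹) := by
        refine EE_mono h0 h1 fun ω => (EE_mono h0 h1 (pt ω)).trans ?_
        rw [EE_sum]
        refine sum_le_sum fun g' _ => ?_
        rw [EE_sum]
        simp only [EE_add, EE_mul_left, EE_const]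
        rw [sum_add_distrib, ← mul_sum]
        exact add_le_add_left (mul_le_mul_of_nonneg_left (hZ _ g') hl0) _
    _ ≤ ∑ _g' ∈ grid Θ, (lam * z + 2 * (2 * (M : ℝ) ^ 3) ^ n / (1 + t) ^ m) := by
        rw [EE_sum]
        refine sum_le_sum fun g' _ => ?_
        rw [EE_add, EE_const, EE_sum]
        refine add_le_add_right ((sum_le_card_nsmul _ _ _ fun g _ => hab g).trans_eq ?_) _
        rw [card_fib, nsmul_eq_mul, div_eq_mul_inv]
        push_cast
        ring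
    _ = _ := by rw [sum_const, nsmul_eq_mul, card_grid]

end Pool.Agent.MP_3a8451_pr

end

-- part Lp/D4
section

/-! Quasi-multiplicativity, upper bound. -/

open Finset
open scoped ENNReal NNReal

namespace Pool.Agent.MP_3a8451_pr

variable {ι : Type*} {S : ι → Set V} [Fintype ι] [DecidableEq ι] {p : ι → ℝ}

section
omit [Fintype ι] [DecidableEq ι]
variable {G : ι → Prop} {X Y B B' : Set V} {ω : ι → Bool}

lemma d4_trans (h : Y ⊆ Cl S G ω X) : Cl S G ω Y ⊆ Cl S G ω X := fun _ hy =>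
  Cl_ind (P := fun y => y ∈ Cl S G ω X) (fun _ hx => h hx) (fun _ _ ha hs => Cl_step ha hs) hy

lemma d4_true (hX : X ⊆ Y) : Cl S G ω X ⊆ Cl S (fun _ => True) ω Y :=
  Cl_mono hX fun _ _ b => ⟨trivial, b⟩

lemma d4_symm (h : ∃ y ∈ Cl S G ω X, y ∈ Y) : ∃ x ∈ Cl S G ω Y, x ∈ X := by
  obtain ⟨y, hy, hY⟩ := h
  obtain ⟨x, hx, h⟩ := mem_Cl.1 hy
  exact ⟨x, mem_Cl.2 ⟨y, hY, Cl_symm h⟩, hx⟩

lemma d4_sub (hX : X ⊆ B) : Cin S B X ω ⊆ B := Cl_sub hX fun _ h => h

lemma d4_dep (B X : Set V) : Dep {i | S i ⊆ B} (Cin S B X) :=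
  (Cl_dep S (fun i => S i ⊆ B) X).mono fun _ h => h.1

lemma d4_far {Z : Set V} (h : ∃ y ∈ Cl S G ω Z, y ∈ Y) :
    (∃ y ∈ Cl S (fun _ => True) ω B, y ∈ Y) ∨ Meets Z (Cin S Bᶜ Y ω) := by
  obtain ⟨z, hz, hZ⟩ := d4_symm h
  by_cases hm : ∃ b ∈ Cl S (fun _ => True) ω Y, b ∈ B
  · exact Or.inl (d4_symm hm)
  refine Or.inr ⟨z, hZ, (Cl_ind (P := fun y => y ∈ Cl S (fun _ => True) ω Y ∧ y ∈ Cin S Bᶜ Y ω)
    (fun _ hx => ⟨sub_Cl hx, sub_Cl hx⟩) ?_ (d4_true subset_rfl hz)).2⟩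
  rintro a b ⟨ha, ha'⟩ ⟨j, h1, h2, h3, h4⟩
  exact ⟨Cl_step ha ⟨j, h1, h2, h3, h4⟩, Cl_step ha' ⟨j, fun c hc hB =>
    hm ⟨c, Cl_step ha ⟨j, h1, h2, h3, hc⟩, hB⟩, h2, h3, h4⟩⟩

lemma d4_split (hX : X ⊆ B) (hY : Disjoint Y B)
    (h : ∃ y ∈ Cl S (fun _ => True) ω X, y ∈ Y) :
    (∃ i, ω i = true ∧ (Meets (S i) (Cin S B X ω) ∧ Meets (S i) B'ᶜ) ∧
      ∃ y ∈ Cl S (fun j => Disjoint (S j) (Cin S B X ω)) ω (S i), y ∈ Y) ∨
    ((∃ i, ω i = true ∧ ¬ S i ⊆ B ∧ Meets (S i) (Cin S B X ω)) ∧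
      ∃ y ∈ Cl S (fun j => Disjoint (S j) (Cin S B X ω)) ω B', y ∈ Y) := by
  obtain ⟨y, hy, hy'⟩ := h
  rcases decomp' (fun i => S i ⊆ B) hy with h | ⟨i, a, b, c, d⟩
  · exact absurd (d4_sub hX h) (Set.disjoint_left.1 hY hy')
  by_cases hi : S i ⊆ B'
  · exact Or.inr ⟨⟨i, a, b, c⟩, y, Cl_mono hi (fun _ a b => ⟨a, b⟩) d, hy'⟩
  · exact Or.inl ⟨i, a, ⟨c, meets_compl.2 hi⟩, y, d, hy'⟩

end

lemma Con_symm (X Y : Set V) : Con S p X Y = Con S p Y X :=
  congrArg (EE p) (funext fun _ => ind_congr ⟨d4_symm, d4_symm⟩)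

lemma d4_open {X B B' : Set V} (hB : B ⊆ B') (w : ι → ℝ) :
    EE p (fun ω => ∑ i, ind (ω i = true) *
      (ind (Meets (S i) (Cin S B X ω) ∧ Meets (S i) B'ᶜ) * w i)) =
    EE p fun ω => ∑ i, p i * (ind (Meets (S i) (Cin S B X ω) ∧ Meets (S i) B'ᶜ) * w i) :=
  EE_open_sum (A := {i | S i ⊆ B})
    ((d4_dep B X).comp fun K i => ind (Meets (S i) K ∧ Meets (S i) B'ᶜ) * w i)
    fun _ _ hi => by rw [ind_neg fun h => meets_compl.1 h.2 (Set.Subset.trans hi hB), zero_mul]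

omit [DecidableEq ι] in
lemma mS_symm (K O : Set V) : mS S p K O = mS S p O K := by
  simp only [mS, and_comm]

variable (h0 : ∀ i, 0 ≤ p i)
include h0

omit [DecidableEq ι] in
lemma mS_nonneg (K O : Set V) : 0 ≤ mS S p K O :=
  sum_nonneg fun i _ => mul_nonneg (h0 i) (ind_nonneg _)

omit [DecidableEq ι] in
lemma mS_mono {K K' O O' : Set V} (hK : K ⊆ K') (hO : O ⊆ O') : mS S p K O ≤ mS S p K' O' :=
  sum_le_sum fun i _ => mul_le_mul_of_nonneg_left
    (ind_mono fun h => ⟨h.1.mono subset_rfl hK, h.2.mono subset_rfl hO⟩) (h0 i)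

variable (h1 : ∀ i, p i ≤ 1)
include h1

lemma Con_nonneg (X Y : Set V) : 0 ≤ Con S p X Y := EE_nonneg h0 h1 fun _ => ind_nonneg _

lemma Con_le_one (X Y : Set V) : Con S p X Y ≤ 1 := EE_ind_le_one h0 h1 _

lemma Con_mono {X X' Y Y' : Set V} (hX : X ⊆ X') (hY : Y ⊆ Y') : Con S p X Y ≤ Con S p X' Y' :=
  EE_mono h0 h1 fun _ => ind_mono fun ⟨y, h, h'⟩ =>
    ⟨y, Cl_mono hX (fun _ a b => ⟨a, b⟩) h, hY h'⟩

lemma d4_near (X Y B1 B2 : Set V) :
    EE p (fun ω => ind ((∃ i, ω i = true ∧ ¬ S i ⊆ B1 ∧ Meets (S i) (Cin S B1 X ω)) ∧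
      ∃ y ∈ Cl S (fun j => Disjoint (S j) (Cin S B1 X ω)) ω B2, y ∈ Y)) ≤
    Con S p X B1ᶜ * Con S p B2 Y := by
  simp only [ind_and]
  refine (EE_stop S (fun i => S i ⊆ B1) X (F := fun ω ξ =>
    ind (∃ i, ω i = true ∧ ¬ S i ⊆ B1 ∧ Meets (S i) (Cin S B1 X ω)) *
      ind (∃ y ∈ Cl S (fun j => Disjoint (S j) (Cin S B1 X ω)) ξ B2, y ∈ Y))
    (fun ω ω' h => ?_) fun ω => ?_).trans_le ?_
  · have e : Cin S B1 X ω' = Cin S B1 X ω := stop' fun i _ hi => h i hi
    funext ξ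
    rw [e, ind_congr (Q := ∃ i, ω i = true ∧ ¬ S i ⊆ B1 ∧ Meets (S i) (Cin S B1 X ω))
      (exists_congr fun i => ⟨fun ⟨a, b, c⟩ => ⟨h i c ▸ a, b, c⟩,
        fun ⟨a, b, c⟩ => ⟨(h i c).trans a, b, c⟩⟩)]
  · exact ((Cl_dep S (fun j => Disjoint (S j) (Cin S B1 X ω)) B2).mono fun _ h => h.1).comp
      fun K => ind (∃ i, ω i = true ∧ ¬ S i ⊆ B1 ∧ Meets (S i) (Cin S B1 X ω)) *
        ind (∃ y ∈ K, y ∈ Y)
  · unfold Con
    rw [← EE_mul_right]
    refine EE_mono h0 h1 fun ω => ?_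
    rw [EE_mul_left]
    refine mul_le_mul (ind_mono fun ⟨i, a, b, c⟩ => ?_) (EE_mono h0 h1 fun ξ =>
      ind_mono fun ⟨y, a, b⟩ => ⟨y, d4_true subset_rfl a, b⟩)
      (EE_nonneg h0 h1 fun _ => ind_nonneg _) (ind_nonneg _)
    obtain ⟨z, z1, z2⟩ := meets_compl.2 b
    exact ⟨z, sub_of_hits trivial a (c.mono subset_rfl (d4_true subset_rfl)) z1, z2⟩

lemma rec_ineq {X Y B1 B2 : Set V} (hX : X ⊆ B1) (hB : B1 ⊆ B2) (hY : Disjoint Y B1) :
    Con S p X Y ≤ EE p (fun ω => mS S p (Cin S B1 X ω) B2ᶜ) + Con S p X B1ᶜ * Con S p B2 Y := by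
  have e := d4_open (S := S) (p := p) (X := X) hB fun _ => 1
  simp only [mul_one] at e
  refine le_trans ?_ (add_le_add e.le (d4_near h0 h1 X Y B1 B2))
  rw [← EE_add]
  refine EE_mono h0 h1 fun ω => (ind_or_le (d4_split (B' := B2) hX hY)).trans
    (add_le_add (ind_le_sum (fun _ _ => mul_nonneg (ind_nonneg _) (ind_nonneg _))
      fun ⟨i, a, b, _⟩ => ⟨i, mem_univ _, by rw [ind_pos a, ind_pos b, one_mul]⟩) le_rfl)

lemma low2 {X X' B B' : Set V} (hX : X ⊆ B) (hX' : X' ⊆ B') (hd : Disjoint B B')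
    (hb : mS S p B B' ≤ 1) :
    EE p (fun ω => mS S p (Cin S B X ω) (Cin S B' X' ω)) ≤ 2 * Con S p X X' := by
  refine (EE_exists_ge h0 h1 (A := {i | S i ⊆ B ∨ S i ⊆ B'})
    (P := fun ω i => Meets (S i) (Cin S B X ω) ∧ Meets (S i) (Cin S B' X' ω))
    (fun ω ω' e => ?_) ?_ fun ω => (mS_mono h0 (d4_sub hX) (d4_sub hX')).trans hb).trans
    (mul_le_mul_of_nonneg_left (EE_mono h0 h1 fun ω => ind_mono ?_) zero_le_two)
  · beta_reduce
    rw [d4_dep B X ω ω' fun i hi => e i (Or.inl hi), d4_dep B' X' ω ω' fun i hi => e i (Or.inr hi)]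
  · rintro ω i (hi | hi) ⟨⟨a, a1, a2⟩, b, b1, b2⟩
    · exact Set.disjoint_left.1 hd (hi b1) (d4_sub hX' b2)
    · exact Set.disjoint_left.1 hd (d4_sub hX a2) (hi a1)
  · rintro ⟨i, ho, ha, b, b1, b2⟩
    obtain ⟨x, x1, x2⟩ := d4_symm (X := X') (Y := {b}) ⟨b, d4_true subset_rfl b2, rfl⟩
    exact ⟨x, d4_trans (Set.singleton_subset_iff.2
      (sub_of_hits trivial ho (ha.mono subset_rfl (d4_true subset_rfl)) b1)) x1, x2⟩

lemma QM_up {X Y B1 B2 : Set V} (hX : X ⊆ B1) (hB : B1 ⊆ B2) (hY : Y ⊆ B2ᶜ) {C : ℝ} (hC : 0 ≤ C)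
    (hu : ∀ K O, K ⊆ B1 → Y ⊆ O → O ⊆ B2ᶜ → mS S p K O ≤ C * mS S p K B2ᶜ * mS S p B1 O)
    (hb : mS S p B1 B2ᶜ ≤ 1) :
    Con S p X Y ≤ (3 + 4 * C) * Con S p X B1ᶜ * Con S p B2 Y := by
  have hd : Disjoint B1 B2ᶜ := Set.disjoint_left.2 fun _ a b => b (hB a)
  have l1 : EE p (fun ω => mS S p (Cin S B1 X ω) B2ᶜ) ≤ 2 * Con S p X B1ᶜ :=
    ((EE_mono h0 h1 fun ω => mS_mono h0 subset_rfl sub_Cl).trans
      (low2 h0 h1 hX subset_rfl hd hb)).trans (mul_le_mul_of_nonneg_left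
        (Con_mono h0 h1 subset_rfl (Set.compl_subset_compl.2 hB)) zero_le_two)
  have l2 : EE p (fun ξ => mS S p B1 (Cin S B2ᶜ Y ξ)) ≤ 2 * Con S p B2 Y :=
    ((EE_mono h0 h1 fun ω => mS_mono h0 sub_Cl subset_rfl).trans
      (low2 h0 h1 subset_rfl hY hd hb)).trans (mul_le_mul_of_nonneg_left
        (Con_mono h0 h1 hB subset_rfl) zero_le_two)
  have c2 := Con_nonneg (S := S) h0 h1 B2 Y
  have l3 : EE p (fun ω => ∑ i, ind (ω i = true) *
      (ind (Meets (S i) (Cin S B1 X ω) ∧ Meets (S i) B2ᶜ) *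
        ind (∃ y ∈ Cl S (fun j => Disjoint (S j) (Cin S B1 X ω)) ω (S i), y ∈ Y))) ≤
      2 * Con S p X B1ᶜ * ((1 + 2 * C) * Con S p B2 Y) := by
    refine (EE_stop S (fun i => S i ⊆ B1) X (F := fun ω ξ => ∑ i, ind (ω i = true) *
      (ind (Meets (S i) (Cin S B1 X ω) ∧ Meets (S i) B2ᶜ) *
        ind (∃ y ∈ Cl S (fun j => Disjoint (S j) (Cin S B1 X ω)) ξ (S i), y ∈ Y)))
      (fun ω ω' h => ?_) fun ω ξ ξ' h => ?_).trans_le ?_
    · have e : Cin S B1 X ω' = Cin S B1 X ω := stop' fun i _ hi => h i hi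
      funext ξ
      rw [e]
      refine sum_congr rfl fun i _ => ?_
      by_cases c : Meets (S i) (Cin S B1 X ω)
      · rw [h i c]
      · rw [ind_neg (P := _ ∧ _) fun h => c h.1, zero_mul, mul_zero, mul_zero]
    · refine sum_congr rfl fun i _ => ?_
      rw [show Cl S (fun j => Disjoint (S j) (Cin S B1 X ω)) ξ (S i) = Cl S _ ξ' (S i) from
        Cl_dep S _ (S i) ξ ξ' fun j hj => h j hj.1]
    refine (EE_mono h0 h1 (g := fun ω => ∑ i, ind (ω i = true) *
      (ind (Meets (S i) (Cin S B1 X ω) ∧ Meets (S i) B2ᶜ) *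
        (Con S p B2 Y + EE p fun ξ => ind (Meets (S i) (Cin S B2ᶜ Y ξ))))) fun ω => ?_).trans ?_
    · rw [EE_sum]
      refine sum_le_sum fun i _ => ?_
      rw [EE_mul_left, EE_mul_left, Con, ← EE_add]
      exact mul_le_mul_of_nonneg_left (mul_le_mul_of_nonneg_left
        (EE_mono h0 h1 fun ξ => ind_or_le d4_far) (ind_nonneg _)) (ind_nonneg _)
    rw [d4_open hB]
    refine le_trans ?_ (mul_le_mul_of_nonneg_right l1 (by positivity))
    rw [← EE_mul_right]
    refine EE_mono h0 h1 fun ω => ?_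
    have m0 := mS_nonneg (S := S) h0 (Cin S B1 X ω) B2ᶜ
    have l4 : ∑ i, p i * (ind (Meets (S i) (Cin S B1 X ω) ∧ Meets (S i) B2ᶜ) *
        EE p fun ξ => ind (Meets (S i) (Cin S B2ᶜ Y ξ))) ≤
        C * mS S p (Cin S B1 X ω) B2ᶜ * (2 * Con S p B2 Y) := by
      refine le_trans ?_ (mul_le_mul_of_nonneg_left l2 (mul_nonneg hC m0))
      simp only [← EE_mul_left]
      rw [← EE_sum]
      refine EE_mono h0 h1 fun ξ => le_trans (sum_le_sum fun i _ => ?_)
        (hu _ _ (d4_sub hX) sub_Cl (d4_sub hY))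
      rw [← ind_and]
      exact mul_le_mul_of_nonneg_left (ind_mono fun h => ⟨h.1.1, h.2⟩) (h0 i)
    simp only [mul_add, sum_add_distrib, ← mul_assoc _ _ (Con S p B2 Y), ← sum_mul]
    change mS S p (Cin S B1 X ω) B2ᶜ * _ + _ ≤ _
    linarith
  have l5 := d4_near (S := S) h0 h1 X Y B1 B2
  refine le_trans ?_ ((add_le_add l3 l5).trans_eq (by ring))
  rw [← EE_add]
  refine EE_mono h0 h1 fun ω => (ind_or_le (d4_split (B' := B2) hX
    (Set.disjoint_left.2 fun _ a b => hY a (hB b)))).trans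
    (add_le_add (ind_le_sum (fun _ _ => mul_nonneg (ind_nonneg _)
      (mul_nonneg (ind_nonneg _) (ind_nonneg _))) fun ⟨i, a, b, c⟩ =>
        ⟨i, mem_univ _, by rw [ind_pos a, ind_pos b, ind_pos c, one_mul, one_mul]⟩) le_rfl)

end Pool.Agent.MP_3a8451_pr

end

-- part Lp/D5
section

/-! Quasi-multiplicativity, lower bound. -/

open Finset
open scoped ENNReal NNReal

namespace Pool.Agent.MP_3a8451_pr

variable {ι : Type*} {S : ι → Set V} [Fintype ι] [DecidableEq ι] {p : ι → ℝ}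
  (h0 : ∀ i, 0 ≤ p i) (h1 : ∀ i, p i ≤ 1)
include h0 h1

lemma QM_low (B : ℕ → Set V) (hB : Monotone B) {X : Set V} (hX : X ⊆ B 0) {k t : ℕ} (hk : k ≤ t)
    {c c' b θ : ℝ} (hc : 0 ≤ c) (hc' : 0 < c') (hc1 : c' ≤ 1) (hb : 0 < b) (hb1 : b ≤ 1)
    (hθ : 2 * θ ≤ c') (hθ' : ∀ i, Con S p (B i) (B (i + 1))ᶜ ≤ θ)
    (hl : ∀ K O, K ⊆ B (2 * k + 1) → (B (2 * t + 2))ᶜ ⊆ O → O ⊆ (B (2 * k + 2))ᶜ →
      c * mS S p K (B (2 * k + 2))ᶜ * mS S p (B (2 * k + 1)) O ≤ mS S p K O)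
    (hm : mS S p (B (2 * k + 1)) (B (2 * k + 2))ᶜ ≤ 1)
    (hs1 : ∀ i < t, ∀ K, K ⊆ B (2 * i + 1) →
      c' * mS S p K (B (2 * i + 2))ᶜ ≤ mS S p K (B (2 * i + 4))ᶜ)
    (hs2 : ∀ i < t, ∀ O, (B (2 * t + 2))ᶜ ⊆ O → O ⊆ (B (2 * i + 4))ᶜ →
      c' * mS S p (B (2 * i + 3)) O ≤ mS S p (B (2 * i + 1)) O)
    (hb2 : b ≤ mS S p X (B 2)ᶜ) (hb3 : b ≤ mS S p (B (2 * t + 1)) (B (2 * t + 2))ᶜ) :
    c * (b * c') ^ 2 / 8 * Con S p X (B (2 * k + 1))ᶜ * Con S p (B (2 * k)) (B (2 * t + 2))ᶜ ≤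
      Con S p X (B (2 * t + 2))ᶜ := by
  have cin : ∀ {D D' Z : Set V} (ω : ι → Bool), D ⊆ D' → Cin S D Z ω ⊆ Cin S D' Z ω :=
    fun ω h => Cl_mono subset_rfl fun _ a b => ⟨Set.Subset.trans a h, b⟩
  have cs : ∀ {i j : ℕ}, i ≤ j → (B j)ᶜ ⊆ (B i)ᶜ := fun h => Set.compl_subset_compl.2 (hB h)
  have hX' : ∀ i, X ⊆ B i := fun i => hX.trans (hB (Nat.zero_le i))
  have bc : 0 ≤ b * c' := by positivity
  have bc1 : b * c' ≤ b := mul_le_of_le_one_right hb.le hc1
  have bc2 : b * c' ≤ c' := mul_le_of_le_one_left hc'.le hb1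
  obtain ⟨a, ha⟩ : ∃ a : ℕ → ℝ, a = fun i =>
    EE p fun ω => mS S p (Cin S (B (2 * i + 1)) X ω) (B (2 * i + 2))ᶜ := ⟨_, rfl⟩
  obtain ⟨v, hv⟩ : ∃ v : ℕ → ℝ, v = fun i =>
    EE p fun ω => mS S p (B (2 * i + 1)) (Cin S (B (2 * i + 2))ᶜ (B (2 * t + 2))ᶜ ω) := ⟨_, rfl⟩
  have a0 : ∀ i, 0 ≤ a i := fun i => by
    rw [ha]; exact EE_nonneg h0 h1 fun _ => mS_nonneg h0 _ _
  have v0 : ∀ i, 0 ≤ v i := fun i => by
    rw [hv]; exact EE_nonneg h0 h1 fun _ => mS_nonneg h0 _ _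
  have base : ∀ {Z W : Set V} {x : ℝ}, b ≤ x → b * c' * Con S p Z W ≤ 2 * x := by
    intro Z W x h
    have := (mul_le_of_le_one_right bc (Con_le_one (S := S) h0 h1 Z W)).trans (bc1.trans h)
    linarith only [hb, h, this]
  have step : ∀ {x y z w : ℝ}, 0 ≤ w → 0 ≤ y → z ≤ θ → b * c' * y ≤ 2 * w →
      b * c' * (x + y * z) ≤ b * c' * x + c' * w := fun {x y z w} w0 y0 hz h => by
    have e1 := mul_le_mul_of_nonneg_left hz (mul_nonneg bc y0)
    have e2 : b * c' * y * (2 * θ) ≤ 2 * w * c' := by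
      calc b * c' * y * (2 * θ) ≤ b * c' * y * c' :=
            mul_le_mul_of_nonneg_left hθ (mul_nonneg bc y0)
        _ ≤ 2 * w * c' := mul_le_mul_of_nonneg_right h hc'.le
    linarith only [e1, e2]
  have up : ∀ i ≤ t, b * c' * Con S p X (B (2 * i + 1))ᶜ ≤ 2 * a i := fun i => by
    induction i with
    | zero =>
      intro _
      rw [ha]
      exact base ((EE_const p b).ge.trans (EE_mono h0 h1 fun ω =>
        hb2.trans (mS_mono h0 sub_Cl subset_rfl)))
    | succ i ih =>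
      intro hi
      have r := rec_ineq (S := S) h0 h1 (Y := (B (2 * (i + 1) + 1))ᶜ) (hX' (2 * i + 1))
        (hB (Nat.le_succ _)) (Set.disjoint_left.2 fun _ x y => x (hB (by omega) y))
      have e : c' * a i ≤ a (i + 1) := by
        rw [ha]
        beta_reduce
        rw [← EE_mul_left]
        exact EE_mono h0 h1 fun ω => (hs1 i hi _ (d4_sub (hX' _))).trans
          (mS_mono h0 (cin ω (hB (by omega))) subset_rfl)
      have s := step (x := a i) (a0 i) (Con_nonneg h0 h1 _ _) (hθ' (2 * i + 2)) (ih (by omega))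
      have r' := mul_le_mul_of_nonneg_left r bc
      have := mul_le_mul_of_nonneg_right bc2 (a0 i)
      rw [ha] at s this e ⊢
      exact r'.trans (s.trans (by linarith only [e, this]))
  have down : ∀ d i, i + d = t → b * c' * Con S p (B (2 * i)) (B (2 * t + 2))ᶜ ≤ 2 * v i := by
    intro d
    induction d with
    | zero =>
      rintro i rfl
      rw [hv]
      exact base ((EE_const p b).ge.trans (EE_mono h0 h1 fun ω =>
        hb3.trans (mS_mono h0 subset_rfl sub_Cl)))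
    | succ d ih =>
      intro i hi
      have r := rec_ineq (S := S) h0 h1 (Y := B (2 * i)) (cs (show 2 * i + 2 ≤ 2 * t + 2 by omega))
        (cs (Nat.le_succ (2 * i + 1))) (Set.disjoint_left.2 fun _ x y => y (hB (by omega) x))
      simp only [compl_compl] at r
      rw [Con_symm, Con_symm (B (2 * t + 2))ᶜ, Con_symm (B (2 * i + 1))ᶜ] at r
      have e : c' * v (i + 1) ≤ v i := by
        rw [hv]
        beta_reduce
        rw [← EE_mul_left]
        exact EE_mono h0 h1 fun ω => (hs2 i (by omega) _ sub_Cl (d4_sub (cs (by omega)))).trans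
          (mS_mono h0 subset_rfl (cin ω (cs (by omega))))
      have s := step (x := v i) (v0 (i + 1)) (Con_nonneg h0 h1 _ _) (hθ' (2 * i))
        (ih (i + 1) (by omega))
      have r' := mul_le_mul_of_nonneg_left r bc
      have := mul_le_mul_of_nonneg_right (bc1.trans hb1) (v0 i)
      have e' : EE p (fun ω => mS S p (Cin S (B (2 * i + 2))ᶜ (B (2 * t + 2))ᶜ ω)
          (B (2 * i + 1))) = v i := by rw [hv]; simp only [mS_symm (B (2 * i + 1))]
      rw [e'] at r'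
      exact r'.trans (s.trans (by linarith only [e, this]))
  have hY := cs (show 2 * k + 2 ≤ 2 * t + 2 by omega)
  have hd : Disjoint (B (2 * k + 1)) (B (2 * k + 2))ᶜ :=
    Set.disjoint_left.2 fun _ x y => y (hB (Nat.le_succ _) x)
  have l := low2 (S := S) h0 h1 (hX' (2 * k + 1)) hY hd hm
  have m : c * (a k * v k) ≤ 2 * Con S p X (B (2 * t + 2))ᶜ := by
    refine le_trans ?_ l
    rw [ha, hv]
    beta_reduce
    rw [← EE_indep (A := {i | S i ⊆ B (2 * k + 1) ∧ (S i).Nonempty})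
      (B := {i | S i ⊆ (B (2 * k + 2))ᶜ ∧ (S i).Nonempty})
      (f := fun ω => mS S p (Cin S (B (2 * k + 1)) X ω) (B (2 * k + 2))ᶜ)
      (g := fun ω => mS S p (B (2 * k + 1)) (Cin S (B (2 * k + 2))ᶜ (B (2 * t + 2))ᶜ ω))
      (Set.disjoint_left.2 fun i x y => Set.disjoint_left.1 hd (x.1 x.2.some_mem)
        (y.1 x.2.some_mem))
      ((Cl_dep S _ X).comp fun K => mS S p K (B (2 * k + 2))ᶜ)
      ((Cl_dep S _ _).comp fun O => mS S p (B (2 * k + 1)) O), ← EE_mul_left]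
    refine EE_mono h0 h1 fun ω => ?_
    rw [← mul_assoc]
    exact hl _ _ (d4_sub (hX' _)) sub_Cl (d4_sub hY)
  have q := mul_le_mul_of_nonneg_left (mul_le_mul (up k hk) (down (t - k) k (by omega))
    (mul_nonneg bc (Con_nonneg h0 h1 _ _)) (by have := a0 k; positivity)) hc
  linarith only [m, q]

end Pool.Agent.MP_3a8451_pr

end
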