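import Pool.Agent.MP_3a8451_pr.Mg.Ex1

attribute [-instance] IdemSemiring.toCanonicallyOrderedAdd AddQuantale.instAddLeftMono
  IdemSemiring.toMulLeftMono Fintype.decidableForallFintype Quantale.instMulLeftMono
  NumberField.to_charZero RKHS.instFunLike AddQuantale.instAddRightMono
  IsOrderedCancelMonoid.toIsOrderedMonoid littleWedderburn Quantale.instMulRightMono
  Group.IsPerfect.subsingleton_of_isMulCommutative CommMonTypeEquivalenceCommMon.commMonCommMonoid
  IdemSemiring.toMulRightMono CompactSpace.sigmaCompact CanonicallyOrderedAdd.toMulLeftMono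
  instCoeTOfCoeDep LinearOrderedCommMonoidWithZero.toIsOrderedMonoid Finset.decidableDforallFinset
  LinearOrderedCommMonoidWithZero.toIsBotZeroClass AlexandrovDiscrete.toLocallyCompactSpace
  Multiset.decidableDforallMultiset IdemSemiring.toSemiring instCoeOTCOfCoeOut
  TotallySeparatedSpace.t2Space Vector.instDecidableForallForallMemOfDecidablePred Int.decidableLTLE
  instCoeHTCOfCoeHeadOfCoeOTC GrpTypeEquivalenceGrp.grpGroup
  Array.instDecidableForallForallMemOfDecidablePred Option.decidableForallMem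
  CanonicallyOrderedMul.toMulLeftMono TestFunctionClass.toDFunLike Unique.instSubsingleton
  Valued.toUniformSpace instCoeHTCTOfCoeTailOfCoeHTC ContDiffMapSupportedInClass.toDFunLike
  Invertible.toNeZero NormedCommRing.toCommRing instCoeTCOfCoe Int.decidableLELE

-- part Lp/B1
section

/-! Fourier formula for the transition probabilities. -/

open Finset MeasureTheory

namespace Pool.Agent.MP_3a8451_pr

lemma b1_sum_dir (θ : Fin 3 → ℝ) (d : D) :
    ∑ c, θ c * (dir d c : ℝ) = if d.2 then θ d.1 else -θ d.1 := by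
  rw [Finset.sum_eq_single d.1]
  · simp only [dir, Pi.single_eq_same]
    split_ifs <;> simp
  · intro c _ hc
    simp [dir, Pi.single_eq_of_ne hc]
  · simp

lemma even_of_pos (s : List D) : Even ((s.length : ℤ) + ∑ c, pos s c) := by
  induction s with
  | nil => simp only [List.length_nil, CharP.cast_eq_zero, pos_nil, Pi.zero_apply, sum_const_zero, add_zero, Even.zero]
  | cons d s ih =>
    have h : ∑ c, dir d c = if d.2 then 1 else -1 := by simp [dir, Finset.sum_pi_single']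
    simp only [pos_cons, Pi.add_apply, sum_add_distrib, List.length_cons, h]
    obtain ⟨k, hk⟩ := ih
    push_cast
    split_ifs
    · exact ⟨k + 1, by linarith only [hk]⟩
    · exact ⟨k, by linarith only [hk]⟩

lemma PT_nonneg (n : ℕ) (z : V) : 0 ≤ PT n z := Ex_nonneg fun _ => ind_nonneg _

lemma b1_congr {n : ℕ} {F G : List D → ℝ} (h : ∀ s, s.length = n → F s = G s) :
    Ex n F = Ex n G :=
  le_antisymm (Ex_mono fun s hs => (h s hs).le) (Ex_mono fun s hs => (h s hs).ge)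

lemma PT_odd {n : ℕ} {z : V} (h : ¬ Even ((n : ℤ) + ∑ c, z c)) : PT n z = 0 := by
  rw [PT, ← Ex_const n 0]
  refine b1_congr fun s hs => ind_neg fun hz => h ?_
  rw [← hz, ← hs]
  exact even_of_pos s

lemma b1_char (θ : Fin 3 → ℝ) (n : ℕ) (β : ℝ) :
    Ex n (fun s => Real.cos (∑ c, θ c * (pos s c : ℝ) + β)) = chf θ ^ n * Real.cos β := by
  induction n generalizing β with
  | zero => simp [Ex]
  | succ n ih =>
    have h (d : D) (s : List D) : ∑ c, θ c * (pos (d :: s) c : ℝ) + β =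
        ∑ c, θ c * (pos s c : ℝ) + (β + if d.2 then θ d.1 else -θ d.1) := by
      rw [← b1_sum_dir]
      simp only [pos_cons, Pi.add_apply, Int.cast_add, mul_add, sum_add_distrib]
      ring
    simp only [Ex, h, ih]
    simp only [Fintype.sum_prod_type, Fintype.sum_bool, if_true, Bool.false_eq_true,
      if_false, Real.cos_add, Real.cos_neg, Real.sin_neg, Fin.sum_univ_three, chf]
    ring

lemma b1_one (a : ℝ) (ha : 0 ≤ a) (k : ℤ) (hk : k ≠ 0) (hs : Real.sin (k * a) = 0) :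
    ∫ t in Set.Icc (-a) a, Complex.exp ((t * k : ℝ) * Complex.I) = 0 := by
  have hk' : (k : ℂ) * Complex.I ≠ 0 := mul_ne_zero (by exact_mod_cast hk) Complex.I_ne_zero
  have h := integral_exp_mul_complex (a := -a) (b := a) hk'
  rw [integral_Icc_eq_integral_Ioc, ← intervalIntegral.integral_of_le (by linarith)]
  have e (t : ℝ) : ((t * k : ℝ) : ℂ) * Complex.I = k * Complex.I * t := by push_cast; ring
  simp only [e, h]
  have e1 : (k : ℂ) * Complex.I * a = ((k * a : ℝ) : ℂ) * Complex.I := by push_cast; ring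
  have e2 : (k : ℂ) * Complex.I * (-a : ℝ) = ((-(k * a) : ℝ) : ℂ) * Complex.I := by
    push_cast; ring
  rw [e1, e2, Complex.exp_mul_I, Complex.exp_mul_I, ← Complex.ofReal_cos, ← Complex.ofReal_sin,
    ← Complex.ofReal_cos, ← Complex.ofReal_sin, Real.cos_neg, Real.sin_neg, hs]
  simp

lemma b1_compact : IsCompact HH := isCompact_univ_pi fun _ => isCompact_Icc

lemma b1_int {w : V} (hw : Even (∑ c, w c)) :
    ∫ θ in HH, Real.cos (∑ c, θ c * (w c : ℝ)) = 4 * Real.pi ^ 3 * ind (w = 0) := by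
  have hpi := Real.pi_pos
  by_cases h0 : w = 0
  · subst h0
    rw [ind_pos rfl]
    simp only [Pi.zero_apply, Int.cast_zero, mul_zero, sum_const_zero, Real.cos_zero,
      integral_const, Measure.restrict_apply_univ, smul_eq_mul,
      mul_one, HH, Measure.real, volume_pi_pi, Real.volume_Icc, Fin.prod_univ_three,
      Matrix.cons_val_zero, Matrix.cons_val_one, Matrix.cons_val]
    rw [← ENNReal.ofReal_mul (by linarith), ← ENNReal.ofReal_mul (by nlinarith only []),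
      ENNReal.toReal_ofReal (by linarith only [mul_pos hpi hpi, mul_pos hpi (mul_pos hpi hpi)])]
    ring
  rw [ind_neg h0, mul_zero]
  have hc : Continuous fun θ : Fin 3 → ℝ => ∏ c, Complex.exp ((θ c * w c : ℝ) * Complex.I) := by
    fun_prop
  have h1 (θ : Fin 3 → ℝ) : Real.cos (∑ c, θ c * (w c : ℝ)) =
      (∏ c, Complex.exp ((θ c * w c : ℝ) * Complex.I)).re := by
    rw [← Complex.exp_sum, ← sum_mul, ← Complex.ofReal_sum, Complex.exp_ofReal_mul_I_re]
  have h2 : ∫ θ in HH, ∏ c, Complex.exp ((θ c * w c : ℝ) * Complex.I) = 0 := by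
    rw [HH, volume_pi, Measure.restrict_pi_pi,
      integral_fintype_prod_eq_prod fun (c : Fin 3) (t : ℝ) =>
        Complex.exp ((t * w c : ℝ) * Complex.I), Fin.prod_univ_three]
    simp only [Matrix.cons_val_zero, Matrix.cons_val_one, Matrix.cons_val]
    by_cases a1 : w 1 = 0
    · by_cases a2 : w 2 = 0
      · rw [Fin.sum_univ_three, a1, a2, add_zero, add_zero] at hw
        obtain ⟨k, hk⟩ := hw
        rw [b1_one _ (by positivity) (w 0) (fun a0 => h0 (by
          funext c; fin_cases c <;> simp [a0, a1, a2])) (by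
            rw [← Real.sin_int_mul_pi k, hk]; congr 1; push_cast; ring), zero_mul, zero_mul]
      · rw [b1_one _ hpi.le (w 2) a2 (Real.sin_int_mul_pi _), mul_zero]
    · rw [b1_one _ hpi.le (w 1) a1 (Real.sin_int_mul_pi _), mul_zero, zero_mul]
  simp only [h1]
  have h3 := integral_re (𝕜 := ℂ) (hc.continuousOn.integrableOn_compact (μ := volume) b1_compact)
  simp only [RCLike.re_to_complex] at h3
  rw [h3, h2, Complex.zero_re]

lemma fourier {n : ℕ} {z : V} (h : Even ((n : ℤ) + ∑ c, z c)) :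
    PT n z = 1 / (4 * Real.pi ^ 3) * ∫ θ in HH, chf θ ^ n * Real.cos (∑ c, θ c * z c) := by
  have hpi := Real.pi_pos
  have h1 : PT n z = Ex n fun s => 1 / (4 * Real.pi ^ 3) *
      ∫ θ in HH, Real.cos (∑ c, θ c * (pos s c : ℝ) + -∑ c, θ c * z c) := by
    refine b1_congr fun s hs => ?_
    have hw : Even (∑ c, (pos s - z) c) := by
      have := (even_of_pos s).sub h
      rw [hs] at this
      simpa only [Pi.sub_apply, sum_sub_distrib, add_sub_add_left_eq_sub] using this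
    have h2 := b1_int hw
    simp only [Pi.sub_apply, Int.cast_sub, mul_sub, sum_sub_distrib, sub_eq_zero] at h2
    simp only [← sub_eq_add_neg, h2]
    field_simp
  rw [h1, Ex_mul, Ex_eq, ← integral_finsetSum _ fun s _ =>
    (Continuous.continuousOn (by fun_prop)).integrableOn_compact b1_compact, ← integral_const_mul]
  congr 2
  funext θ
  rw [← Ex_eq, b1_char, Real.cos_neg]

end Pool.Agent.MP_3a8451_pr

end

-- part Lp/B2
section

/-! Gaussian integral and dominated convergence for the local limit theorem. -/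

open Finset MeasureTheory Filter Topology

namespace Pool.Agent.MP_3a8451_pr

lemma gauss_integrable {b : ℝ} (hb : 0 < b) :
    Integrable fun u : Fin 3 → ℝ => Real.exp (-b * ∑ c, u c ^ 2) := by
  have h := Integrable.fintype_prod (ι := Fin 3) (μ := fun _ => (volume : Measure ℝ))
    (f := fun _ x => Real.exp (-b * x ^ 2)) fun _ => integrable_exp_neg_mul_sq hb
  refine h.congr (Eventually.of_forall fun u => ?_)
  simp only [mul_sum, Real.exp_sum]

lemma gauss (y : Fin 3 → ℝ) :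
    1 / (4 * Real.pi ^ 3) * ∫ u : Fin 3 → ℝ, Real.exp (-(∑ c, u c ^ 2) / 6) *
      Real.cos (∑ c, u c * y c) = psi 1 y := by
  have hb : 0 < ((1 / 6 : ℝ) : ℂ).re := by simp
  have h := GaussianFourier.integral_cexp_neg_mul_sum_add (ι := Fin 3) hb
    (fun c => Complex.I * y c)
  have e : ∀ u : Fin 3 → ℝ, Complex.exp (-((1 / 6 : ℝ) : ℂ) * ∑ i, (u i : ℂ) ^ 2 +
      ∑ i, Complex.I * y i * u i) = (Real.exp (-(∑ c, u c ^ 2) / 6) : ℝ) *
        Complex.exp (((∑ c, u c * y c : ℝ) : ℂ) * Complex.I) := by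
    intro u
    rw [Complex.exp_add, Complex.ofReal_exp]
    congr 2
    · push_cast; ring
    · push_cast; rw [sum_mul]; exact sum_congr rfl fun i _ => by ring
  have hi : Integrable fun u : Fin 3 → ℝ => ((Real.exp (-(∑ c, u c ^ 2) / 6) : ℝ) : ℂ) *
      Complex.exp (((∑ c, u c * y c : ℝ) : ℂ) * Complex.I) := by
    refine (gauss_integrable (b := 1 / 6) (by norm_num)).mono' (by fun_prop)
      (Eventually.of_forall fun u => ?_)
    rw [norm_mul, Complex.norm_exp_ofReal_mul_I, mul_one, Complex.norm_real, Real.norm_eq_abs,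
      abs_of_pos (Real.exp_pos _)]
    exact le_of_eq (by congr 1; ring)
  simp only [e] at h
  have h2 := integral_re hi
  rw [h] at h2
  have e2 : ∀ u : Fin 3 → ℝ, RCLike.re (((Real.exp (-(∑ c, u c ^ 2) / 6) : ℝ) : ℂ) *
      Complex.exp (((∑ c, u c * y c : ℝ) : ℂ) * Complex.I)) =
      Real.exp (-(∑ c, u c ^ 2) / 6) * Real.cos (∑ c, u c * y c) := by
    intro u
    rw [RCLike.re_to_complex, Complex.re_ofReal_mul, Complex.exp_ofReal_mul_I_re]
  simp only [e2] at h2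
  have hp := Real.pi_pos
  have e3 : ((Real.pi : ℂ) / ((1 / 6 : ℝ) : ℂ)) ^ (((Fintype.card (Fin 3) : ℕ) : ℂ) / 2) =
      (((6 * Real.pi) ^ (3 / 2 : ℝ) : ℝ) : ℂ) := by
    rw [Complex.ofReal_cpow (by positivity)]
    congr 1
    · push_cast; ring
    · simp
  have e4 : (∑ i, (Complex.I * y i) ^ 2) / (4 * ((1 / 6 : ℝ) : ℂ)) =
      ((-(3 * ∑ c, y c ^ 2) / (2 * 1) : ℝ) : ℂ) := by
    simp only [mul_pow, Complex.I_sq, ← mul_sum]
    push_cast; ring
  rw [e3, e4, ← Complex.ofReal_exp, ← Complex.ofReal_mul, RCLike.re_to_complex,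
    Complex.ofReal_re] at h2
  rw [h2, psi]
  have e5 : (6 * Real.pi) ^ (3 / 2 : ℝ) = (2 * Real.pi * √(3 / (2 * Real.pi * 1))) ^ 3 := by
    have : 2 * Real.pi * √(3 / (2 * Real.pi * 1)) = √(6 * Real.pi) := by
      symm
      rw [Real.sqrt_eq_iff_mul_self_eq (by positivity) (by positivity)]
      have := Real.mul_self_sqrt (show 0 ≤ 3 / (2 * Real.pi * 1) by positivity)
      calc 6 * Real.pi = (2 * Real.pi) ^ 2 * (3 / (2 * Real.pi * 1)) := by
            field_simp; norm_num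
        _ = _ := by nth_rewrite 1 [← this]; ring
    rw [this, Real.sqrt_eq_rpow, ← Real.rpow_natCast, ← Real.rpow_mul (by positivity)]
    norm_num
  rw [e5]
  field_simp
  norm_num

lemma b2_mem {θ : Fin 3 → ℝ} (h : θ ∈ HH) :
    |θ 0| ≤ Real.pi / 2 ∧ |θ 1| ≤ Real.pi ∧ |θ 2| ≤ Real.pi := by
  have h0 := h 0 trivial
  have h1 := h 1 trivial
  have h2 := h 2 trivial
  simp only [Set.mem_Icc] at h0 h1 h2
  exact ⟨abs_le.2 (by simpa only [Fin.isValue, Nat.succ_eq_add_one, Nat.reduceAdd, Matrix.cons_val_zero] using h0), abs_le.2 (by simpa only [Fin.isValue, Nat.succ_eq_add_one, Nat.reduceAdd, Matrix.cons_val_one, Matrix.cons_val_zero] using h1), abs_le.2 (by simpa only [Fin.isValue, Nat.succ_eq_add_one, Nat.reduceAdd, Matrix.cons_val] using h2)⟩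

lemma chf_bound : ∃ b : ℝ, 0 < b ∧ ∀ θ ∈ HH, |chf θ| ≤ Real.exp (-b * ∑ c, θ c ^ 2) := by
  have hp := Real.pi_pos
  refine ⟨1 / (9 * Real.pi ^ 2), by positivity, fun θ hθ => ?_⟩
  obtain ⟨h0, h1, h2⟩ := b2_mem hθ
  have c0 := Real.cos_le_one_sub_mul_cos_sq (h0.trans (by linarith : _ ≤ Real.pi))
  have c1 := Real.cos_le_one_sub_mul_cos_sq h1
  have c2 := Real.cos_le_one_sub_mul_cos_sq h2
  have d0 : 0 ≤ Real.cos (θ 0) :=
    Real.cos_nonneg_of_neg_pi_div_two_le_of_le (abs_le.1 h0).1 (abs_le.1 h0).2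
  have d1 := Real.neg_one_le_cos (θ 1)
  have d2 := Real.neg_one_le_cos (θ 2)
  have s0 : θ 0 ^ 2 ≤ Real.pi ^ 2 := sq_le_sq' (by linarith only [(abs_le.1 h0).1, hp])
    (by linarith only [(abs_le.1 h0).2, hp])
  have s1 : θ 1 ^ 2 ≤ Real.pi ^ 2 := sq_le_sq' (abs_le.1 h1).1 (abs_le.1 h1).2
  have s2 : θ 2 ^ 2 ≤ Real.pi ^ 2 := sq_le_sq' (abs_le.1 h2).1 (abs_le.1 h2).2
  set x := (θ 0 ^ 2 + θ 1 ^ 2 + θ 2 ^ 2) / Real.pi ^ 2 with hx
  have x0 : 0 ≤ x := by positivity
  have x3 : x ≤ 3 := by rw [hx, div_le_iff₀ (by positivity)]; linarith only [s0, s1, s2]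
  have e : -(1 / (9 * Real.pi ^ 2)) * ∑ c, θ c ^ 2 = -(x / 9) := by
    rw [Fin.sum_univ_three, hx]; field_simp
  have e2 : 2 / Real.pi ^ 2 * θ 0 ^ 2 + 2 / Real.pi ^ 2 * θ 1 ^ 2 + 2 / Real.pi ^ 2 * θ 2 ^ 2 =
      2 * x := by rw [hx]; field_simp
  rw [e]
  refine le_trans ?_ (Real.add_one_le_exp _)
  rw [chf, Fin.sum_univ_three, abs_le]
  constructor <;> linarith only [d0, d1, d2, x3, c0, c1, c2, x0, e2]

lemma b2_cos (x : ℝ) : Tendsto (fun n : ℕ => (n : ℝ) * (Real.cos ((√(n : ℝ))⁻¹ * x) - 1)) atTop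
    (𝓝 (-(x ^ 2) / 2)) := by
  have h0 : Tendsto (fun n : ℕ => (n : ℝ)⁻¹ * x ^ 4) atTop (𝓝 0) := by
    simpa only [zero_mul] using tendsto_inv_atTop_nhds_zero_nat.mul_const (x ^ 4)
  have h1 : Tendsto (fun n : ℕ => (n : ℝ)⁻¹ * x ^ 2) atTop (𝓝 0) := by
    simpa only [zero_mul] using tendsto_inv_atTop_nhds_zero_nat.mul_const (x ^ 2)
  rw [tendsto_iff_norm_sub_tendsto_zero]
  refine squeeze_zero' (Eventually.of_forall fun _ => norm_nonneg _) ?_ h0
  filter_upwards [h1.eventually (eventually_le_nhds one_pos), eventually_gt_atTop 0] with n hn hn0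
  have hn' : (0 : ℝ) < n := by exact_mod_cast hn0
  have e : ((√(n : ℝ))⁻¹ * x) ^ 2 = (n : ℝ)⁻¹ * x ^ 2 := by
    rw [mul_pow, inv_pow, Real.sq_sqrt hn'.le]
  have hb := Real.cos_bound (x := (√(n : ℝ))⁻¹ * x) (by rw [← sq_le_one_iff_abs_le_one, e]; exact hn)
  have e4 : |(√(n : ℝ))⁻¹ * x| ^ 4 = ((n : ℝ)⁻¹ * x ^ 2) ^ 2 := by
    rw [← e, show 4 = 2 * 2 by rfl, pow_mul, sq_abs]
  rw [e4, e] at hb
  have e5 : (n : ℝ) * (Real.cos ((√(n : ℝ))⁻¹ * x) - 1) - -(x ^ 2) / 2 =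
      n * (Real.cos ((√(n : ℝ))⁻¹ * x) - (1 - (n : ℝ)⁻¹ * x ^ 2 / 2)) := by
    field_simp; ring
  rw [e5, Real.norm_eq_abs, abs_mul, abs_of_pos hn']
  calc _ ≤ n * (((n : ℝ)⁻¹ * x ^ 2) ^ 2 * (5 / 96)) := by gcongr
    _ = (n : ℝ)⁻¹ * x ^ 4 * (5 / 96) := by field_simp
    _ ≤ _ := mul_le_of_le_one_right (by positivity) (by norm_num)

lemma b2_meas : MeasurableSet HH := MeasurableSet.univ_pi fun _ => measurableSet_Icc

lemma b2_ev (u : Fin 3 → ℝ) : ∀ᶠ n : ℕ in atTop, (√(n : ℝ))⁻¹ • u ∈ HH := by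
  have h0 : Tendsto (fun n : ℕ => (√(n : ℝ))⁻¹) atTop (𝓝 0) :=
    tendsto_inv_atTop_zero.comp (Real.tendsto_sqrt_atTop.comp tendsto_natCast_atTop_atTop)
  have h1 : Tendsto (fun n : ℕ => (√(n : ℝ))⁻¹ • u) atTop (𝓝 0) := by
    simpa using h0.smul_const u
  refine h1.eventually (set_pi_mem_nhds Set.finite_univ fun c _ => Icc_mem_nhds ?_ ?_) <;>
    fin_cases c <;> simp [Real.pi_pos]

lemma b2_bd {b : ℝ} (hb : ∀ θ ∈ HH, |chf θ| ≤ Real.exp (-b * ∑ c, θ c ^ 2)) {n : ℕ} (hn : 0 < n)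
    (u : Fin 3 → ℝ) : |HH.indicator (fun θ => chf θ ^ n) ((√(n : ℝ))⁻¹ • u)| ≤
      Real.exp (-b * ∑ c, u c ^ 2) := by
  have hn' : (0 : ℝ) < n := by exact_mod_cast hn
  by_cases h : (√(n : ℝ))⁻¹ • u ∈ HH
  · rw [Set.indicator_of_mem h, abs_pow]
    refine (pow_le_pow_left₀ (abs_nonneg _) (hb _ h) n).trans (le_of_eq ?_)
    rw [← Real.exp_nat_mul]
    congr 1
    simp only [Pi.smul_apply, smul_eq_mul, mul_pow, inv_pow, Real.sq_sqrt hn'.le, ← mul_sum]
    field_simp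
  · rw [Set.indicator_of_notMem h, abs_zero]; positivity

lemma b2_cont : Continuous chf := by unfold chf; fun_prop

lemma b2_aesm (n : ℕ) : AEStronglyMeasurable
    (fun u : Fin 3 → ℝ => HH.indicator (fun θ => chf θ ^ n) ((√(n : ℝ))⁻¹ • u)) volume :=
  (((b2_cont.pow n).measurable.indicator b2_meas).comp
    (measurable_const_smul _)).aestronglyMeasurable

lemma chf_tendsto : Tendsto (fun n : ℕ => ∫ u : Fin 3 → ℝ,
    |HH.indicator (fun θ => chf θ ^ n) ((√(n : ℝ))⁻¹ • u) - Real.exp (-(∑ c, u c ^ 2) / 6)|)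
      atTop (𝓝 0) := by
  obtain ⟨b, hb0, hb⟩ := chf_bound
  have h := tendsto_integral_filter_of_dominated_convergence (μ := volume) (l := atTop)
    (F := fun (n : ℕ) (u : Fin 3 → ℝ) =>
      |HH.indicator (fun θ => chf θ ^ n) ((√(n : ℝ))⁻¹ • u) - Real.exp (-(∑ c, u c ^ 2) / 6)|)
    (f := fun _ => (0 : ℝ))
    (fun u => Real.exp (-b * ∑ c, u c ^ 2) + Real.exp (-(1 / 6) * ∑ c, u c ^ 2)) ?_ ?_
    ((gauss_integrable hb0).add (gauss_integrable (by norm_num))) ?_
  · simpa only [integral_zero] using h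
  · refine Eventually.of_forall fun n => ?_
    exact continuous_abs.comp_aestronglyMeasurable ((b2_aesm n).sub
      (Continuous.aestronglyMeasurable (by fun_prop)))
  · filter_upwards [eventually_gt_atTop 0] with n hn
    refine Eventually.of_forall fun u => ?_
    rw [Real.norm_eq_abs, abs_abs]
    refine (abs_sub _ _).trans (add_le_add (b2_bd hb hn u) ?_)
    rw [abs_of_pos (Real.exp_pos _)]
    exact le_of_eq (by congr 1; ring)
  · refine Eventually.of_forall fun u => ?_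
    have h1 : Tendsto (fun n : ℕ => (n : ℝ) * (chf ((√(n : ℝ))⁻¹ • u) - 1)) atTop
        (𝓝 (-(∑ c, u c ^ 2) / 6)) := by
      have := (((b2_cos (u 0)).add (b2_cos (u 1))).add (b2_cos (u 2))).div_const 3
      convert this using 2
      · simp only [chf, Fin.sum_univ_three, Pi.smul_apply, smul_eq_mul]; ring
      · rw [Fin.sum_univ_three]; ring
    have h2 := ((Real.tendsto_one_add_pow_exp_of_tendsto h1).sub_const
      (Real.exp (-(∑ c, u c ^ 2) / 6))).abs
    rw [sub_self, abs_zero] at h2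
    refine h2.congr' ?_
    filter_upwards [b2_ev u] with n hn
    rw [Set.indicator_of_mem hn]
    simp

end Pool.Agent.MP_3a8451_pr

end

-- part Lp/B3
section

/-! The local limit theorem. -/

open Finset MeasureTheory Filter Topology

namespace Pool.Agent.MP_3a8451_pr

lemma psi_pos {t : ℝ} (ht : 0 < t) (y : Fin 3 → ℝ) : 0 < psi t y := by
  have := Real.pi_pos
  unfold psi
  positivity

lemma psi_scale {a t : ℝ} (ha : 0 < a) (ht : 0 < t) (y : Fin 3 → ℝ) :
    psi (a ^ 2 * t) (fun c => a * y c) = psi t y / a ^ 3 := by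
  have := Real.pi_pos
  have e1 : √(3 / (2 * Real.pi * (a ^ 2 * t))) = √(3 / (2 * Real.pi * t)) / a := by
    rw [show 3 / (2 * Real.pi * (a ^ 2 * t)) = 3 / (2 * Real.pi * t) / a ^ 2 by field_simp,
      Real.sqrt_div' _ (by positivity), Real.sqrt_sq ha.le]
  have e2 : -(3 * ∑ c, (a * y c) ^ 2) / (2 * (a ^ 2 * t)) = -(3 * ∑ c, y c ^ 2) / (2 * t) := by
    simp only [mul_pow, ← mul_sum]; field_simp
  unfold psi
  rw [e1, e2]
  field_simp

lemma b3_cv {n : ℕ} (hn : 0 < n) (z : V) :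
    √(n : ℝ) ^ 3 * ∫ θ in HH, chf θ ^ n * Real.cos (∑ c, θ c * z c) =
      ∫ u : Fin 3 → ℝ, HH.indicator (fun θ => chf θ ^ n) ((√(n : ℝ))⁻¹ • u) *
        Real.cos (∑ c, u c * (z c / √(n : ℝ))) := by
  have hn' : 0 < √(n : ℝ) := Real.sqrt_pos.2 (by exact_mod_cast hn)
  have h := Measure.integral_comp_smul (volume : Measure (Fin 3 → ℝ))
    (HH.indicator fun θ => chf θ ^ n * Real.cos (∑ c, θ c * z c)) (√(n : ℝ))⁻¹
  rw [integral_indicator b2_meas, Module.finrank_fin_fun, inv_pow, inv_inv,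
    abs_of_pos (by positivity), smul_eq_mul] at h
  rw [← h]
  refine integral_congr_ae (Eventually.of_forall fun u => ?_)
  simp only [Set.indicator_mul_left]
  congr 2
  exact sum_congr rfl fun c _ => by simp only [Pi.smul_apply, smul_eq_mul]; ring

lemma lclt_add {ε : ℝ} (hε : 0 < ε) : ∃ n0 : ℕ, ∀ n ≥ n0, ∀ z : V, Even ((n : ℤ) + ∑ c, z c) →
    |√(n : ℝ) ^ 3 * PT n z - psi 1 fun c => z c / √(n : ℝ)| ≤ ε := by
  obtain ⟨b, hb0, hb⟩ := chf_bound
  obtain ⟨n0, hn0⟩ := eventually_atTop.1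
    ((chf_tendsto.eventually (eventually_le_nhds hε)).and (eventually_gt_atTop 0))
  refine ⟨n0, fun n hn z hz => ?_⟩
  obtain ⟨h1, h2⟩ := hn0 n hn
  have hp := Real.pi_gt_three
  have hc : AEStronglyMeasurable
      (fun u : Fin 3 → ℝ => Real.cos (∑ c, u c * (z c / √(n : ℝ)))) volume :=
    Continuous.aestronglyMeasurable (by fun_prop)
  have hc' : ∀ᵐ u : Fin 3 → ℝ, ‖Real.cos (∑ c, u c * (z c / √(n : ℝ)))‖ ≤ 1 :=
    Eventually.of_forall fun u => Real.abs_cos_le_one _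
  have i1 : Integrable fun u : Fin 3 → ℝ =>
      HH.indicator (fun θ => chf θ ^ n) ((√(n : ℝ))⁻¹ • u) :=
    (gauss_integrable hb0).mono' (b2_aesm n) (Eventually.of_forall fun u => b2_bd hb h2 u)
  have i2 : Integrable fun u : Fin 3 → ℝ => Real.exp (-(∑ c, u c ^ 2) / 6) :=
    (gauss_integrable (b := 1 / 6) (by norm_num)).congr
      (Eventually.of_forall fun u => by simp only; congr 1; ring)
  rw [fourier hz, mul_left_comm, b3_cv h2, ← gauss, ← mul_sub,
    ← integral_sub (i1.mul_bdd hc hc') (i2.mul_bdd hc hc'), abs_mul]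
  refine le_trans (mul_le_of_le_one_left (abs_nonneg _) ?_) (le_trans ?_ h1)
  · have : (1 : ℝ) ≤ Real.pi ^ 3 := one_le_pow₀ (by linarith only [hp])
    rw [abs_of_pos (by positivity), div_le_one (by positivity)]
    linarith only [this]
  · refine abs_integral_le_integral_abs.trans (integral_mono_of_nonneg
      (Eventually.of_forall fun _ => abs_nonneg _) (i1.sub i2).abs
      (Eventually.of_forall fun u => ?_))
    simp only [← sub_mul, abs_mul]
    exact mul_le_of_le_one_right (abs_nonneg _) (Real.abs_cos_le_one _)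

lemma lclt (A : ℝ) {η : ℝ} (hη : 0 < η) : ∃ n0 : ℕ, 1 ≤ n0 ∧ ∀ n ≥ n0, ∀ z : V,
    Even ((n : ℤ) + ∑ c, z c) → ∑ c, (z c : ℝ) ^ 2 ≤ A * n →
      (psi n fun c => z c) ≤ (1 + η) * PT n z ∧ PT n z ≤ (1 + η) * psi n fun c => z c := by
  have hp := Real.pi_pos
  set κ : ℝ := 2 * √(3 / (2 * Real.pi * 1)) ^ 3 * Real.exp (-(3 * A) / (2 * 1)) with hκ
  have κ0 : 0 < κ := by positivity
  obtain ⟨n0, h⟩ := lclt_add (ε := κ * η / (1 + η)) (by positivity)
  refine ⟨max n0 1, le_max_right _ _, fun n hn z hz hA => ?_⟩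
  have hn1 : (0 : ℝ) < n := by exact_mod_cast (le_max_right _ _).trans hn
  have hs : 0 < √(n : ℝ) := Real.sqrt_pos.2 hn1
  have h1 := abs_le.1 (h n ((le_max_left _ _).trans hn) z hz)
  have e : (psi n fun c => z c) = (psi 1 fun c => z c / √(n : ℝ)) / √(n : ℝ) ^ 3 := by
    rw [← psi_scale hs one_pos, Real.sq_sqrt hn1.le, mul_one]
    congr 1
    funext c
    field_simp
  have hk : κ ≤ psi 1 fun c => z c / √(n : ℝ) := by
    have : ∑ c, ((z c : ℝ) / √(n : ℝ)) ^ 2 ≤ A := by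
      simp only [div_pow, Real.sq_sqrt hn1.le, ← sum_div]
      rwa [div_le_iff₀ hn1]
    rw [hκ, psi]
    gcongr
  set p := psi 1 fun c => z c / √(n : ℝ)
  set q := √(n : ℝ) ^ 3 * PT n z with hq
  have h3 : 0 < √(n : ℝ) ^ 3 := by positivity
  have e2 : κ * η / (1 + η) * (1 + η) = κ * η := by field_simp
  have e3 : κ * η / (1 + η) ≤ κ * η := div_le_self (by positivity) (by linarith only [hη])
  have e4 : κ * η ≤ p * η := by gcongr
  rw [e]
  constructor
  · rw [div_le_iff₀ h3, mul_assoc, mul_comm (PT n z), ← hq]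
    have : (p - κ * η / (1 + η)) * (1 + η) ≤ q * (1 + η) := by gcongr; linarith only [h1.1]
    linarith only [e2, e4, this]
  · rw [← mul_div_assoc, le_div_iff₀ h3, mul_comm (PT n z), ← hq]
    linarith only [h1.2, e3, e4]

end Pool.Agent.MP_3a8451_pr

end

-- part Lp/B4
section

/-! Two-sided bounds for the Green function. -/

open Finset
open scoped ENNReal NNReal

namespace Pool.Agent.MP_3a8451_pr

lemma b4_half {n a b : ℕ} (hn : 1 ≤ n) (hb : n ≤ 3 * b + 2) (z : V) {t : ℝ} (ht : 0 < t) :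
    (Ex a fun s => Ex b fun u => ind (∃ c, t ≤ |(pos s c : ℝ)|) * ind (pos u = z - pos s)) ≤
      216 / (n * √n) * (4 * a ^ 2 / t ^ 4) := by
  have h := far_le (B := {w | ∃ c, t ≤ |(w c : ℝ)|}) (y := 0) ht (fun w hw => by simpa only [Pi.zero_apply, Int.cast_zero, sub_zero, Set.mem_ofPred_eq] using hw) a
  refine le_trans ?_ (mul_le_mul_of_nonneg_left h (by positivity))
  rw [← Ex_mul]
  refine Ex_mono fun s _ => ?_
  rw [Ex_mul, mul_comm]
  exact mul_le_mul (heat hn hb _) (ind_mono fun h => ⟨s, [], by simp, by simpa only [zero_add, Set.mem_ofPred_eq] using h⟩)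
    (ind_nonneg _) (by positivity)

lemma PT_far {n : ℕ} (hn : 1 ≤ n) {z : V} (hz : z ≠ 0) :
    PT n z ≤ 2 ^ 15 * √n / (nrm z : ℝ) ^ 4 := by
  obtain ⟨c, hc⟩ := exists_nrm z
  have hρ : (0 : ℝ) < nrm z := by
    refine Nat.cast_pos.2 (Nat.pos_of_ne_zero fun h => hz (funext fun c => ?_))
    simpa using nrm_le.1 h.le c
  have hc' : |(z c : ℝ)| = nrm z := by exact_mod_cast hc
  obtain ⟨a, b, hab, ha, hb⟩ : ∃ a b, n = a + b ∧ n ≤ 3 * a + 2 ∧ n ≤ 3 * b + 2 :=
    ⟨n / 2, n - n / 2, by omega, by omega, by omega⟩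
  have h1 := b4_half (a := a) hn hb z (half_pos hρ)
  have h2 := b4_half (a := b) hn ha z (half_pos hρ)
  rw [← Ex_comm] at h2
  have h3 : PT n z ≤ _ := le_trans ?_ (add_le_add h1 h2)
  · refine h3.trans ?_
    have n0 : (0 : ℝ) < n := Nat.cast_pos.2 hn
    have hs : 0 < √(n : ℝ) := Real.sqrt_pos.2 n0
    have e : (n : ℝ) = √n * √n := (Real.mul_self_sqrt n0.le).symm
    have hn' : (a : ℝ) ^ 2 + b ^ 2 ≤ n ^ 2 := by
      rw [hab]; push_cast; linarith only [mul_nonneg (Nat.cast_nonneg (α := ℝ) a) (Nat.cast_nonneg b)]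
    calc _ = 13824 * ((a : ℝ) ^ 2 + b ^ 2) / (n * √n) / (nrm z : ℝ) ^ 4 := by field_simp; ring
      _ ≤ 2 ^ 15 * (n : ℝ) ^ 2 / (n * √n) / (nrm z : ℝ) ^ 4 := by gcongr; norm_num
      _ = _ := by
        congr 1
        rw [div_eq_iff (by positivity)]
        linear_combination (2 ^ 15 * n : ℝ) * e
  · rw [PT, hab, Ex_append, ← Ex_add]
    refine Ex_mono fun s _ => ?_
    rw [← Ex_add]
    refine Ex_mono fun u _ => ?_
    rw [← ind_and, ← ind_and]
    refine ind_or_le fun h => ?_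
    have e : pos s + pos u = z := by simpa using h
    have e' : (pos s c : ℝ) + pos u c = z c := by exact_mod_cast congrFun e c
    have := abs_add_le (pos s c : ℝ) (pos u c)
    rw [e', hc'] at this
    by_cases h' : (nrm z : ℝ) / 2 ≤ |(pos s c : ℝ)|
    · exact Or.inl ⟨⟨c, h'⟩, by rw [← e]; simp⟩
    · exact Or.inr ⟨⟨c, by linarith only [this, h']⟩, by rw [← e]; simp⟩

lemma b4_tele {m : ℕ} (hm : 1 ≤ m) : 1 / (m * √(m : ℝ)) ≤ 4 * (1 / √(m : ℝ) - 1 / √(m + 1 : ℝ)) := by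
  have m0 : (1 : ℝ) ≤ m := by exact_mod_cast hm
  have hu : 0 < √(m : ℝ) := Real.sqrt_pos.2 (by linarith only [m0])
  have hv : 0 < √(m + 1 : ℝ) := Real.sqrt_pos.2 (by linarith only [m0])
  have e : √(m : ℝ) ^ 2 = m := Real.sq_sqrt (by linarith only [m0])
  have e' : √(m + 1 : ℝ) ^ 2 = m + 1 := Real.sq_sqrt (by linarith only [m0])
  generalize √(m : ℝ) = u at *
  generalize √(m + 1 : ℝ) = v at *
  have h1 : v ≤ 3 / 2 * u := abs_le_of_sq_le_sq' (by linarith only [m0, e, e']) (by positivity) |>.2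
  have h2 : (v - u) * (v + u) = 1 := by linear_combination e' - e
  have h3 : 1 / u - 1 / v = 1 / (u * v * (v + u)) := by
    field_simp
    linear_combination h2
  rw [h3, ← e, mul_one_div, div_le_div_iff₀ (by positivity) (by positivity)]
  calc 1 * (u * v * (v + u)) ≤ 1 * (u * (3 / 2 * u) * (3 / 2 * u + u)) := by gcongr
    _ ≤ _ := by linarith only [pow_pos hu 3]

lemma b4_tail (L N : ℕ) (z : V) : ∑ n ∈ range N, PT (L + 1 + n) z ≤ 864 / √(L + 1 : ℝ) := by
  have : ∑ n ∈ range N, PT (L + 1 + n) z ≤ 864 / √(L + 1 : ℝ) - 864 / √(L + 1 + N : ℝ) := by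
    induction N with
    | zero => simp
    | succ N ih =>
      have h1 : PT (L + 1 + N) z ≤ _ := heat (n := L + 1 + N) (by omega) (by omega) z
      have h2 := b4_tele (m := L + 1 + N) (by omega)
      rw [sum_range_succ]
      push_cast at h1 h2 ⊢
      rw [← add_assoc]
      simp only [div_eq_mul_inv] at *
      linarith
  exact this.trans (sub_le_self _ (by positivity))

lemma b4_head (z : V) : ∑ n ∈ range (nrm z ^ 2 + 1), PT n z ≤ 2 ^ 17 / (1 + nrm z) := by
  by_cases hz : z = 0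
  · subst hz
    simp only [nrm_zero, ne_eq, OfNat.ofNat_ne_zero, not_false_eq_true, zero_pow, zero_add,
      range_one, sum_singleton]
    exact (Ex_ind_le_one _ _).trans (by norm_num)
  have hρ : (1 : ℝ) ≤ nrm z := by
    refine Nat.one_le_cast.2 (Nat.pos_of_ne_zero fun h => hz (funext fun c => ?_))
    simpa using nrm_le.1 h.le c
  refine (sum_le_card_nsmul _ _ (2 ^ 15 * nrm z / (nrm z : ℝ) ^ 4) fun n hn => ?_).trans ?_
  · rcases Nat.eq_zero_or_pos n with rfl | h0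
    · exact (ind_neg (Ne.symm hz)).trans_le (by positivity)
    · refine (PT_far h0 hz).trans ?_
      gcongr
      refine Real.sqrt_le_iff.2 ⟨by positivity, ?_⟩
      exact_mod_cast Nat.lt_succ_iff.1 (mem_range.1 hn)
  · rw [card_range, nsmul_eq_mul]
    push_cast
    generalize (nrm z : ℝ) = ρ at *
    calc _ ≤ (ρ ^ 2 + ρ ^ 2) * (2 ^ 15 * ρ / ρ ^ 4) := by gcongr; exact one_le_pow₀ hρ
      _ = 2 ^ 17 / (ρ + ρ) := by field_simp; ring
      _ ≤ _ := by gcongr

lemma G_up : ∃ C : ℝ, 0 < C ∧ ∀ U x y, GG U x y ≤ ENNReal.ofReal (C * gg (x - y)) := by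
  refine ⟨2 ^ 17 + 1728, by norm_num, fun U x y => (GG_mono (Set.subset_univ U) x y).trans ?_⟩
  rw [GG_univ, ← gg_neg, neg_sub]
  generalize y - x = z
  refine ENNReal.tsum_le_of_sum_range_le fun N => ?_
  rw [← ENNReal.ofReal_sum_of_nonneg fun n _ => PT_nonneg n z]
  refine ENNReal.ofReal_le_ofReal ((sum_le_sum_of_subset_of_nonneg
    (range_mono (Nat.le_add_left N (nrm z ^ 2 + 1))) fun n _ _ => PT_nonneg n z).trans ?_)
  rw [sum_range_add, gg, add_mul, mul_one_div, mul_one_div]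
  refine add_le_add (b4_head z) ((b4_tail _ N z).trans ?_)
  have : (1 + nrm z : ℝ) / 2 ≤ √(((nrm z ^ 2 : ℕ) : ℝ) + 1) :=
    Real.le_sqrt_of_sq_le (by push_cast; nlinarith [sq_nonneg ((nrm z : ℝ) - 1)])
  calc _ ≤ 864 / ((1 + nrm z : ℝ) / 2) := by gcongr
    _ = _ := by field_simp; norm_num

lemma G_low : ∃ c : ℝ, 0 < c ∧ ∀ x y, ENNReal.ofReal (c * gg (x - y)) ≤ GG Set.univ x y := by
  obtain ⟨n0, h0, h⟩ := lclt 3 one_pos
  have n1 : (1 : ℝ) ≤ n0 := by exact_mod_cast h0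
  have hπ := Real.pi_pos
  refine ⟨n0 * (√(3 / (2 * Real.pi * (3 * n0))) ^ 3 * Real.exp (-(9 / 2))), by positivity,
    fun x y => ?_⟩
  rw [GG_univ, ← gg_neg, neg_sub]
  generalize y - x = z
  set L := n0 * (1 + nrm z) ^ 2 with hL
  obtain ⟨e, he, hp⟩ : ∃ e : ℕ, e ≤ 1 ∧ Even ((L : ℤ) + e + ∑ c, z c) := by
    rcases Int.even_or_odd ((L : ℤ) + ∑ c, z c) with h | h
    · exact ⟨0, zero_le_one, by simpa only [CharP.cast_eq_zero, add_zero] using h⟩
    · exact ⟨1, le_rfl, by simpa only [Nat.cast_one, add_right_comm] using h.add_one⟩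
  refine le_trans ?_ (ENNReal.tsum_comp_le_tsum_of_injective (f := fun i => L + e + 2 * i)
    (fun i j hij => by simpa using hij) _)
  refine le_trans ?_ (ENNReal.sum_le_tsum (range L))
  rw [← ENNReal.ofReal_sum_of_nonneg fun n _ => PT_nonneg _ z]
  refine ENNReal.ofReal_le_ofReal (le_trans ?_ (card_nsmul_le_sum _ _
    ((√(3 / (2 * Real.pi * (3 * n0))) / (1 + nrm z)) ^ 3 * Real.exp (-(9 / 2))) fun i hi => ?_))
  · rw [card_range, nsmul_eq_mul, hL, gg]
    push_cast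
    exact le_of_eq (by field_simp)
  have hi := mem_range.1 hi
  have hL1 : n0 ≤ L := Nat.le_mul_of_pos_right _ (by positivity)
  have hL2 : nrm z ^ 2 ≤ L :=
    (Nat.pow_le_pow_left (Nat.le_add_left _ _) 2).trans (Nat.le_mul_of_pos_left _ h0)
  have hp' : Even (((L + e + 2 * i : ℕ) : ℤ) + ∑ c, z c) := by
    push_cast
    rw [add_right_comm]
    exact hp.add (even_two_mul _)
  have h3 : L + e + 2 * i ≤ 3 * L := by omega
  have h4 : nrm z ^ 2 ≤ L + e + 2 * i := by omega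
  have h5 : n0 ≤ L + e + 2 * i := by omega
  generalize L + e + 2 * i = n at *
  have n2 : (0 : ℝ) < n := by exact_mod_cast h0.trans h5
  have h6 : ∑ c, (z c : ℝ) ^ 2 ≤ 3 * n := by
    refine (sum_le_card_nsmul _ _ (n : ℝ) fun c _ => ?_).trans (by simp)
    have : |(z c : ℝ)| ≤ nrm z := by exact_mod_cast le_nrm z c
    exact (sq_le_sq' (abs_le.1 this).1 (abs_le.1 this).2).trans (by exact_mod_cast h4)
  have h7 := (h n h5 z hp' h6).1
  have h8 : √(3 / (2 * Real.pi * (3 * n0))) / (1 + nrm z) ≤ √(3 / (2 * Real.pi * n)) := by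
    refine Real.le_sqrt_of_sq_le ?_
    rw [div_pow, Real.sq_sqrt (by positivity), div_div]
    have : (n : ℝ) ≤ 3 * (n0 * (1 + nrm z) ^ 2) := by exact_mod_cast h3
    exact div_le_div_of_nonneg_left (by norm_num) (by positivity) (by nlinarith only [hπ, this])
  have h9 : -(9 / 2 : ℝ) ≤ -(3 * ∑ c, (z c : ℝ) ^ 2) / (2 * n) := by
    rw [le_div_iff₀ (by positivity)]; linarith only [h6]
  have : _ ≤ √(3 / (2 * Real.pi * n)) ^ 3 * Real.exp (-(3 * ∑ c, (z c : ℝ) ^ 2) / (2 * n)) :=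
    mul_le_mul (pow_le_pow_left₀ (by positivity) h8 3) (Real.exp_le_exp.2 h9) (by positivity)
      (by positivity)
  rw [psi] at h7
  linarith only [h7, this]

lemma b4_grid (ρ : ℕ) : ∑ g ∈ grid ρ, gg g ≤ 27 * (ρ + 1) ^ 2 := by
  classical
  induction ρ with
  | zero =>
    refine (sum_le_card_nsmul _ _ 1 fun g _ => gg_le_one g).trans ?_
    rw [nsmul_eq_mul, card_grid]; norm_num
  | succ ρ ih =>
    have hs : grid ρ ⊆ grid (ρ + 1) := fun g hg => mem_grid'.2 ((mem_grid'.1 hg).trans ρ.le_succ)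
    rw [← sum_sdiff hs]
    have h1 := sum_le_card_nsmul (grid (ρ + 1) \ grid ρ) gg (1 / ((ρ + 2 : ℕ) : ℝ)) fun g hg =>
      gg_le (by omega) (by have := mem_grid'.not.1 (mem_sdiff.1 hg).2; omega)
    rw [nsmul_eq_mul, cast_card_sdiff hs, card_grid, card_grid, mul_one_div] at h1
    push_cast at h1 ⊢
    have h2 : ((2 * (ρ + 1) + 1) ^ 3 - (2 * ρ + 1) ^ 3 : ℝ) / (ρ + 2) ≤ 27 * (2 * ρ + 3) := by
      rw [div_le_iff₀ (by positivity)]
      nlinarith only []
    linarith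

lemma sum_gg (F : Finset V) (y : V) (ρ : ℕ) (h : ∀ x ∈ F, nrm (x - y) ≤ ρ) :
    ∑ x ∈ F, gg (x - y) ≤ 27 * (ρ + 1) ^ 2 := by
  refine le_trans ?_ (b4_grid ρ)
  rw [← sum_image (g := fun x => x - y) fun _ _ _ _ h => sub_left_injective h]
  refine sum_le_sum_of_subset_of_nonneg (fun g hg => ?_) fun g _ _ => (gg_pos g).le
  obtain ⟨x, hx, rfl⟩ := mem_image.1 hg
  exact mem_grid'.2 (h x hx)

lemma Ex_gg : ∃ C : ℝ, 0 < C ∧ ∀ m : ℕ, (Ex m fun s => gg (pos s)) ≤ C / √(m + 1) := by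
  refine ⟨216 * 54 + 1, by norm_num, fun m => ?_⟩
  have h1 : (Ex m fun s => gg (pos s)) ≤ ∑ z ∈ grid m.sqrt, gg z * (Ex m fun s => ind (pos s = z)) +
      1 / ((m.sqrt + 2 : ℕ) : ℝ) := by
    simp only [← Ex_mul, ← Ex_sum]
    rw [← Ex_const m (1 / _), ← Ex_add]
    refine Ex_mono fun s _ => ?_
    have h0 : ∀ z ∈ grid m.sqrt, 0 ≤ gg z * ind (pos s = z) := fun z _ =>
      mul_nonneg (gg_pos z).le (ind_nonneg _)
    by_cases h : pos s ∈ grid m.sqrt
    · refine le_trans ?_ ((single_le_sum h0 h).trans (le_add_of_nonneg_right (by positivity)))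
      rw [ind_pos rfl, mul_one]
    · exact (gg_le (by omega) (by have := mem_grid'.not.1 h; omega)).trans
        (le_add_of_nonneg_left (sum_nonneg h0))
  have h2 : ∑ z ∈ grid m.sqrt, gg z * (Ex m fun s => ind (pos s = z)) ≤
      (∑ z ∈ grid m.sqrt, gg z) * (216 / ((m + 1) * √(m + 1 : ℝ))) := by
    rw [sum_mul]
    refine sum_le_sum fun z _ => mul_le_mul_of_nonneg_left ?_ (gg_pos z).le
    exact_mod_cast heat (m := m) (n := m + 1) (by omega) (by omega) z
  have h3 : (m.sqrt : ℝ) * m.sqrt ≤ m := by exact_mod_cast Nat.sqrt_le m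
  have h4 : (m : ℝ) + 1 ≤ (m.sqrt + 1) * (m.sqrt + 1) := by exact_mod_cast Nat.lt_succ_sqrt m
  have h5 : √(m + 1 : ℝ) ≤ ((m.sqrt + 2 : ℕ) : ℝ) :=
    Real.sqrt_le_iff.2 ⟨by positivity, by push_cast; linarith only [h4]⟩
  have h6 : ∑ z ∈ grid m.sqrt, gg z ≤ 54 * (m + 1) :=
    (b4_grid _).trans (by linarith only [sq_nonneg ((m.sqrt : ℝ) - 1), h3])
  calc _ ≤ _ := h1
    _ ≤ 54 * (m + 1) * (216 / ((m + 1) * √(m + 1 : ℝ))) + 1 / √(m + 1 : ℝ) := by
      refine add_le_add (h2.trans ?_) ?_ <;> gcongr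
    _ = _ := by field_simp

end Pool.Agent.MP_3a8451_pr

end

-- part Lp/B5
section

/-! Hitting probabilities and killed Green functions. -/

open Finset
open scoped ENNReal NNReal

namespace Pool.Agent.MP_3a8451_pr

lemma b5_le_sum (x : V) (r : ℕ) {f : V → ℝ≥0∞} {β : ℝ≥0∞} (h : ∀ y ∈ Bx x r, β ≤ f y) :
    ENNReal.ofReal ((2 * r + 1) ^ 3) * β ≤ ∑' y, ie (y ∈ Bx x r) * f y := by
  refine le_trans ?_ (ENNReal.sum_le_tsum ((grid r).image (· + x)))
  rw [← card_grid, ENNReal.ofReal_natCast, ← card_image_of_injective _ (add_left_injective x),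
    ← nsmul_eq_mul]
  refine card_nsmul_le_sum _ _ _ fun y hy => ?_
  obtain ⟨g, hg, rfl⟩ := mem_image.1 hy
  have : g + x ∈ Bx x r := mem_Bx.2 (by simpa using mem_grid'.1 hg)
  rw [ie_pos this, one_mul]
  exact h _ this

lemma b5_end (B : Set V) (x : V) :
    (WF fun s => ie (x + pos s ∈ B)) = ∑' y, ie (y ∈ B) * GG Set.univ x y := by
  simp only [mul_comm (ie _), ← WF_GG, ie_pos (Set.subset_univ _), one_mul]

lemma b5_gg {u v : V} (h : nrm v ≤ 2 * nrm u + 1) : gg u ≤ 2 * gg v := by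
  have : (nrm v : ℝ) ≤ 2 * nrm u + 1 := by exact_mod_cast h
  rw [gg, gg, mul_one_div, div_le_div_iff₀ (by positivity) (by positivity)]
  linarith only [this]

lemma hit_up : ∃ C : ℝ, 0 < C ∧ ∀ (x z : V) (r : ℕ),
    (WF fun s => ie (Exit (Bx z r)ᶜ x s)) ≤ ENNReal.ofReal (C * (r + 1) * gg (x - z)) := by
  obtain ⟨C, hC, hu⟩ := G_up
  obtain ⟨c, hc, hl⟩ := G_low
  refine ⟨2 + 4 * C / c, by positivity, fun x z r => ?_⟩
  have hg := gg_pos (x - z)
  by_cases hd : nrm (x - z) ≤ 2 * r + 1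
  · refine (exit_le_one _ _).trans (ENNReal.one_le_ofReal.2 ?_)
    have := le_gg (v := x - z) (r := 2 * r + 2) (by omega)
    rw [div_le_iff₀ (by positivity)] at this
    push_cast at this
    have h2 : 0 ≤ 4 * C / c * (r + 1) * gg (x - z) := by positivity
    linarith only [this, h2]
  have h1 : (WF fun s => ie (Exit (Bx z r)ᶜ x s)) *
      (ENNReal.ofReal ((2 * r + 1) ^ 3) * ENNReal.ofReal (c * (1 / ((2 * r + 1 : ℕ) : ℝ)))) ≤
      ENNReal.ofReal ((2 * r + 1) ^ 3) * ENNReal.ofReal (C * (2 * gg (x - z))) := by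
    refine le_trans ?_ (le_trans (WF_append_le (F := fun s => ie (x + pos s ∈ Bx z r))
      (Φ := fun a b => ie (Exit (Bx z r)ᶜ x a) * ie (x + pos a + pos b ∈ Bx z r))
      (fun a b => ie_mul_le fun _ => by rw [pos_append, add_assoc]) fun a b a' b' h h' e =>
      exit_unique (of_ie_ne (left_ne_zero_of_mul h)) (of_ie_ne (left_ne_zero_of_mul h')) e) ?_)
    · rw [← WF_mul_right]
      refine WF_mono fun a => ie_mul_le fun h => ?_
      rw [WF_mul_left, ie_pos h, one_mul, b5_end]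
      refine b5_le_sum z r fun y hy => le_trans (ENNReal.ofReal_le_ofReal ?_) (hl _ y)
      have h1 := mem_Bx.1 (not_not.1 h.1)
      have h2 := mem_Bx.1 hy
      have h3 := nrm_tri (x + pos a) z y
      rw [nrm_comm] at h2
      exact mul_le_mul_of_nonneg_left (le_gg (by omega)) hc.le
    · rw [b5_end]
      refine sum_Bx_le z r fun y hy => (hu _ x y).trans (ENNReal.ofReal_le_ofReal ?_)
      have h2 := mem_Bx.1 hy
      have h3 := nrm_tri x y z
      exact mul_le_mul_of_nonneg_left (b5_gg (by omega)) hC.le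
  rw [mul_left_comm, ENNReal.mul_le_mul_iff_right (by simp only [ne_eq, ENNReal.ofReal_eq_zero, not_le]; positivity) ENNReal.ofReal_ne_top,
    ← ENNReal.le_div_iff_mul_le (Or.inl (by simp only [Nat.cast_add, Nat.cast_mul, Nat.cast_ofNat, Nat.cast_one, one_div, ne_eq, ENNReal.ofReal_eq_zero, not_le]; positivity)) (Or.inl ENNReal.ofReal_ne_top),
    ← ENNReal.ofReal_div_of_pos (by positivity)] at h1
  refine h1.trans (ENNReal.ofReal_le_ofReal ?_)
  push_cast
  calc _ = 2 * C / c * (2 * r + 1) * gg (x - z) := by field_simp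
    _ ≤ 2 * C / c * (2 * (r + 1)) * gg (x - z) := by gcongr; linarith only []
    _ = 4 * C / c * (r + 1) * gg (x - z) := by ring
    _ ≤ _ := by gcongr; linarith only []

lemma b5_split (W : Set V) (x y : V) : GG Set.univ x y ≤
    GG W x y + WF fun a => ie (Exit W x a) * GG Set.univ (x + pos a) y := by
  refine le_trans (WF_mono (G := fun s => ie (tr x s ⊆ W ∧ x + pos s = y) +
    ie (¬ tr x s ⊆ W ∧ x + pos s = y)) fun s => ie_or_le fun h => by tauto) ?_
  rw [WF_add]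
  refine add_le_add le_rfl ((WF_le_append (Φ := fun a b => ie (Exit W x a) *
    ie (tr (x + pos a) b ⊆ Set.univ ∧ x + pos a + pos b = y)) fun s hs => ?_).trans_eq
    (WF_congr fun a => WF_mul_left _ _))
  obtain ⟨h1, h2⟩ := of_ie_ne hs
  obtain ⟨a, b, rfl, h⟩ := exit_split h1
  refine ⟨a, b, rfl, (ie_le_one _).trans_eq ?_⟩
  rw [ie_pos h, ie_pos ⟨Set.subset_univ _, by rw [← h2, pos_append, add_assoc]⟩, one_mul]

lemma b5_num {M r a b d : ℕ} (ha : M * (r + 1) ≤ a) (hb : M * (r + 1) ≤ b) (hd : d ≤ a + b) :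
    M * (r + 1) * (1 + d) ≤ 2 * ((1 + a) * (1 + b)) := by
  rcases le_total a b with h | h
  · calc _ ≤ (1 + a) * (2 * (1 + b)) := Nat.mul_le_mul (by omega) (by omega)
      _ = _ := by ring
  · calc _ ≤ (1 + b) * (2 * (1 + a)) := Nat.mul_le_mul (by omega) (by omega)
      _ = _ := by ring

lemma G_mid : ∃ (M1 : ℕ) (c : ℝ), 1 ≤ M1 ∧ 0 < c ∧ ∀ (W : Set V) (x y z : V) (r : ℕ),
    (∀ w ∉ W, M1 * (nrm (x - y) + 1) ≤ nrm (w - x) ∨ w ∈ Bx z r) →
    M1 * (r + 1) ≤ nrm (x - z) → M1 * (r + 1) ≤ nrm (y - z) →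
    ENNReal.ofReal (c * gg (x - y)) ≤ GG W x y := by
  obtain ⟨C, hC, hu⟩ := G_up
  obtain ⟨c, hc, hl⟩ := G_low
  obtain ⟨E, hE, hh⟩ := hit_up
  obtain ⟨M, hM⟩ := exists_nat_ge ((C + 4 * C * E) / (c / 2))
  have M0 : (0 : ℝ) < M := lt_of_lt_of_le (by positivity) hM
  have M1 : 1 ≤ M := by exact_mod_cast M0
  rw [div_le_iff₀ (by positivity)] at hM
  refine ⟨M + 1, c / 2, by omega, by positivity, fun W x y z r hW hx hy => ?_⟩
  have hg := gg_pos (x - y)
  have h1 : (WF fun a => ie (Exit (W ∩ (Bx z r)ᶜ) x a) * GG Set.univ (x + pos a) y) ≤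
      ENNReal.ofReal (C / M * gg (x - y)) +
        ENNReal.ofReal (E * (r + 1) * gg (x - z)) * ENNReal.ofReal (C * (2 * gg (y - z))) := by
    refine le_trans (WF_mono (G := fun a => ie (Exit (W ∩ (Bx z r)ᶜ) x a) *
      ENNReal.ofReal (C / M * gg (x - y)) + ie (Exit (Bx z r)ᶜ x a) *
        ENNReal.ofReal (C * (2 * gg (y - z)))) fun a => ie_mul_le fun h => ?_) ?_
    · have h3 := nrm_tri (x + pos a) y x
      have h4 := nrm_tri y (x + pos a) z
      rw [nrm_comm y x] at h3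
      rw [nrm_comm y (x + pos a)] at h4
      by_cases hw : x + pos a ∈ Bx z r
      · have e : Exit (Bx z r)ᶜ x a := ⟨not_not.2 hw, fun t ht => (h.2 t ht).2⟩
        rw [ie_pos e, one_mul]
        refine ((hu _ _ _).trans (ENNReal.ofReal_le_ofReal ?_)).trans le_add_self
        have := mem_Bx.1 hw
        have : 2 * (r + 1) ≤ (M + 1) * (r + 1) := Nat.mul_le_mul_right _ (by omega)
        exact mul_le_mul_of_nonneg_left (b5_gg (by omega)) hC.le
      · rw [ie_pos h, one_mul]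
        refine ((hu _ _ _).trans (ENNReal.ofReal_le_ofReal ?_)).trans le_self_add
        have h5 := (hW _ fun h' => h.1 ⟨h', hw⟩).resolve_right hw
        have h6 := gg_le (v := x + pos a - y) (r := M * (nrm (x - y) + 1))
          (Nat.mul_pos M1 (by omega)) (by rw [add_mul] at h5; omega)
        refine (mul_le_mul_of_nonneg_left h6 hC.le).trans_eq ?_
        rw [gg]
        push_cast
        field_simp
        ring
    · rw [WF_add, WF_mul_right, WF_mul_right]
      exact add_le_add (mul_le_of_le_one_left' (exit_le_one _ _)) (mul_le_mul_left (hh x z r) _)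
  have h2 : C / M * gg (x - y) + E * (r + 1) * gg (x - z) * (C * (2 * gg (y - z))) ≤
      c / 2 * gg (x - y) := by
    have h3 := nrm_tri x z y
    rw [nrm_comm z] at h3
    have h4 : (M : ℝ) * (r + 1) * (1 + nrm (x - y)) ≤
        2 * ((1 + nrm (x - z)) * (1 + nrm (y - z))) := by
      exact_mod_cast b5_num (le_trans (Nat.mul_le_mul_right _ M.le_succ) hx)
        (le_trans (Nat.mul_le_mul_right _ M.le_succ) hy) h3
    have h5 : (r + 1) * gg (x - z) * gg (y - z) ≤ 2 / M * gg (x - y) := by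
      rw [gg, gg, gg, mul_one_div, mul_one_div, mul_one_div, div_div, div_div,
        div_le_div_iff₀ (by positivity) (by positivity)]
      linarith only [h4]
    calc _ = C / M * gg (x - y) + 2 * C * E * ((r + 1) * gg (x - z) * gg (y - z)) := by ring
      _ ≤ C / M * gg (x - y) + 2 * C * E * (2 / M * gg (x - y)) := by gcongr
      _ = (C + 4 * C * E) / M * gg (x - y) := by ring
      _ ≤ _ := mul_le_mul_of_nonneg_right (by rw [div_le_iff₀ M0]; linarith only [hM]) hg.le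
  have hx0 := gg_pos (x - z)
  have hy0 := gg_pos (y - z)
  rw [← ENNReal.ofReal_mul (by positivity), ← ENNReal.ofReal_add (by positivity) (by positivity)]
    at h1
  have h3 := (hl x y).trans ((b5_split (W ∩ (Bx z r)ᶜ) x y).trans (add_le_add
    (GG_mono Set.inter_subset_left x y) (h1.trans (ENNReal.ofReal_le_ofReal h2))))
  rw [← add_halves c, add_mul, ENNReal.ofReal_add (by positivity) (by positivity), add_halves] at h3
  exact ENNReal.le_of_add_le_add_right ENNReal.ofReal_ne_top h3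

lemma G_kill : ∃ (M1 : ℕ) (c : ℝ), 1 ≤ M1 ∧ 0 < c ∧ ∀ (z x y : V) (r : ℕ), 1 ≤ r →
    x ∈ Bx z r → y ∈ Bx z r → ENNReal.ofReal (c / r) ≤ GG (Bx z (M1 * r)) x y := by
  obtain ⟨M, c, hM, hc, h⟩ := G_mid
  refine ⟨3 * M + 1, c / 3, by omega, by positivity, fun z x y r hr hx hy => ?_⟩
  rw [mem_Bx] at hx hy
  have h1 := nrm_tri x z y
  rw [nrm_comm z] at h1
  have h2 : M + nrm (x - y) ≤ nrm (x - (x - fun _ => ((M + nrm (x - y) : ℕ) : ℤ))) := by
    have := le_nrm (x - (x - fun _ => ((M + nrm (x - y) : ℕ) : ℤ))) 0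
    simp only [sub_sub_cancel, Nat.abs_cast] at this ⊢
    exact_mod_cast this
  have h3 := nrm_tri x y (x - fun _ => ((M + nrm (x - y) : ℕ) : ℤ))
  refine le_trans (ENNReal.ofReal_le_ofReal ?_) (h _ x y _ 0 (fun w hw => Or.inl ?_)
    (le_trans (by omega) h2) (by omega))
  · have := le_gg (v := x - y) (r := 3 * r) (by omega)
    push_cast at this
    exact le_trans (le_of_eq (by ring)) (mul_le_mul_of_nonneg_left this hc.le)
  · have h4 := mem_Bx.not.1 hw
    have h5 := nrm_tri w x z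
    have h6 : M * (nrm (x - y) + 1) ≤ M * (3 * r) := Nat.mul_le_mul_left _ (by omega)
    have h7 : (3 * M + 1) * r = M * (3 * r) + r := by ring
    omega

end Pool.Agent.MP_3a8451_pr

end

-- part Lp/B6
section

/-! Capacity estimates. -/

open Finset
open scoped ENNReal NNReal

namespace Pool.Agent.MP_3a8451_pr

lemma b6_cap {U K : Set V} {z : V} {r : ℕ} (h : K ⊆ Bx z r) :
    cap U K ≤ ENNReal.ofReal ((2 * r + 1) ^ 3) := by
  refine le_trans (ENNReal.tsum_le_tsum fun x => mul_le_mul_left (ie_mono fun hx => h hx) _)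
    ((sum_Bx_le z r (β := 1) fun x _ => ?_).trans_eq (mul_one _))
  exact (WF_mono fun s => ie_mono fun h => h.1).trans (exit_le_one U x)

lemma cap_ne_top {U K : Set V} {z : V} {r : ℕ} (h : K ⊆ Bx z r) : cap U K ≠ ∞ := by
  exact ne_top_of_le_ne_top ENNReal.ofReal_ne_top (b6_cap h)

lemma uu_ne_top (R : ℕ) (O : Set V) : uu R O ≠ ∞ := by
  refine ne_top_of_le_ne_top ENNReal.ofReal_ne_top
    ((sum_Bx_le 0 R (β := 1) fun x _ => ?_).trans_eq (mul_one _))
  refine (WF_mono fun s => ie_mul_le fun h => ?_).trans (exit_le_one Oᶜ x)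
  rw [ie_pos h.1]
  exact ENNReal.ofReal_le_one.2 (gg_le_one _)

lemma cap_up0 : ∃ (M1 : ℕ) (C : ℝ), 1 ≤ M1 ∧ 0 < C ∧ ∀ (z : V) (r : ℕ) (Q U : Set V), 1 ≤ r →
    Q ⊆ Bx z r → Bx z (M1 * r) ⊆ U → cap U Q ≤ ENNReal.ofReal (C * r) := by
  obtain ⟨M, c, hM, hc, h⟩ := G_kill
  refine ⟨M, 1 / c, hM, by positivity, fun z r Q U hr hQ hU => ?_⟩
  have r0 : (0 : ℝ) < r := by exact_mod_cast hr
  have h1 : cap U Q * ENNReal.ofReal (c / r) ≤ 1 := by
    refine le_trans ?_ ((WF_append_le (F := fun s => ie (Exit U z s)) (Φ := fun a b =>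
      ie (tr z a ⊆ U) * (ie (z + pos a ∈ Q) * ie (Exit U (z + pos a) b ∧ NoRet Q (z + pos a) b)))
      (fun a b => ie_mul_le fun h1 => ie_mul_le fun _ => ie_mono fun h2 => Exit.append h1 h2.1)
      fun a b a' b' h h' e => ?_).trans (exit_le_one U z))
    · simp only [WF_mul_left]
      rw [WF_GG U z fun x => ie (x ∈ Q) * WF fun b => ie (Exit U x b ∧ NoRet Q x b), cap,
        ← ENNReal.tsum_mul_right]
      refine ENNReal.tsum_le_tsum fun x => ?_
      rw [mul_assoc]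
      refine ie_mul_le fun hx => ?_
      rw [ie_pos hx, one_mul, mul_comm]
      exact mul_le_mul_left ((h z z x r hr (self_mem_Bx z r) (hQ hx)).trans (GG_mono hU z x)) _
    · have h := right_ne_zero_of_mul h
      have h' := right_ne_zero_of_mul h'
      exact last_unique (of_ie_ne (left_ne_zero_of_mul h)) (of_ie_ne (right_ne_zero_of_mul h)).2
        (of_ie_ne (left_ne_zero_of_mul h')) (of_ie_ne (right_ne_zero_of_mul h')).2 e
  rw [← ENNReal.le_div_iff_mul_le (Or.inl (by simp only [ne_eq, ENNReal.ofReal_eq_zero, not_le]; positivity)) (Or.inl ENNReal.ofReal_ne_top),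
    ← ENNReal.ofReal_one, ← ENNReal.ofReal_div_of_pos (by positivity)] at h1
  exact h1.trans_eq (by congr 1; field_simp)

lemma cap_up : ∃ C : ℝ, 0 < C ∧ ∀ (z : V) (r : ℕ) (Q U : Set V), 1 ≤ r →
    Q ⊆ Bx z (32 * r) → (∀ x ∈ Q, Bx x (2 * r) ⊆ U) → cap U Q ≤ ENNReal.ofReal (C * r) := by
  obtain ⟨M, C, hM, hC, h⟩ := cap_up0
  refine ⟨(2 * (64 * M : ℕ) + 1) ^ 3 * (1 + 2 * C), by positivity, fun z r Q U hr hQ hU => ?_⟩
  have r1 : (1 : ℝ) ≤ r := by exact_mod_cast hr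
  rcases lt_or_ge r M with hM' | hM'
  · refine (b6_cap hQ).trans (ENNReal.ofReal_le_ofReal ?_)
    have : ((32 * r : ℕ) : ℝ) ≤ (64 * M : ℕ) := by exact_mod_cast (by omega : 32 * r ≤ 64 * M)
    calc _ ≤ (2 * ((64 * M : ℕ) : ℝ) + 1) ^ 3 * 1 * 1 := by rw [mul_one, mul_one]; gcongr
      _ ≤ _ := by gcongr; linarith only [hC]
  obtain ⟨ρ, h1, h2, h3⟩ : ∃ ρ, 1 ≤ ρ ∧ M * ρ ≤ r ∧ r ≤ 2 * (M * ρ) := by
    have := Nat.div_pos hM' hM
    have := Nat.lt_mul_div_succ r hM
    have := Nat.le_mul_of_pos_right M (Nat.div_pos hM' hM)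
    exact ⟨r / M, by omega, Nat.mul_div_le r M, by rw [mul_add] at *; omega⟩
  have h4 : ρ ≤ r := (Nat.le_mul_of_pos_left ρ hM).trans h2
  calc cap U Q ≤ ∑ g ∈ grid (64 * M), cap U (Q ∩ Bx (fun c => z c + ρ * g c) ρ) := by
        simp only [cap]
        rw [← Summable.tsum_finsetSum fun _ _ => ENNReal.summable]
        refine ENNReal.tsum_le_tsum fun x => ie_mul_le fun hx => ?_
        obtain ⟨g, hg, hx'⟩ := cover (x := z) (y := x) (L := ρ) (m := 64 * M)
          (by exact_mod_cast h1) (Box_mono (by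
            have : 32 * r ≤ 64 * M * ρ := by rw [mul_assoc]; omega
            exact_mod_cast this) (hQ hx))
        refine le_trans ?_ (single_le_sum (fun _ _ => zero_le) hg)
        rw [ie_pos (show x ∈ Q ∩ Bx (fun c => z c + ρ * g c) ρ from ⟨hx, hx'⟩), one_mul]
        exact WF_mono fun s => ie_mono fun h => ⟨h.1, h.2.mono Set.inter_subset_left⟩
    _ ≤ (grid (64 * M)).card • ENNReal.ofReal ((1 + 2 * C) * r) := by
        refine sum_le_card_nsmul _ _ _ fun g _ => ?_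
        rcases (Q ∩ Bx (fun c => z c + ρ * g c) ρ).eq_empty_or_nonempty with e | ⟨x, hx, hx'⟩
        · simp only [cap, ie, e, Set.mem_empty_iff_false, ↓ reduceIte, zero_mul, tsum_zero, zero_le]
        refine (h x (2 * ρ) _ U (by omega) (Set.inter_subset_right.trans (Bx_sub ?_))
          ((Bx_mono ?_).trans (hU x hx))).trans (ENNReal.ofReal_le_ofReal ?_)
        · have := mem_Bx.1 hx'
          rw [nrm_comm]; omega
        · rw [mul_left_comm]; omega
        · have : (ρ : ℝ) ≤ r := by exact_mod_cast h4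
          push_cast
          nlinarith only [hC, this]
    _ = _ := by
        rw [nsmul_eq_mul, ← ENNReal.ofReal_natCast, card_grid,
          ← ENNReal.ofReal_mul (by positivity), mul_assoc]

lemma cap_low : ∃ c : ℝ, 0 < c ∧ ∀ r R : ℕ, r ≤ R →
    ENNReal.ofReal (c * (r + 1)) ≤ cap (Bx 0 R) (Bx 0 r) := by
  obtain ⟨C, hC, hu⟩ := G_up
  refine ⟨1 / C, by positivity, fun r R h => ?_⟩
  have h1 : 1 ≤ ENNReal.ofReal (C * (1 / (1 + r))) * cap (Bx 0 R) (Bx 0 r) := by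
    rw [← exit_eq_one (subset_refl (Bx 0 R)) 0]
    refine (WF_le_append (Φ := fun a b => ie (tr 0 a ⊆ Set.univ) *
      (ie (nrm (0 + pos a) = r) * ie (Exit (Bx 0 R) (0 + pos a) b ∧ NoRet (Bx 0 r) (0 + pos a) b)))
      fun s hs => ?_).trans ?_
    · obtain ⟨a, b, rfl, h1, h2⟩ := last_split ⟨0, start_mem_tr 0 s, self_mem_Bx 0 r⟩
      have h3 := (of_ie_ne hs).right
      have h4 := h2.nrm_eq (h3.ne_nil (Bx_mono h h1)) h1
      rw [sub_zero] at h4
      refine ⟨a, b, rfl, (ie_le_one _).trans_eq ?_⟩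
      rw [ie_pos (Set.subset_univ _), ie_pos h4, ie_pos ⟨h3, h2⟩, one_mul, one_mul]
    · simp only [WF_mul_left]
      rw [WF_GG Set.univ 0 fun x => ie (nrm x = r) *
        WF fun b => ie (Exit (Bx 0 R) x b ∧ NoRet (Bx 0 r) x b), cap, ← ENNReal.tsum_mul_left]
      refine ENNReal.tsum_le_tsum fun x => ?_
      rw [mul_left_comm]
      refine ie_mul_le fun hx => ?_
      rw [ie_pos (mem_Bx0.2 hx.le), one_mul]
      refine mul_le_mul_left ((hu _ 0 x).trans_eq ?_) _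
      rw [zero_sub, gg_neg, gg, hx]
  rw [← ENNReal.div_le_iff' (by simp only [one_div, ne_eq, ENNReal.ofReal_eq_zero, not_le]; positivity) ENNReal.ofReal_ne_top, ← ENNReal.ofReal_one,
    ← ENNReal.ofReal_div_of_pos (by positivity)] at h1
  exact le_trans (le_of_eq (by congr 1; field_simp; ring)) h1

lemma uu_box {ρ R : ℕ} (h : ρ ≤ R) :
    uu ρ (Bx 0 R)ᶜ = cap (Bx 0 R) (Bx 0 ρ) * ENNReal.ofReal (1 / (R + 2)) := by
  rw [uu, cap, compl_compl, ← ENNReal.tsum_mul_right]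
  refine tsum_congr fun z => ?_
  by_cases hz : z ∈ Bx 0 ρ
  · rw [mul_assoc, ← WF_mul_right]
    refine congrArg _ (WF_congr fun s => ?_)
    by_cases hs : Exit (Bx 0 R) z s ∧ NoRet (Bx 0 ρ) z s
    · have := hs.1.nrm_eq (Bx_mono h hz)
      rw [sub_zero] at this
      rw [gg, this]
      congr 3
      push_cast
      ring
    · simp only [ie_neg hs, zero_mul, one_div]
  · simp only [ie_neg hz, zero_mul, one_div]

lemma good_box : ∃ A0 : ℝ, ∀ (c : V) (r r0 : ℕ), 1 ≤ r → r ≤ r0 →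
    Meets (Bx 0 r0) (Bx c (32 * r)) → Good A0 (Bx 0 r0) c r := by
  refine ⟨27, fun c r r0 hr h0 ⟨p, h1, h2⟩ => ?_⟩
  have r0' : (0 : ℝ) < r := by exact_mod_cast hr
  obtain ⟨q, hq⟩ : ∃ q : V, ∀ i, ∀ t ∈ Icc (q i) (q i + r), |t| ≤ r0 ∧ |t - p i| ≤ r := by
    refine ⟨fun i => if 0 ≤ p i then p i - r else p i, fun i t ht => ?_⟩
    have := abs_le.1 (nrm_le.1 (mem_Bx0.1 h1) i)
    simp only [mem_Icc, abs_le] at ht ⊢
    split_ifs at ht <;> omega
  have hc : ((Fintype.piFinset fun i => Icc (q i) (q i + r)).card : ℝ) = (r + 1) ^ 3 := by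
    have : ∀ i, (Icc (q i) (q i + r)).card = r + 1 := fun i => by rw [Int.card_Icc]; omega
    simp only [Fintype.card_piFinset, this, prod_const, card_univ, Fintype.card_fin, Nat.cast_pow, Nat.cast_add, Nat.cast_one]
  refine ⟨Fintype.piFinset fun i => Icc (q i) (q i + r), fun _ => 1 / (r + 1) ^ 3,
    fun _ => by positivity, fun x hx => ⟨mem_Bx0.2 (nrm_le.2 fun i => ?_), mem_Bx.2 ?_⟩, ?_,
    fun y hy => ?_⟩
  · exact (hq i _ (Fintype.mem_piFinset.1 hx i)).1
  · have h3 : nrm (x - p) ≤ r := nrm_le.2 fun i => (hq i _ (Fintype.mem_piFinset.1 hx i)).2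
    have h4 := nrm_tri x p c
    have := mem_Bx.1 h2
    omega
  · rw [sum_const, nsmul_eq_mul, hc]
    field_simp
  · rw [← mul_sum]
    refine (mul_le_mul_of_nonneg_left (sum_gg _ y r fun x hx => nrm_le.2 fun i => ?_)
      (by positivity)).trans ?_
    · have h3 := mem_Icc.1 (Fintype.mem_piFinset.1 hx i)
      have h4 := mem_Icc.1 (Fintype.mem_piFinset.1 hy i)
      rw [Pi.sub_apply, abs_le]
      omega
    · calc _ = 27 / ((r : ℝ) + 1) := by field_simp
        _ ≤ _ := by gcongr; linarith only []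

end Pool.Agent.MP_3a8451_pr

end

-- part Lp/C1
section

/-! Upper bounds for the mass of loops meeting two sets. -/

open Finset
open scoped ENNReal NNReal

namespace Pool.Agent.MP_3a8451_pr

lemma c1_G (w z : V) : (WF fun b => ie (w + pos b = z) * 1) ≤ GG Set.univ w z :=
  WF_mono fun _ => (mul_one _).trans_le (ie_mono fun e => ⟨Set.subset_univ _, e⟩)

lemma c1_tail {C : ℝ} (hC : ∀ U x y, GG U x y ≤ ENNReal.ofReal (C * gg (x - y))) (h0 : 0 < C)
    {R : ℕ} (hR : 1 ≤ R) {O : Set V} (hO : Disjoint O (Bx 0 (4 * R))) {w : V}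
    (hw : nrm w = R + 1) :
    (WF fun b => ie (Exit Oᶜ w b) * ENNReal.ofReal (gg (w + pos b))) ≤
      ENNReal.ofReal (C * (1 / R)) * uu (2 * R) O := by
  refine (WF_le_append (Φ := fun a b => ie (tr w a ⊆ Set.univ) * (ie (nrm (w + pos a) = 2 * R) *
    (ie (Exit Oᶜ (w + pos a) b ∧ NoRet (Bx 0 (2 * R)) (w + pos a) b) *
      ENNReal.ofReal (gg (w + pos a + pos b))))) fun s hs => ?_).trans ?_
  · have h := of_ie_ne (left_ne_zero_of_mul hs)
    obtain ⟨a, b, rfl, h1, h2⟩ := last_split (Q := Bx 0 (2 * R)) (x := w) (s := s)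
      ⟨w, start_mem_tr w s, mem_Bx0.2 (by omega)⟩
    have h3 := h2.nrm_eq (h.right.ne_nil fun hh =>
      Set.disjoint_left.1 hO hh (Bx_mono (by omega) h1)) h1
    rw [sub_zero] at h3
    refine ⟨a, b, rfl, ?_⟩
    rw [ie_pos h, ie_pos (Set.subset_univ _), ie_pos h3, ie_pos (And.intro h.right h2),
      pos_append, add_assoc]
    simp
  · simp only [WF_mul_left]
    rw [WF_GG Set.univ w fun z => ie (nrm z = 2 * R) * WF fun b =>
      ie (Exit Oᶜ z b ∧ NoRet (Bx 0 (2 * R)) z b) * ENNReal.ofReal (gg (z + pos b)), uu,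
      ← ENNReal.tsum_mul_left]
    refine ENNReal.tsum_le_tsum fun z => ?_
    by_cases hz : nrm z = 2 * R
    · rw [ie_pos hz, ie_pos (mem_Bx0.2 hz.le)]
      refine mul_le_mul_left ((hC _ w z).trans (ENNReal.ofReal_le_ofReal
        (mul_le_mul_of_nonneg_left (gg_le hR ?_) h0.le))) _
      have := nrm_tri z w 0
      rw [sub_zero, sub_zero, nrm_comm] at this
      omega
    · simp only [ie_neg hz, zero_mul, mul_zero, one_div, zero_le]

lemma PL_up : ∃ C : ℝ, 0 < C ∧ ∀ (R : ℕ) (K O : Set V), 1 ≤ R → K ⊆ Bx 0 R →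
    Disjoint O (Bx 0 (4 * R)) → Mu (fun x s => ie (Meets (tr x s) K ∧ Meets (tr x s) O)) ≤
      ENNReal.ofReal (C / R) * cap (Bx 0 R) K * uu (2 * R) O := by
  obtain ⟨C, h0, hC⟩ := G_up
  refine ⟨2 * C * C, by positivity, fun R K O hR hK hO => ?_⟩
  refine (Mu_pair K O (Ψ := fun _ => 1) fun x s _ hs =>
    ⟨(of_ie_ne hs).1, (of_ie_ne hs).2, ie_le_one _⟩).trans ?_
  rw [mul_comm _ (cap _ _), mul_assoc (cap _ _), cap, ← ENNReal.tsum_mul_right]
  refine ENNReal.tsum_le_tsum fun x => ?_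
  rw [mul_assoc (ie _), ← WF_mul_right]
  by_cases hx : x ∈ K
  swap
  · simp only [ie_neg hx, mul_one, zero_mul, Std.le_refl]
  have hx' := mem_Bx0.1 (hK hx)
  refine mul_le_mul_right ((WF_le_append (Φ := fun a b => ie (Exit (Bx 0 R) x a ∧ NoRet K x a) *
    (ENNReal.ofReal (2 * C) * (ie (Exit Oᶜ (x + pos a) b) *
      ENNReal.ofReal (gg (x + pos a + pos b))))) fun u hu => ?_).trans (WF_mono fun a => ?_)) _
  · obtain ⟨h1, h2⟩ := of_ie_ne (left_ne_zero_of_mul hu)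
    obtain ⟨a, b, rfl, h'⟩ := exit_split (h1.not_sub (U := Bx 0 R) fun y hy hh =>
      Set.disjoint_left.1 hO hh (Bx_mono (by omega) hy))
    refine ⟨a, b, rfl, ?_⟩
    rw [ie_pos (And.intro h1 h2), ie_pos (And.intro h' h2.left), ie_pos h1.right, one_mul,
      one_mul, one_mul, ← ENNReal.ofReal_mul (by positivity), add_assoc, ← pos_append]
    refine (c1_G _ _).trans ((hC _ _ _).trans (ENNReal.ofReal_le_ofReal ?_))
    have u1 := mt mem_Bx0.2 (Set.disjoint_left.1 hO (not_not.1 h1.1))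
    generalize x + pos (a ++ b) = y at u1
    have u2 := nrm_tri y x 0
    rw [sub_zero, sub_zero] at u2
    have u3 : ((1 + nrm y : ℕ) : ℝ) ≤ (2 * (1 + nrm (y - x)) : ℕ) := Nat.cast_le.2 (by omega)
    push_cast at u3
    rw [mul_comm 2, mul_assoc, gg, gg, mul_one_div 2]
    refine mul_le_mul_of_nonneg_left ?_ h0.le
    rw [div_le_div_iff₀ (by positivity) (by positivity)]
    linarith only [u3]
  · rw [WF_mul_left, WF_mul_left]
    by_cases ha : Exit (Bx 0 R) x a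
    · refine mul_le_mul_right ((mul_le_mul_right (c1_tail hC h0 hR hO
        (by simpa using ha.nrm_eq (hK hx))) _).trans_eq ?_) _
      rw [← mul_assoc, ← ENNReal.ofReal_mul (by positivity), ← mul_assoc, mul_one_div]
    · simp [ie_neg fun h : _ ∧ NoRet K x a => ha h.1]

lemma Mu_fin (z : V) (R : ℕ) : Mu (fun x s => ie (Meets (tr x s) (Bx z R))) ≠ ∞ := by
  obtain ⟨C, h0, hC⟩ := G_up
  refine ne_top_of_le_ne_top (ENNReal.mul_ne_top ENNReal.ofReal_ne_top ENNReal.ofReal_ne_top)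
    ((Mu_le_Rt (Φ := fun x _ => ie (x ∈ Bx z R)) fun x s _ hs => ?_).trans (le_trans ?_
      (sum_Bx_le z R (f := fun x => GG Set.univ x x) (β := ENNReal.ofReal (C * gg 0))
        fun y _ => by simpa only [sub_self] using hC Set.univ y y)))
  · obtain ⟨y, hy, hy'⟩ := of_ie_ne hs
    obtain ⟨a, b, e, rfl⟩ := mem_tr.1 hy
    exact ⟨a, b, e, ie_mono fun _ => hy'⟩
  · refine ENNReal.tsum_le_tsum fun x => ?_
    rw [WF_mul_right, mul_comm]
    exact mul_le_mul_right (WF_mono fun s => ie_mono fun h =>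
      ⟨Set.subset_univ _, by rw [h.2, add_zero]⟩) _

lemma Mu_out : ∃ C : ℝ, 0 < C ∧ ∀ (z : V) (r ρ R : ℕ), 1 ≤ r → ρ ≤ 32 * r → ρ + 2 * r ≤ R →
    Mu (fun x s => ie (Meets (tr x s) (Bx z ρ) ∧ ¬ tr x s ⊆ Bx z R)) ≤
      ENNReal.ofReal (C * r / (R - ρ)) := by
  obtain ⟨C, h0, hC⟩ := G_up
  obtain ⟨C', h0', hC'⟩ := cap_up
  refine ⟨C' * C, by positivity, fun z r ρ R hr h1 h2 => ?_⟩
  refine (Mu_pair (Bx z ρ) (Bx z R)ᶜ (Ψ := fun _ => 1) fun x s _ hs =>
    ⟨(of_ie_ne hs).1, meets_compl.2 (of_ie_ne hs).2, ie_le_one _⟩).trans ?_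
  rw [compl_compl]
  calc _ ≤ cap (Bx z R) (Bx z ρ) * ENNReal.ofReal (C * (1 / (R - ρ : ℕ))) := by
        rw [cap, ← ENNReal.tsum_mul_right]
        refine ENNReal.tsum_le_tsum fun x => ?_
        rw [mul_assoc, ← WF_mul_right]
        by_cases hx : x ∈ Bx z ρ
        swap
        · simp only [ie_neg hx, mul_one, zero_mul, one_div, Std.le_refl]
        refine mul_le_mul_right (WF_mono fun u => ?_) _
        by_cases hu : Exit (Bx z R) x u ∧ NoRet (Bx z ρ) x u
        swap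
        · simp only [ie_neg hu, zero_mul, le_refl]
        refine mul_le_mul_right ((c1_G _ _).trans ((hC _ _ _).trans (ENNReal.ofReal_le_ofReal
          (mul_le_mul_of_nonneg_left (gg_le (by omega) ?_) h0.le)))) _
        have u1 := mt mem_Bx.2 hu.1.1
        have u2 := nrm_tri (x + pos u) x z
        have u3 := mem_Bx.1 hx
        omega
    _ ≤ ENNReal.ofReal (C' * r) * ENNReal.ofReal (C * (1 / (R - ρ : ℕ))) :=
        mul_le_mul_left (hC' z r _ _ hr (Bx_mono h1) fun x hx =>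
          Bx_sub (by have := mem_Bx.1 hx; omega)) _
    _ = _ := by
        rw [← ENNReal.ofReal_mul (by positivity), Nat.cast_sub (by omega)]
        congr 1
        ring

end Pool.Agent.MP_3a8451_pr

end

-- part Lp/C2
section

/-! Lower bound for the mass of loops meeting two sets. -/

open Finset
open scoped ENNReal NNReal

namespace Pool.Agent.MP_3a8451_pr

lemma ret_low : ∃ (m : ℕ) (c : ℝ), 1 ≤ m ∧ 0 < c ∧ ∀ (r ρ : ℕ) (x y : V), m * (r + 1) ≤ ρ →
    x ∈ Bx 0 r → y ∉ Bx 0 ρ → ENNReal.ofReal (c * gg y) ≤ WF fun v => ie (y + pos v = x ∧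
      ∃ v₁ v₂, v = v₁ ++ v₂ ∧ Disjoint (tr y v₁) (Bx 0 r) ∧ tr (y + pos v₁) v₂ ⊆ Bx 0 (ρ + 1)) := by
  obtain ⟨M, c, hM, hc, H⟩ := G_mid
  refine ⟨M, c / 2, hM, by positivity, fun r ρ x y hρ hx hy => ?_⟩
  have hrρ : r + 1 ≤ ρ := le_trans (Nat.le_mul_of_pos_left _ hM) hρ
  have hx' : x ∈ Bx 0 ρ := Bx_mono (by omega) hx
  have hy' : ρ < nrm y := not_le.1 (mem_Bx0.not.1 hy)
  rw [← WF_rev]
  refine le_trans ?_ (WF_append_le (Φ := fun a b => ie (Exit (Bx 0 ρ) x a) *
    ie (tr (x + pos a) b ⊆ (Bx 0 r)ᶜ ∧ x + pos a + pos b = y)) (fun a b => ?_)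
    fun a b a' b' h h' e => exit_unique (of_ie_ne (left_ne_zero_of_mul h))
      (of_ie_ne (left_ne_zero_of_mul h')) e)
  · rw [← one_mul (ENNReal.ofReal _), ← exit_eq_one (U := Bx 0 ρ) subset_rfl x, ← WF_mul_right]
    refine WF_mono fun a => ?_
    rw [WF_mul_left]
    by_cases ha : Exit (Bx 0 ρ) x a
    · refine mul_le_mul_right (le_trans (ENNReal.ofReal_le_ofReal ?_)
        (H (Bx 0 r)ᶜ (x + pos a) y 0 r (fun w hw => Or.inr (not_not.1 hw)) ?_ ?_)) _
      · have h1 := ha.nrm_eq hx'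
        rw [sub_zero] at h1
        have h2 := nrm_tri (x + pos a) 0 y
        rw [sub_zero, zero_sub, nrm_neg] at h2
        have h3 : (nrm (x + pos a - y) : ℝ) ≤ 2 * nrm y := by
          exact_mod_cast (by omega : nrm (x + pos a - y) ≤ 2 * nrm y)
        have h4 : gg y / 2 ≤ gg (x + pos a - y) := by
          unfold gg
          rw [div_div]
          exact one_div_le_one_div_of_le (by positivity) (by linarith only [h3])
        calc c / 2 * gg y = c * (gg y / 2) := by ring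
          _ ≤ _ := mul_le_mul_of_nonneg_left h4 hc.le
      · rw [ha.nrm_eq hx']; omega
      · rw [sub_zero]; omega
    · simp only [ie_neg ha, zero_mul, Std.le_refl]
  · rw [← ie_and]
    refine ie_mono fun ⟨h1, h2, h3⟩ => ⟨?_, rev b, rev a, rev_append a b, ?_, ?_⟩
    · rw [← h3]; simp [add_assoc]
    · rw [← h3, tr_rev]
      exact Set.disjoint_left.2 fun z hz => h2 hz
    · have e : y + pos (rev b) = x + pos a := by rw [← h3]; simp
      rw [e, tr_rev]
      exact h1.tr_sub hx'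

lemma c2_tail {M : ℕ} {c : ℝ} (hM : 1 ≤ M) (hc : 0 < c)
    (H : ∀ (W : Set V) (x y z : V) (r : ℕ),
      (∀ w ∉ W, M * (nrm (x - y) + 1) ≤ nrm (w - x) ∨ w ∈ Bx z r) →
      M * (r + 1) ≤ nrm (x - z) → M * (r + 1) ≤ nrm (y - z) →
      ENNReal.ofReal (c * gg (x - y)) ≤ GG W x y) {r ρ : ℕ} {O : Set V} (hρ : M * (r + 1) ≤ ρ)
    (hO : Disjoint O (Bx 0 (6 * M * ρ))) {w : V} (hw : nrm w = ρ + 1) :
    ENNReal.ofReal (c / 5 / ρ) * uu (2 * ρ) O ≤ WF fun b =>
      ie (Exit Oᶜ w b ∧ NoRet (Bx 0 r) w b) * ENNReal.ofReal (gg (w + pos b)) := by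
  have hrρ : r + 1 ≤ ρ := le_trans (Nat.le_mul_of_pos_left _ hM) hρ
  have hMρ : ρ ≤ M * ρ := Nat.le_mul_of_pos_left _ hM
  have hM' : M ≤ M * ρ := Nat.le_mul_of_pos_right _ (by omega)
  have e6 : 6 * M * ρ = 6 * (M * ρ) := mul_assoc _ _ _
  refine le_trans ?_ (WF_append_le (Φ := fun a b =>
    ie (tr w a ⊆ Bx 0 (6 * M * ρ) \ Bx 0 r) * (ie (w + pos a ∈ Bx 0 (2 * ρ)) *
      (ie (Exit Oᶜ (w + pos a) b ∧ NoRet (Bx 0 (2 * ρ)) (w + pos a) b) *
        ENNReal.ofReal (gg (w + pos a + pos b))))) (fun a b => ?_) fun a b a' b' h h' e => ?_)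
  · simp only [WF_mul_left]
    rw [WF_GG (Bx 0 (6 * M * ρ) \ Bx 0 r) w fun z => ie (z ∈ Bx 0 (2 * ρ)) * WF fun b =>
      ie (Exit Oᶜ z b ∧ NoRet (Bx 0 (2 * ρ)) z b) * ENNReal.ofReal (gg (z + pos b)), uu,
      ← ENNReal.tsum_mul_left]
    refine ENNReal.tsum_le_tsum fun z => ?_
    by_cases hz : z ∈ Bx 0 (2 * ρ)
    swap
    · simp [ie_neg hz]
    by_cases hn : nrm z = 2 * ρ
    · refine mul_le_mul_left (le_trans (ENNReal.ofReal_le_ofReal ?_) (H _ w z 0 r ?_ ?_ ?_)) _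
      · have h2 := nrm_tri w 0 z
        rw [sub_zero, zero_sub, nrm_neg] at h2
        have h3 := le_gg (v := w - z) (r := 5 * ρ) (by omega)
        push_cast at h3
        calc c / 5 / ρ = c * (1 / (5 * ρ)) := by rw [div_div, mul_one_div]
          _ ≤ _ := mul_le_mul_of_nonneg_left h3 hc.le
      · intro u hu
        by_cases hu' : u ∈ Bx 0 r
        · exact Or.inr hu'
        · left
          have h1 : 6 * M * ρ < nrm u :=
            not_le.1 (mem_Bx0.not.1 fun h => hu ⟨h, hu'⟩)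
          have h2 := nrm_tri w 0 z
          rw [sub_zero, zero_sub, nrm_neg] at h2
          have h3 := nrm_tri u w 0
          rw [sub_zero, sub_zero] at h3
          have h4 : M * (nrm (w - z) + 1) ≤ M * (5 * ρ) := Nat.mul_le_mul_left _ (by omega)
          have h5 : M * (5 * ρ) = 5 * (M * ρ) := by ring
          omega
      · rw [sub_zero]; omega
      · rw [sub_zero]; omega
    · have h0 : (WF fun b => ie (Exit Oᶜ z b ∧ NoRet (Bx 0 (2 * ρ)) z b) *
          ENNReal.ofReal (gg (z + pos b))) = 0 := by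
        rw [← WF_zero]
        refine WF_congr fun b => ?_
        rw [ie_neg, zero_mul]
        rintro ⟨h1, h2⟩
        have hzO : z ∈ Oᶜ := fun h => Set.disjoint_left.1 hO h (Bx_mono (by omega) hz)
        have := h2.nrm_eq (h1.ne_nil hzO) hz
        rw [sub_zero] at this
        exact hn this
      simp [h0]
  · refine ie_mul_le fun h1 => ie_mul_le fun h2 => ?_
    rw [pos_append, ← add_assoc]
    refine mul_le_mul_left (ie_mono fun ⟨h3, h4⟩ => ⟨Exit.append (fun u hu h => ?_) h3,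
      NoRet.append (noRet_of_disjoint (Set.disjoint_left.2 fun u hu => (h1 hu).2))
        (h4.mono (Bx_mono (by omega)))⟩) _
    exact Set.disjoint_left.1 hO h (h1 hu).1
  · have g := right_ne_zero_of_mul h
    have g' := right_ne_zero_of_mul h'
    exact last_unique (of_ie_ne (left_ne_zero_of_mul g))
      (of_ie_ne (left_ne_zero_of_mul (right_ne_zero_of_mul g))).2
      (of_ie_ne (left_ne_zero_of_mul g'))
      (of_ie_ne (left_ne_zero_of_mul (right_ne_zero_of_mul g'))).2 e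

lemma out_low : ∃ (m : ℕ) (c : ℝ), 1 ≤ m ∧ 0 < c ∧ ∀ (r ρ : ℕ) (K O : Set V), m * (r + 1) ≤ ρ →
    K ⊆ Bx 0 r → Disjoint O (Bx 0 (6 * m * ρ)) →
      ENNReal.ofReal (c / ρ) * cap (Bx 0 ρ) K * uu (2 * ρ) O ≤ ∑' x, ie (x ∈ K) * WF fun u =>
        ie (Exit Oᶜ x u ∧ NoRet K x u) * ENNReal.ofReal (gg (x + pos u)) := by
  obtain ⟨M, c, hM, hc, H⟩ := G_mid
  refine ⟨M, c / 5, hM, by positivity, fun r ρ K O hρ hK hO => ?_⟩
  have hrρ : r + 1 ≤ ρ := le_trans (Nat.le_mul_of_pos_left _ hM) hρ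
  have hMρ : ρ ≤ M * ρ := Nat.le_mul_of_pos_left _ hM
  have e6 : 6 * M * ρ = 6 * (M * ρ) := mul_assoc _ _ _
  rw [mul_right_comm, cap, ← ENNReal.tsum_mul_left]
  refine ENNReal.tsum_le_tsum fun x => ?_
  rw [mul_left_comm]
  by_cases hx : x ∈ K
  swap
  · simp [ie_neg hx]
  have hx' : x ∈ Bx 0 ρ := Bx_mono (by omega) (hK hx)
  refine mul_le_mul_right (le_trans ?_ (WF_append_le (Φ := fun a b =>
    ie (Exit (Bx 0 ρ) x a ∧ NoRet K x a) * (ie (Exit Oᶜ (x + pos a) b ∧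
      NoRet (Bx 0 r) (x + pos a) b) * ENNReal.ofReal (gg (x + pos a + pos b))))
    (fun a b => ?_) fun a b a' b' h h' e => exit_unique (of_ie_ne (left_ne_zero_of_mul h)).1
      (of_ie_ne (left_ne_zero_of_mul h')).1 e)) _
  · rw [mul_comm, ← WF_mul_right]
    refine WF_mono fun a => ?_
    rw [WF_mul_left]
    by_cases ha : Exit (Bx 0 ρ) x a ∧ NoRet K x a
    · refine mul_le_mul_right (c2_tail hM hc H hρ hO ?_) _
      have := ha.1.nrm_eq hx'
      rwa [sub_zero] at this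
    · simp [ie_neg ha]
  · refine ie_mul_le fun h1 => ?_
    rw [pos_append, ← add_assoc]
    refine mul_le_mul_left (ie_mono fun ⟨h3, h4⟩ => ⟨Exit.append (fun u hu h => ?_) h3,
      NoRet.append h1.2 (h4.mono hK)⟩) _
    exact Set.disjoint_left.1 hO h (Bx_mono (by omega) (h1.1.tr_sub hx' hu))

lemma PL_low : ∃ (M1 M2 : ℕ) (c : ℝ), 1 ≤ M1 ∧ 0 < c ∧ ∀ (r : ℕ) (K O : Set V), 1 ≤ r →
    K ⊆ Bx 0 r → Disjoint O (Bx 0 (M2 * r)) →
      ENNReal.ofReal (c / r) * cap (Bx 0 (M1 * r)) K * uu (2 * (M1 * r)) O ≤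
        Mu fun x s => ie (Meets (tr x s) K ∧ Meets (tr x s) O) := by
  obtain ⟨m, c, hm, hc, H⟩ := ret_low
  obtain ⟨m', c', hm', hc', H'⟩ := out_low
  refine ⟨2 * max m m', 6 * m' * (2 * max m m'), c * (c' / (2 * max m m' : ℕ)), by omega,
    by positivity, fun r K O hr hK hO => ?_⟩
  set M := 2 * max m m' with hMdef
  have hM : 1 ≤ M := by omega
  have h1 : ∀ k, k ≤ max m m' → k * (r + 1) ≤ M * r := fun k hk =>
    calc k * (r + 1) ≤ max m m' * (2 * r) := Nat.mul_le_mul hk (by omega)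
      _ = M * r := by rw [hMdef]; ring
  have hrρ : r ≤ M * r := Nat.le_mul_of_pos_left _ hM
  have hO' : Disjoint O (Bx 0 (6 * m' * (M * r))) := by rwa [← mul_assoc]
  have hbig : M * r + 1 ≤ 6 * m' * (M * r) := by
    have : M * r ≤ m' * (M * r) := Nat.le_mul_of_pos_left _ hm'
    have e : 6 * m' * (M * r) = 6 * (m' * (M * r)) := mul_assoc _ _ _
    omega
  have hd : Disjoint K O := (hO'.mono_right (hK.trans (Bx_mono (by omega)))).symm
  refine le_trans ?_ (pair_le_Mu hd)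
  have e : ENNReal.ofReal (c * (c' / (M : ℝ)) / r) =
      ENNReal.ofReal c * ENNReal.ofReal (c' / (M * r : ℕ)) := by
    rw [← ENNReal.ofReal_mul hc.le]
    congr 1
    push_cast
    rw [mul_div_assoc, div_div]
  rw [e, mul_assoc, mul_assoc, ← mul_assoc (ENNReal.ofReal (c' / _))]
  refine (mul_le_mul_right (H' r (M * r) K O (h1 _ (le_max_right _ _)) hK hO') _).trans ?_
  rw [← ENNReal.tsum_mul_left]
  refine ENNReal.tsum_le_tsum fun x => ?_
  rw [mul_left_comm, ← WF_mul_left]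
  by_cases hx : x ∈ K
  swap
  · simp [ie_neg hx]
  refine mul_le_mul_right (WF_mono fun u => ?_) _
  rw [mul_left_comm]
  by_cases hu : Exit Oᶜ x u ∧ NoRet K x u
  swap
  · simp [ie_neg hu]
  have hy : x + pos u ∈ O := not_not.1 hu.1.1
  refine mul_le_mul_right ?_ _
  rw [← ENNReal.ofReal_mul hc.le]
  refine (H r (M * r) x (x + pos u) (h1 _ (le_max_left _ _)) (hK hx) fun h =>
    Set.disjoint_left.1 hO' hy (Bx_mono (by omega) h)).trans (WF_mono fun v => ie_mono ?_)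
  rintro ⟨g1, v₁, v₂, g2, g3, g4⟩
  exact ⟨g1, v₁, v₂, g2, g3.mono_right hK,
    (hO'.mono_right (g4.trans (Bx_mono hbig))).symm⟩

end Pool.Agent.MP_3a8451_pr

end

-- part Lp/C3
section

/-! The product structure of the mass of loops meeting two sets. -/

open Finset
open scoped ENNReal NNReal

namespace Pool.Agent.MP_3a8451_pr

lemma mm_nonneg (K O : Set V) : 0 ≤ mm K O := ENNReal.toReal_nonneg

lemma c3_ne {K O : Set V} {z : V} {R : ℕ} (hR : K ⊆ Bx z R) :
    (Mu fun x s => ie (Meets (tr x s) K ∧ Meets (tr x s) O)) ≠ ∞ :=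
  ne_top_of_le_ne_top (Mu_fin z R) (Mu_ie_mono fun _ _ _ h => h.1.mono subset_rfl hR)

lemma mm_mono {K K' O O' : Set V} {z : V} {R : ℕ} (hR : K' ⊆ Bx z R) (hK : K ⊆ K')
    (hO : O ⊆ O') : mm K O ≤ mm K' O' :=
  ENNReal.toReal_mono (c3_ne hR) (Mu_ie_mono fun _ _ _ h =>
    ⟨h.1.mono subset_rfl hK, h.2.mono subset_rfl hO⟩)

lemma ofReal_mm {K O : Set V} {z : V} {R : ℕ} (hR : K ⊆ Bx z R) :
    ENNReal.ofReal (mm K O) = Mu fun x s => ie (Meets (tr x s) K ∧ Meets (tr x s) O) :=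
  ENNReal.ofReal_toReal (c3_ne hR)

lemma c3_alg {l u x y x' y' m1 m2 m3 q Q C c : ℝ} (hl : 0 < l) (hu : 0 < u) (hx : 0 ≤ x)
    (hy : 0 ≤ y) (hx' : 0 ≤ x') (hy' : 0 ≤ y') (hC : 0 ≤ C) (hc : 0 ≤ c)
    (h1 : l * x * y ≤ m1 ∧ m1 ≤ u * x * y) (h2 : l * x * y' ≤ m2 ∧ m2 ≤ u * x * y')
    (h3 : l * x' * y ≤ m3 ∧ m3 ≤ u * x' * y) (h4 : l * x' * y' ≤ Q) (h5 : q ≤ u * x' * y')
    (h6 : u ^ 2 ≤ C * l ^ 2 * q) (h7 : c * u ^ 2 * Q ≤ l ^ 2) :
    m1 ≤ C * m2 * m3 ∧ c * m2 * m3 ≤ m1 := by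
  have p2 : 0 ≤ m2 := le_trans (by positivity) h2.1
  have p3 : 0 ≤ m3 := le_trans (by positivity) h3.1
  refine ⟨h1.2.trans (le_of_mul_le_mul_left ?_ hu), le_trans (le_of_mul_le_mul_left ?_ hl) h1.1⟩
  · calc _ = u ^ 2 * (x * y) := by ring
      _ ≤ C * l ^ 2 * (u * x' * y') * (x * y) := by
        gcongr
        exact h6.trans (by gcongr)
      _ = u * (C * (l * x * y') * (l * x' * y)) := by ring
      _ ≤ _ := by gcongr; exacts [h2.1, h3.1]
  · calc _ ≤ l * (c * (u * x * y') * (u * x' * y)) := by gcongr; exacts [h2.2, h3.2]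
      _ = c * u ^ 2 * (l * x' * y') * (x * y) := by ring
      _ ≤ l ^ 2 * (x * y) := by
        gcongr
        exact le_trans (by gcongr) h7
      _ = _ := by ring

lemma PL : ∃ M0 : ℕ, ∀ M ≥ M0, ∃ C c : ℝ, 1 ≤ C ∧ 0 < c ∧ c ≤ 1 ∧
    (∀ (r : ℕ) (K O : Set V), 1 ≤ r → K ⊆ Bx 0 r → Disjoint O (Bx 0 (M * r)) →
      mm K O ≤ C * mm K (Bx 0 (M * r))ᶜ * mm (Bx 0 r) O ∧
        c * mm K (Bx 0 (M * r))ᶜ * mm (Bx 0 r) O ≤ mm K O) ∧
    (∀ r : ℕ, 1 ≤ r → mm (Bx 0 r) (Bx 0 (M * r))ᶜ ≤ C) ∧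
    (∀ r R : ℕ, 1 ≤ r → M * r ≤ R → c * r / R ≤ mm (Bx 0 r) (Bx 0 R)ᶜ) ∧
    ∀ R : ℕ, M ≤ R → c / R ≤ mm {0} (Bx 0 R)ᶜ := by
  obtain ⟨M1, M2, c0, hM1, p0, hlo⟩ := PL_low
  obtain ⟨C0, P0, hup⟩ := PL_up
  obtain ⟨c2, p2, hcap⟩ := cap_low
  obtain ⟨C3, P3, hout⟩ := Mu_out
  refine ⟨4 * M1 + M2 + 3, fun M hM => ?_⟩
  have hM' : (3 : ℝ) ≤ M := by exact_mod_cast (by omega : 3 ≤ M)
  have two : ∀ (r : ℕ) (K O : Set V), 1 ≤ r → K ⊆ Bx 0 r → Disjoint O (Bx 0 (M * r)) →
      c0 / r * (cap (Bx 0 (M1 * r)) K).toReal * (uu (2 * (M1 * r)) O).toReal ≤ mm K O ∧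
      mm K O ≤ C0 / r * (cap (Bx 0 (M1 * r)) K).toReal * (uu (2 * (M1 * r)) O).toReal :=
    fun r K O hr hK hO => by
      have h1 : r ≤ M1 * r := Nat.le_mul_of_pos_left r hM1
      have e : ∀ a : ℝ, 0 ≤ a → a * (cap (Bx 0 (M1 * r)) K).toReal *
          (uu (2 * (M1 * r)) O).toReal = (ENNReal.ofReal a * cap (Bx 0 (M1 * r)) K *
            uu (2 * (M1 * r)) O).toReal := fun a ha => by
        rw [ENNReal.toReal_mul, ENNReal.toReal_mul, ENNReal.toReal_ofReal ha]
      rw [e _ (by positivity), e _ (by positivity)]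
      refine ⟨ENNReal.toReal_mono (c3_ne hK) (hlo r K O hr hK (hO.mono_right
        (Bx_mono (Nat.mul_le_mul_right _ (by omega))))), ENNReal.toReal_mono (ENNReal.mul_ne_top
          (ENNReal.mul_ne_top ENNReal.ofReal_ne_top (cap_ne_top hK)) (uu_ne_top _ _))
          ((hup (M1 * r) K O (hr.trans h1) (hK.trans (Bx_mono h1)) (hO.mono_right (Bx_mono (by
            rw [← mul_assoc]; exact Nat.mul_le_mul_right _ (by omega))))).trans ?_)⟩
      gcongr
  have capl : ∀ r R : ℕ, r ≤ R → c2 * (r + 1) ≤ (cap (Bx 0 R) (Bx 0 r)).toReal := fun r R h =>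
    (ENNReal.ofReal_le_iff_le_toReal (cap_ne_top subset_rfl)).1 (hcap r R h)
  have low : ∀ (r k R : ℕ), 1 ≤ r → k ≤ r → M * r ≤ R →
      c0 * c2 ^ 2 / 3 * (k + 1) / R ≤ mm (Bx 0 k) (Bx 0 R)ᶜ := fun r k R hr hk hR => by
    have h1 : r ≤ M1 * r := Nat.le_mul_of_pos_left r hM1
    have h2 : 4 * M1 * r ≤ M * r := Nat.mul_le_mul_right _ (by omega)
    rw [mul_assoc] at h2
    have hr' : (1 : ℝ) ≤ r := by exact_mod_cast hr
    have hR' : (1 : ℝ) ≤ R := by exact_mod_cast (by omega : 1 ≤ R)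
    refine le_trans ?_ (two r _ _ hr (Bx_mono hk) (disjoint_compl_left.mono_right (Bx_mono hR))).1
    rw [uu_box (by omega), ENNReal.toReal_mul, ENNReal.toReal_ofReal (by positivity)]
    calc _ = c0 / r * (c2 * (k + 1)) * (c2 * r * (1 / (3 * R))) := by field_simp
      _ ≤ _ := by
        gcongr
        · exact capl k _ (hk.trans h1)
        · refine le_trans ?_ (capl _ R (by omega))
          gcongr
          exact_mod_cast (by omega : r ≤ 2 * (M1 * r) + 1)
        · linarith only [hR']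
  have up : ∀ r : ℕ, 1 ≤ r → mm (Bx 0 r) (Bx 0 (M * r))ᶜ ≤ C3 := fun r hr => by
    have hr' : (1 : ℝ) ≤ r := by exact_mod_cast hr
    have h2 : 3 * r ≤ M * r := Nat.mul_le_mul_right _ (by omega)
    have h3 : ((3 * r : ℕ) : ℝ) ≤ (M * r : ℕ) := Nat.cast_le.2 h2
    rw [Nat.cast_mul] at h3
    refine ENNReal.toReal_le_of_le_ofReal P3.le ((Mu_ie_mono fun _ _ _ h =>
      ⟨h.1, meets_compl.1 h.2⟩).trans ((hout 0 r r (M * r) hr (by omega) (by omega)).trans
        (ENNReal.ofReal_le_ofReal ?_)))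
    rw [div_le_iff₀ (by push_cast at h3 ⊢; linarith only [hr', h3])]
    gcongr
    push_cast at h3 ⊢
    linarith only [hr', h3]
  set q := c0 * c2 ^ 2 / 3 with hq
  have pq : 0 < q := by positivity
  have low' : ∀ r R : ℕ, 1 ≤ r → M * r ≤ R → q * r / R ≤ mm (Bx 0 r) (Bx 0 R)ᶜ :=
    fun r R hr hR => le_trans (by gcongr; linarith only []) (low r r R hr le_rfl hR)
  have pC : 0 < M * C0 ^ 2 / (c0 ^ 2 * q) := by positivity
  have c1 := min_le_right 1 (min q (c0 ^ 2 / (C0 ^ 2 * C3)))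
  have pc : 0 < min 1 (min q (c0 ^ 2 / (C0 ^ 2 * C3))) := by positivity
  refine ⟨1 + C3 + M * C0 ^ 2 / (c0 ^ 2 * q), _, by linarith only [P3, pC], pc, min_le_left _ _,
    fun r K O hr hK hO => ?_, fun r hr => by linarith only [up r hr, pC], fun r R hr hR => le_trans
      (by gcongr; exact c1.trans (min_le_left _ _)) (low' r R hr hR), fun R hR => ?_⟩
  · have hr' : (0 : ℝ) < r := by exact_mod_cast hr
    have h4 := two r _ _ hr subset_rfl disjoint_compl_left
    refine c3_alg (q := q / M) (by positivity) (by positivity) ENNReal.toReal_nonneg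
      ENNReal.toReal_nonneg ENNReal.toReal_nonneg ENNReal.toReal_nonneg (by positivity) pc.le
      (two r K O hr hK hO) (two r K _ hr hK disjoint_compl_left) (two r _ O hr subset_rfl hO)
      (h4.1.trans (up r hr)) (le_trans (le_of_eq ?_) ((low' r _ hr le_rfl).trans h4.2)) ?_ ?_
    · push_cast
      field_simp
    · calc _ = M * C0 ^ 2 / (c0 ^ 2 * q) * (c0 / r) ^ 2 * (q / M) := by field_simp
        _ ≤ _ := by gcongr; linarith only [P3]
    · calc _ ≤ c0 ^ 2 / (C0 ^ 2 * C3) * (C0 / r) ^ 2 * C3 := by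
            gcongr
            exact c1.trans (min_le_right _ _)
        _ = _ := by field_simp
  · have e : Bx 0 0 = {0} := Set.ext fun y => by
      rw [mem_Bx0, nrm_le]
      simp [funext_iff]
    have := low 1 0 R le_rfl (Nat.zero_le _) (by omega)
    rw [e] at this
    refine le_trans ?_ this
    gcongr
    simp

end Pool.Agent.MP_3a8451_pr

end

-- part Lp/C4
section

/-! Good sets are hit. -/

open Finset
open scoped ENNReal NNReal

namespace Pool.Agent.MP_3a8451_pr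

lemma c4_green {C b : ℝ} (hC0 : 0 < C)
    (hC : ∀ U x y, GG U x y ≤ ENNReal.ofReal (C * gg (x - y))) {F : Finset V} {ν : V → ℝ}
    (h0 : ∀ x, 0 ≤ ν x) (h3 : ∀ y ∈ F, ∑ x ∈ F, ν x * gg (x - y) ≤ b) (B : Set V) (y : V) :
    ∑ x ∈ F, ENNReal.ofReal (ν x) * GG B y x ≤
      (WF fun s => ie (Exit (F : Set V)ᶜ y s) * ie (tr y s ⊆ B)) * ENNReal.ofReal (C * b) := by
  simp only [GG, ← WF_mul_left]
  rw [← WF_sum, ← WF_mul_right]
  refine (WF_le_append (Φ := fun a b => ie (Exit (F : Set V)ᶜ y a) * ie (tr y a ⊆ B) *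
    ∑ x ∈ F, ENNReal.ofReal (ν x) * ie (tr (y + pos a) b ⊆ Set.univ ∧ y + pos a + pos b = x))
    fun s hs => ?_).trans (WF_mono fun a => ?_)
  · obtain ⟨x, hx, h⟩ := exists_ne_zero_of_sum_ne_zero hs
    obtain ⟨h1, h2⟩ := of_ie_ne (right_ne_zero_of_mul h)
    obtain ⟨a, b, rfl, h'⟩ := exit_split (U := (F : Set V)ᶜ) (x := y) (s := s)
      fun e => e (end_mem_tr y s) (h2 ▸ hx)
    refine ⟨a, b, rfl, ?_⟩
    rw [ie_pos h', ie_pos ((tr_left y a b).trans h1), one_mul, one_mul]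
    exact sum_le_sum fun z _ => mul_le_mul_right (ie_mono fun h =>
      ⟨Set.subset_univ _, by simpa [add_assoc] using h.2⟩) _
  · rw [WF_mul_left, WF_sum]
    by_cases h : Exit (F : Set V)ᶜ y a
    · refine mul_le_mul_right ?_ _
      have hw : y + pos a ∈ F := not_not.1 h.1
      refine le_trans (sum_le_sum fun x _ => ?_) ((ENNReal.ofReal_sum_of_nonneg
        (f := fun x => C * (ν x * gg (x - (y + pos a)))) fun x _ =>
          mul_nonneg hC0.le (mul_nonneg (h0 x) (gg_pos _).le)).ge.trans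
        (ENNReal.ofReal_le_ofReal ?_))
      · rw [WF_mul_left, mul_left_comm, ENNReal.ofReal_mul (h0 x), ← gg_neg, neg_sub]
        exact mul_le_mul_right (hC Set.univ _ _) _
      · rw [← mul_sum]
        exact mul_le_mul_of_nonneg_left (h3 _ hw) hC0.le
    · simp only [ie_neg h, zero_mul, Set.subset_univ, true_and, Std.le_refl]

lemma HL : ∃ (M1 : ℕ) (c1 : ℝ), 64 ≤ M1 ∧ 0 < c1 ∧ c1 ≤ 1 / 2 ∧ HLp M1 c1 := by
  obtain ⟨M, c, hM, hc, hk⟩ := G_kill
  obtain ⟨C, hC0, hC⟩ := G_up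
  refine ⟨64 * M, min (1 / 2) (c / (64 * C)), by omega, by positivity, min_le_left _ _, ?_⟩
  rintro A K z y r hA hr ⟨F, ν, h0, h1, h2, h3⟩ hy
  have r0 : (0 : ℝ) < r := by exact_mod_cast hr
  have e1 : ENNReal.ofReal (c / (64 * r : ℕ)) ≤
      ∑ x ∈ F, ENNReal.ofReal (ν x) * GG (Bx z (M * (64 * r))) y x := by
    refine le_trans ?_ (sum_le_sum fun x hx =>
      mul_le_mul_right (hk z y x (64 * r) (by omega) hy (h1 x hx).2) _)
    rw [← sum_mul, ← ENNReal.ofReal_sum_of_nonneg fun x _ => h0 x, h2, ENNReal.ofReal_one, one_mul]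
  have e2 := e1.trans ((c4_green hC0 hC h0 h3 _ y).trans (mul_le_mul_left
    (exit_shrink (U := Kᶜ) (Set.compl_subset_compl.2 fun x hx => (h1 x hx).1)
      (φ := fun T => ie (T ⊆ Bx z (M * (64 * r)))) (fun T T' h => ie_mono h.trans) y) _))
  have hb : 0 < C * (A / r) := by positivity
  simp only [← ie_and, show M * (64 * r) = 64 * M * r by ring] at e2
  refine (ENNReal.mul_le_mul_iff_left (ENNReal.ofReal_pos.2 hb).ne' ENNReal.ofReal_ne_top).1
    (le_trans ?_ e2)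
  rw [← ENNReal.ofReal_mul (by positivity)]
  refine ENNReal.ofReal_le_ofReal ?_
  calc _ ≤ c / (64 * C) / A * (C * (A / r)) := by
        gcongr
        exact min_le_right _ _
    _ = _ := by
        push_cast
        field_simp

variable {M1 : ℕ} {c1 A : ℝ} {K : Set V}

lemma avoid (h : HLp M1 c1) (hc : 0 < c1) (hA : 1 ≤ A) {c y : V} {r : ℕ} (hr : 1 ≤ r)
    (hG : Good A K c r) (hy : y ∈ Bx c (64 * r)) :
    (WF fun s => ie (Exit (Bx c (M1 * r)) y s) * ie (Disjoint (tr y s) K)) ≤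
      ENNReal.ofReal (1 - c1 / A) := by
  rw [ENNReal.ofReal_sub _ (by positivity), ENNReal.ofReal_one]
  refine ENNReal.le_sub_of_add_le_right ENNReal.ofReal_ne_top
    ((add_le_add_right (h A K c y r hA hr hG hy) _).trans ?_)
  rw [← WF_add]
  refine (WF_mono fun s => ?_).trans (exit_le_one (Bx c (M1 * r) ∩ Kᶜ) y)
  rw [← ie_and]
  by_cases h1 : Exit (Bx c (M1 * r)) y s ∧ Disjoint (tr y s) K
  · rw [ie_neg (P := Exit Kᶜ y s ∧ tr y s ⊆ Bx c (M1 * r))
      fun e => h1.1.1 (e.2 (end_mem_tr y s)), add_zero]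
    exact ie_mono fun _ => ⟨fun e => h1.1.1 e.1, fun t ht =>
      ⟨h1.1.2 t ht, Set.disjoint_left.1 h1.2 (pt_mem_tr y s t)⟩⟩
  · rw [ie_neg h1, zero_add]
    exact ie_mono fun e => ⟨fun e' => e.1.1 e'.2, fun t ht => ⟨e.2 (pt_mem_tr y s t), e.1.2 t ht⟩⟩

lemma good_sum (h : HLp M1 c1) (hc : 0 < c1) (hA : 1 ≤ A) {r : ℕ} (hr : 1 ≤ r) (F : Finset V)
    (y : V) : ∑ g ∈ F, ie (Good A K (sc r g) r) *
      (WF fun s => ie (Exit (Bx (sc r g) (32 * r))ᶜ y s ∧ Disjoint (tr y s) K)) ≤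
        ENNReal.ofReal ((2 * M1 + 1) ^ 3 * A / c1) := by
  have hb : 0 < c1 / A := by positivity
  rw [mul_div_assoc, ← inv_div, ← div_eq_mul_inv, ENNReal.ofReal_div_of_pos hb,
    ENNReal.le_div_iff_mul_le (.inl (ENNReal.ofReal_pos.2 hb).ne') (.inl ENNReal.ofReal_ne_top),
    sum_mul]
  refine (sum_le_sum (g := fun g => WF fun s =>
    ie (Exit Kᶜ y s) * ie (y + pos s ∈ Bx (sc r g) (M1 * r))) fun g _ => ?_).trans ?_
  · rw [mul_assoc]
    refine ie_mul_le fun hG => ?_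
    rw [← WF_mul_right]
    refine le_trans (WF_mono fun a => ?_) (WF_append_le (Φ := fun a b =>
      ie (Exit (Bx (sc r g) (32 * r))ᶜ y a ∧ Disjoint (tr y a) K) *
        ie (Exit Kᶜ (y + pos a) b ∧ tr (y + pos a) b ⊆ Bx (sc r g) (M1 * r)))
      (fun a b => ?_) fun a b a' b' h1 h2 e => ?_)
    · rw [WF_mul_left]
      by_cases ha : Exit (Bx (sc r g) (32 * r))ᶜ y a ∧ Disjoint (tr y a) K
      · exact mul_le_mul_right (h A K _ _ r hA hr hG (Bx_mono (by omega) (not_not.1 ha.1.1))) _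
      · simp [ie_neg ha]
    · rw [← ie_and, ← ie_and]
      exact ie_mono fun ⟨⟨_, h2⟩, h3, h4⟩ => ⟨Exit.append h2.subset_compl_right h3,
        by simpa [add_assoc] using h4 (end_mem_tr _ b)⟩
    · exact exit_unique (of_ie_ne (left_ne_zero_of_mul h1)).1
        (of_ie_ne (left_ne_zero_of_mul h2)).1 e
  · rw [← WF_sum]
    simp only [← mul_sum]
    refine exit_mul_le fun s _ => ?_
    refine le_trans ?_ ((sum_Bx_le (cell r (y + pos s)) M1 (f := fun _ => 1)
      fun _ _ => le_rfl).trans_eq (mul_one _))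
    refine le_trans (sum_le_sum fun g _ => ?_) (ENNReal.sum_le_tsum F)
    rw [mul_one]
    refine ie_mono fun e => mem_Bx.2 ?_
    have := nrm_cell_sub hr (mem_Bx.1 e)
    rwa [cell_sc hr, nrm_comm] at this

lemma c4_fib {a b : ℕ} (ha : 0 < a) (hb : 0 < b) (g : V) (f : V → ℝ≥0∞) :
    ∑ z ∈ fib (a * b) g, f (cell a z) = (a ^ 3 : ℕ) * ∑ h ∈ fib b g, f h := by
  rw [sum_fib_mul ha hb, mul_sum]
  refine sum_congr rfl fun h _ => ?_
  rw [sum_congr rfl fun z hz => by rw [(mem_fib ha).1 hz], sum_const, card_fib, nsmul_eq_mul]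

lemma hit_sum (h : HLp M1 c1) (hc : 0 < c1) (hA : 1 ≤ A) {M : ℕ} (hM : 16 ≤ M) (d j : ℕ)
    (g' y : V) : ∑ g ∈ fib (M ^ d) g', ENNReal.ofReal (WW M A K j d g) *
      (WF fun s => ie (Exit (Bx (sc (M ^ j) g) (32 * M ^ j))ᶜ y s ∧ Disjoint (tr y s) K)) ≤
        ENNReal.ofReal (2 * ((2 * M1 + 1) ^ 3 * A / c1) + 1) := by
  have hG : 0 ≤ (2 * (M1 : ℝ) + 1) ^ 3 * A / c1 := by positivity
  have M0 : 0 < M := by omega
  induction d generalizing j with
  | zero =>
    refine (sum_le_card_nsmul _ _ 1 fun g _ => mul_le_one' (ENNReal.ofReal_le_one.2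
      (WW_le_one M0 _ _ _ _ _)) ((WF_mono fun s => ie_mono fun e => e.1).trans
        (exit_le_one _ y))).trans ?_
    rw [card_fib, pow_zero, one_pow, one_smul]
    exact ENNReal.one_le_ofReal.2 (by linarith only [hG])
  | succ d ih =>
    refine (sum_le_sum (g := fun g => ie (Good A K (sc (M ^ j) g) (M ^ j)) *
      (WF fun s => ie (Exit (Bx (sc (M ^ j) g) (32 * M ^ j))ᶜ y s ∧ Disjoint (tr y s) K)) +
      ENNReal.ofReal (1 / (2 * (M : ℝ) ^ 3)) * (ENNReal.ofReal (WW M A K (j + 1) d (cell M g)) *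
      WF fun s => ie (Exit (Bx (sc (M ^ (j + 1)) (cell M g)) (32 * M ^ (j + 1)))ᶜ y s ∧
        Disjoint (tr y s) K))) fun g _ => ?_).trans ?_
    · by_cases hg : Good A K (sc (M ^ j) g) (M ^ j)
      · rw [ie_pos hg]
        exact le_add_right (mul_le_mul_left (ENNReal.ofReal_le_one.2 (WW_le_one M0 _ _ _ _ _)) _)
      · have e : WW M A K j (d + 1) g = 1 / (2 * (M : ℝ) ^ 3) * WW M A K (j + 1) d (cell M g) := by
          rw [add_comm d, WW_add, pow_one]
          simp only [WW, range_one, wg, one_div, mul_inv_rev, prod_singleton, add_zero, pow_zero, cell_one, hg, ↓ reduceIte]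
        rw [e, ENNReal.ofReal_mul (by positivity), mul_assoc]
        refine le_add_left (mul_le_mul_right (mul_le_mul_right ?_ _) _)
        simp only [ie_and]
        refine exit_shrink (Set.compl_subset_compl.2 (Bx_sub ?_))
          (φ := fun T => ie (Disjoint T K)) (fun T T' h => ie_mono fun e => e.mono_left h) y
        have h1 := nrm_sc_cell (M ^ j) M0 g
        have h2 := Nat.mul_le_mul_left (M ^ j) hM
        rw [pow_succ]
        omega
    · rw [sum_add_distrib, ← mul_sum, pow_succ' M d, c4_fib M0 (pow_pos M0 d) g' fun g =>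
        ENNReal.ofReal (WW M A K (j + 1) d g) * WF fun s =>
          ie (Exit (Bx (sc (M ^ (j + 1)) g) (32 * M ^ (j + 1)))ᶜ y s ∧ Disjoint (tr y s) K)]
      refine (add_le_add (good_sum h hc hA (pow_pos M0 j) _ y)
        (mul_le_mul_right (mul_le_mul_right (ih (j + 1)) _) _)).trans ?_
      have m0 : (0 : ℝ) < M := by exact_mod_cast M0
      rw [← ENNReal.ofReal_natCast, ← ENNReal.ofReal_mul (Nat.cast_nonneg _),
        ← ENNReal.ofReal_mul (by positivity), ← ENNReal.ofReal_add hG (by positivity)]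
      refine ENNReal.ofReal_le_ofReal ?_
      rw [← mul_assoc, show 1 / (2 * (M : ℝ) ^ 3) * (M ^ 3 : ℕ) = 1 / 2 by
        push_cast
        field_simp]
      linarith only []

end Pool.Agent.MP_3a8451_pr

end

-- part Lp/C5
section

/-! A piece of walk carries a measure of small potential. -/

open Finset
open scoped ENNReal NNReal

namespace Pool.Agent.MP_3a8451_pr

lemma pot_of_sum (f : ℕ → V) {T : ℕ} (hT : 1 ≤ T) {b : ℝ}
    (h : ∑ t ∈ range T, ∑ t' ∈ range T, gg (f t' - f t) ≤ b * T ^ 2) :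
    Pot (4 * b) {z | ∃ t < T, f t = z} := by
  classical
  have T0 : (0 : ℝ) < T := by exact_mod_cast hT
  have hne : (range T).Nonempty := nonempty_range_iff.2 (by omega)
  have b0 : 0 < b := by
    have : 0 < ∑ t ∈ range T, ∑ t' ∈ range T, gg (f t' - f t) :=
      sum_pos (fun _ _ => sum_pos (fun _ _ => gg_pos _) hne) hne
    exact (mul_pos_iff_of_pos_right (by positivity)).1 (this.trans_le h)
  set H : ℕ → ℝ := fun t => ∑ t' ∈ range T, gg (f t' - f t) with hH
  set J := (range T).filter fun t => H t ≤ 2 * b * T with hJ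
  have hc : (T : ℝ) ≤ 2 * J.card := by
    have h1 := card_filter_add_card_filter_not (s := range T) fun t => H t ≤ 2 * b * T
    have h2 : (((range T).filter fun t => ¬ H t ≤ 2 * b * T).card : ℝ) * (2 * b * T) ≤
        b * T ^ 2 := by
      rw [← nsmul_eq_mul]
      refine (card_nsmul_le_sum _ H _ fun t ht => (not_le.1 (mem_filter.1 ht).2).le).trans
        (le_trans (sum_le_sum_of_subset_of_nonneg (filter_subset _ _) fun t _ _ => ?_) h)
      exact sum_nonneg fun _ _ => (gg_pos _).le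
    rw [card_range, ← hJ] at h1
    have h3 : (J.card : ℝ) + ((range T).filter fun t => ¬ H t ≤ 2 * b * T).card = T := by
      exact_mod_cast h1
    have h4 : (((range T).filter fun t => ¬ H t ≤ 2 * b * T).card : ℝ) * 2 ≤ T :=
      le_of_mul_le_mul_right (a := b * T) (by linarith only [h2]) (by positivity)
    linarith only [h3, h4]
  have J0 : (0 : ℝ) < J.card := by linarith only [T0, hc]
  have key : ∀ φ : V → ℝ, ∑ x ∈ J.image f, ((J.filter fun t => f t = x).card : ℝ) / J.card * φ x =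
      (∑ t ∈ J, φ (f t)) / J.card := fun φ => by
    rw [sum_comp φ f, sum_div]
    exact sum_congr rfl fun x _ => by rw [nsmul_eq_mul, div_mul_eq_mul_div]
  refine ⟨J.image f, fun x => ((J.filter fun t => f t = x).card : ℝ) / J.card,
    fun x => by positivity, fun x hx => ?_, ?_, fun y hy => ?_⟩
  · obtain ⟨t, ht, rfl⟩ := mem_image.1 hx
    exact ⟨t, mem_range.1 (mem_filter.1 ht).1, rfl⟩
  · have := key fun _ => 1
    simp only [mul_one, sum_const, nsmul_eq_mul] at this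
    rw [this, div_self J0.ne']
  · obtain ⟨t, ht, rfl⟩ := mem_image.1 hy
    rw [key fun x => gg (x - f t), div_le_iff₀ J0]
    have h1 : ∑ t' ∈ J, gg (f t' - f t) ≤ H t :=
      sum_le_sum_of_subset_of_nonneg (filter_subset _ _) fun _ _ _ => (gg_pos _).le
    have h2 := (mem_filter.1 ht).2
    have h3 := mul_le_mul_of_nonneg_left hc b0.le
    linarith only [h1, h2, h3]

lemma c5_sqrt (n : ℕ) : ∑ d ∈ range n, 1 / √((d : ℝ) + 1) ≤ 2 * √n := by
  induction n with
  | zero => simp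
  | succ n ih =>
    rw [sum_range_succ, Nat.cast_succ]
    have h0 : (0 : ℝ) ≤ n := Nat.cast_nonneg n
    have h1 : 0 < √((n : ℝ) + 1) := Real.sqrt_pos.2 (by linarith only [])
    have h2 := Real.mul_self_sqrt h0
    have h3 := Real.mul_self_sqrt (show (0 : ℝ) ≤ n + 1 by linarith only [])
    have h4 : 1 / √((n : ℝ) + 1) ≤ 2 * √((n : ℝ) + 1) - 2 * √n := by
      rw [div_le_iff₀ h1]
      linarith only [sq_nonneg (√((n : ℝ) + 1) - √n), h2, h3]
    linarith

lemma c5_double {g : ℕ → ℕ → ℝ} {φ : ℕ → ℝ} {N : ℕ} {K : ℝ} (h0 : ∀ d, 0 ≤ φ d)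
    (hK : ∀ n ≤ N, ∑ d ∈ range n, φ d ≤ K)
    (hg : ∀ t t', t ≤ t' → t' < N → g t t' ≤ φ (t' - t) ∧ g t' t ≤ φ (t' - t)) :
    ∀ n ≤ N, ∑ t ∈ range n, ∑ t' ∈ range n, g t t' ≤ 2 * K * n := by
  intro n hn
  induction n with
  | zero => simp
  | succ n ih =>
    have h1 := ih (by omega)
    have h2 : ∑ t ∈ range (n + 1), φ (n - t) ≤ K := (sum_flip φ).trans_le (hK _ hn)
    have h3 : ∑ t ∈ range (n + 1), g n t ≤ K :=
      (sum_le_sum fun t ht => (hg t n (by simpa [Nat.lt_succ_iff] using ht) hn).2).trans h2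
    have h4 : ∑ t ∈ range n, g t n ≤ K := by
      refine (sum_le_sum fun t ht => (hg t n (mem_range.1 ht).le hn).1).trans (le_trans ?_ h2)
      rw [sum_range_succ]
      linarith only [h0 (n - n)]
    rw [sum_range_succ]
    simp only [sum_range_succ (g _) n, sum_add_distrib] at h3 ⊢
    push_cast
    linarith only [h1, h4, h3]

lemma c5_Ex (y : V) {T t t' : ℕ} (h : t ≤ t') (h' : t' ≤ T) :
    (Ex T fun s => gg (pt y s t' - pt y s t)) ≤ Ex (t' - t) fun s => gg (pos s) := by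
  obtain ⟨d, rfl⟩ := Nat.exists_eq_add_of_le h
  obtain ⟨e, rfl⟩ := Nat.exists_eq_add_of_le h'
  rw [Nat.add_sub_cancel_left, add_assoc, Ex_append]
  refine (Ex_mono fun a ha => ?_).trans (Ex_const t _).le
  rw [Ex_append]
  refine Ex_mono fun b hb => (Ex_mono fun c _ => ?_).trans (Ex_const e _).le
  subst ha hb
  rw [pt_append_right, pt_append_left le_rfl, pt_append_left le_rfl, pt_of_le le_rfl,
    pt_of_le le_rfl, add_sub_cancel_left]

lemma fine_piece : ∃ (A1 : ℝ) (u0 : ℕ), 0 ≤ A1 ∧ ∀ u ≥ u0, ∀ (y : V) (U : Set V),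
    Bx y (u / 4) ⊆ U →
      (WF fun s => ie (Exit U y s ∧ ¬ Pot (A1 / u) (tr y s ∩ Bx y (u / 4)))) ≤ 2⁻¹ := by
  obtain ⟨C, C0, hC⟩ := Ex_gg
  refine ⟨2560 * C, 20, by positivity, fun u hu y U hU => ?_⟩
  set q := u / 20 with hq
  have q1 : 1 ≤ q := by omega
  have q0 : (0 : ℝ) < q := by exact_mod_cast q1
  have u0 : (0 : ℝ) < u := by exact_mod_cast (show 0 < u by omega)
  have uq : (u : ℝ) ≤ 40 * q := by exact_mod_cast (show u ≤ 40 * q by omega)
  have T1 : 1 ≤ q ^ 2 := Nat.one_le_pow _ _ q1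
  have far : (Ex (q ^ 2) fun s => ind (Hit (Bx y (u / 4))ᶜ y s)) ≤ 1 / 8 := by
    refine (far_le (t := 5 * q) (by positivity) (fun z hz => ?_) _).trans ?_
    · obtain ⟨c, hc⟩ := exists_nrm (z - y)
      have h1 : 5 * q ≤ nrm (z - y) := by
        have := mt mem_Bx.2 hz
        omega
      refine ⟨c, ?_⟩
      have h2 : ((5 * q : ℕ) : ℤ) ≤ |z c - y c| := by
        rw [← Pi.sub_apply, hc]; exact_mod_cast h1
      exact_mod_cast h2
    · rw [div_le_iff₀ (by positivity)]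
      push_cast
      nlinarith only []
  set b : ℝ := 640 * C / u with hb
  have b0 : 0 < b := by positivity
  set S : List D → ℝ := fun s =>
    ∑ t ∈ range (q ^ 2), ∑ t' ∈ range (q ^ 2), gg (pt y s t' - pt y s t) with hS
  have mk : (Ex (q ^ 2) fun s => ind (b * (q ^ 2 : ℕ) ^ 2 < S s)) ≤ 1 / 4 := by
    have h1 : Ex (q ^ 2) S ≤ 2 * (C * (2 * q)) * (q ^ 2 : ℕ) := by
      simp only [hS, Ex_sum]
      refine c5_double (φ := fun d => C * (1 / √((d : ℝ) + 1))) (N := q ^ 2)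
        (fun d => by positivity) (fun n hn => ?_) (fun t t' h h' => ?_) _ le_rfl
      · rw [← mul_sum]
        refine mul_le_mul_of_nonneg_left ((c5_sqrt n).trans ?_) C0.le
        have : √(n : ℝ) ≤ q := Real.sqrt_le_iff.2 ⟨q0.le, by exact_mod_cast hn⟩
        linarith only [this]
      · have := ((c5_Ex y h h'.le).trans (hC _)).trans_eq (div_eq_mul_one_div _ _)
        refine ⟨this, le_trans (Ex_mono fun s _ => ?_) this⟩
        rw [← gg_neg, neg_sub]
    have p0 : 0 < b * ((q ^ 2 : ℕ) : ℝ) ^ 2 := by positivity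
    refine (Ex_mono (G := fun s => (b * ((q ^ 2 : ℕ) : ℝ) ^ 2)⁻¹ * S s) fun s _ => ?_).trans ?_
    · refine ind_le (mul_nonneg (by positivity)
        (sum_nonneg fun _ _ => sum_nonneg fun _ _ => (gg_pos _).le)) fun h => ?_
      rw [← div_eq_inv_mul, le_div_iff₀ p0, one_mul]
      exact h.le
    · rw [Ex_mul, ← div_eq_inv_mul, div_le_iff₀ p0]
      refine h1.trans ?_
      have h2 : 16 * C ≤ b * q := by
        rw [hb, div_mul_eq_mul_div, le_div_iff₀ u0]
        nlinarith only [C0, uq]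
      push_cast
      linarith only [mul_le_mul_of_nonneg_right h2 (pow_pos q0 3).le]
  calc _ ≤ WF fun s => ie (Exit U y s ∧ s.length ≤ q ^ 2) + ie (Exit U y s ∧ q ^ 2 ≤ s.length ∧
        (Hit (Bx y (u / 4))ᶜ y (s.take (q ^ 2)) ∨ b * (q ^ 2 : ℕ) ^ 2 < S (s.take (q ^ 2)))) := by
        refine WF_mono fun s => ie_or_le fun h => ?_
        refine (le_total s.length (q ^ 2)).imp (fun hl => ⟨h.1, hl⟩) fun hl => ⟨h.1, hl, ?_⟩
        by_contra hn
        rw [not_or, not_lt, hit_iff, meets_compl, not_not] at hn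
        refine h.2 ((pot_of_sum _ T1 hn.2).mono (by rw [hb]; ring_nf; exact le_rfl) ?_)
        rintro z ⟨t, ht, rfl⟩
        exact ⟨⟨t, (pt_take ht.le).symm⟩, hn.1 (pt_mem_tr _ _ _)⟩
    _ ≤ ENNReal.ofReal (1 / 8) + ENNReal.ofReal (1 / 8 + 1 / 4) := by
        rw [WF_add]
        refine add_le_add ((exit_short U y _).trans (ENNReal.ofReal_le_ofReal ?_))
          ((exit_time U y _ fun a => Hit (Bx y (u / 4))ᶜ y a ∨ b * (q ^ 2 : ℕ) ^ 2 < S a).trans
            (ENNReal.ofReal_le_ofReal ?_))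
        · refine le_trans (Ex_mono fun s _ => ind_mono fun h => ?_) far
          exact hit_iff.2 ((hit_iff.1 h).mono le_rfl (Set.compl_subset_compl.2 hU))
        · refine (Ex_mono fun s _ => ind_or_le id).trans ?_
          rw [Ex_add]
          exact add_le_add far mk
    _ = 2⁻¹ := by
        rw [← ENNReal.ofReal_add (by norm_num) (by norm_num), show (1 / 8 + (1 / 8 + 1 / 4) : ℝ) =
          2⁻¹ by norm_num, ENNReal.ofReal_inv_of_pos two_pos, ENNReal.ofReal_ofNat]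

end Pool.Agent.MP_3a8451_pr

end
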