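import Pool.Agent.MP_3a8451_pr.Mg.Ex2

attribute [-instance] IdemSemiring.toCanonicallyOrderedAdd AddQuantale.instAddLeftMono
  Fintype.decidableForallFintype IdemSemiring.toMulLeftMono Quantale.instMulLeftMono
  NumberField.to_charZero IsStrictOrderedRing.toCharZero RKHS.instFunLike
  AddQuantale.instAddRightMono IsOrderedCancelMonoid.toIsOrderedMonoid Quantale.instMulRightMono
  littleWedderburn CommMonTypeEquivalenceCommMon.commMonCommMonoid
  CanonicallyOrderedAdd.toMulLeftMono Finset.decidableDforallFinset instCoeOTCOfCoeTC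
  instCoeTOfCoeDep LinearOrderedCommMonoidWithZero.toIsOrderedMonoid
  Multiset.decidableDforallMultiset Vector.instDecidableForallForallMemOfDecidablePred
  Int.decidableLTLE Array.instDecidableForallForallMemOfDecidablePred IdemSemiring.toMulRightMono
  Option.decidableForallMem instCharZeroOfIsSemireal instCoeHTCOfCoeHeadOfCoeOTC
  DivisionSemiring.toSemiring TestFunctionClass.toDFunLike instCoeHTCTOfCoeTailOfCoeHTC
  CanonicallyOrderedMul.toMulLeftMono ContDiffMapSupportedInClass.toDFunLike NeZero.of_gt'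
  Int.decidableLELE Int.decidableLTLT IdemSemiring.toSemiring Int.decidableLELT instZeroLEOneClass
  CommRing.toCommMonoid

-- part Lp/C6
section

/-! The trace of a walk crossing an annulus is good with high probability. -/

open Finset
open scoped ENNReal NNReal

namespace Pool.Agent.MP_3a8451_pr

lemma pot_merge {τ : Type*} [DecidableEq τ] {J : Finset τ} (hJ : J.Nonempty) {K : τ → Set V}
    {b b' : ℝ} {e : τ → τ → ℝ} (hK : ∀ h ∈ J, Pot b (K h))
    (he : ∀ h ∈ J, ∀ h' ∈ J, h ≠ h' → ∀ y ∈ K h, ∀ x ∈ K h', gg (x - y) ≤ e h h')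
    (hs : ∀ h ∈ J, b + ∑ h' ∈ J.erase h, e h h' ≤ b' * J.card) : Pot b' (⋃ h ∈ J, K h) := by
  classical
  choose! F ν h0 h1 h2 h3 using hK
  have hc : (0 : ℝ) < J.card := by exact_mod_cast hJ.card_pos
  have key : ∀ w : V → ℝ, ∑ x ∈ J.biUnion F,
      ((∑ h ∈ J, if x ∈ F h then ν h x else 0) / J.card) * w x =
        (∑ h ∈ J, ∑ x ∈ F h, ν h x * w x) / J.card := fun w => by
    simp only [div_mul_eq_mul_div, ← sum_div, sum_mul, ite_mul, zero_mul]
    rw [sum_comm]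
    congr 1
    refine sum_congr rfl fun h hh => ?_
    rw [sum_ite_mem, inter_eq_right.2 (subset_biUnion_of_mem F hh)]
  refine ⟨J.biUnion F, fun x => (∑ h ∈ J, if x ∈ F h then ν h x else 0) / J.card,
    fun x => div_nonneg (sum_nonneg fun h hh => ?_) hc.le, fun x hx => ?_, ?_, fun y hy => ?_⟩
  · split_ifs
    exacts [h0 h hh x, le_rfl]
  · obtain ⟨h, hh, hx⟩ := mem_biUnion.1 hx
    exact Set.mem_iUnion₂.2 ⟨h, hh, h1 h hh x hx⟩
  · have := key fun _ => 1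
    simp only [mul_one] at this
    rw [this, sum_congr rfl h2, sum_const, nsmul_eq_mul, mul_one, div_self hc.ne']
  · obtain ⟨h, hh, hy⟩ := mem_biUnion.1 hy
    rw [key, div_le_iff₀ hc, ← add_sum_erase _ _ hh]
    refine le_trans (add_le_add (h3 h hh y hy) (sum_le_sum fun h' hh' => ?_)) (hs h hh)
    have hm := mem_erase.1 hh'
    calc ∑ x ∈ F h', ν h' x * gg (x - y) ≤ ∑ x ∈ F h', ν h' x * e h h' :=
          sum_le_sum fun x hx => mul_le_mul_of_nonneg_left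
            (he h hh h' hm.2 hm.1.symm y (h1 h hh y hy) x (h1 h' hm.2 x hx)) (h0 h' hm.2 x)
      _ = e h h' := by rw [← sum_mul, h2 h' hm.2, one_mul]

/-- The shell of index `h`. -/
def c6_sh (c : V) (r u h : ℕ) : Set V :=
  {z | 40 * r + h * u + 1 ≤ nrm (z - c) + u / 4 ∧ nrm (z - c) ≤ 40 * r + h * u + 1 + u / 4}

lemma c6_gg {v : V} {m : ℕ} (hm : 1 ≤ m) (h : m ≤ 2 * (nrm v + 1)) : gg v ≤ 2 / m := by
  have h1 : (0 : ℝ) < m := by exact_mod_cast hm
  have h2 : (m : ℝ) ≤ 2 * (nrm v + 1) := by exact_mod_cast h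
  rw [gg, div_le_div_iff₀ (by positivity) h1]
  linarith only [h2]

lemma c6_far {c x y : V} {r u h h' d : ℕ} (hy : y ∈ c6_sh c r u h) (hx : x ∈ c6_sh c r u h')
    (hd : 1 ≤ d) (hh : h + d ≤ h') : d * u ≤ 2 * (nrm (x - y) + 1) := by
  have h1 := nrm_tri x y c
  have h2 := Nat.mul_le_mul_right u hh
  have h3 := Nat.mul_le_mul_right u hd
  obtain ⟨-, h4⟩ := hy
  obtain ⟨h5, -⟩ := hx
  rw [add_mul] at h2
  omega

lemma c6_good {c : V} {r u q : ℕ} {A1 A : ℝ} (hq : 1 ≤ q) (hu : 2 ≤ u) (hA1 : 0 ≤ A1)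
    (hA : A1 + 16 * q ≤ A) (h1 : 4 * q ^ 2 * u ≤ 20 * r) (h2 : 10 * r ≤ 4 * q ^ 2 * u)
    {T : Set V} {J : Finset ℕ} (hJ : J ⊆ range (4 * q ^ 2)) (hc : q ^ 2 ≤ J.card)
    (hp : ∀ h ∈ J, Pot (A1 / u) (T ∩ c6_sh c r u h)) : Good A T c r := by
  have hq2 : 1 ≤ q ^ 2 := Nat.one_le_pow _ _ hq
  have hq0 : (0 : ℝ) < q := by exact_mod_cast hq
  have hu0 : (0 : ℝ) < u := by exact_mod_cast (by omega : 0 < u)
  have hr : 0 < r := by
    have := Nat.mul_le_mul hq2 hu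
    rw [mul_assoc] at h1
    omega
  have hr0 : (0 : ℝ) < r := by exact_mod_cast hr
  refine Pot.mono (pot_merge (card_pos.1 (by omega)) hp (b' := A / r)
    (e := fun h h' => 2 / u * ((if h' ∈ Icc (h - q) (h + q) then 1 else 0) + 1 / q))
    (fun h _ h' _ hne y hy x hx => ?_) fun h hh => ?_) le_rfl ?_
  · have key : ∀ d, 1 ≤ d → h + d ≤ h' ∨ h' + d ≤ h → gg (x - y) ≤ 2 / ((d * u : ℕ) : ℝ) :=
      fun d hd hh => c6_gg (Nat.mul_pos hd (by omega)) (hh.elim (c6_far hy.2 hx.2 hd)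
        fun hh => nrm_comm x y ▸ c6_far hx.2 hy.2 hd hh)
    split_ifs with hm
    · refine (key 1 le_rfl (by omega)).trans ?_
      rw [one_mul]
      exact le_mul_of_one_le_right (by positivity) (le_add_of_nonneg_right (by positivity))
    · refine (key q hq (by rw [mem_Icc] at hm; omega)).trans_eq ?_
      push_cast
      field_simp
      ring
  · have e1 : ∑ h' ∈ J.erase h, ((if h' ∈ Icc (h - q) (h + q) then (1 : ℝ) else 0) + 1 / q) ≤
        8 * q := by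
      rw [sum_add_distrib, sum_ite_mem, sum_const, sum_const, nsmul_eq_mul, nsmul_eq_mul]
      have a1 : (J.erase h ∩ Icc (h - q) (h + q)).card ≤ 4 * q :=
        (card_le_card inter_subset_right).trans (by rw [Nat.card_Icc]; omega)
      have a2 : (J.erase h).card ≤ 4 * q ^ 2 :=
        (card_le_card ((erase_subset _ _).trans hJ)).trans_eq (card_range _)
      have a3 : ((J.erase h ∩ Icc (h - q) (h + q)).card : ℝ) ≤ 4 * q := by exact_mod_cast a1
      have a4 : ((J.erase h).card : ℝ) ≤ 4 * q ^ 2 := by exact_mod_cast a2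
      have a5 : ((J.erase h).card : ℝ) * (1 / q) ≤ 4 * q := by
        rw [mul_one_div, div_le_iff₀ hq0]
        linarith only [a4]
      linarith only [a3, a5]
    have e2 : (10 * r : ℝ) ≤ 4 * q ^ 2 * u := by exact_mod_cast h2
    have e3 : ((q : ℝ)) ^ 2 ≤ J.card := by exact_mod_cast hc
    have e4 : 0 ≤ A := le_trans (by positivity) hA
    rw [← mul_sum]
    calc A1 / u + 2 / u * _ ≤ A1 / u + 2 / u * (8 * q) := by gcongr
      _ = (A1 + 16 * q) / u := by ring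
      _ ≤ A / u := by gcongr
      _ ≤ A / r * q ^ 2 := by
        rw [div_mul_eq_mul_div, div_le_div_iff₀ hu0 hr0, mul_assoc]
        exact mul_le_mul_of_nonneg_left (by linarith only [hr0, e2]) e4
      _ ≤ A / r * J.card := by gcongr
  · refine Set.iUnion₂_subset fun h hh => Set.inter_subset_inter_right _ fun z hz => mem_Bx.2 ?_
    have a1 := Nat.mul_le_mul_right u (Nat.succ_le_of_lt (mem_range.1 (hJ hh)))
    have a2 := hz.2
    rw [Nat.succ_mul] at a1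
    omega

open Classical in
/-- Weight of a set in the shell of index `i - 1`. -/
noncomputable def c6_phi (b : ℝ) (c : V) (r u : ℕ) : ℕ → Set V → ℝ≥0∞
  | 0, _ => 1
  | h + 1, T => if Pot b (T ∩ c6_sh c r u h) then 2⁻¹ else 1

lemma c6_anti (b : ℝ) (c : V) (r u i : ℕ) : Antitone (c6_phi b c r u i) := by
  intro T T' hT
  cases i with
  | zero => exact le_rfl
  | succ h =>
    simp only [c6_phi]
    split_ifs with h1 h2 h2
    · exact le_rfl
    · exact ENNReal.inv_le_one.2 one_le_two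
    · exact absurd (h2.mono le_rfl (Set.inter_subset_inter_left _ hT)) h1
    · exact le_rfl

lemma c6_step {b : ℝ} {c y : V} {r u h : ℕ} {U : Set V} (hy : nrm (y - c) = 40 * r + h * u + 1)
    (hf : (WF fun s => ie (Exit U y s ∧ ¬ Pot b (tr y s ∩ Bx y (u / 4)))) ≤ 2⁻¹) :
    (WF fun s => ie (Exit U y s) * c6_phi b c r u (h + 1) (tr y s)) ≤ ENNReal.ofReal (3 / 4) := by
  have hs : Bx y (u / 4) ⊆ c6_sh c r u h := fun z hz => by
    have a1 := mem_Bx.1 hz
    have a2 := nrm_tri z y c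
    have a3 := nrm_tri y z c
    rw [nrm_comm y z] at a3
    exact ⟨by omega, by omega⟩
  calc _ ≤ WF fun s => 2⁻¹ * ie (Exit U y s) +
        2⁻¹ * ie (Exit U y s ∧ ¬ Pot b (tr y s ∩ Bx y (u / 4))) := by
        refine WF_mono fun s => ie_mul_le fun hE => ?_
        simp only [c6_phi]
        rw [ie_pos hE, mul_one]
        split_ifs with h1
        · exact le_self_add
        · rw [ie_pos ⟨hE, fun h2 => h1 (h2.mono le_rfl (Set.inter_subset_inter_right _ hs))⟩,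
            mul_one, ENNReal.inv_two_add_inv_two]
    _ ≤ 2⁻¹ * 1 + 2⁻¹ * 2⁻¹ := by
        rw [WF_add, WF_mul_left, WF_mul_left]
        gcongr
        exact exit_le_one U y
    _ = ENNReal.ofReal (3 / 4) := by
        rw [show (2⁻¹ : ℝ≥0∞) = ENNReal.ofReal 2⁻¹ by
          rw [ENNReal.ofReal_inv_of_pos two_pos, ENNReal.ofReal_ofNat], mul_one,
          ← ENNReal.ofReal_mul (by norm_num), ← ENNReal.ofReal_add (by norm_num) (by norm_num)]
        norm_num

lemma rw1 {B : ℝ} (hB : 1 ≤ B) (A0 : ℕ) : ∃ A : ℕ, A0 ≤ A ∧ ∃ r0 : ℕ, ∀ r ≥ r0, ∀ c : V,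
    ∀ y ∈ Bx c (36 * r), (WF fun s => ie (Exit (Bx c (64 * r)) y s ∧ ¬ Good A (tr y s) c r)) ≤
      ENNReal.ofReal ((1 / B) ^ A) := by
  classical
  obtain ⟨A1, u0, hA1, hf⟩ := fine_piece
  obtain ⟨b, hb⟩ := exists_pow_lt_of_lt_one (show 0 < 1 / B by positivity)
    (show (81 / 128 : ℝ) < 1 by norm_num)
  obtain ⟨a, ha, ha0⟩ : ∃ a : ℕ, A1 ≤ a ∧ A0 ≤ a :=
    ⟨⌈A1⌉₊ + A0, (Nat.le_ceil _).trans (by exact_mod_cast Nat.le_add_right _ _),
      Nat.le_add_left _ _⟩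
  obtain ⟨q, hq, hq'⟩ : ∃ q : ℕ, 1 ≤ q ∧ b * (a + 16 * q) ≤ q ^ 2 := by
    refine ⟨b * (a + 16) + 1, Nat.le_add_left _ _, ?_⟩
    generalize hq : b * (a + 16) + 1 = q
    have h1 : 1 ≤ q := by omega
    calc b * (a + 16 * q) ≤ b * (a * q + 16 * q) := by
          gcongr
          exact Nat.le_mul_of_pos_right _ h1
      _ = b * (a + 16) * q := by ring
      _ ≤ q * q := Nat.mul_le_mul_right _ (by omega)
      _ = q ^ 2 := (sq q).symm
  have hq2 : 1 ≤ q ^ 2 := Nat.one_le_pow _ _ hq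
  refine ⟨a + 16 * q, by omega, 4 * q ^ 2 * (u0 + 2), fun r hr c y hy => ?_⟩
  obtain ⟨u, hu, h1, h2⟩ : ∃ u : ℕ, u0 + 2 ≤ u ∧ 4 * q ^ 2 * u ≤ 20 * r ∧
      10 * r ≤ 4 * q ^ 2 * u := by
    have hk : 0 < 4 * q ^ 2 := by omega
    have a1 : u0 + 2 ≤ 20 * r / (4 * q ^ 2) :=
      (Nat.le_div_iff_mul_le hk).2 (by rw [mul_comm]; omega)
    refine ⟨_, a1, Nat.mul_div_le _ _, ?_⟩
    have a2 := Nat.lt_mul_div_succ (20 * r) hk
    have a3 := Nat.mul_le_mul_left (4 * q ^ 2) (show 1 ≤ 20 * r / (4 * q ^ 2) by omega)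
    rw [mul_add] at a2
    omega
  have hψ : Antitone fun T : Set V => ie (¬ Good ((a + 16 * q : ℕ) : ℝ) T c r) :=
    fun T T' hT => ie_mono fun h h' => h (h'.mono le_rfl hT)
  have hch := chain (4 * q ^ 2) (fun i => Bx c (40 * r + i * u))
    (fun i => Nat.casesOn i (Bx c (36 * r)) fun h => {z | nrm (z - c) = 40 * r + h * u + 1})
    (c6_phi (A1 / u) c r u) (fun i => Nat.casesOn i 1 fun _ => ENNReal.ofReal (3 / 4))
    (c6_anti _ _ _ _) (fun i hi => Bx_mono (by gcongr)) (fun i _ z hz s hs => ?_)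
    (fun i _ z hz => ?_) hy
  · calc _ = WF fun s => ie (Exit (Bx c (64 * r)) y s) *
          ie (¬ Good ((a + 16 * q : ℕ) : ℝ) (tr y s) c r) := WF_congr fun s => ie_and _ _
      _ ≤ _ := exit_shrink (U := Bx c (40 * r + 4 * q ^ 2 * u)) (Bx_mono (by omega)) hψ y
      _ ≤ WF fun s => 2 ^ q ^ 2 * (ie (Exit (Bx c (40 * r + 4 * q ^ 2 * u)) y s) *
          ∏ i ∈ range (4 * q ^ 2 + 1), c6_phi (A1 / u) c r u i (tr y s)) := by
        refine WF_mono fun s => ?_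
        rw [mul_left_comm]
        refine mul_le_mul_right (ie_le fun hG => ?_) _
        rw [prod_range_succ']
        simp only [c6_phi, mul_one]
        rw [prod_ite, prod_const_one, mul_one, prod_const]
        have hc : ((range (4 * q ^ 2)).filter fun h =>
            Pot (A1 / u) (tr y s ∩ c6_sh c r u h)).card ≤ q ^ 2 := by
          by_contra hn
          exact hG (c6_good hq (by omega) hA1 (by push_cast; linarith only [ha]) h1 h2 (filter_subset _ _)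
            (not_le.1 hn).le fun h hh => (mem_filter.1 hh).2)
        calc (1 : ℝ≥0∞) = 2 ^ q ^ 2 * 2⁻¹ ^ q ^ 2 := by
              rw [← mul_pow, ENNReal.mul_inv_cancel two_ne_zero ENNReal.ofNat_ne_top, one_pow]
          _ ≤ _ := mul_le_mul_right
              (pow_le_pow_right_of_le_one' (ENNReal.inv_le_one.2 one_le_two) hc) _
      _ ≤ 2 ^ q ^ 2 * ENNReal.ofReal (3 / 4) ^ (4 * q ^ 2) := by
        rw [WF_mul_left]
        refine mul_le_mul_right (hch.trans_eq ?_) _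
        rw [prod_range_succ']
        simp only [prod_const, card_range]
        exact mul_one _
      _ = ENNReal.ofReal ((81 / 128) ^ q ^ 2) := by
        rw [pow_mul, ← mul_pow, ← ENNReal.ofReal_pow (by norm_num), ← ENNReal.ofReal_ofNat,
          ← ENNReal.ofReal_mul (by norm_num), ← ENNReal.ofReal_pow (by norm_num)]
        norm_num
      _ ≤ _ := by
        refine ENNReal.ofReal_le_ofReal
          ((pow_le_pow_of_le_one (by norm_num) (by norm_num) hq').trans ?_)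
        rw [pow_mul]
        exact pow_le_pow_left₀ (by positivity) hb.le _
  · refine hs.nrm_eq ?_
    cases i with
    | zero => exact Bx_mono (by omega) hz
    | succ h =>
      have hz' : nrm (z - c) = 40 * r + h * u + 1 := hz
      exact mem_Bx.2 (by rw [add_mul, one_mul]; omega)
  · cases i with
    | zero => exact exit_mul_le fun _ _ => le_rfl
    | succ h =>
      have hz' : nrm (z - c) = 40 * r + h * u + 1 := hz
      exact c6_step hz' (hf u (by omega) z _ (Bx_sub (by rw [add_mul, one_mul]; omega)))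

end Pool.Agent.MP_3a8451_pr

end

-- part Lp/C7
section

/-! Loops that avoid a set across many scales. -/

open Finset
open scoped ENNReal NNReal

namespace Pool.Agent.MP_3a8451_pr

variable {M1 : ℕ} {c1 : ℝ}

lemma c7_ctr0 (M j : ℕ) (g : V) : ctr M j 0 g = sc (M ^ j) g := by
  have : cell 1 g = g := funext fun c => by simp [cell]
  rw [ctr, pow_zero, this, add_zero]

lemma c7_step {M : ℕ} (hM : M1 + 1 ≤ M) (j l : ℕ) (g : V) :
    Bx (ctr M j l g) (M1 * M ^ (j + l) + 1) ⊆ Bx (ctr M j (l + 1) g) (2 * M ^ (j + (l + 1))) := by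
  have h0 : 0 < M := by omega
  have h1 := nrm_ctr h0 j l 1 g
  have h2 : 0 < M ^ (j + l) := pow_pos h0 _
  have h3 : (M1 + 1) * M ^ (j + l) ≤ M * M ^ (j + l) := Nat.mul_le_mul_right _ hM
  have h4 : M ^ (j + (l + 1)) = M * M ^ (j + l) := by rw [← add_assoc, pow_succ']
  refine Bx_sub ?_
  rw [add_mul] at h3
  omega

lemma c7_sub {M : ℕ} (h1 : 64 ≤ M1) (hM : M1 + 1 ≤ M) (j : ℕ) (g : V) {i d : ℕ} (h : i ≤ d) :
    Bx (ctr M j i g) (M1 * M ^ (j + i)) ⊆ Bx (ctr M j d g) (M1 * M ^ (j + d)) := by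
  induction d, h using Nat.le_induction with
  | base => exact subset_rfl
  | succ d _ ih =>
    exact ih.trans ((Bx_mono (Nat.le_succ _)).trans ((c7_step hM j d g).trans
      (Bx_mono (Nat.mul_le_mul_right _ (by omega)))))

lemma c7_G {C : ℝ} (hC : ∀ U x y, GG U x y ≤ ENNReal.ofReal (C * gg (x - y))) (h0 : 0 < C)
    {w z : V} {r : ℕ} (hr : 1 ≤ r) (h : r ≤ nrm (w - z) + 1) :
    (WF fun b => ie (w + pos b = z)) ≤ ENNReal.ofReal (C / r) := by
  refine le_trans (WF_mono fun s => ie_mono fun e => ⟨Set.subset_univ _, e⟩)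
    ((hC Set.univ w z).trans (ENNReal.ofReal_le_ofReal ?_))
  rw [div_eq_mul_one_div]
  exact mul_le_mul_of_nonneg_left (gg_le hr h) h0.le

lemma out_le : ∃ C : ℝ, 0 < C ∧ ∀ (M1 M : ℕ) (c1 A : ℝ), HLp M1 c1 → 64 ≤ M1 → M1 + 1 ≤ M →
    0 < c1 → c1 ≤ 1 / 2 → 1 ≤ A → ∀ (K : Set V) (j d : ℕ) (g x z : V),
      x ∈ Bx (sc (M ^ j) g) (32 * M ^ j) → 8 * M ^ (j + (d + 1)) ≤ nrm (z - ctr M j (d + 1) g) →
        ENNReal.ofReal (WW M A K j (d + 1) g) *
          (WF fun v => ie (x + pos v = z ∧ Disjoint (tr x v) K)) ≤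
            ENNReal.ofReal (C * (1 - c1 / A) ^ (d + 1) / M ^ (j + (d + 1))) := by
  classical
  obtain ⟨C, h0, hC⟩ := G_up
  refine ⟨C, h0, fun M1 M c1 A h h1 hM hc hc' hA K j d g x z hx hz => ?_⟩
  have hM0 : 0 < M := by omega
  have hσ : 1 / 2 ≤ 1 - c1 / A := by
    have := div_le_self hc.le hA
    linarith only [hc', this]
  have hY : ∀ i, Bx (ctr M j i g) (64 * M ^ (j + i)) ⊆ Bx (ctr M j i g) (M1 * M ^ (j + i)) :=
    fun i => Bx_mono (Nat.mul_le_mul_right _ h1)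
  have hx0 : x ∈ Bx (ctr M j 0 g) (64 * M ^ (j + 0)) := by
    rw [c7_ctr0]
    exact Bx_mono (by rw [add_zero]; omega) hx
  have hxd := c7_sub h1 hM j g (Nat.zero_le d) (hY 0 hx0)
  have hr : 1 ≤ M ^ (j + (d + 1)) := pow_pos hM0 _
  have hch := chain d (fun i => Bx (ctr M j i g) (M1 * M ^ (j + i)))
    (fun i => Bx (ctr M j i g) (64 * M ^ (j + i))) (fun _ T => ie (Disjoint T K))
    (fun i => if Good A K (ctr M j i g) (M ^ (j + i)) then ENNReal.ofReal (1 - c1 / A) else 1)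
    (fun _ _ _ hT => ie_mono fun h => h.mono_left hT) (fun i hi => c7_sub h1 hM j g hi)
    (fun i _ y hy s hs => Bx_mono (Nat.mul_le_mul_right _ (by norm_num))
      (c7_step hM j i g (hs.tr_sub (hY i hy) (end_mem_tr y s))))
    (fun i _ y hy => by
      split_ifs with hG
      · exact avoid h hc hA (pow_pos hM0 _) hG hy
      · exact (exit_mul_le fun s _ => ie_le_one _)) hx0
  have key : (WF fun v => ie (x + pos v = z ∧ Disjoint (tr x v) K)) ≤
      (∏ i ∈ range (d + 1), if Good A K (ctr M j i g) (M ^ (j + i)) then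
        ENNReal.ofReal (1 - c1 / A) else 1) * ENNReal.ofReal (C / (M ^ (j + (d + 1)) : ℕ)) := by
    refine (WF_le_append (Φ := fun a b => ie (Exit (Bx (ctr M j d g) (M1 * M ^ (j + d))) x a) *
      (∏ _i ∈ range (d + 1), ie (Disjoint (tr x a) K)) * ie (x + pos a + pos b = z))
      fun s hs => ?_).trans ?_
    · obtain ⟨e, hd⟩ := of_ie_ne hs
      obtain ⟨a, b, rfl, h'⟩ := exit_split (U := Bx (ctr M j d g) (M1 * M ^ (j + d))) (x := x)
        (s := s) fun hh => by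
          have := mem_Bx.1 (c7_step hM j d g (Bx_mono (Nat.le_succ _) (hh (end_mem_tr x s))))
          rw [e] at this
          omega
      refine ⟨a, b, rfl, ie_le fun _ => ?_⟩
      rw [ie_pos h', ie_pos (hd.mono_left (tr_left x a b)),
        ie_pos (by simpa [add_assoc] using e : x + pos a + pos b = z)]
      simp
    · refine le_trans (WF_mono fun a => ?_) ((WF_mul_right _ _).trans_le (mul_le_mul_left hch _))
      rw [WF_mul_left, mul_assoc, mul_assoc]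
      by_cases ha : Exit (Bx (ctr M j d g) (M1 * M ^ (j + d))) x a
      · have h2 := mem_Bx.1 (c7_step hM j d g (ha.tr_sub hxd (end_mem_tr x a)))
        have h3 := nrm_tri z (x + pos a) (ctr M j (d + 1) g)
        rw [nrm_comm z (x + pos a)] at h3
        gcongr
        exact c7_G hC h0 hr (by omega)
      · simp [ie_neg ha]
  refine (mul_le_mul_right key _).trans ?_
  rw [← mul_assoc, WW, ENNReal.ofReal_prod_of_nonneg fun _ _ => wg_nonneg _ _ _ _ _,
    ← prod_mul_distrib, mul_comm C, mul_div_assoc, ENNReal.ofReal_mul (by positivity),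
    ENNReal.ofReal_pow (by linarith only [hσ])]
  push_cast
  refine mul_le_mul_left ((prod_le_pow_card _ _ _ fun i _ => ?_).trans_eq (by rw [card_range])) _
  rw [wg, ctr]
  split_ifs
  · simp
  · rw [mul_one]
    refine ENNReal.ofReal_le_ofReal (le_trans ?_ hσ)
    have : (1 : ℝ) ≤ (M : ℝ) ^ 3 := one_le_pow₀ (by exact_mod_cast hM0)
    exact one_div_le_one_div_of_le (by norm_num) (by linarith only [this])

lemma c7_inner (h : HLp M1 c1) (hc : 0 < c1) {M : ℕ} (hM : 64 ≤ M) {A : ℝ} (hA : 1 ≤ A)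
    {K : Set V} {j d : ℕ} {β : ℝ≥0∞} {g' z : V} {T : Set V} (w : V)
    (hT : ∀ g ∈ fib (M ^ d) g', Disjoint T (Bx (sc (M ^ j) g) (32 * M ^ j)))
    (hβ : ∀ g ∈ fib (M ^ d) g', ∀ x ∈ Bx (sc (M ^ j) g) (32 * M ^ j),
      ENNReal.ofReal (WW M A K j d g) *
        (WF fun v => ie (x + pos v = z ∧ Disjoint (tr x v) K)) ≤ β) :
    (WF fun v => ie (w + pos v = z) * ∑ g ∈ fib (M ^ d) g',
      ENNReal.ofReal (WW M A K j (d + 1) g ^ 2) * ie (Disjoint (T ∪ tr w v) K ∧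
        Meets (T ∪ tr w v) (Bx (sc (M ^ j) g) (32 * M ^ j)))) ≤
      ENNReal.ofReal (2 * ((2 * M1 + 1) ^ 3 * A / c1) + 1) * β := by
  refine le_trans ?_ (mul_le_mul_left (hit_sum (K := K) h hc hA (by omega : 16 ≤ M) d j g' w) β)
  simp only [mul_sum]
  rw [WF_sum, sum_mul]
  refine sum_le_sum fun g hg => ?_
  have hW : ENNReal.ofReal (WW M A K j (d + 1) g ^ 2) ≤
      ENNReal.ofReal (WW M A K j d g) * ENNReal.ofReal (WW M A K j d g) := by
    rw [← ENNReal.ofReal_mul (WW_nonneg _ _ _ _ _ _), ← sq]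
    refine ENNReal.ofReal_le_ofReal (pow_le_pow_left₀ (WW_nonneg _ _ _ _ _ _) ?_ 2)
    rw [WW_add]
    exact mul_le_of_le_one_right (WW_nonneg _ _ _ _ _ _) (WW_le_one (by omega) _ _ _ _ _)
  refine (WF_le_append (Φ := fun a b => ENNReal.ofReal (WW M A K j d g) *
    ie (Exit (Bx (sc (M ^ j) g) (32 * M ^ j))ᶜ w a ∧ Disjoint (tr w a) K) *
      (ENNReal.ofReal (WW M A K j d g) *
        ie (w + pos a + pos b = z ∧ Disjoint (tr (w + pos a) b) K))) fun s hs => ?_).trans ?_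
  · have e := of_ie_ne (left_ne_zero_of_mul hs)
    obtain ⟨hd, p, hp, hq⟩ := of_ie_ne (right_ne_zero_of_mul (right_ne_zero_of_mul hs))
    have hp' : p ∈ tr w s := hp.resolve_left fun h => Set.disjoint_left.1 (hT g hg) h hq
    obtain ⟨a, b, rfl, h'⟩ := exit_split (U := (Bx (sc (M ^ j) g) (32 * M ^ j))ᶜ) (x := w)
      (s := s) fun hh => hh hp' hq
    have hd' := hd.mono_left Set.subset_union_right
    refine ⟨a, b, rfl, ?_⟩
    rw [ie_pos (And.intro h' (hd'.mono_left (tr_left w a b))), ie_pos (And.intro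
      (by simpa [add_assoc] using e : w + pos a + pos b = z) (hd'.mono_left (tr_right w a b))),
      ie_pos e, one_mul, mul_one]
    exact (mul_le_of_le_one_right' (ie_le_one _)).trans hW
  · rw [← WF_mul_left, ← WF_mul_right]
    refine WF_mono fun a => ?_
    rw [WF_mul_left, WF_mul_left]
    by_cases ha : Exit (Bx (sc (M ^ j) g) (32 * M ^ j))ᶜ w a
    · exact mul_le_mul_right (hβ g hg _ (not_not.1 ha.1)) _
    · simp [ie_neg fun h : _ ∧ Disjoint (tr w a) K => ha h.1]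

lemma bracket (h : HLp M1 c1) (h1 : 64 ≤ M1) (hc : 0 < c1) (hc' : c1 ≤ 1 / 2) {M : ℕ}
    (hM : M1 + 1 ≤ M) {A : ℝ} (hA : 1 ≤ A) : ∃ C : ℝ, 0 < C ∧ ∀ (K : Set V) (j d : ℕ) (g' : V),
      ∑ g ∈ fib (M ^ (d + 1)) g', ENNReal.ofReal (WW M A K j (d + 1) g ^ 2) *
        Mu (fun x s => ie (Disjoint (tr x s) K ∧ Big (sc (M ^ j) g) (M ^ j) (tr x s) ∧
          ¬ tr x s ⊆ Bx (ctr M j d g) (16 * M ^ (j + d)))) ≤
        ENNReal.ofReal (C * (1 - c1 / A) ^ d) := by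
  obtain ⟨C1, p1, hC1⟩ := Mu_out
  obtain ⟨C2, p2, hC2⟩ := out_le
  obtain ⟨C3, p3, hC3⟩ := cap_up
  have hM0 : 0 < M := by omega
  have hσ : 0 ≤ 1 - c1 / A := by
    have := div_le_self hc.le hA
    linarith only [hc', this]
  set H : ℝ := 2 * ((2 * M1 + 1) ^ 3 * A / c1) + 1 with hH
  have pH : 0 < H := by positivity
  have fin : ∀ (g' : V) (f : V → ℝ≥0∞) (b : ℝ), (∀ g ∈ fib M g', f g ≤ ENNReal.ofReal b) →
      ∑ g ∈ fib M g', f g ≤ ENNReal.ofReal (M ^ 3 * b) := fun g' f b hf => by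
    refine (sum_le_card_nsmul _ _ _ hf).trans_eq ?_
    rw [card_fib, nsmul_eq_mul, ENNReal.ofReal_mul (by positivity), ← Nat.cast_pow,
      ENNReal.ofReal_natCast]
  refine ⟨M ^ 3 * (C1 + C3 * (H * C2)), by positivity, fun K j d g' => ?_⟩
  rw [mul_assoc]
  rcases d with _ | d
  · simp only [zero_add, pow_one, pow_zero, mul_one]
    refine fin g' _ _ fun g _ => ?_
    have hr : 1 ≤ M ^ j := pow_pos hM0 _
    have hr' : (0 : ℝ) < (M ^ j : ℕ) := by exact_mod_cast hr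
    refine (mul_le_of_le_one_left' (ENNReal.ofReal_le_one.2 (pow_le_one₀ (WW_nonneg _ _ _ _ _ _)
      (WW_le_one hM0 _ _ _ _ _)))).trans ((Mu_ie_mono fun x s _ h => h.2.1).trans
      ((hC1 (sc (M ^ j) g) (M ^ j) (32 * M ^ j) (64 * M ^ j) hr le_rfl (by omega)).trans
        (ENNReal.ofReal_le_ofReal ?_)))
    rw [Nat.cast_mul, Nat.cast_mul, div_le_iff₀ (by push_cast at hr' ⊢; linarith only [hr'])]
    have : 0 < C3 * (H * C2) := by positivity
    push_cast at hr' ⊢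
    linarith only [mul_pos p1 hr', mul_pos this hr']
  rw [pow_succ M (d + 1), sum_fib_mul (pow_pos hM0 _) hM0]
  refine fin g' _ _ fun k _ => ?_
  set r := M ^ (j + (d + 1)) with hr
  have hr1 : 1 ≤ r := pow_pos hM0 _
  have hr' : (0 : ℝ) < (r : ℕ) := by exact_mod_cast hr1
  have hctr : ∀ g ∈ fib (M ^ (d + 1)) k, ctr M j (d + 1) g = sc r k := fun g hg => by
    rw [ctr, (mem_fib (pow_pos hM0 _)).1 hg]
  have hQ : ∀ g ∈ fib (M ^ (d + 1)) k, Bx (sc (M ^ j) g) (32 * M ^ j) ⊆ Bx (sc r k) (2 * r) :=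
    fun g hg => by
      have a1 := nrm_ctr hM0 j 0 (d + 1) g
      rw [c7_ctr0, zero_add, hctr g hg] at a1
      have a2 : M ^ j * M ^ 1 ≤ M ^ j * M ^ (d + 1) :=
        Nat.mul_le_mul_left _ (Nat.pow_le_pow_right hM0 (by omega))
      have a3 : M ^ j * 32 ≤ M ^ j * M ^ 1 := Nat.mul_le_mul_left _ (by rw [pow_one]; omega)
      rw [← pow_add M j (d + 1)] at a2
      exact Bx_sub (by omega)
  simp only [← Mu_mul_left]
  rw [← Mu_sum]
  refine (Mu_pair (Bx (sc r k) (8 * r)) (Bx (sc r k) (16 * r))ᶜ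
    (Ψ := fun T => ∑ g ∈ fib (M ^ (d + 1)) k, ENNReal.ofReal (WW M A K j (d + 1 + 1) g ^ 2) *
      ie (Disjoint T K ∧ Meets T (Bx (sc (M ^ j) g) (32 * M ^ j)))) fun x s _ hs => ?_).trans ?_
  · obtain ⟨g, hg, hs⟩ := exists_ne_zero_of_sum_ne_zero hs
    obtain ⟨-, hb, hn⟩ := of_ie_ne (right_ne_zero_of_mul hs)
    refine ⟨hb.1.mono subset_rfl ((hQ g hg).trans (Bx_mono (by omega))),
      meets_compl.2 (hctr g hg ▸ hn), sum_le_sum fun g _ => ?_⟩
    exact mul_le_mul_right (ie_mono fun h => ⟨h.1, h.2.1.1⟩) _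
  calc _ ≤ cap (Bx (sc r k) (16 * r))ᶜᶜ (Bx (sc r k) (8 * r)) *
        (ENNReal.ofReal H * ENNReal.ofReal (C2 * (1 - c1 / A) ^ (d + 1) / M ^ (j + (d + 1)))) := by
        rw [cap, ← ENNReal.tsum_mul_right]
        refine ENNReal.tsum_le_tsum fun z => ?_
        rw [mul_assoc, ← WF_mul_right]
        by_cases hz : z ∈ Bx (sc r k) (8 * r)
        swap
        · simp only [ie_neg hz, compl_compl, Set.disjoint_union_left, zero_mul, Std.le_refl]
        refine mul_le_mul_right (WF_mono fun u => ?_) _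
        by_cases hu : Exit (Bx (sc r k) (16 * r))ᶜᶜ z u ∧ NoRet (Bx (sc r k) (8 * r)) z u
        swap
        · simp only [ie_neg hu, zero_mul, le_refl]
        have hz' := hu.2.nrm_eq (hu.1.ne_nil (not_not.2 (Bx_mono (by omega) hz))) hz
        refine mul_le_mul_right (c7_inner h hc (by omega) hA _ (fun g hg => ?_)
          fun g hg x hx => hC2 M1 M c1 A h h1 hM hc hc' hA K j d g x z hx ?_) _
        · refine Set.disjoint_left.2 fun p hp hq => ?_
          have e := hu.2.mem hp (Bx_mono (by omega) (hQ g hg hq))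
          have := mem_Bx.1 (hQ g hg hq)
          rw [e] at this
          omega
        · rw [hctr g hg, hz']
    _ ≤ ENNReal.ofReal (C3 * r) *
        (ENNReal.ofReal H * ENNReal.ofReal (C2 * (1 - c1 / A) ^ (d + 1) / M ^ (j + (d + 1)))) := by
        refine mul_le_mul_left (hC3 (sc r k) r _ _ hr1 (Bx_mono (by omega)) fun x hx => ?_) _
        rw [compl_compl]
        exact Bx_sub (by have := mem_Bx.1 hx; omega)
    _ ≤ _ := by
        rw [← ENNReal.ofReal_mul pH.le, ← ENNReal.ofReal_mul (by positivity), ← Nat.cast_pow, ← hr]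
        refine ENNReal.ofReal_le_ofReal ?_
        have e : C3 * r * (H * (C2 * (1 - c1 / A) ^ (d + 1) / r)) =
            C3 * (H * C2) * (1 - c1 / A) ^ (d + 1) := by field_simp
        rw [e]
        exact mul_le_mul_of_nonneg_right (by linarith only [p1]) (pow_nonneg hσ _)

end Pool.Agent.MP_3a8451_pr

end

-- part Lp/C8
section

/-! Exponential moment of the number of scales at which a loop is bad. -/

open Finset
open scoped ENNReal NNReal

namespace Pool.Agent.MP_3a8451_pr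

lemma c8_ctr0 (M j : ℕ) (g : V) : ctr M j 0 g = sc (M ^ j) g := by
  have : cell 1 g = g := funext fun c => by simp [cell]
  rw [ctr, pow_zero, this, add_zero]

lemma c8_step {M : ℕ} (hM : 16 ≤ M) (j l : ℕ) (g : V) :
    Bx (ctr M j l g) (64 * M ^ (j + l) + 1) ⊆ Bx (ctr M j (l + 1) g) (36 * M ^ (j + (l + 1))) := by
  have h0 : 0 < M := by omega
  have h1 := nrm_ctr h0 j l 1 g
  have h2 : 0 < M ^ (j + l) := pow_pos h0 _
  have h3 : 16 * M ^ (j + l) ≤ M * M ^ (j + l) := Nat.mul_le_mul_right _ hM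
  have h4 : M ^ (j + (l + 1)) = M * M ^ (j + l) := by rw [← add_assoc, pow_succ']
  exact Bx_sub (by omega)

lemma c8_sub {M : ℕ} (hM : 16 ≤ M) (j : ℕ) (g : V) {i d : ℕ} (h : i ≤ d) :
    Bx (ctr M j i g) (64 * M ^ (j + i)) ⊆ Bx (ctr M j d g) (64 * M ^ (j + d)) := by
  induction d, h using Nat.le_induction with
  | base => exact subset_rfl
  | succ d _ ih =>
    exact ih.trans ((Bx_mono (Nat.le_succ _)).trans ((c8_step hM j d g).trans
      (Bx_mono (Nat.mul_le_mul_right _ (by omega)))))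

lemma c8_anti {t : ℝ} (ht : 0 ≤ t) (A : ℝ) (c : V) (r : ℕ) :
    Antitone fun T : Set V => ENNReal.ofReal (1 + t * ind (¬ Good A T c r)) := fun _ _ h =>
  ENNReal.ofReal_le_ofReal (add_le_add_right (mul_le_mul_of_nonneg_left
    (ind_mono fun a b => a (b.mono le_rfl h)) ht) _)

lemma c8_two {t η : ℝ} (ht : 0 ≤ t) (htη : t * η ≤ 1) {U : Set V} {y : V} {P : List D → Prop}
    (h : (WF fun s => ie (Exit U y s ∧ P s)) ≤ ENNReal.ofReal η) :
    (WF fun s => ie (Exit U y s) * ENNReal.ofReal (1 + t * ind (P s))) ≤ 2 := by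
  calc _ = WF fun s => ie (Exit U y s) + ENNReal.ofReal t * ie (Exit U y s ∧ P s) :=
        WF_congr fun s => by
          rw [ENNReal.ofReal_add zero_le_one (mul_nonneg ht (ind_nonneg _)),
            ENNReal.ofReal_mul ht, ofReal_ind, ie_and, ENNReal.ofReal_one]
          ring
    _ ≤ 1 + ENNReal.ofReal t * ENNReal.ofReal η := by
        rw [WF_add, WF_mul_left]
        exact add_le_add (exit_le_one U y) (mul_le_mul_right h _)
    _ ≤ 1 + 1 := by
        rw [← ENNReal.ofReal_mul ht]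
        exact add_le_add_right (ENNReal.ofReal_le_one.2 htη) _
    _ = 2 := one_add_one_eq_two

lemma e2one : ∃ C : ℝ, 0 < C ∧ ∀ (M : ℕ) (A t η : ℝ) (j d : ℕ) (g : V), 16 ≤ M → 0 ≤ t → 0 ≤ η →
    t * η ≤ 1 → (∀ l c, ∀ y ∈ Bx c (36 * M ^ (j + l)), (WF fun s =>
      ie (Exit (Bx c (64 * M ^ (j + l))) y s ∧ ¬ Good A (tr y s) c (M ^ (j + l)))) ≤
        ENNReal.ofReal η) →
    Mu (fun x s => ie (Meets (tr x s) (Bx (sc (M ^ j) g) (32 * M ^ j)) ∧
      ¬ tr x s ⊆ Bx (ctr M j d g) (64 * M ^ (j + d))) * ∏ l ∈ range (d + 1),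
        ENNReal.ofReal (1 + t * ind (¬ Good A (tr x s) (ctr M j l g) (M ^ (j + l))))) ≤
      ENNReal.ofReal (C * (2 / M) ^ d) := by
  obtain ⟨C1, p1, hC1⟩ := G_up
  obtain ⟨C2, p2, hC2⟩ := cap_up
  refine ⟨C2 * (2 * C1), by positivity, fun M A t η j d g hM ht _ htη h => ?_⟩
  have hM0 : 0 < M := by omega
  have r0 : 1 ≤ M ^ j := pow_pos hM0 _
  have rd : M ^ j ≤ M ^ (j + d) := Nat.pow_le_pow_right hM0 (by omega)
  have hc := nrm_ctr hM0 j 0 d g
  rw [c8_ctr0, zero_add] at hc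
  let Ψ : Set V → ℝ≥0∞ := fun T => ∏ l ∈ range (d + 1),
    ENNReal.ofReal (1 + t * ind (¬ Good A T (ctr M j l g) (M ^ (j + l))))
  have hΨ : Antitone Ψ := fun _ _ e => prod_le_prod' fun l _ => c8_anti ht A _ _ e
  have hch : ∀ y ∈ Bx (sc (M ^ j) g) (34 * M ^ j + 1),
      (WF fun s => ie (Exit (Bx (ctr M j d g) (64 * M ^ (j + d))) y s) * Ψ (tr y s)) ≤
        2 ^ (d + 1) := fun y hy =>
    (chain d (fun i => Bx (ctr M j i g) (64 * M ^ (j + i)))
      (fun i => Bx (ctr M j i g) (36 * M ^ (j + i))) _ (fun _ => 2) (fun i => c8_anti ht A _ _)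
      (fun i hi => c8_sub hM j g hi) (fun i _ y hy s hs => c8_step hM j i g
        (hs.tr_sub (Bx_mono (by omega) hy) (end_mem_tr y s)))
      (fun i _ y hy => c8_two ht htη (h i _ y hy))
      (by rw [c8_ctr0]; exact Bx_mono (by rw [add_zero]; omega) hy)).trans_eq (by simp)
  refine (Mu_pair (Bx (sc (M ^ j) g) (32 * M ^ j)) (Bx (ctr M j d g) (64 * M ^ (j + d)))ᶜ (Ψ := Ψ)
    fun x s _ hs => ?_).trans ?_
  · have e := of_ie_ne (left_ne_zero_of_mul hs)
    exact ⟨e.1, meets_compl.2 e.2, mul_le_of_le_one_left' (ie_le_one _)⟩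
  rw [compl_compl]
  calc _ ≤ cap (Bx (sc (M ^ j) g) (34 * M ^ j)) (Bx (sc (M ^ j) g) (32 * M ^ j)) *
        (2 ^ (d + 1) * ENNReal.ofReal (C1 * (1 / (M ^ (j + d) : ℕ)))) := by
        rw [cap, ← ENNReal.tsum_mul_right]
        refine ENNReal.tsum_le_tsum fun x => ?_
        rw [mul_assoc, ← WF_mul_right]
        by_cases hx : x ∈ Bx (sc (M ^ j) g) (32 * M ^ j)
        swap
        · simp only [ie_neg hx, zero_mul, Nat.cast_pow, one_div, Std.le_refl]
        have hx' := mem_Bx.1 hx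
        refine mul_le_mul_right ((WF_le_append (Φ := fun a b =>
          ie (Exit (Bx (sc (M ^ j) g) (34 * M ^ j)) x a ∧
            NoRet (Bx (sc (M ^ j) g) (32 * M ^ j)) x a) *
          (ie (Exit (Bx (ctr M j d g) (64 * M ^ (j + d))) (x + pos a) b) * Ψ (tr (x + pos a) b) *
            ENNReal.ofReal (C1 * (1 / (M ^ (j + d) : ℕ))))) fun u hu => ?_).trans
              (WF_mono fun a => ?_)) _
        · obtain ⟨h1, h2⟩ := of_ie_ne (left_ne_zero_of_mul hu)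
          obtain ⟨a, b, rfl, h'⟩ := exit_split (h1.not_sub (U := Bx (sc (M ^ j) g) (34 * M ^ j))
            (Bx_sub (by omega)))
          refine ⟨a, b, rfl, ?_⟩
          rw [ie_pos (And.intro h1 h2), ie_pos (And.intro h' h2.left), ie_pos h1.right, one_mul,
            one_mul, one_mul, mul_comm]
          refine le_trans (WF_mono fun v => mul_le_mul_right
            (hΨ ((tr_right x a b).trans Set.subset_union_left)) _) ?_
          rw [WF_mul_right]
          refine mul_le_mul_left (le_trans (WF_mono fun s => ie_mono fun e =>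
            ⟨Set.subset_univ _, e⟩) ((hC1 Set.univ _ x).trans (ENNReal.ofReal_le_ofReal
              (mul_le_mul_of_nonneg_left (gg_le (r0.trans rd) ?_) p1.le)))) _
          have u1 := mt mem_Bx.2 h1.1
          have u2 := nrm_tri (x + pos (a ++ b)) x (ctr M j d g)
          have u3 := nrm_tri x (sc (M ^ j) g) (ctr M j d g)
          omega
        · rw [WF_mul_left, WF_mul_right]
          by_cases ha : Exit (Bx (sc (M ^ j) g) (34 * M ^ j)) x a
          · exact mul_le_mul_right (mul_le_mul_left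
              (hch _ (ha.tr_sub (Bx_mono (by omega) hx) (end_mem_tr x a))) _) _
          · simp only [ie_neg fun h : _ ∧ NoRet (Bx (sc (M ^ j) g) (32 * M ^ j)) x a => ha h.1, Nat.cast_pow, one_div, zero_mul, Std.le_refl]
    _ ≤ ENNReal.ofReal (C2 * (M ^ j : ℕ)) *
        (2 ^ (d + 1) * ENNReal.ofReal (C1 * (1 / (M ^ (j + d) : ℕ)))) :=
        mul_le_mul_left (hC2 _ _ _ _ r0 subset_rfl fun x hx =>
          Bx_sub (by have := mem_Bx.1 hx; omega)) _
    _ = _ := by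
        have : (0 : ℝ) < M := by exact_mod_cast hM0
        rw [← ENNReal.ofReal_ofNat 2, ← ENNReal.ofReal_pow (by norm_num),
          ← ENNReal.ofReal_mul (by positivity), ← ENNReal.ofReal_mul (by positivity)]
        congr 1
        push_cast
        rw [div_pow, pow_add, pow_add]
        field_simp

lemma e2mass : ∃ C : ℝ, 0 < C ∧ ∀ (M : ℕ) (A t η : ℝ) (j n : ℕ) (g : V), 16 ≤ M → 0 ≤ t → 0 ≤ η →
    t * η ≤ 1 → (∀ l c, ∀ y ∈ Bx c (36 * M ^ (j + l)), (WF fun s =>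
      ie (Exit (Bx c (64 * M ^ (j + l))) y s ∧ ¬ Good A (tr y s) c (M ^ (j + l)))) ≤
        ENNReal.ofReal η) →
    Mu (fun x s => ENNReal.ofReal (∏ l ∈ range n, (1 + t * ind (Big (ctr M j l g) (M ^ (j + l))
      (tr x s) ∧ ¬ Good A (tr x s) (ctr M j l g) (M ^ (j + l)))) - 1)) ≤
      ENNReal.ofReal (C * n) := by
  classical
  obtain ⟨C, hC, H⟩ := e2one
  refine ⟨C * 2, by positivity, fun M A t η j n g hM ht hη htη h => ?_⟩
  have nn : ∀ P, 0 ≤ 1 + t * ind P := fun P => add_nonneg zero_le_one (mul_nonneg ht (ind_nonneg _))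
  refine (Mu_mono (G := fun x s => ∑ k ∈ range n, ∑ d ∈ range n,
    ie (Meets (tr x s) (Bx (sc (M ^ (j + k)) (cell (M ^ k) g)) (32 * M ^ (j + k))) ∧
      ¬ tr x s ⊆ Bx (ctr M (j + k) d (cell (M ^ k) g)) (64 * M ^ (j + k + d))) *
        ∏ l ∈ range (d + 1), ENNReal.ofReal (1 + t * ind (¬ Good A (tr x s)
          (ctr M (j + k) l (cell (M ^ k) g)) (M ^ (j + k + l))))) fun x s _ => ?_).trans ?_
  · set B := (range n).filter fun l => Big (ctr M j l g) (M ^ (j + l)) (tr x s) with hB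
    have out : ∀ l ∈ range n, l ∉ B → 1 + t * ind (Big (ctr M j l g) (M ^ (j + l)) (tr x s) ∧
        ¬ Good A (tr x s) (ctr M j l g) (M ^ (j + l))) = 1 := fun l hl hl' => by
      rw [ind_neg fun h => hl' (mem_filter.2 ⟨hl, h.1⟩), mul_zero, add_zero]
    rcases B.eq_empty_or_nonempty with e | e
    · rw [prod_eq_one fun l hl => out l hl (by simp [e]), sub_self, ENNReal.ofReal_zero]
      exact zero_le
    obtain ⟨hk, bk⟩ := mem_filter.1 (B.min'_mem e)
    obtain ⟨hb, bb⟩ := mem_filter.1 (B.max'_mem e)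
    obtain ⟨d, hd⟩ := Nat.exists_eq_add_of_le (B.min'_le_max' e)
    have lo : ∀ l ∈ B, B.min' e ≤ l := fun l hl => B.min'_le l hl
    have hi : ∀ l ∈ B, l ≤ B.max' e := fun l hl => B.le_max' l hl
    generalize B.min' e = k at hk bk hd lo
    generalize B.max' e = b at hb bb hd hi
    subst hd
    refine le_trans ?_ (single_le_sum (fun _ _ => zero_le) hk)
    refine le_trans ?_ (single_le_sum (a := d) (fun _ _ => zero_le)
      (mem_range.2 (by have := mem_range.1 hb; omega)))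
    rw [ie_pos ⟨bk.1, by rw [← ctr_add, add_assoc]; exact bb.2⟩, one_mul,
      ← ENNReal.ofReal_prod_of_nonneg fun _ _ => nn _]
    refine ENNReal.ofReal_le_ofReal ((sub_le_self _ zero_le_one).trans ?_)
    rw [← prod_subset (s₁ := Ico k (k + d + 1)) (fun l hl => mem_range.2 (by
      have := mem_range.1 hb
      have := mem_Ico.1 hl
      omega)) fun l hl hl' => out l hl fun h =>
        hl' (mem_Ico.2 ⟨lo l h, Nat.lt_succ_of_le (hi l h)⟩), prod_Ico_eq_prod_range,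
      add_assoc k, Nat.add_sub_cancel_left]
    refine prod_le_prod (fun _ _ => nn _) fun l _ => ?_
    rw [← ctr_add, add_assoc]
    exact add_le_add_right (mul_le_mul_of_nonneg_left (ind_mono And.right) ht) _
  · rw [Mu_sum]
    refine (sum_le_card_nsmul _ _ (ENNReal.ofReal (C * 2)) fun k _ => ?_).trans_eq ?_
    · rw [Mu_sum]
      refine (sum_le_sum fun d _ => H M A t η (j + k) d (cell (M ^ k) g) hM ht hη htη
        fun l => by rw [add_assoc]; exact h (k + l)).trans ?_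
      have hM' : (16 : ℝ) ≤ M := by exact_mod_cast hM
      rw [← ENNReal.ofReal_sum_of_nonneg fun _ _ => by positivity, ← mul_sum]
      refine ENNReal.ofReal_le_ofReal (mul_le_mul_of_nonneg_left (le_trans (sum_le_sum
        fun d _ => pow_le_pow_left₀ (by positivity) ?_ d) (sum_geometric_two_le n)) hC.le)
      rw [div_le_div_iff₀ (by linarith only [hM']) (by norm_num)]
      linarith only [hM']
    · rw [card_range, nsmul_eq_mul, mul_comm (C * 2), ENNReal.ofReal_mul (Nat.cast_nonneg _),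
        ENNReal.ofReal_natCast]

end Pool.Agent.MP_3a8451_pr

end

-- part Lp/C9
section

/-! Long loops and irregular loops. -/

open Finset
open scoped ENNReal NNReal

namespace Pool.Agent.MP_3a8451_pr

lemma reg_cover {k τ : ℕ} (hk : 1 ≤ k) {s : List D} (h : Reg k τ s) {x z : V} (hz : z ∈ tr x s) :
    ∃ i < k, nrm (z - pt x s (i * (s.length / k))) ≤ τ := by
  obtain ⟨t, ht, rfl⟩ := mem_tr'.1 hz
  obtain ⟨k, rfl⟩ : ∃ j, k = j + 1 := ⟨k - 1, by omega⟩
  have e1 := Nat.lt_div_mul_add (a := s.length) (Nat.succ_pos k)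
  simp only [pt, add_sub_add_left_eq_sub]
  unfold Reg at h
  generalize s.length / (k + 1) = m at h e1 ⊢
  have e2 := Nat.div_mul_le_self t m
  rcases le_total k (t / m) with hc | hc
  · refine ⟨k, Nat.lt_succ_self k, h _ (Nat.lt_succ_self k) t ht
      ((Nat.mul_le_mul_right m hc).trans e2) ?_⟩
    simp only [Nat.succ_eq_add_one] at e1
    linarith only [ht, e1]
  · refine ⟨t / m, Nat.lt_succ_of_le hc, h _ (Nat.lt_succ_of_le hc) t ht e2 ?_⟩
    rcases Nat.eq_zero_or_pos m with rfl | hm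
    · simp only [Nat.succ_eq_add_one] at e1
      omega
    · have := Nat.lt_div_mul_add (a := t) hm
      omega

lemma small_of_reg {τ σ : ℕ} {s : List D} (h : Reg 3 τ s) (hσ : 6 * τ < σ) (x : V) :
    Small σ (tr x s) := by
  have key : ∀ z ∈ tr x s, nrm (z - x) ≤ 3 * τ := fun z hz => by
    obtain ⟨i, hi, hz⟩ := reg_cover (by norm_num) h hz
    have h0 := h 0 (by norm_num) (1 * (s.length / 3)) (by omega) (by omega) (by omega)
    have h1 := h 1 (by norm_num) (2 * (s.length / 3)) (by omega) (by omega) (by omega)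
    have e : ∀ a b, pos (s.take a) - pos (s.take b) = pt x s a - pt x s b := fun a b => by
      simp only [pt, add_sub_add_left_eq_sub]
    rw [e] at h0 h1
    rw [zero_mul, pt_zero] at h0
    have t1 := nrm_tri z (pt x s (1 * (s.length / 3))) x
    have t2 := nrm_tri z (pt x s (2 * (s.length / 3))) (pt x s (1 * (s.length / 3)))
    interval_cases i
    · rw [zero_mul, pt_zero] at hz
      omega
    · omega
    · omega
  intro a ha b hb
  have := nrm_tri a x b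
  have := key a ha
  have := key b hb
  have := nrm_comm x b
  omega

lemma c9_piece {n a l τ : ℕ} (hn : 1 ≤ n) (hτ : 1 ≤ τ) (hal : a + l ≤ n) (hl : 2 * l ≤ n) :
    (Ex n fun s => ind (pos s = 0 ∧ ∃ t, a ≤ t ∧ t ≤ a + l ∧
      τ < nrm (pos (s.take t) - pos (s.take a)))) ≤ 4 * l ^ 2 / τ ^ 4 * (216 / (n * √n)) := by
  obtain ⟨c, rfl⟩ := Nat.exists_eq_add_of_le hal
  rw [add_assoc, Ex_append]
  simp only [Ex_append l c]
  refine le_trans (Ex_mono fun s₁ h₁ => Ex_mono fun s₂ h₂ => Ex_mono (G := fun s₃ =>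
    ind (Hit (Bx 0 τ)ᶜ 0 s₂) * ind (pos (s₃ ++ s₁) = -pos s₂)) fun s₃ _ => ?_) ?_
  · rw [← ind_and]
    refine ind_mono fun ⟨h0, t, h1, h2, h3⟩ => ⟨?_, ?_⟩
    · obtain ⟨d, rfl⟩ := Nat.exists_eq_add_of_le h1
      subst h₁
      rw [List.take_length_add_append, List.take_left, pos_append, add_sub_cancel_left,
        List.take_append_of_le_length (by omega)] at h3
      exact ⟨s₂.take d, s₂.drop d, by simp, fun hb => by
        rw [zero_add, mem_Bx0] at hb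
        omega⟩
    · simp only [pos_append] at h0 ⊢
      linear_combination h0
  rw [Ex_cyc]
  simp only [Ex_mul]
  refine le_trans (Ex_mono (G := fun s₂ => 216 / ((a + (l + c) : ℕ) * √(a + (l + c) : ℕ)) *
    ind (Hit (Bx 0 τ)ᶜ 0 s₂)) fun s₂ _ => ?_) ?_
  · rw [mul_comm, ← Ex_append c a fun u => ind (pos u = -pos s₂)]
    exact mul_le_mul_of_nonneg_right (heat (by omega) (by omega) _) (ind_nonneg _)
  rw [Ex_mul, mul_comm]
  refine mul_le_mul_of_nonneg_right (far_le (by exact_mod_cast hτ) (fun z hz => ?_) l)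
    (by positivity)
  obtain ⟨j, hj⟩ := exists_nrm z
  have h1 : τ ≤ nrm z := by
    have := mt mem_Bx0.2 hz
    omega
  refine ⟨j, ?_⟩
  have h2 : (τ : ℤ) ≤ |z j| := by rw [hj]; exact_mod_cast h1
  simpa only [Pi.zero_apply, Int.cast_zero, sub_zero, ge_iff_le] using (by exact_mod_cast h2 : (τ : ℝ) ≤ |(z j : ℝ)|)

lemma wander : ∃ C : ℝ, 0 < C ∧ ∀ n k τ : ℕ, 3 ≤ k → 2 * k ^ 2 ≤ n → 1 ≤ τ →
    (Ex n fun s => ind (pos s = 0 ∧ ¬ Reg k τ s)) ≤ C * √n / (k * τ ^ 4) := by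
  refine ⟨3456, by norm_num, fun n k τ hk hn hτ => ?_⟩
  have e1 := Nat.div_mul_le_self n k
  have n1 : 1 ≤ n := by nlinarith only [hk, hn]
  have e2 : (n / k + k) * k ≤ 2 * n := by linarith only [hn, e1]
  have e3 : 2 * (n / k + k) ≤ n := by
    have a : n / k * 3 ≤ n := (Nat.mul_le_mul_left _ hk).trans e1
    have b : 6 * k ≤ n := by nlinarith only [hk, hn]
    omega
  refine le_trans (Ex_mono (G := fun s => ∑ i ∈ range k, ind (pos s = 0 ∧ ∃ t, i * (n / k) ≤ t ∧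
    t ≤ i * (n / k) + min (n / k + k) (n - i * (n / k)) ∧
      τ < nrm (pos (s.take t) - pos (s.take (i * (n / k)))))) fun s hs =>
      ind_le_sum (fun _ _ => ind_nonneg _) fun ⟨h0, h⟩ => ?_) ?_
  · unfold Reg at h
    push Not at h
    obtain ⟨i, hi, t, h1, h2, h3, h4⟩ := h
    rw [hs] at h1 h2 h3 h4
    exact ⟨i, mem_range.2 hi, (ind_pos ⟨h0, t, h2, by omega, h4⟩).ge⟩
  rw [Ex_sum]
  have k0 : (0 : ℝ) < k := by exact_mod_cast (by omega : 0 < k)
  have n0 : (0 : ℝ) < n := by exact_mod_cast n1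
  have t0 : (0 : ℝ) < τ := by exact_mod_cast hτ
  refine (sum_le_card_nsmul _ _ (4 * (2 * n / k) ^ 2 / τ ^ 4 * (216 / (n * √n))) fun i hi =>
    (c9_piece n1 hτ ?_ ?_).trans ?_).trans_eq ?_
  · have : i * (n / k) ≤ n :=
      (Nat.mul_le_mul_right _ (mem_range.1 hi).le).trans ((mul_comm _ _).trans_le e1)
    omega
  · omega
  · gcongr
    rw [le_div_iff₀ k0]
    exact_mod_cast (Nat.mul_le_mul_right k (min_le_left _ _)).trans e2
  · have s0 : 0 < √(n : ℝ) := Real.sqrt_pos.2 n0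
    have s1 := Real.mul_self_sqrt n0.le
    rw [card_range, nsmul_eq_mul]
    generalize √(n : ℝ) = y at s0 s1 ⊢
    rw [← s1]
    field_simp
    norm_num

lemma c9_sum (L : ℕ) : ∑ n ∈ range (L + 1), √(n : ℝ) / n ≤ 2 * √L := by
  induction L with
  | zero => simp
  | succ L ih =>
    rw [sum_range_succ]
    have a := Real.mul_self_sqrt (Nat.cast_nonneg (α := ℝ) L)
    have b := Real.mul_self_sqrt (Nat.cast_nonneg (α := ℝ) (L + 1))
    have d : 0 < √((L + 1 : ℕ) : ℝ) := Real.sqrt_pos.2 (by positivity)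
    have e : √((L + 1 : ℕ) : ℝ) / (L + 1 : ℕ) ≤ 2 * √((L + 1 : ℕ) : ℝ) - 2 * √L := by
      rw [Real.sqrt_div_self', div_le_iff₀ d]
      rw [Nat.cast_succ] at b d ⊢
      linarith only [sq_nonneg (√((L : ℝ) + 1) - √L), a, b]
    linarith

lemma Mu_irreg : ∃ C : ℝ, 0 < C ∧ ∀ R L k τ : ℕ, 3 ≤ k → 1 ≤ τ →
    Mu (fun x s => ie (x ∈ Bx 0 R ∧ 2 * k ^ 2 ≤ s.length ∧ s.length ≤ L ∧ ¬ Reg k τ s)) ≤
      ENNReal.ofReal (C * (2 * R + 1) ^ 3 * √L / (k * τ ^ 4)) := by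
  obtain ⟨C, C0, hC⟩ := wander
  refine ⟨2 * C, by positivity, fun R L k τ hk hτ => ?_⟩
  refine (Mu_le_len R (b := fun n => if n < L + 1 then C * √n / (k * τ ^ 4) else 0)
    fun n _ => ?_).trans ?_
  · by_cases h : 2 * k ^ 2 ≤ n ∧ n < L + 1
    · rw [if_pos h.2]
      exact (Ex_mono fun s _ => ind_mono fun h => ⟨h.1, h.2.2.2⟩).trans (hC n k τ hk h.1 hτ)
    · refine ((Ex_mono fun s hs => (ind_neg fun h' => h (by omega)).le).trans_eq
        (Ex_const n 0)).trans ?_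
      split_ifs <;> positivity
  rw [tsum_eq_sum (s := range (L + 1)) fun n hn => by simp [mt mem_range.2 hn],
    ← ENNReal.ofReal_sum_of_nonneg fun n _ => by split_ifs <;> positivity,
    ← ENNReal.ofReal_mul (by positivity)]
  refine ENNReal.ofReal_le_ofReal ?_
  rw [sum_congr rfl (g := fun n : ℕ => C / (k * τ ^ 4) * (√n / n)) fun n hn => by
    rw [if_pos (mem_range.1 hn)]; ring, ← mul_sum]
  calc _ ≤ (2 * (R : ℝ) + 1) ^ 3 * (C / (k * τ ^ 4) * (2 * √L)) := by gcongr; exact c9_sum L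
    _ = _ := by ring

lemma Mu_long : ∃ C : ℝ, 0 < C ∧ ∀ R L : ℕ, 1 ≤ L →
    Mu (fun x s => ie (x ∈ Bx 0 R ∧ L ≤ s.length)) ≤
      ENNReal.ofReal (C * (2 * R + 1) ^ 3 / (L * √L)) := by
  refine ⟨432, by norm_num, fun R L hL => ?_⟩
  refine (Mu_le_len R (b := fun n => if L ≤ n then 216 / (n * √n) else 0) fun n hn => ?_).trans ?_
  · split_ifs with h
    · exact (Ex_mono fun s _ => ind_mono fun h => h.1).trans (heat hn (by omega) 0)
    · exact (Ex_mono fun s hs => (ind_neg fun h' => h (by omega)).le).trans_eq (Ex_const n 0)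
  have L0 : (0 : ℝ) < L := by exact_mod_cast hL
  have s0 : 0 < √(L : ℝ) := Real.sqrt_pos.2 L0
  refine (mul_le_mul_right (ENNReal.tsum_le_of_sum_range_le (c := ENNReal.ofReal
    (216 / √L * (2 / L))) fun N => ?_) _).trans_eq ?_
  · rw [← ENNReal.ofReal_sum_of_nonneg fun n _ => by split_ifs <;> positivity]
    refine ENNReal.ofReal_le_ofReal ?_
    obtain ⟨L, rfl⟩ : ∃ j, L = j + 1 := ⟨L - 1, by omega⟩
    have a := sum_Ioo_inv_sq_le (α := ℝ) L N
    rw [← Nat.cast_succ] at a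
    refine le_trans ?_ (mul_le_mul_of_nonneg_left a (by positivity))
    rw [mul_sum, ← sum_subset (s₁ := Ioo L N) (fun n hn => mem_range.2 (mem_Ioo.1 hn).2)
      fun n h1 h2 => by
        rw [if_neg fun h : L + 1 ≤ n => h2 (mem_Ioo.2 ⟨h, mem_range.1 h1⟩), zero_div]]
    refine sum_le_sum fun n hn => ?_
    have h : L + 1 ≤ n := (mem_Ioo.1 hn).1
    have n0 : (0 : ℝ) < n := by exact_mod_cast (by omega : 0 < n)
    rw [if_pos h, show 216 / (n * √n) / n = 216 / √n * ((n : ℝ) ^ 2)⁻¹ by field_simp]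
    gcongr
  · rw [← ENNReal.ofReal_mul (by positivity)]
    congr 1
    field_simp
    norm_num

end Pool.Agent.MP_3a8451_pr

end

-- part Lp/C10
section

/-! Masses of atypical loops and total mass of the admissible types. -/

open Finset
open scoped ENNReal NNReal

namespace Pool.Agent.MP_3a8451_pr

lemma mem_TT {k T0 T1 Γ H : ℕ} {σ : ℕ × (Fin k → V)} : σ ∈ TT k T0 T1 Γ H ↔
    σ.1 ≤ T1 * H ^ 2 ∧ H ^ 2 ≤ T0 * σ.1 ∧ ∀ i, nrm (σ.2 i) ≤ Γ * H + 1 := by
  simp only [TT, mem_product, mem_filter, mem_range, Fintype.mem_piFinset, mem_grid',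
    Nat.lt_succ_iff, and_assoc]

lemma c10_big (X : ℝ) {δ : ℝ} (hδ : 0 < δ) (m : ℕ) : ∃ n : ℕ, m ≤ n ∧ 1 ≤ n ∧ X / n ≤ δ := by
  refine ⟨⌈X / δ⌉₊ + m + 1, by omega, by omega, ?_⟩
  have h := (div_le_iff₀ hδ).1 (Nat.le_ceil (X / δ))
  rw [div_le_iff₀ (by positivity)]
  push_cast
  nlinarith [Nat.cast_nonneg (α := ℝ) m]

lemma c10_len {u : ℕ} {x : V} {s : List D} (h : ¬ Small u (tr x s)) : u ≤ s.length := by
  by_contra hn
  refine h fun a ha b hb => ?_
  obtain ⟨t, ht, rfl⟩ := mem_tr'.1 ha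
  obtain ⟨t', ht', rfl⟩ := mem_tr'.1 hb
  rcases le_total t t' with e | e <;> obtain ⟨d, rfl⟩ := Nat.exists_eq_add_of_le e
  · have := nrm_pt_sub x s t d
    rw [nrm_comm]
    omega
  · have := nrm_pt_sub x s t' d
    omega

lemma c10_box {Γ L : ℕ} (hΓ : 1 ≤ Γ) (hL : 1 ≤ L) :
    (2 * ((Γ * L : ℕ) : ℝ) + 1) ^ 3 ≤ 27 * Γ ^ 3 * L ^ 3 := by
  have : (1 : ℝ) ≤ ((Γ * L : ℕ) : ℝ) := by exact_mod_cast Nat.mul_pos hΓ hL
  calc _ ≤ (3 * ((Γ * L : ℕ) : ℝ)) ^ 3 := pow_le_pow_left₀ (by positivity) (by linarith only [this]) 3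
    _ = _ := by push_cast; ring

lemma badmass {P Λ : ℕ} (hP : 1 ≤ P) (hΛ : 1 ≤ Λ) {δ : ℝ} (hδ : 0 < δ) :
    ∃ Γ T0 T1 k h0 : ℕ, 3 ≤ k ∧ ∀ h ≥ h0, ∀ a ≥ 1,
      Mu (fun x s => ie (¬ Small (h * a) (tr x s) ∧ Meets (tr x s) (Bx 0 (Λ * (P * h * a))) ∧
        ¬ (typ k a x s ∈ TT k T0 T1 Γ (P * h) ∧ Reg k (h * a) s))) ≤ ENNReal.ofReal δ := by
  obtain ⟨C1, c1, h1⟩ := Mu_out
  obtain ⟨C2, c2, h2⟩ := Mu_long
  obtain ⟨C3, c3, h3⟩ := Mu_irreg
  have hd : 0 < δ / 4 := by positivity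
  obtain ⟨G, g1, g0, g2⟩ := c10_big (C1 * Λ) hd (2 * Λ)
  obtain ⟨Γ, hΓ⟩ : ∃ Γ, Γ = Λ + G := ⟨_, rfl⟩
  obtain ⟨t1, -, a1, a2⟩ := c10_big (27 * C2 * Γ ^ 3) hd 0
  obtain ⟨t0, -, b1, b2⟩ := c10_big (18 * 12 ^ 4 * C3 * Γ ^ 3 * P ^ 4) hd 0
  obtain ⟨k, k3, -, k2⟩ := c10_big (54 * C3 * Γ ^ 3 * t1 * P ^ 4) hd 3
  refine ⟨Γ, t0 ^ 2, t1 ^ 2, k, t0 + 2 * k ^ 2 + 18, k3, fun h hh a ha => ?_⟩
  obtain ⟨u, hu⟩ : ∃ u, u = h * a := ⟨_, rfl⟩
  obtain ⟨L, hL⟩ : ∃ L, L = P * u := ⟨_, rfl⟩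
  have hhu : h ≤ u := hu ▸ Nat.le_mul_of_pos_right _ ha
  have huL : u ≤ L := hL ▸ Nat.le_mul_of_pos_left _ hP
  have hH : h ≤ P * h := Nat.le_mul_of_pos_left _ hP
  have hL' : P * h * a = L := by rw [hL, hu, mul_assoc]
  have L1 : 1 ≤ L := by omega
  have Γ1 : 1 ≤ Γ := by omega
  have L0 : (0 : ℝ) < L := by exact_mod_cast L1
  have u0 : (0 : ℝ) < u := by exact_mod_cast (by omega : 0 < u)
  have t10 : (1 : ℝ) ≤ t1 := by exact_mod_cast a1
  have t00 : (0 : ℝ) < t0 := by exact_mod_cast b1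
  have k0 : (0 : ℝ) < k := by exact_mod_cast (by omega : 0 < k)
  have G0 : (0 : ℝ) < G := by exact_mod_cast g0
  have hLr : (L : ℝ) = P * u := by exact_mod_cast hL
  have bx := c10_box Γ1 L1
  have a2' : 0 < a ^ 2 := pow_pos ha 2
  have m1 := (h1 0 (Λ * L) (Λ * L) (Γ * L) (Nat.mul_pos hΛ L1) (by omega) (by
    have := Nat.mul_le_mul_right L g1
    rw [hΓ, add_mul]
    rw [mul_assoc] at this
    omega)).trans (ENNReal.ofReal_le_ofReal (le_of_eq_of_le (b := C1 * Λ / G) (by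
      rw [hΓ]
      push_cast
      rw [show ((Λ : ℝ) + G) * L - Λ * L = G * L by ring]
      field_simp) g2))
  have m2 := (h2 (Γ * L) ((t1 * L) ^ 2) (Nat.one_le_pow _ _ (Nat.mul_pos a1 L1))).trans
    (ENNReal.ofReal_le_ofReal (le_trans (b := 27 * C2 * Γ ^ 3 / t1) (by
      rw [Nat.cast_pow, Real.sqrt_sq (by positivity), Nat.cast_mul t1]
      calc _ ≤ C2 * (27 * Γ ^ 3 * L ^ 3) / ((1 * L) ^ 2 * (t1 * L)) := by gcongr
        _ = _ := by field_simp) a2))
  have m3 := (h3 (Γ * L) ((2 * L) ^ 2 / t0 ^ 2) 3 ((u - 1) / 6) le_rfl (by omega)).trans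
    (ENNReal.ofReal_le_ofReal (le_trans (b := 18 * 12 ^ 4 * C3 * Γ ^ 3 * P ^ 4 / t0) (by
      have e1 : √(((2 * L) ^ 2 / t0 ^ 2 : ℕ) : ℝ) ≤ 2 * L / t0 :=
        Real.sqrt_le_iff.2 ⟨by positivity, Nat.cast_div_le.trans_eq (by push_cast; ring)⟩
      have e2 : (u : ℝ) / 12 ≤ ((u - 1) / 6 : ℕ) := by
        rw [div_le_iff₀ (by norm_num)]
        exact_mod_cast (by omega : u ≤ (u - 1) / 6 * 12)
      calc _ ≤ C3 * (27 * Γ ^ 3 * L ^ 3) * (2 * L / t0) / ((3 : ℕ) * (u / 12) ^ 4) := by gcongr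
        _ = _ := by
          rw [hLr]
          field_simp
          ring) b2))
  have m4 := (h3 (Γ * L) ((2 * t1 * L) ^ 2) k u k3 (by omega)).trans
    (ENNReal.ofReal_le_ofReal (le_trans (b := 54 * C3 * Γ ^ 3 * t1 * P ^ 4 / k) (by
      rw [Nat.cast_pow, Real.sqrt_sq (by positivity)]
      calc _ ≤ C3 * (27 * Γ ^ 3 * L ^ 3) * ((2 * t1 * L : ℕ) : ℝ) / (k * u ^ 4) := by gcongr
        _ = _ := by
          push_cast
          rw [hLr]
          field_simp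
          ring) k2))
  rw [hL', ← hu]
  refine le_trans ?_ ((add_le_add m1 (add_le_add m2 (add_le_add m3 m4))).trans_eq (by
    rw [← ENNReal.ofReal_add hd.le hd.le, ← ENNReal.ofReal_add hd.le (by positivity),
      ← ENNReal.ofReal_add hd.le (by positivity)]
    congr 1
    ring))
  rw [← Mu_add, ← Mu_add, ← Mu_add]
  refine Mu_mono fun x s _ => ie_le fun ⟨hs, hm, hb⟩ => ?_
  by_cases hi : tr x s ⊆ Bx 0 (Γ * L)
  swap
  · exact (ie_pos ⟨hm, hi⟩).ge.trans le_self_add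
  refine le_trans ?_ le_add_self
  have hx := hi (start_mem_tr x s)
  have hl := c10_len hs
  have d1 := Nat.div_mul_le_self s.length (a ^ 2)
  have d2 := Nat.lt_mul_div_succ s.length a2'
  have eL : L ^ 2 = (P * h) ^ 2 * a ^ 2 := by rw [← hL', mul_pow]
  by_cases j1 : s.length / a ^ 2 ≤ t1 ^ 2 * (P * h) ^ 2
  swap
  · refine (ie_pos ⟨hx, le_trans ?_ d1⟩).ge.trans le_self_add
    rw [mul_pow, eL, ← mul_assoc]
    exact Nat.mul_le_mul_right _ (not_le.1 j1).le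
  refine le_trans ?_ le_add_self
  by_cases j2 : (P * h) ^ 2 ≤ t0 ^ 2 * (s.length / a ^ 2)
  · refine (ie_pos ⟨hx, by omega, ?_, fun hR => hb ⟨mem_TT.2 ⟨j1, j2, fun i => ?_⟩, hR⟩⟩).ge.trans
      le_add_self
    · have e1 : 1 ≤ t1 ^ 2 * (P * h) ^ 2 :=
        Nat.mul_pos (pow_pos a1 2) (pow_pos (by omega) 2)
      calc s.length ≤ a ^ 2 * (s.length / a ^ 2 + 1) := d2.le
        _ ≤ a ^ 2 * (4 * (t1 ^ 2 * (P * h) ^ 2)) := Nat.mul_le_mul_left _ (by omega)
        _ = _ := by rw [mul_pow _ L, eL]; ring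
    · refine (nrm_cell_le ha ?_).trans (Nat.le_succ _)
      rw [mul_assoc, hL']
      exact mem_Bx0.1 (hi (pt_mem_tr _ _ _))
  · refine (ie_pos ⟨hx, by omega, ?_, fun hR => hs (small_of_reg hR (by omega) x)⟩).ge.trans
      le_self_add
    have e1 : t0 ^ 2 ≤ (P * h) ^ 2 := Nat.pow_le_pow_left (by omega) 2
    rw [Nat.le_div_iff_mul_le (pow_pos b1 2)]
    calc s.length * t0 ^ 2 ≤ a ^ 2 * (s.length / a ^ 2 + 1) * t0 ^ 2 :=
          Nat.mul_le_mul_right _ d2.le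
      _ = a ^ 2 * (t0 ^ 2 * (s.length / a ^ 2) + t0 ^ 2) := by ring
      _ ≤ a ^ 2 * (4 * (P * h) ^ 2) := Nat.mul_le_mul_left _ (by omega)
      _ = _ := by rw [mul_pow _ L, eL]; ring

lemma typetotal {k : ℕ} (hk : 1 ≤ k) (T0 T1 Γ : ℕ) : ∃ C : ℝ, 0 < C ∧ ∀ H ≥ 1, ∀ a ≥ 1,
    ∑ σ ∈ TT k T0 T1 Γ H, Mu (fun x s => ie (typ k a x s = σ)) ≤ ENNReal.ofReal C := by
  obtain ⟨C, c0, h⟩ := Mu_long
  refine ⟨C * (2 * Γ + 5) ^ 3 * (T0 + 1) ^ 2, by positivity, fun H hH a ha => ?_⟩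
  have H1 : (1 : ℝ) ≤ H := by exact_mod_cast hH
  have a1 : (1 : ℝ) ≤ a := by exact_mod_cast ha
  rw [← Mu_sum]
  refine le_trans (Mu_mono fun x s hs => sum_le_of_unique (fun σ hσ => ie_mono fun e => ?_)
    fun σ _ σ' _ e e' => (of_ie_ne e).symm.trans (of_ie_ne e'))
    ((h ((Γ * H + 2) * a) ((H * a) ^ 2 / (T0 + 1) + 1) (Nat.le_add_left _ _)).trans
      (ENNReal.ofReal_le_ofReal ?_))
  · subst e
    obtain ⟨-, h2, h3⟩ := mem_TT.1 hσ
    have h4 := h3 ⟨0, hk⟩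
    simp only [typ, zero_mul, pt_zero] at h2 h4
    have h5 := nrm_sub_le_cell ha x 0
    rw [cell_zero, sub_zero, sub_zero] at h5
    refine ⟨mem_Bx0.2 (h5.le.trans (Nat.mul_le_mul_right _ (by omega))),
      (Nat.div_lt_iff_lt_mul (Nat.succ_pos _)).2 ?_⟩
    have h6 : 0 < s.length := List.length_pos_iff.2 hs.1
    calc (H * a) ^ 2 = H ^ 2 * a ^ 2 := mul_pow _ _ _
      _ ≤ T0 * (s.length / a ^ 2) * a ^ 2 := Nat.mul_le_mul_right _ h2
      _ ≤ T0 * s.length := by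
        rw [mul_assoc]
        exact Nat.mul_le_mul_left _ (Nat.div_mul_le_self _ _)
      _ < _ := by
        rw [Nat.mul_succ, mul_comm]
        omega
  · generalize hL : (H * a) ^ 2 / (T0 + 1) + 1 = L
    have e0 : (1 : ℝ) ≤ T0 + 1 := by linarith only []
    have e1 : ((H : ℝ) * a) ^ 2 / (T0 + 1) ≤ L := by
      rw [div_le_iff₀ (by positivity), mul_comm (L : ℝ), ← hL]
      exact_mod_cast (Nat.lt_mul_div_succ _ (Nat.succ_pos T0)).le
    have e2 : (H : ℝ) * a / (T0 + 1) ≤ √L := Real.le_sqrt_of_sq_le (le_trans (by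
      rw [div_pow]
      exact div_le_div_of_nonneg_left (by positivity) (by positivity)
        (le_self_pow₀ e0 two_ne_zero)) e1)
    have e3 : 2 * (((Γ * H + 2) * a : ℕ) : ℝ) + 1 ≤ (2 * Γ + 5) * (H * a) := by
      have := mul_le_mul_of_nonneg_right H1 (zero_le_one.trans a1)
      push_cast
      linarith only [a1, this]
    calc _ ≤ C * ((2 * Γ + 5) * (H * a)) ^ 3 / ((H * a) ^ 2 / (T0 + 1) * (H * a / (T0 + 1))) := by
          gcongr
      _ = _ := by field_simp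

end Pool.Agent.MP_3a8451_pr

end

-- part Lp/C11
section

/-! One leg of a sampled loop. -/

open Finset
open scoped ENNReal NNReal

namespace Pool.Agent.MP_3a8451_pr

lemma c11_psi {t : ℝ} (ht : 0 < t) (y : Fin 3 → ℝ) : psi t y = 2 * Real.exp
    (3 / 2 * (Real.log (3 / (2 * Real.pi)) - Real.log t) - 3 / 2 * ((∑ c, y c ^ 2) / t)) := by
  have hp := Real.pi_pos
  have e : √(3 / (2 * Real.pi * t)) =
      Real.exp ((Real.log (3 / (2 * Real.pi)) - Real.log t) / 2) := by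
    rw [Real.exp_half, ← Real.log_div (by positivity) ht.ne', Real.exp_log (by positivity),
      div_div]
  rw [psi, e, ← Real.exp_nat_mul, mul_assoc, ← Real.exp_add]
  congr 2
  push_cast
  field_simp
  ring

lemma c11_log {t t' : ℝ} (ht : 4 ≤ t) (h : |t' - t| ≤ 2) : |Real.log t' - Real.log t| ≤ 4 / t := by
  obtain ⟨h1, h2⟩ := abs_le.1 h
  have t0 : 0 < t := by linarith
  have t0' : 0 < t' := by linarith
  refine abs_le.2 ⟨?_, ?_⟩
  · have a := Real.log_le_sub_one_of_pos (div_pos t0 t0')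
    rw [Real.log_div t0.ne' t0'.ne'] at a
    have b : t / t' - 1 ≤ 4 / t := by
      rw [div_sub_one t0'.ne', div_le_div_iff₀ t0' t0]
      nlinarith only [ht, h1]
    linarith
  · have a := Real.log_le_sub_one_of_pos (div_pos t0' t0)
    rw [Real.log_div t0'.ne' t0.ne'] at a
    have b : t' / t - 1 ≤ 4 / t := by
      rw [div_sub_one t0.ne']
      gcongr
      linarith only [h2]
    linarith

lemma c11_sq {δ u v : ℝ} (hδ : 0 < δ) (h : |v - u| ≤ 1) :
    |v ^ 2 - u ^ 2| ≤ δ * u ^ 2 + (1 / δ + 1) := by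
  have a : 2 * |u| ≤ δ * u ^ 2 + 1 / δ := by
    have e : δ * u ^ 2 + 1 / δ - 2 * |u| = (δ * |u| - 1) ^ 2 / δ := by
      rw [← sq_abs u]
      field_simp
      ring
    have : 0 ≤ (δ * |u| - 1) ^ 2 / δ := by positivity
    linarith
  have b : |v + u| ≤ 2 * |u| + 1 := by
    have := abs_add_le (v - u) (2 * u)
    rw [abs_mul, abs_two, show v - u + 2 * u = v + u by ring] at this
    linarith only [h, this]
  rw [show v ^ 2 - u ^ 2 = (v - u) * (v + u) by ring, abs_mul]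
  calc |v - u| * |v + u| ≤ 1 * (2 * |u| + 1) := by gcongr
    _ ≤ _ := by linarith

lemma c11_quot {B δ t t' S S' : ℝ} (hδ : 0 < δ) (ht : 4 ≤ t) (h : |t' - t| ≤ 2) (hS0 : 0 ≤ S)
    (hS : S ≤ B * t) (hS' : |S' - S| ≤ δ * S + 3 * (1 / δ + 1)) :
    |S' / t' - S / t| ≤ 2 * δ * |B| + (6 * (1 / δ + 1) + 4 * |B|) / t := by
  obtain ⟨h1, h2⟩ := abs_le.1 h
  have t0 : 0 < t := by linarith only [ht]
  have t0' : 0 < t' := by linarith only [ht, h1]
  have hB : S / t ≤ |B| := by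
    rw [div_le_iff₀ t0]
    exact hS.trans (by gcongr; exact le_abs_self B)
  have hB' : S ≤ |B| * t := by rwa [div_le_iff₀ t0] at hB
  have e : S' / t' - S / t = (S' - S - S / t * (t' - t)) / t' := by
    field_simp
    ring
  have a : |S' - S - S / t * (t' - t)| ≤ δ * (|B| * t) + 3 * (1 / δ + 1) + |B| * 2 := by
    refine (abs_sub _ _).trans (add_le_add (hS'.trans (by gcongr)) ?_)
    rw [abs_mul, abs_of_nonneg (div_nonneg hS0 t0.le)]
    gcongr
  rw [e, abs_div, abs_of_pos t0']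
  calc _ ≤ (δ * (|B| * t) + 3 * (1 / δ + 1) + |B| * 2) / (t / 2) := by
        gcongr
        linarith only [ht, h1]
    _ = _ := by
        field_simp
        ring

lemma psi_close (B : ℝ) {η : ℝ} (hη : 0 < η) : ∃ t0 : ℝ, 0 < t0 ∧ ∀ (t t' : ℝ) (y y' : Fin 3 → ℝ),
    t0 ≤ t → |t' - t| ≤ 2 → (∀ c, |y' c - y c| ≤ 1) → ∑ c, y c ^ 2 ≤ B * t →
      psi t' y' ≤ (1 + η) * psi t y ∧ psi t y ≤ (1 + η) * psi t' y' := by
  have hε : 0 < Real.log (1 + η) := Real.log_pos (by linarith)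
  obtain ⟨ε, hε'⟩ : ∃ ε, ε = Real.log (1 + η) := ⟨_, rfl⟩
  rw [← hε'] at hε
  have he : Real.exp ε = 1 + η := by rw [hε', Real.exp_log (by linarith)]
  obtain ⟨δ, hδ⟩ : ∃ δ, δ = ε / (6 * (|B| + 1)) := ⟨_, rfl⟩
  have hB := abs_nonneg B
  have δ0 : 0 < δ := by rw [hδ]; positivity
  have δ1 : 3 * δ * |B| ≤ ε / 2 := by
    have : δ * (6 * (|B| + 1)) = ε := by rw [hδ]; field_simp
    linarith only [δ0, this]
  obtain ⟨C, hC⟩ : ∃ C, C = 6 + 3 / 2 * (6 * (1 / δ + 1) + 4 * |B|) := ⟨_, rfl⟩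
  refine ⟨max 4 (2 * C / ε), by positivity, fun t t' y y' ht h hy hS => ?_⟩
  have t4 : 4 ≤ t := (le_max_left _ _).trans ht
  have t0 : 0 < t := by linarith only [t4]
  have t0' : 0 < t' := by linarith only [(abs_le.1 h).1, t4]
  have tC : C / t ≤ ε / 2 := by
    have := (le_max_right _ _).trans ht
    rw [div_le_iff₀ hε] at this
    rw [div_le_iff₀ t0]
    linarith only [this]
  have a1 := abs_le.1 (c11_log t4 h)
  have a2 : |∑ c, y' c ^ 2 - ∑ c, y c ^ 2| ≤ δ * ∑ c, y c ^ 2 + 3 * (1 / δ + 1) := by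
    rw [← sum_sub_distrib]
    refine (abs_sum_le_sum_abs _ _).trans ((sum_le_sum fun c _ => c11_sq δ0 (hy c)).trans_eq ?_)
    rw [sum_add_distrib, ← mul_sum, sum_const, card_univ, Fintype.card_fin, nsmul_eq_mul]
    norm_num only [one_div]
  have a3 := abs_le.1 (c11_quot δ0 t4 h (sum_nonneg fun c _ => sq_nonneg _) hS a2)
  have e : C / t = 3 / 2 * (4 / t) + 3 / 2 * ((6 * (1 / δ + 1) + 4 * |B|) / t) := by
    rw [hC]
    ring
  rw [c11_psi t0, c11_psi t0', ← he]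
  constructor <;> rw [mul_left_comm, ← Real.exp_add] <;> gcongr <;>
    linarith only [a1.1, a1.2, a3.1, a3.2, δ1, tC, e]

lemma leg (B : ℝ) {η : ℝ} (hη : 0 < η) : ∃ t0 : ℝ, 0 < t0 ∧ ∀ (t : ℝ) (a m : ℕ) (g g' x y : V),
    t0 ≤ t → 1 ≤ a → |(m : ℝ) - t * a ^ 2| ≤ 2 * a ^ 2 → ∑ c, ((g' - g) c : ℝ) ^ 2 ≤ B * t →
      x ∈ fib a g → y ∈ fib a g' → Even ((m : ℤ) + ∑ c, (y - x) c) →
        (psi t fun c => (g' - g) c) ≤ (1 + η) * (a ^ 3 * PT m (y - x)) ∧
          a ^ 3 * PT m (y - x) ≤ (1 + η) * psi t fun c => (g' - g) c := by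
  obtain ⟨θ, θ0, θ1⟩ : ∃ θ : ℝ, 0 < θ ∧ (1 + θ) * (1 + θ) ≤ 1 + η := by
    refine ⟨min 1 (η / 3), by positivity, ?_⟩
    have a := min_le_left 1 (η / 3)
    have b := min_le_right 1 (η / 3)
    have c : 0 < min 1 (η / 3) := by positivity
    nlinarith
  obtain ⟨t1, -, h1⟩ := psi_close B θ0
  obtain ⟨n0, -, h2⟩ := lclt (4 * |B| + 3) θ0
  refine ⟨max (max t1 4) (2 * n0), by positivity, fun t a m g g' x y ht ha hm hg hx hy hp => ?_⟩
  have t1' : t1 ≤ t := ((le_max_left _ _).trans (le_max_left _ _)).trans ht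
  have t4 : 4 ≤ t := ((le_max_right _ _).trans (le_max_left _ _)).trans ht
  have tn : 2 * (n0 : ℝ) ≤ t := (le_max_right _ _).trans ht
  have a1 : (1 : ℝ) ≤ a := by exact_mod_cast ha
  have a0 : (0 : ℝ) < a := by linarith only [a1]
  have a2 : (1 : ℝ) ≤ a ^ 2 := one_le_pow₀ a1
  have hm1 := (abs_le.1 hm).1
  have m1 : t * a ^ 2 ≤ 2 * m := by nlinarith only [t4, hm1]
  have m2 : 2 * (a : ℝ) ^ 2 ≤ m := by nlinarith only [t4, m1]
  have m0 : (0 : ℝ) < m := by linarith only [a2, m2]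
  have mn : n0 ≤ m := by
    have : (n0 : ℝ) ≤ m := by nlinarith only [tn, a2, m1]
    exact_mod_cast this
  have hy' : ∀ c, |((y - x) c : ℝ) / a - ((g' - g) c : ℝ)| ≤ 1 := by
    intro c
    have b1 := cell_bounds ha x c
    have b2 := cell_bounds ha y c
    rw [(mem_fib ha).1 hx] at b1
    rw [(mem_fib ha).1 hy] at b2
    have b3 : |(y - x) c - a * (g' - g) c| ≤ a := by
      simp only [Pi.sub_apply, mul_sub]
      exact abs_le.2 ⟨by linarith only [b1, b2], by linarith only [b1, b2]⟩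
    have b4 : |((y - x) c : ℝ) - a * ((g' - g) c : ℝ)| ≤ a := by exact_mod_cast b3
    rw [show ((y - x) c : ℝ) / a - ((g' - g) c : ℝ) =
      (((y - x) c : ℝ) - a * ((g' - g) c : ℝ)) / a by field_simp, abs_div, abs_of_pos a0,
      div_le_one a0]
    exact b4
  have ht' : |(m : ℝ) / a ^ 2 - t| ≤ 2 := by
    rw [show (m : ℝ) / a ^ 2 - t = (m - t * a ^ 2) / a ^ 2 by field_simp, abs_div,
      abs_of_pos (a := (a : ℝ) ^ 2) (by positivity), div_le_iff₀ (by positivity)]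
    exact hm
  have hz : ∑ c, ((y - x) c : ℝ) ^ 2 ≤ (4 * |B| + 3) * m := by
    have b1 : ∀ c, ((y - x) c : ℝ) ^ 2 ≤ a ^ 2 * (2 * ((g' - g) c : ℝ) ^ 2 + 2) := by
      intro c
      have b2 := sq_le_one_iff_abs_le_one _ |>.2 (hy' c)
      rw [show ((y - x) c : ℝ) ^ 2 = a ^ 2 * (((y - x) c : ℝ) / a) ^ 2 by field_simp]
      gcongr
      nlinarith [sq_nonneg (((y - x) c : ℝ) / a - 2 * ((g' - g) c : ℝ))]
    have b3 : B * t ≤ |B| * t := by gcongr; exact le_abs_self B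
    have b4 : |B| * (t * a ^ 2) ≤ |B| * (2 * m) := by gcongr
    calc _ ≤ ∑ c, (a : ℝ) ^ 2 * (2 * ((g' - g) c : ℝ) ^ 2 + 2) := sum_le_sum fun c _ => b1 c
      _ = a ^ 2 * (2 * ∑ c, ((g' - g) c : ℝ) ^ 2 + 6) := by
          rw [← mul_sum, sum_add_distrib, ← mul_sum]
          norm_num only [Pi.sub_apply, Int.cast_sub]
      _ ≤ a ^ 2 * (2 * (|B| * t) + 6) := by gcongr; linarith only [hg, b3]
      _ ≤ _ := by linarith only [m2, b4]
  obtain ⟨k1, k2⟩ := h1 t (m / a ^ 2) (fun c => (g' - g) c) (fun c => ((y - x) c : ℝ) / a) t1' ht'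
    hy' hg
  obtain ⟨k3, k4⟩ := h2 m mn (y - x) hp hz
  have e : (psi m fun c => (y - x) c) =
      (psi (m / a ^ 2) fun c => ((y - x) c : ℝ) / a) / a ^ 3 := by
    rw [← psi_scale a0 (by positivity)]
    congr 1
    · field_simp
    · funext c
      field_simp
  have a3 : (0 : ℝ) < a ^ 3 := by positivity
  have p0 := (psi_pos (show 0 < t by linarith only [t4]) fun c => ((g' - g) c : ℝ)).le
  have q0 := PT_nonneg m (y - x)
  rw [e] at k3 k4
  rw [div_le_iff₀ a3] at k3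
  rw [← mul_div_assoc, le_div_iff₀ a3] at k4
  constructor
  · calc _ ≤ (1 + θ) * ((1 + θ) * PT m (y - x) * a ^ 3) := k2.trans (by gcongr)
      _ = (1 + θ) * (1 + θ) * (a ^ 3 * PT m (y - x)) := by ring
      _ ≤ _ := by gcongr
  · calc _ = PT m (y - x) * a ^ 3 := mul_comm _ _
      _ ≤ (1 + θ) * ((1 + θ) * psi t fun c => (g' - g) c) := k4.trans (by gcongr)
      _ = (1 + θ) * (1 + θ) * psi t fun c => (g' - g) c := by ring
      _ ≤ _ := by gcongr

open Classical in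
lemma card_parity {a : ℕ} (ha : Even a) (g : V) (b : ℤ) :
    (((fib a g).filter fun y => Even (b + ∑ c, y c)).card : ℝ) = a ^ 3 / 2 := by
  obtain ⟨k, hk⟩ := ha
  obtain ⟨φ, hφ⟩ : ∃ φ : V → V, ∀ y, φ y = Function.update y 0 (2 * a * g 0 + a - 1 - y 0) :=
    ⟨_, fun _ => rfl⟩
  have h1 : ∀ y, φ (φ y) = y := fun y => by simp [hφ]
  have h2 : ∀ y ∈ fib a g, φ y ∈ fib a g := by
    intro y hy
    simp only [fib, Fintype.mem_piFinset, mem_Ico, hφ] at hy ⊢
    intro c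
    by_cases hc : c = 0
    · subst hc
      have := hy 0
      rw [Function.update_self]
      constructor <;> linarith only [this.1, this.2]
    · rw [Function.update_of_ne hc]
      exact hy c
  have h3 : ∀ y, Even (b + ∑ c, φ y c) ↔ ¬ Even (b + ∑ c, y c) := by
    intro y
    have e : b + ∑ c, φ y c = b + ∑ c, y c + 1 + 2 * (a * g 0 + k - 1 - y 0) := by
      have ea : (a : ℤ) = k + k := by exact_mod_cast hk
      simp only [hφ, Fin.sum_univ_three, Function.update_self,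
        Function.update_of_ne (show (1 : Fin 3) ≠ 0 by decide),
        Function.update_of_ne (show (2 : Fin 3) ≠ 0 by decide)]
      linarith
    rw [e, Int.even_add, Int.even_add_one]
    simp only [Int.not_even_iff_odd, Fin.isValue, even_two, Even.mul_right, iff_true]
  have h4 : ((fib a g).filter fun y => Even (b + ∑ c, y c)).card =
      ((fib a g).filter fun y => ¬ Even (b + ∑ c, y c)).card := by
    refine card_nbij' φ φ (fun y hy => ?_) (fun y hy => ?_) (fun y _ => h1 y) fun y _ => h1 y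
    · rw [mem_coe, mem_filter] at hy ⊢
      exact ⟨h2 y hy.1, fun h => (h3 y).1 h hy.2⟩
    · rw [mem_coe, mem_filter] at hy ⊢
      exact ⟨h2 y hy.1, (h3 y).2 hy.2⟩
  have h5 := card_filter_add_card_filter_not (s := fib a g) fun y => Even (b + ∑ c, y c)
  rw [← h4, card_fib] at h5
  have h6 : (((fib a g).filter fun y => Even (b + ∑ c, y c)).card : ℝ) +
      ((fib a g).filter fun y => Even (b + ∑ c, y c)).card = a ^ 3 := by exact_mod_cast h5
  linarith only [h6]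

end Pool.Agent.MP_3a8451_pr

end

-- part Lp/C12
section

/-! Sampled bridges. -/

open Finset
open scoped ENNReal NNReal

namespace Pool.Agent.MP_3a8451_pr

lemma c12_congr {n : ℕ} {F G : List D → ℝ} (h : ∀ s, s.length = n → F s = G s) :
    Ex n F = Ex n G :=
  le_antisymm (Ex_mono fun s hs => (h s hs).le) (Ex_mono fun s hs => (h s hs).ge)

lemma c12_step {a m ρ : ℕ} (ha : 1 ≤ a) (q : ℕ) (γ : ℕ → V) {x : V} (y : V)
    (hx : x ∈ fib a (γ 0)) :
    (Ex ((q + 1) * m + ρ) fun s =>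
      ind (x + pos s = y ∧ ∀ i ≤ q + 1, cell a (pt x s (i * m)) = γ i)) =
    ∑ z ∈ fib a (γ 1), PT m (z - x) * Ex (q * m + ρ) fun s =>
      ind (z + pos s = y ∧ ∀ i ≤ q, cell a (pt z s (i * m)) = γ (i + 1)) := by
  rw [show (q + 1) * m + ρ = m + (q * m + ρ) by ring, Ex_append]
  have e : ∀ z : V, PT m (z - x) * (Ex (q * m + ρ) fun s =>
      ind (z + pos s = y ∧ ∀ i ≤ q, cell a (pt z s (i * m)) = γ (i + 1))) =
      Ex m fun s => (Ex (q * m + ρ) fun s =>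
        ind (z + pos s = y ∧ ∀ i ≤ q, cell a (pt z s (i * m)) = γ (i + 1))) *
          ind (pos s = z - x) := fun z => by rw [Ex_mul, mul_comm, PT]
  simp only [e]
  rw [← Ex_sum]
  refine c12_congr fun s hs => ?_
  have e1 : (Ex (q * m + ρ) fun t => ind (x + pos (s ++ t) = y ∧
      ∀ i ≤ q + 1, cell a (pt x (s ++ t) (i * m)) = γ i)) = Ex (q * m + ρ) fun t =>
        ind (x + pos s + pos t = y ∧
          ∀ i ≤ q, cell a (pt (x + pos s) t (i * m)) = γ (i + 1)) := by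
    refine c12_congr fun t _ => ind_congr (and_congr (by rw [pos_append, add_assoc]) ?_)
    have k : ∀ i, pt x (s ++ t) ((i + 1) * m) = pt (x + pos s) t (i * m) := fun i => by
      rw [← pt_append_right, hs]
      congr 1
      ring
    refine ⟨fun h i hi => k i ▸ h (i + 1) (by omega), fun h i hi => ?_⟩
    rcases i with _ | i
    · simpa using (mem_fib ha).1 hx
    · rw [k]; exact h i (by omega)
  rw [e1]
  by_cases hz : x + pos s ∈ fib a (γ 1)
  · rw [sum_eq_single_of_mem _ hz, ind_pos (P := pos s = _) (by simp), mul_one]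
    intro z _ hne
    rw [ind_neg (P := pos s = _) fun h => hne (by rw [h]; simp), mul_zero]
  · rw [sum_eq_zero]
    · refine (c12_congr fun t _ => ind_neg fun h => hz ?_).trans (Ex_const _ 0)
      simpa using (mem_fib ha).2 (h.2 0 (Nat.zero_le _))
    · intro z hz'
      rw [ind_neg (P := pos s = _) fun h => hz (by rw [h]; simpa using hz'), mul_zero]

lemma legs {a m ρ : ℕ} (ha : 1 ≤ a) (he : Even a) {κ : ℝ} (hκ : 1 ≤ κ) (q : ℕ) (γ : ℕ → V)
    (w : ℕ → ℝ) (hw : ∀ i, 0 ≤ w i)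
    (h1 : ∀ i < q, ∀ x ∈ fib a (γ i), ∀ y ∈ fib a (γ (i + 1)), Even ((m : ℤ) + ∑ c, (y - x) c) →
      w i ≤ κ * (a ^ 3 * PT m (y - x)) ∧ a ^ 3 * PT m (y - x) ≤ κ * w i)
    (h2 : ∀ x ∈ fib a (γ q), ∀ y ∈ fib a (γ (q + 1)), Even ((ρ : ℤ) + ∑ c, (y - x) c) →
      w q ≤ κ * (a ^ 3 * PT ρ (y - x)) ∧ a ^ 3 * PT ρ (y - x) ≤ κ * w q)
    {x y : V} (hx : x ∈ fib a (γ 0)) (hy : y ∈ fib a (γ (q + 1)))
    (hp : Even (((q * m + ρ : ℕ) : ℤ) + ∑ c, (y - x) c)) :
    (∏ i ∈ range (q + 1), w i) / 2 ^ q ≤ κ ^ (q + 1) * (a ^ 3 * Ex (q * m + ρ) fun s =>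
      ind (x + pos s = y ∧ ∀ i ≤ q, cell a (pt x s (i * m)) = γ i)) ∧
    (a ^ 3 * Ex (q * m + ρ) fun s =>
      ind (x + pos s = y ∧ ∀ i ≤ q, cell a (pt x s (i * m)) = γ i)) ≤
        κ ^ (q + 1) * ((∏ i ∈ range (q + 1), w i) / 2 ^ q) := by
  induction q generalizing γ w x with
  | zero =>
    have e : (Ex (0 * m + ρ) fun s =>
        ind (x + pos s = y ∧ ∀ i ≤ 0, cell a (pt x s (i * m)) = γ i)) = PT ρ (y - x) := by
      rw [zero_mul, zero_add, PT]
      refine c12_congr fun s _ => ind_congr ⟨fun h => ?_, fun h => ⟨?_, fun i hi => ?_⟩⟩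
      · rw [← h.1]; simp
      · rw [h]; simp
      · rw [Nat.le_zero.1 hi]
        simpa using (mem_fib ha).1 hx
    rw [e]
    simpa only [zero_add, range_one, prod_singleton, pow_zero, div_one, pow_one] using h2 x hx y hy (by simpa only [Pi.sub_apply, sum_sub_distrib, zero_mul, zero_add] using hp)
  | succ q ih =>
    rw [c12_step ha q γ y hx]
    obtain ⟨E, hE⟩ : ∃ E : V → ℝ, E = fun z => Ex (q * m + ρ) fun s =>
      ind (z + pos s = y ∧ ∀ i ≤ q, cell a (pt z s (i * m)) = γ (i + 1)) := ⟨_, rfl⟩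
    have hE' : ∀ z, (Ex (q * m + ρ) fun s =>
      ind (z + pos s = y ∧ ∀ i ≤ q, cell a (pt z s (i * m)) = γ (i + 1))) = E z :=
      fun z => by rw [hE]
    have hE0 : ∀ z, 0 ≤ E z := fun z => hE' z ▸ Ex_nonneg fun _ => ind_nonneg _
    simp only [hE']
    have hs : ∀ u v : V, ∑ c, (u - v) c = ∑ c, u c - ∑ c, v c := fun u v => by
      simp only [Pi.sub_apply, sum_sub_distrib]
    have hJ := card_parity he (γ 1) ((m : ℤ) - ∑ c, x c)
    have hpar : ∀ z : V, Even ((m : ℤ) - ∑ c, x c + ∑ c, z c) ↔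
        Even ((m : ℤ) + ∑ c, (z - x) c) := fun z => by
      rw [hs]
      exact iff_of_eq (congrArg _ (by ring))
    have e : ∑ z ∈ fib a (γ 1), PT m (z - x) * E z = ∑ z ∈ (fib a (γ 1)).filter
        fun z => Even ((m : ℤ) - ∑ c, x c + ∑ c, z c), PT m (z - x) * E z := by
      rw [sum_filter]
      refine sum_congr rfl fun z _ => ?_
      split_ifs with h
      · rfl
      · rw [PT_odd fun h' => h ((hpar z).2 h'), zero_mul]
    obtain ⟨W, hW⟩ : ∃ W, W = (∏ i ∈ range (q + 1), w (i + 1)) / 2 ^ q := ⟨_, rfl⟩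
    have hW0 : 0 ≤ W := hW ▸ div_nonneg (prod_nonneg fun _ _ => hw _) (by positivity)
    have e2 : (∏ i ∈ range (q + 1 + 1), w i) / 2 ^ (q + 1) = w 0 * W / 2 := by
      rw [prod_range_succ', hW, pow_succ]
      ring
    have key : ∀ z ∈ (fib a (γ 1)).filter fun z => Even ((m : ℤ) - ∑ c, x c + ∑ c, z c),
        w 0 * W ≤ κ ^ (q + 1 + 1) * (a ^ 3 * a ^ 3) * (PT m (z - x) * E z) ∧
          (a ^ 3 * a ^ 3) * (PT m (z - x) * E z) ≤ κ ^ (q + 1 + 1) * (w 0 * W) := by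
      intro z hz
      obtain ⟨hz, hz'⟩ := mem_filter.1 hz
      have A := h1 0 (Nat.succ_pos q) x hx z hz ((hpar z).1 hz')
      have B := ih (fun i => γ (i + 1)) (fun i => w (i + 1)) (fun i => hw _)
        (fun i hi => h1 (i + 1) (by omega)) h2 hz hy (by
          rw [hs] at hp ⊢
          have := hp.sub hz'
          have h3 : (((q * m + ρ : ℕ) : ℤ) + (∑ c, y c - ∑ c, z c)) =
              (((q + 1) * m + ρ : ℕ) : ℤ) + (∑ c, y c - ∑ c, x c) -
                ((m : ℤ) - ∑ c, x c + ∑ c, z c) := by push_cast; ring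
          rwa [h3])
      rw [hE', ← hW] at B
      have p0 : 0 ≤ (a : ℝ) ^ 3 * PT m (z - x) := mul_nonneg (by positivity) (PT_nonneg _ _)
      have p1 : 0 ≤ (a : ℝ) ^ 3 * E z := mul_nonneg (by positivity) (hE0 z)
      have k0 : 0 ≤ κ := by linarith only [hκ]
      constructor
      · calc w 0 * W ≤ κ * (a ^ 3 * PT m (z - x)) * (κ ^ (q + 1) * (a ^ 3 * E z)) :=
              mul_le_mul A.1 B.1 hW0 (mul_nonneg k0 p0)
          _ = _ := by ring
      · calc (a ^ 3 * a ^ 3) * (PT m (z - x) * E z) = a ^ 3 * PT m (z - x) * (a ^ 3 * E z) := by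
              ring
          _ ≤ κ * w 0 * (κ ^ (q + 1) * W) := mul_le_mul A.2 B.2 p1 (mul_nonneg k0 (hw 0))
          _ = _ := by ring
    have a0 : (0 : ℝ) < (a : ℝ) ^ 3 := by positivity
    rw [e, e2]
    have s1 := sum_le_sum fun z hz => (key z hz).1
    have s2 := sum_le_sum fun z hz => (key z hz).2
    rw [sum_const, nsmul_eq_mul, hJ, ← mul_sum] at s1 s2
    constructor
    · refine le_of_mul_le_mul_left ?_ a0
      calc _ = (a : ℝ) ^ 3 / 2 * (w 0 * W) := by ring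
        _ ≤ _ := s1
        _ = _ := by ring
    · refine le_of_mul_le_mul_left ?_ a0
      calc _ = _ := by ring
        _ ≤ _ := s2
        _ = _ := by ring

end Pool.Agent.MP_3a8451_pr

end

-- part Lp/C13
section

/-! The mass of a type does not depend much on the mesh. -/

open Finset
open scoped ENNReal NNReal

namespace Pool.Agent.MP_3a8451_pr

lemma Mu_typ {k a : ℕ} (hk : 1 ≤ k) (ha : 1 ≤ a) (σ : ℕ × (Fin k → V)) (hσ : 1 ≤ σ.1) :
    Mu (fun x s => ie (typ k a x s = σ)) = ENNReal.ofReal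
      (∑ n ∈ Ico (σ.1 * a ^ 2) ((σ.1 + 1) * a ^ 2), ∑ x ∈ fib a (σ.2 ⟨0, hk⟩), 1 / (n : ℝ) *
        Ex n fun s => ind (pos s = 0 ∧ ∀ i : Fin k, cell a (pt x s (i * (n / k))) = σ.2 i)) := by
  have ha2 : 0 < a ^ 2 := pow_pos ha 2
  have hI : ∀ n, n ∈ Ico (σ.1 * a ^ 2) ((σ.1 + 1) * a ^ 2) ↔ n / a ^ 2 = σ.1 := fun n => by
    rw [mem_Ico, ← Nat.le_div_iff_mul_le ha2, ← Nat.div_lt_iff_lt_mul ha2]
    omega
  have h0 : ∀ (n : ℕ) (x : V), 0 ≤ 1 / (n : ℝ) * Ex n fun s =>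
      ind (pos s = 0 ∧ ∀ i : Fin k, cell a (pt x s (i * (n / k))) = σ.2 i) := fun n x =>
    mul_nonneg (by positivity) (Ex_nonneg fun _ => ind_nonneg _)
  have key : ∀ x, (WF fun s => ie (Closed s) * ((s.length : ℝ≥0∞)⁻¹ * ie (typ k a x s = σ))) =
      ∑ n ∈ Ico (σ.1 * a ^ 2) ((σ.1 + 1) * a ^ 2), ENNReal.ofReal (1 / (n : ℝ) * Ex n fun s =>
        ind (pos s = 0 ∧ ∀ i : Fin k, cell a (pt x s (i * (n / k))) = σ.2 i)) := fun x => by
    rw [sum_congr rfl fun n _ => by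
      rw [ENNReal.ofReal_mul (by positivity), ← WF_len_ie, ← WF_mul_left], ← WF_sum]
    refine WF_congr fun s => ?_
    by_cases h : Closed s ∧ typ k a x s = σ
    · have hl : 0 < s.length := List.length_pos_iff.2 h.1.1
      rw [sum_eq_single_of_mem s.length ((hI _).2 (congrArg Prod.fst h.2)) fun n _ hn => by
        rw [ie_neg fun h' => hn h'.1.symm, mul_zero], ie_pos h.1, ie_pos h.2, one_mul,
        ie_pos ⟨rfl, h.1.2, fun i => congrFun (congrArg Prod.snd h.2) i⟩, one_div,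
        ENNReal.ofReal_inv_of_pos (by exact_mod_cast hl), ENNReal.ofReal_natCast]
    · rw [mul_left_comm, ← ie_and, ie_neg h, mul_zero]
      refine (sum_eq_zero fun n hn => ?_).symm
      rw [ie_neg, mul_zero]
      rintro ⟨rfl, h1, h2⟩
      refine h ⟨⟨fun e => ?_, h1⟩, Prod.ext ((hI _).1 hn) (funext h2)⟩
      have := (hI _).1 hn
      rw [e, List.length_nil, Nat.zero_div] at this
      omega
  rw [Mu, tsum_congr key, tsum_eq_sum (s := fib a (σ.2 ⟨0, hk⟩)) fun x hx => ?_, sum_comm,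
    ENNReal.ofReal_sum_of_nonneg fun n _ => sum_nonneg fun x _ => h0 n x]
  · exact sum_congr rfl fun n _ => (ENNReal.ofReal_sum_of_nonneg fun x _ => h0 n x).symm
  · refine sum_eq_zero fun n _ => ?_
    rw [funext fun s => ind_neg fun h => hx ((mem_fib ha).2 (by simpa using h.2 ⟨0, hk⟩)),
      Ex_const, mul_zero, ENNReal.ofReal_zero]

lemma c13_even (f : ℕ → ℝ) (u v : ℕ) (h : ∀ n, f (2 * n + 1) = 0) :
    ∑ n ∈ Ico (2 * u) (2 * (u + v)), f n = ∑ i ∈ range v, f (2 * (u + i)) := by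
  induction v with
  | zero => simp
  | succ v ih =>
    rw [show 2 * (u + (v + 1)) = 2 * (u + v) + 1 + 1 by ring, sum_Ico_succ_top (by omega),
      sum_Ico_succ_top (by omega), ih, h, add_zero, sum_range_succ]

lemma c13_odd (n : ℕ) (P : List D → Prop) :
    (Ex (2 * n + 1) fun s => ind (pos s = 0 ∧ P s)) = 0 := by
  refine le_antisymm ((Ex_mono fun s hs => (ind_neg fun h => ?_).le).trans (Ex_const _ 0).le)
    (Ex_nonneg fun _ => ind_nonneg _)
  have := even_of_pos s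
  rw [h.1, hs] at this
  simp only [Pi.zero_apply, sum_const_zero, add_zero] at this
  obtain ⟨c, hc⟩ := this
  omega

lemma c13_one {q a n : ℕ} (ha : 1 ≤ a) (he : Even a) {κ : ℝ} (hκ : 1 ≤ κ) (hn : Even n)
    (g : Fin (q + 1) → V) (w : ℕ → ℝ) (hw : ∀ i, 0 ≤ w i)
    (h : ∀ i m, n / (q + 1) ≤ m → m ≤ n / (q + 1) + (q + 1) →
      ∀ x ∈ fib a (g (Fin.ofNat _ i)), ∀ y ∈ fib a (g (Fin.ofNat _ (i + 1))),
        Even ((m : ℤ) + ∑ c, (y - x) c) →
          w i ≤ κ * (a ^ 3 * PT m (y - x)) ∧ a ^ 3 * PT m (y - x) ≤ κ * w i) :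
    (∏ i ∈ range (q + 1), w i) / 2 ^ q ≤ κ ^ (q + 1) * (∑ x ∈ fib a (g 0), Ex n fun s =>
      ind (pos s = 0 ∧ ∀ i : Fin (q + 1), cell a (pt x s (i * (n / (q + 1)))) = g i)) ∧
    (∑ x ∈ fib a (g 0), Ex n fun s =>
      ind (pos s = 0 ∧ ∀ i : Fin (q + 1), cell a (pt x s (i * (n / (q + 1)))) = g i)) ≤
        κ ^ (q + 1) * ((∏ i ∈ range (q + 1), w i) / 2 ^ q) := by
  have a0 : (0 : ℝ) < (a : ℝ) ^ 3 := pow_pos (by exact_mod_cast ha) 3
  have e1 : q * (n / (q + 1)) + (n / (q + 1) + n % (q + 1)) = n := by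
    have := Nat.div_add_mod n (q + 1)
    rw [add_mul, one_mul] at this
    omega
  have e2 : n % (q + 1) < q + 1 := Nat.mod_lt n (Nat.succ_pos q)
  have key := fun x (hx : x ∈ fib a (g 0)) => legs (m := n / (q + 1))
    (ρ := n / (q + 1) + n % (q + 1)) ha he hκ q (fun i => g (Fin.ofNat _ i)) w hw
    (fun i _ => h i _ le_rfl (Nat.le_add_right _ _)) (h q _ (Nat.le_add_right _ _) (by omega))
    (x := x) (y := x) (by simpa using hx) (by simpa using hx) (by rw [e1]; simpa only [Pi.sub_apply, sub_self, sum_const_zero, add_zero, Int.even_coe_nat] using hn)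
  have e3 : ∀ (x : V) (s : List D), ind (x + pos s = x ∧ ∀ i ≤ q,
      cell a (pt x s (i * (n / (q + 1)))) = g (Fin.ofNat _ i)) = ind (pos s = 0 ∧
        ∀ i : Fin (q + 1), cell a (pt x s (i * (n / (q + 1)))) = g i) := fun x s =>
    ind_congr (and_congr add_eq_left ⟨fun h i => by
      simpa using h i (Nat.lt_succ_iff.1 i.2), fun h i hi => by
      have := h ⟨i, Nat.lt_succ_iff.2 hi⟩
      rwa [show Fin.ofNat (q + 1) i = ⟨i, Nat.lt_succ_iff.2 hi⟩ from
        Fin.ext (Nat.mod_eq_of_lt (Nat.lt_succ_iff.2 hi))]⟩)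
  simp only [e1, e3] at key
  have e4 : ∀ b : ℝ, ∑ _x ∈ fib a (g 0), b = a ^ 3 * b := fun b => by
    rw [sum_const, card_fib, nsmul_eq_mul, Nat.cast_pow]
  have k1 := sum_le_sum fun x hx => (key x hx).1
  have k2 := sum_le_sum fun x hx => (key x hx).2
  rw [e4, ← mul_sum, ← mul_sum, mul_left_comm] at k1
  rw [e4, ← mul_sum] at k2
  exact ⟨le_of_mul_le_mul_left k1 a0, le_of_mul_le_mul_left k2 a0⟩

lemma c13_near {k a j n m : ℕ} (hk : 1 ≤ k) (hka : k ≤ a) (h1 : j * a ^ 2 ≤ n)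
    (h2 : n < (j + 1) * a ^ 2) (h3 : n / k ≤ m) (h4 : m ≤ n / k + k) :
    |(m : ℝ) - (j : ℝ) / k * a ^ 2| ≤ 2 * a ^ 2 := by
  have k0 : (0 : ℝ) < k := by exact_mod_cast hk
  have b1 : k ≤ a ^ 2 := hka.trans (Nat.le_self_pow two_ne_zero a)
  have b2 := Nat.mul_div_le n k
  have b3 := Nat.lt_mul_div_succ n hk
  have b4 : a ^ 2 ≤ k * a ^ 2 := Nat.le_mul_of_pos_left _ hk
  have b5 := Nat.mul_le_mul_left k b1
  have b6 := Nat.mul_le_mul_left k h3
  have b7 := Nat.mul_le_mul_left k h4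
  rw [mul_add] at b3 b7
  rw [add_mul] at h2
  have c1 : k * m ≤ j * a ^ 2 + 2 * (k * a ^ 2) := by omega
  have c2 : j * a ^ 2 ≤ k * m + 2 * (k * a ^ 2) := by omega
  have c3 : (k * m : ℝ) ≤ j * a ^ 2 + 2 * (k * a ^ 2) := by exact_mod_cast c1
  have c4 : (j * a ^ 2 : ℝ) ≤ k * m + 2 * (k * a ^ 2) := by exact_mod_cast c2
  rw [show (m : ℝ) - (j : ℝ) / k * a ^ 2 = (k * m - j * a ^ 2) / k by field_simp, abs_div,
    abs_of_pos k0, div_le_iff₀ k0, abs_le]
  constructor <;> linarith only [c4, c3]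

lemma c13_sq {Γ H : ℕ} (hH : 1 ≤ H) {g g' : V} (h : nrm g ≤ Γ * H + 1) (h' : nrm g' ≤ Γ * H + 1) :
    ∑ c, ((g' - g) c : ℝ) ^ 2 ≤ 12 * (Γ + 1) ^ 2 * H ^ 2 := by
  have b1 : nrm (g' - g) ≤ 2 * ((Γ + 1) * H) := by
    have := nrm_add g' (-g)
    rw [nrm_neg, ← sub_eq_add_neg] at this
    rw [add_mul]
    omega
  have b2 : ∀ c, ((g' - g) c : ℝ) ^ 2 ≤ (2 * ((Γ + 1) * H)) ^ 2 := fun c => by
    have : |((g' - g) c : ℝ)| ≤ 2 * ((Γ + 1) * H) := by exact_mod_cast nrm_le.1 b1 c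
    exact sq_le_sq' (abs_le.1 this).1 (abs_le.1 this).2
  refine (sum_le_sum fun c _ => b2 c).trans_eq ?_
  simp only [sum_const, card_univ, Fintype.card_fin, nsmul_eq_mul]
  push_cast
  ring

lemma typemass {k : ℕ} (hk : 1 ≤ k) (T0 T1 Γ : ℕ) {η : ℝ} (hη : 0 < η) :
    ∃ H0 : ℕ, ∀ H ≥ H0, ∀ σ ∈ TT k T0 T1 Γ H, ∃ W : ℝ, 0 ≤ W ∧ ∀ a ≥ k, Even a →
      W ≤ (1 + η) * (Mu fun x s => ie (typ k a x s = σ)).toReal ∧
        (Mu fun x s => ie (typ k a x s = σ)).toReal ≤ (1 + η) * W := by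
  obtain ⟨q, rfl⟩ : ∃ q, k = q + 1 := ⟨k - 1, by omega⟩
  obtain ⟨ε, hε, hκ⟩ : ∃ ε : ℝ, 0 < ε ∧ (1 + ε) ^ (q + 2) = 1 + η :=
    ⟨(1 + η) ^ (((q + 2 : ℕ) : ℝ)⁻¹) - 1,
      sub_pos.2 (Real.one_lt_rpow (by linarith only [hη]) (by positivity)), by
      rw [add_sub_cancel, Real.rpow_inv_natCast_pow (by linarith only [hη]) (by omega)]⟩
  obtain ⟨t0, ht0, hleg⟩ := leg (12 * (Γ + 1) ^ 2 * T0 * (q + 1 : ℕ)) hε
  obtain ⟨J, hJ1, hJ2⟩ : ∃ J : ℕ, t0 * (q + 1 : ℕ) ≤ J ∧ 1 / ε ≤ J :=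
    ⟨⌈max (t0 * (q + 1 : ℕ)) (1 / ε)⌉₊, (le_max_left _ _).trans (Nat.le_ceil _),
      (le_max_right _ _).trans (Nat.le_ceil _)⟩
  refine ⟨T0 * J + 1, fun H hH σ hσ => ?_⟩
  obtain ⟨j, g⟩ := σ
  obtain ⟨-, h2, h3⟩ := mem_TT.1 hσ
  dsimp only at h2 h3
  have hj : J < j := Nat.lt_of_mul_lt_mul_left (a := T0)
    (lt_of_lt_of_le hH ((Nat.le_self_pow two_ne_zero H).trans h2))
  have hj' : (J : ℝ) ≤ j := by exact_mod_cast hj.le
  have j0 : (0 : ℝ) < j := by exact_mod_cast (by omega : 0 < j)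
  have k0 : (0 : ℝ) < (q + 1 : ℕ) := by positivity
  have hw : ∀ i, 0 ≤ psi ((j : ℝ) / (q + 1 : ℕ)) fun c =>
      (g (Fin.ofNat _ (i + 1)) - g (Fin.ofNat _ i)) c := fun i => (psi_pos (by positivity) _).le
  obtain ⟨W, hW⟩ : ∃ W : ℝ, W = (∏ i ∈ range (q + 1), psi ((j : ℝ) / (q + 1 : ℕ)) fun c =>
      (g (Fin.ofNat _ (i + 1)) - g (Fin.ofNat _ i)) c) / 2 ^ q := ⟨_, rfl⟩
  have W0 : 0 ≤ W := hW ▸ div_nonneg (prod_nonneg fun i _ => hw i) (by positivity)
  refine ⟨W / (2 * j), by positivity, fun a hka he => ?_⟩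
  have ha : 1 ≤ a := le_trans hk hka
  obtain ⟨E, hE⟩ : ∃ E : ℕ → ℝ, ∀ n, E n = ∑ x ∈ fib a (g 0), Ex n fun s =>
      ind (pos s = 0 ∧ ∀ i : Fin (q + 1), cell a (pt x s (i * (n / (q + 1)))) = g i) :=
    ⟨_, fun _ => rfl⟩
  have E0 : ∀ n, 0 ≤ E n := fun n => hE n ▸ sum_nonneg fun _ _ => Ex_nonneg fun _ => ind_nonneg _
  have key : ∀ n, j * a ^ 2 ≤ n → n < (j + 1) * a ^ 2 → Even n →
      W ≤ (1 + ε) ^ (q + 1) * E n ∧ E n ≤ (1 + ε) ^ (q + 1) * W := fun n n1 n2 hn => by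
    rw [hW, hE]
    refine c13_one ha he (by linarith only [hε]) hn g _ hw fun i m m1 m2 x hx y hy hp =>
      hleg _ a m _ _ x y ((le_div_iff₀ k0).2 (hJ1.trans hj')) ha (c13_near hk hka n1 n2 m1 m2)
        ((c13_sq (by omega) (h3 _) (h3 _)).trans ?_) hx hy hp
    have : ((H : ℝ)) ^ 2 ≤ T0 * j := by exact_mod_cast h2
    rw [mul_assoc _ _ (_ / _), mul_div_cancel₀ _ k0.ne', mul_assoc _ (T0 : ℝ)]
    gcongr
  obtain ⟨b, rfl⟩ := he.two_dvd
  have hb : 1 ≤ b := by omega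
  have b0 : (0 : ℝ) < b := by exact_mod_cast hb
  have e1 : j * (2 * b) ^ 2 = 2 * (j * (2 * b ^ 2)) := by ring
  have e2 : (j + 1) * (2 * b) ^ 2 = 2 * (j * (2 * b ^ 2) + 2 * b ^ 2) := by ring
  have hM : (Mu fun x s => ie (typ (q + 1) (2 * b) x s = (j, g))).toReal =
      ∑ i ∈ range (2 * b ^ 2), 1 / ((2 * (j * (2 * b ^ 2) + i) : ℕ) : ℝ) *
        E (2 * (j * (2 * b ^ 2) + i)) := by
    rw [Mu_typ hk ha _ (by dsimp only; omega), ← c13_even (fun n => 1 / (n : ℝ) * E n) _ _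
      fun n => by simp only [hE, c13_odd, sum_const_zero, mul_zero], ← e1, ← e2]
    simp only [← mul_sum]
    rw [ENNReal.toReal_ofReal (sum_nonneg fun n _ => mul_nonneg (by positivity)
      (sum_nonneg fun _ _ => Ex_nonneg fun _ => ind_nonneg _))]
    exact sum_congr rfl fun n _ => by rw [hE]; rfl
  have e3 : ∀ c : ℝ, c = ∑ _i ∈ range (2 * b ^ 2), c / (2 * b ^ 2) := fun c => by
    rw [sum_const, card_range, nsmul_eq_mul]
    push_cast
    field_simp
  have e4 : (j : ℝ) + 1 ≤ (1 + ε) * j := by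
    have := (div_le_iff₀ hε).1 (hJ2.trans hj')
    linarith only [this]
  have e5 : (1 + ε) ^ (q + 1) ≤ 1 + η := hκ ▸ pow_le_pow_right₀ (by linarith only [hε]) (by omega)
  rw [hM, mul_sum]
  constructor
  · rw [e3 (W / _)]
    refine sum_le_sum fun i hi => ?_
    have hi' := mem_range.1 hi
    have i1 : (i : ℝ) ≤ 2 * b ^ 2 := by exact_mod_cast hi'.le
    have k1 := (key (2 * (j * (2 * b ^ 2) + i)) (by omega) (by omega) (even_two_mul _)).1
    have k2 := E0 (2 * (j * (2 * b ^ 2) + i))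
    generalize E _ = e at k1 k2
    push_cast
    rw [div_div, one_div_mul_eq_div, ← mul_div_assoc, div_le_div_iff₀ (by positivity)
      (by positivity), ← hκ, pow_succ _ (q + 1)]
    calc W * (2 * (j * (2 * b ^ 2) + i)) ≤ (1 + ε) ^ (q + 1) * e *
          (2 * (j * (2 * b ^ 2) + 2 * b ^ 2)) := by gcongr
      _ = (1 + ε) ^ (q + 1) * e * ((j + 1) * (4 * b ^ 2)) := by ring
      _ ≤ (1 + ε) ^ (q + 1) * e * ((1 + ε) * j * (4 * b ^ 2)) := by gcongr
      _ = _ := by ring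
  · rw [e3 ((1 + η) * (W / _))]
    refine sum_le_sum fun i hi => ?_
    have hi' := mem_range.1 hi
    have k1 := (key (2 * (j * (2 * b ^ 2) + i)) (by omega) (by omega) (even_two_mul _)).2
    have k2 := E0 (2 * (j * (2 * b ^ 2) + i))
    generalize E _ = e at k1 k2
    push_cast
    rw [one_div_mul_eq_div, ← mul_div_assoc, div_div]
    calc e / (2 * (j * (2 * b ^ 2) + i)) ≤ (1 + η) * W / (2 * (j * (2 * b ^ 2) + 0)) := by
          gcongr
          · exact k1.trans (by gcongr)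
          · positivity
      _ = _ := by ring

end Pool.Agent.MP_3a8451_pr

end

-- part Lp/D6
section

/-! Deterministic comparison between loops and types. -/

open Finset
open scoped ENNReal NNReal

namespace Pool.Agent.MP_3a8451_pr

lemma d6_pres {ι β : Type*} {T : Finset β} {π : ι → β} {ω : ι → Bool} {σ : T} :
    pres T π ω σ = true ↔ ∃ i, π i = σ.1 ∧ ω i = true := by
  simp only [pres, decide_eq_true_eq]

variable {N k a : ℕ} {ω : Ix N → Bool} (T : Finset (ℕ × (Fin k → V)))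

lemma dir1 (hk : 1 ≤ k) (ha : 1 ≤ a) {n Λ H e e' f : ℕ} (hΛ : 1 ≤ Λ) (h1 : H * a ≤ n)
    (h2 : n ≤ 2 * H * a) (h3 : e * a ≤ n) (h4 : e' + 2 * f ≤ e)
    (h : ∃ y ∈ Cl (SS N) (fun _ => True) ω (Bx 0 n), y ∈ (Bx 0 (16 * Λ * n))ᶜ) :
    Near (SS N) (fun i => ¬ Small (e * a) (SS N i)) n (8 * Λ * n) (e * a) n ω ∨
      (∃ i, ω i = true ∧ ¬ Small (e * a) (SS N i) ∧ Meets (SS N i) (Bx 0 (8 * Λ * n)) ∧
        ¬ (typ k a i.1.1 i.1.2 ∈ T ∧ Reg k (f * a) i.1.2)) ∨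
      Yev T f e' (2 * H) (8 * Λ * H) (pres T (fun i : Ix N => typ k a i.1.1 i.1.2) ω) := by
  obtain ⟨y, hy, hy'⟩ := h
  have hn : n ≤ Λ * n := Nat.le_mul_of_pos_left _ hΛ
  by_cases hK : Cl (SS N) (fun i => ¬ Small (e * a) (SS N i)) ω (Bx 0 n) ⊆ Bx 0 (8 * Λ * n)
  · have hy2 : 16 * (Λ * n) < nrm y := by
      rw [← mul_assoc]
      exact not_le.1 fun h => hy' (mem_Bx0.2 h)
    rcases decomp' (fun i => ¬ Small (e * a) (SS N i)) hy with h | ⟨i, -, hs, ⟨b, hb, hbK⟩, h⟩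
    · have := mem_Bx0.1 (hK h)
      rw [mul_assoc] at this
      omega
    obtain ⟨x, hx, h⟩ := mem_Cl.1 h
    have e1 := not_not.1 hs b hb x hx
    refine Or.inl ⟨hK, x, ⟨b, hbK, mem_Bx.2 e1.le⟩, y, h, fun h' => ?_⟩
    have e2 := mem_Bx0.1 (hK hbK)
    have e3 := mem_Bx.1 h'
    have e4 := nrm_tri y x 0
    have e5 := nrm_tri x b 0
    rw [nrm_comm x b] at e5
    rw [mul_assoc] at e2
    simp only [sub_zero] at e4 e5
    omega
  obtain ⟨z, hz, hz'⟩ := Set.not_subset.1 hK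
  obtain ⟨z, hz, hz'⟩ := first_exit hz hz'
  refine Or.inr (or_iff_not_imp_left.2 fun hb => ⟨cell a z, Cl_ind (P := fun z => cell a z ∈
    Cl (fun σ : T => Sst f σ.1) (fun σ => Gst e' σ.1)
      (pres T (fun i : Ix N => typ k a i.1.1 i.1.2) ω) (Bx 0 (2 * H)))
    (fun x hx => sub_Cl (mem_Bx0.2 (nrm_cell_le ha ((mem_Bx0.1 hx).trans h2)))) ?_ hz, ?_⟩)
  · rintro u v hu ⟨i, ⟨hG, hH⟩, ho, hui, hvi⟩
    obtain ⟨hT, hR⟩ := not_not.1 fun h => hb ⟨i, ho, hG, hH, h⟩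
    have key : ∀ w ∈ SS N i, cell a w ∈ Sst f (typ k a i.1.1 i.1.2) := fun w hw =>
      let ⟨j, hj, h⟩ := reg_cover hk hR hw
      ⟨⟨j, hj⟩, nrm_cell_sub ha h⟩
    refine Cl_step hu ⟨⟨_, hT⟩, ?_, d6_pres.2 ⟨i, rfl, ho⟩, key u hui, key v hvi⟩
    simp only [Small, not_forall, not_lt] at hG
    obtain ⟨p, hp, q, hq, hG⟩ := hG
    obtain ⟨j, hj, e1⟩ := reg_cover hk hR hp
    obtain ⟨j', hj', e2⟩ := reg_cover hk hR hq
    refine ⟨⟨j, hj⟩, ⟨j', hj'⟩, Nat.lt_succ_iff.1 (Nat.lt_of_mul_lt_mul_right (a := a)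
      (lt_of_le_of_lt ?_ (nrm_sub_le_cell ha _ _)))⟩
    dsimp only
    generalize pt _ _ (j * _) = p' at e1 ⊢
    generalize pt _ _ (j' * _) = q' at e2 ⊢
    have e3 := nrm_tri p p' q
    have e4 := nrm_tri p' q' q
    have e5 := Nat.mul_le_mul_right a h4
    rw [nrm_comm q' q] at e4
    rw [add_mul, mul_assoc] at e5
    omega
  · have e1 := not_le.1 fun h => hz' (mem_Bx0.2 h)
    have e2 := nrm_sub_le_cell ha z 0
    rw [cell_zero, sub_zero, sub_zero] at e2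
    refine Nat.lt_succ_iff.1 (Nat.lt_of_mul_lt_mul_right (a := a)
      (lt_of_le_of_lt ?_ (e1.trans e2)))
    rw [mul_assoc _ H]
    exact Nat.mul_le_mul_left _ h1

lemma dir2 (ha : 1 ≤ a) {m Λ H e' f lo hi : ℕ} (h1 : 2 * H * a ≤ m)
    (h2 : Λ * m + (f + 1) * a ≤ 8 * Λ * H * a) (h3 : (2 * f + 1) * a ≤ lo)
    (h4 : 2 * hi + a ≤ e' * a)
    (h : Yev T f e' (2 * H) (8 * Λ * H) (pres T (fun i : Ix N => typ k a i.1.1 i.1.2) ω)) :
    (∃ y ∈ Cl (SS N) (fun _ => True) ω (Bx 0 m), y ∈ (Bx 0 (Λ * m))ᶜ) ∨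
      Near (SS N) (fun _ => True) m (Λ * m) lo hi ω := by
  refine or_iff_not_imp_left.2 fun hn => ?_
  have hK : Cl (SS N) (fun _ => True) ω (Bx 0 m) ⊆ Bx 0 (Λ * m) :=
    fun y hy => not_not.1 fun h => hn ⟨y, hy, h⟩
  obtain ⟨y, hy, hy'⟩ := h
  refine (Cl_ind (P := fun z => Near (SS N) (fun _ => True) m (Λ * m) lo hi ω ∨
    ∃ b ∈ Cl (SS N) (fun _ => True) ω (Bx 0 m), nrm (cell a b - z) ≤ f)
    (fun z hz => Or.inr ⟨sc a z, sub_Cl (mem_Bx0.2 ?_), by simp [cell_sc ha]⟩) ?_ hy).elim id ?_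
  · rw [nrm_sc, mul_comm]
    exact (Nat.mul_le_mul_right a (mem_Bx0.1 hz)).trans h1
  · rintro u v (hu | ⟨b, hb, hu⟩) ⟨σ, ⟨l, l', hG⟩, ho, ⟨j, hj⟩, j', hj'⟩
    · exact Or.inl hu
    obtain ⟨i, e, ho⟩ := d6_pres.1 ho
    rw [← e] at hG hj hj'
    simp only [typ] at hG hj hj'
    have hm : ∀ t, pt i.1.1 i.1.2 t ∈ SS N i := pt_mem_tr _ _
    by_cases hM : Meets (SS N i) (Cl (SS N) (fun _ => True) ω (Bx 0 m))
    · exact Or.inr ⟨_, sub_of_hits trivial ho hM (hm _), nrm_comm _ _ ▸ hj'⟩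
    have hc : ∀ t t', pt i.1.1 i.1.2 t' ∈ Cl (SS N) (fun i => Disjoint (SS N i)
        (Cl (SS N) (fun _ => True) ω (Bx 0 m))) ω {pt i.1.1 i.1.2 t} := fun t t' =>
      Cl_step (sub_Cl rfl) ⟨i, not_meets.1 hM, ho, hm t, hm t'⟩
    refine Or.inl ⟨hK, pt i.1.1 i.1.2 (j * (i.1.2.length / k)), ⟨b, hb, mem_Bx.2 ?_⟩, ?_⟩
    · have e1 := (nrm_tri _ u _).trans (add_le_add hu hj)
      refine ((nrm_sub_le_cell ha _ _).le.trans (Nat.mul_le_mul_right a ?_)).trans h3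
      omega
    · by_contra hx
      have hx' : ∀ t, nrm (pt i.1.1 i.1.2 t - pt i.1.1 i.1.2 (j * (i.1.2.length / k))) ≤ hi :=
        fun t => mem_Bx.1 (not_not.1 fun h => hx ⟨_, hc _ t, h⟩)
      have e1 := (Nat.mul_le_mul_right a hG).trans_lt (nrm_cell_le_sub ha _ _)
      have e2 := (nrm_tri _ _ _).trans (add_le_add (hx' (l * (i.1.2.length / k)))
        ((nrm_comm _ _).trans_le (hx' (l' * (i.1.2.length / k)))))
      omega
  · rintro ⟨b, hb, e1⟩
    have e2 := mem_Bx0.1 (hK hb)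
    have e3 := nrm_cell_le_sub ha b 0
    have e4 := nrm_tri y (cell a b) 0
    rw [cell_zero, sub_zero, sub_zero] at e3
    rw [sub_zero, sub_zero, nrm_comm] at e4
    have e5 := Nat.mul_le_mul_right a (hy'.trans (e4.trans (Nat.add_le_add_right e1 _)))
    rw [add_mul] at e5 h2
    omega

end Pool.Agent.MP_3a8451_pr

end
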