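import Pool.Agent.MP_3a8451_pr.Mg.Ex3

attribute [-instance] IdemSemiring.toCanonicallyOrderedAdd AddQuantale.instAddLeftMono
  RKHS.instFunLike IsOrderedMonoid.toMulLeftMono IdemSemiring.toMulLeftMono NumberField.to_charZero
  Quantale.instMulLeftMono AddQuantale.instAddRightMono List.instDecidableMemOfLawfulBEq
  Quantale.instMulRightMono CanonicallyOrderedAdd.toMulLeftMono Finset.decidableDforallFinset
  NeZero.of_gt' littleWedderburn Multiset.decidableDforallMultiset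
  Vector.instDecidableForallForallMemOfDecidablePred CStarAlgebra.instOrderClosedTopology

-- part Lp/E1
section

/-! The finite model and the loop measure. -/

open Finset Filter Topology
open scoped ENNReal NNReal

namespace Pool.Agent.MP_3a8451_pr

lemma mem_BLs {N : ℕ} {l : V × List D} :
    l ∈ BLs N ↔ l.2.length ≤ N ∧ Closed l.2 ∧ tr l.1 l.2 ⊆ Bx 0 N := by
  simp only [BLs, mem_filter, mem_product, mem_biUnion, mem_range, mem_words', mem_grid']
  exact ⟨fun ⟨⟨_, n, h1, h2⟩, h3⟩ => ⟨by omega, h3⟩, fun ⟨h1, h2⟩ =>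
    ⟨⟨mem_Bx0.1 (h2.2 (start_mem_tr _ _)), _, Nat.lt_succ_of_le h1, rfl⟩, h2⟩⟩

lemma e1_Mu (F : V → List D → ℝ≥0∞) : Mu F = ∑' l : V × List D, (6 : ℝ≥0∞)⁻¹ ^ l.2.length *
    (ie (Closed l.2) * ((l.2.length : ℝ≥0∞)⁻¹ * F l.1 l.2)) := by
  rw [ENNReal.tsum_prod']
  rfl

lemma e1_sum (N : ℕ) {G : V → List D → ℝ} (hG : ∀ x s, 0 ≤ G x s) :
    ENNReal.ofReal (∑ i : Ix N, wl i.1.2 * G i.1.1 i.1.2) = ∑ l ∈ BLs N,
      (6 : ℝ≥0∞)⁻¹ ^ l.2.length *
        (ie (Closed l.2) * ((l.2.length : ℝ≥0∞)⁻¹ * ENNReal.ofReal (G l.1 l.2))) := by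
  rw [sum_coe_sort _ fun l : V × List D => wl l.2 * G l.1 l.2,
    ENNReal.ofReal_sum_of_nonneg fun _ _ => mul_nonneg (wl_nonneg _) (hG _ _)]
  refine sum_congr rfl fun l hl => ?_
  have h := (mem_BLs.1 hl).2.1
  rw [ie_pos h, one_mul, ENNReal.ofReal_mul (wl_nonneg _), wl, ENNReal.ofReal_mul (by positivity),
    ENNReal.ofReal_pow (by norm_num), one_div, one_div,
    ENNReal.ofReal_inv_of_pos (by exact_mod_cast List.length_pos_iff.2 h.1),
    ENNReal.ofReal_inv_of_pos (by norm_num)]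
  simp only [ENNReal.ofReal_natCast, ENNReal.ofReal_ofNat]
  ring

lemma sum_le_Mu (N : ℕ) {G : V → List D → ℝ} (hG : ∀ x s, 0 ≤ G x s) :
    ENNReal.ofReal (∑ i : Ix N, wl i.1.2 * G i.1.1 i.1.2) ≤
      Mu fun x s => ENNReal.ofReal (G x s) := by
  rw [e1_sum N hG, e1_Mu]
  exact ENNReal.sum_le_tsum _

lemma pp_sum_le {α b : ℝ} (hα : 0 ≤ α) (hb : 0 ≤ b) (N : ℕ) {G : V → List D → ℝ}
    (hG : ∀ x s, 0 ≤ G x s) (h : Mu (fun x s => ENNReal.ofReal (G x s)) ≤ ENNReal.ofReal b) :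
    ∑ i : Ix N, pp α N i * G i.1.1 i.1.2 ≤ α * b := by
  refine le_trans ?_ (mul_le_mul_of_nonneg_left
    ((ENNReal.ofReal_le_ofReal_iff hb).1 ((sum_le_Mu N hG).trans h)) hα)
  rw [mul_sum]
  exact sum_le_sum fun i _ =>
    (mul_le_mul_of_nonneg_right (pp_le α N i) (hG _ _)).trans_eq (mul_assoc _ _ _)

lemma e1_mono : Monotone BLs := fun _ _ h _ hl =>
  let ⟨a, b, c⟩ := mem_BLs.1 hl
  mem_BLs.2 ⟨a.trans h, b, c.trans (Bx_mono h)⟩

lemma e1_exh {x : V} {s : List D} (h : Closed s) : (x, s) ∈ BLs (nrm x + s.length) :=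
  mem_BLs.2 ⟨Nat.le_add_left _ _, h, (tr_sub_Bx x s).trans (Bx_sub (by simp))⟩

lemma sum_tendsto {P : V → List D → Prop} (h : Mu (fun x s => ie (P x s)) ≠ ∞) :
    Tendsto (fun N => ∑ i : Ix N, wl i.1.2 * ind (P i.1.1 i.1.2)) atTop
      (𝓝 (Mu fun x s => ie (P x s)).toReal) := by
  have key : Tendsto (fun N => ENNReal.ofReal (∑ i : Ix N, wl i.1.2 * ind (P i.1.1 i.1.2))) atTop
      (𝓝 (Mu fun x s => ie (P x s))) := by
    simp only [e1_sum _ (G := fun x s => ind (P x s)) fun _ _ => ind_nonneg _, ofReal_ind]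
    rw [e1_Mu, ENNReal.tsum_eq_iSup_sum]
    refine Eq.subst (motive := fun a => Tendsto _ atTop (𝓝 a)) (Eq.symm ?_)
      (tendsto_atTop_iSup fun N N' h => sum_le_sum_of_subset (e1_mono h))
    refine le_antisymm (iSup_le fun L => le_iSup_of_le (L.sup fun l => nrm l.1 + l.2.length) ?_)
      (iSup_le fun N => le_iSup_of_le _ le_rfl)
    refine sum_le_sum_of_ne_zero fun l hl h0 => e1_mono (le_sup (f := fun l : V × List D =>
      nrm l.1 + l.2.length) hl) (e1_exh ?_)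
    exact of_ie_ne (left_ne_zero_of_mul (right_ne_zero_of_mul h0))
  exact ((ENNReal.tendsto_toReal h).comp key).congr fun N => ENNReal.toReal_ofReal
    (sum_nonneg fun _ _ => mul_nonneg (wl_nonneg _) (ind_nonneg _))

lemma mS_le {α : ℝ} (hα : 0 ≤ α) (N : ℕ) {K : Set V} {z : V} {R : ℕ} (hK : K ⊆ Bx z R)
    (O : Set V) : mS (SS N) (pp α N) K O ≤ α * mm K O :=
  pp_sum_le hα (mm_nonneg K O) N (G := fun x s => ind (Meets (tr x s) K ∧ Meets (tr x s) O))
    (fun _ _ => ind_nonneg _) (by simp only [ofReal_ind, ofReal_mm hK, le_refl])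

lemma mS_ev {α : ℝ} (hα : 0 ≤ α) (hα' : α ≤ 1) (R : ℕ) : ∀ᶠ N in atTop, ∀ K O : Set V,
    K ⊆ Bx 0 R → (Bx 0 R)ᶜ ⊆ O → α / 4 * mm K O ≤ mS (SS N) (pp α N) K O := by
  have hf := (Bx_finite 0 R).finite_subsets
  have key : ∀ᶠ N in atTop, ∀ K ∈ {b | b ⊆ Bx 0 R}, ∀ O ∈ {b | b ⊆ Bx 0 R},
      α / 4 * mm K Oᶜ ≤ mS (SS N) (pp α N) K Oᶜ := by
    refine (eventually_all_finite hf).2 fun K hK => (eventually_all_finite hf).2 fun O _ => ?_
    rcases (mm_nonneg K Oᶜ).eq_or_lt with h | h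
    · exact Eventually.of_forall fun N => by
        rw [← h, mul_zero]; exact mS_nonneg (pp_nonneg hα N) _ _
    refine ((sum_tendsto (P := fun x s => Meets (tr x s) K ∧ Meets (tr x s) Oᶜ)
      (ofReal_mm hK ▸ ENNReal.ofReal_ne_top)).eventually (lt_mem_nhds (half_lt_self h))).mono
        fun N hN => ?_
    refine le_trans (le_of_eq (by rw [mm]; ring)) ((mul_le_mul_of_nonneg_left hN.le
      (by positivity : 0 ≤ α / 2)).trans ?_)
    rw [mul_sum]
    exact sum_le_sum fun i _ => le_trans (le_of_eq (by rw [SS]; ring))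
      (mul_le_mul_of_nonneg_right (le_pp hα hα' N i) (ind_nonneg _))
  exact key.mono fun N h K O hK hO => by
    simpa only [compl_compl] using h K hK Oᶜ (Set.compl_subset_comm.1 hO)

end Pool.Agent.MP_3a8451_pr

end

-- part Lp/E2
section

/-! Words and vertex lists; crossing a single annulus. -/

open Finset
open scoped ENNReal NNReal

namespace Pool.Agent.MP_3a8451_pr

lemma length_verts (x : V) (s : List D) : (verts x s).length = s.length := by
  induction s generalizing x with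
  | nil => rfl
  | cons d s ih => simp [verts, ih]

lemma e2_mem {x z : V} {s : List D} : z ∈ tr x s ↔ z ∈ verts x s ∨ z = x + pos s := by
  induction s generalizing x with
  | nil => simp [verts]
  | cons d s ih =>
    have : tr x [d] = {x, x + dir d} := by
      ext y
      simp [mem_tr', Nat.le_one_iff_eq_zero_or_eq_one, pt, eq_comm]
    rw [show d :: s = [d] ++ s from rfl, tr_append, this, Set.mem_union, ih]
    simp only [List.singleton_append, verts, List.mem_cons, pos_cons, pos_nil, add_zero, add_assoc,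
      Set.mem_insert_iff, Set.mem_singleton_iff]
    refine ⟨fun h => ?_, fun h => by tauto⟩
    rcases h with (h | rfl) | h
    · tauto
    · simpa [add_assoc, or_assoc] using Or.inr (ih.1 (start_mem_tr _ _))
    · tauto

lemma mem_verts {x z : V} {s : List D} (hs : Closed s) : z ∈ verts x s ↔ z ∈ tr x s := by
  refine ⟨fun h => e2_mem.2 (Or.inl h), fun h => (e2_mem.1 h).elim id fun e => ?_⟩
  obtain ⟨d, s, rfl⟩ := List.exists_cons_of_ne_nil hs.1
  simp [e, hs.2, verts]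

lemma e2_adj (x : V) (d : D) : Adj x (x + dir d) := by
  obtain ⟨c, b⟩ := d
  fin_cases c <;> cases b <;> simp only [Adj, dir, Fin.zero_eta, Fin.isValue, Bool.false_eq_true, ↓ reduceIte, Int.reduceNeg, Pi.add_apply, sub_add_cancel_left, abs_neg, Fin.sum_univ_three, Pi.single_eq_same, abs_one, ne_eq, one_ne_zero, not_false_eq_true, Pi.single_eq_of_ne, abs_zero, add_zero, Fin.reduceEq, Fin.mk_one, zero_ne_one, zero_add, Fin.reduceFinMk]

lemma two_le_length {s : List D} (hs : Closed s) : 2 ≤ s.length := by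
  rcases s with _ | ⟨d, _ | ⟨d', s⟩⟩
  · exact absurd rfl hs.1
  · have := e2_adj 0 d
    rw [show dir d = 0 by simpa using hs.2] at this
    simp [Adj] at this
  · simp

lemma verts_chain (x : V) {s : List D} (hs : Closed s) : (verts x s : Cycle V).Chain Adj := by
  have key : ∀ (s : List D) (x : V), List.IsChain Adj (verts x s ++ [x + pos s]) := fun s => by
    induction s with
    | nil => simp [verts]
    | cons d s ih =>
      intro x
      have := ih (x + dir d)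
      rw [verts, pos_cons, ← add_assoc, List.cons_append]
      cases s with
      | nil => simpa [verts] using e2_adj x d
      | cons d' s => exact List.isChain_cons_cons.2 ⟨e2_adj x d, this⟩
  have := key s x
  rw [hs.2, add_zero] at this
  obtain ⟨d, s, rfl⟩ := List.exists_cons_of_ne_nil hs.1
  exact (Cycle.chain_coe_cons _ _ _).2 this

lemma e2_dir : Function.Injective dir := by
  rintro ⟨c, b⟩ ⟨c', b'⟩ h
  have := congrFun h c
  by_cases e : c = c'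
  · subst e
    cases b <;> cases b' <;> simp_all [dir]
  · cases b <;> simp [dir, e] at this

lemma verts_inj {x x' : V} {s s' : List D} (hs : Closed s) (hs' : Closed s')
    (h : verts x s = verts x' s') : x = x' ∧ s = s' := by
  have key : ∀ (s s' : List D) (x : V), verts x s = verts x s' → pos s = pos s' → s = s' := by
    intro s
    induction s with
    | nil => rintro (_ | _) x h _ <;> simp_all [verts]
    | cons d s ih =>
      rintro (_ | ⟨d', s'⟩) x h e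
      · simp [verts] at h
      have h' : verts (x + dir d) s = verts (x + dir d') s' := by simpa [verts] using h
      have : d = d' := by
        refine e2_dir (add_left_cancel (a := x) ?_)
        rcases s with _ | _ <;> rcases s' with _ | _ <;> simp_all [verts]
      subst this
      rw [ih s' _ h' (by simpa using e)]
  have e : x = x' := by
    obtain ⟨d, s, rfl⟩ := List.exists_cons_of_ne_nil hs.1
    obtain ⟨d', s', rfl⟩ := List.exists_cons_of_ne_nil hs'.1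
    exact (List.cons.inj h).1
  subst e
  exact ⟨rfl, key s s' x h (hs.2.trans hs'.2.symm)⟩

lemma verts_surj {l : List V} (h2 : 2 ≤ l.length) (h : (l : Cycle V).Chain Adj) :
    ∃ x s, Closed s ∧ verts x s = l := by
  rcases l with _ | ⟨a, l⟩
  · simp at h2
  obtain ⟨s, s1, s2, s3⟩ := exists_word l a a h
  exact ⟨a, s, ⟨fun e => by simp [e] at s1, by simpa using s2⟩, s3.symm⟩

lemma e2_closed {N : ℕ} (i : Ix N) : Closed i.1.2 := by
  classical exact (mem_filter.1 i.2).2.1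

lemma phiN_le {α : ℝ} (hα : 0 ≤ α) (N j : ℕ) (x : V) (r : ℕ) (hr : 4 * r ≤ 16 ^ j) :
    Phi (SS N) (pp α N) j (Box x r) ≤ 2 ^ 33 * α * (r + 1) / 16 ^ j := by
  classical
  have h := lists_le (x₀ := x) (Nat.one_le_pow j 16 (by norm_num)) hr
    ((univ.filter fun i : Ix N => ¬ Sm (SS N) j i ∧ Hits (SS N) i (Box x r)).image
      fun i => verts i.1.1 i.1.2) fun l hl => by
      obtain ⟨i, h1, rfl⟩ := mem_image.1 hl
      have h3 := (mem_filter.1 h1).2
      simp only [Sm, Hits, not_forall, not_lt, SS, ← mem_verts (e2_closed i)] at h3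
      obtain ⟨⟨a, ha, b, hb, c, hc⟩, h5⟩ := h3
      exact ⟨(length_verts _ _).symm ▸ two_le_length (e2_closed i), verts_chain _ (e2_closed i), h5,
        a, ha, b, hb, c, by exact_mod_cast hc⟩
  rw [sum_image (fun i _ i' _ e => Subtype.ext (Prod.ext_iff.2
    (verts_inj (e2_closed i) (e2_closed i') e))), sum_filter] at h
  refine le_trans ?_ ((mul_le_mul_of_nonneg_left h hα).trans_eq (by push_cast; ring))
  rw [mul_sum]
  refine sum_le_sum fun i _ => ?_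
  split_ifs with hi
  · rw [ind_pos hi, mul_one, length_verts]
    exact pp_le α N i
  · rw [ind_neg hi, mul_zero, mul_zero]

lemma theta {η : ℝ} (hη : 0 < η) : ∃ α0 : ℝ, 0 < α0 ∧ ∀ α, 0 ≤ α → α ≤ α0 → ∀ (N j : ℕ) (x : V),
    PN α N (Bx x (16 ^ j)) (Bx x (2 * 16 ^ j))ᶜ ≤ η := by
  obtain ⟨m, hm⟩ := exists_pow_lt_of_lt_one (half_pos hη) (y := (1 / 16 ^ 4 : ℝ)) (by norm_num)
  refine ⟨min (1 / (2 * 65 ^ 3 * (51 ^ 6 * 16 ^ 4))) (η / 2 / (2 * (2 * 16 ^ m) + 1) ^ 3) /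
    (2 ^ 16 * 2 ^ 33), by positivity, fun α h0 hα N j x => ?_⟩
  rw [le_div_iff₀ (by positivity), mul_comm, mul_assoc] at hα
  have p0 := pp_nonneg h0 N
  have p1 := pp_le_one α N
  have H := fun k j x hk => box_of p0 (by positivity) (phiN_le h0 N) k j x hk
  obtain ⟨k, d, rfl, hd, hc⟩ : ∃ k d, j = k + d ∧ d ≤ m ∧ EE (pp α N)
      (fun ω => ind (Cr (SS N) k x (16 ^ j) ω)) ≤ η / 2 := by
    rcases le_total m j with h | h
    · refine ⟨j - m, m, by omega, le_rfl, ?_⟩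
      have := cr_bound p0 p1 (hα.trans (min_le_left _ _)) H (j - m) m x
      rw [Nat.sub_add_cancel h] at this
      exact this.trans (by rw [pow_mul, ← one_div_pow]; exact hm.le)
    · refine ⟨0, j, by omega, h, (EE_mono p0 p1 fun ω => (ind_neg ?_).le).trans
        ((EE_const _ 0).trans_le (by positivity))⟩
      rintro ⟨y, h1, h2⟩
      exact h2 (Box_mono (le_mul_of_one_le_left (by positivity) one_le_two) (Cl_zero h1))
  have a1 := box_le p0 H (le_refl k) (2 * 16 ^ d) x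
  have a2 : (2 * ((2 * 16 ^ d : ℕ) : ℝ) + 1) ^ 3 * (2 ^ 16 * (2 ^ 33 * α) * 16 ^ k / 16 ^ k) ≤
      η / 2 := by
    rw [mul_div_cancel_right₀ _ (by positivity)]
    refine le_trans ?_ ((le_div_iff₀' (by positivity)).1 (hα.trans (min_le_right _ _)))
    push_cast
    gcongr
    norm_num
  refine (EE_mono p0 p1 fun ω => ind_or_le ?_).trans ((EE_add _ _ _).trans_le
    ((add_le_add hc ((open_le p0 p1 k _).trans (a1.trans a2))).trans_eq (add_halves η)))
  rintro ⟨y, h1, h2⟩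
  obtain ⟨z, z1, z2⟩ := first_exit h1 h2
  simp only [Bx, Nat.cast_mul, Nat.cast_pow, Nat.cast_ofNat] at z1 z2 ⊢
  rw [mul_assoc, ← pow_add, add_comm d]
  by_cases h : ∀ i, ω i = true → Hits (SS N) i (Box x (2 * 16 ^ (k + d))) → Sm (SS N) k i
  · exact Or.inl ⟨z, Cl_mono subset_rfl (fun i a b => ⟨h i b a.2, b⟩) z1, z2⟩
  · push Not at h
    exact Or.inr (h.imp fun i hi => ⟨hi.1, hi.2.2, hi.2.1⟩)

end Pool.Agent.MP_3a8451_pr

end

-- part Lp/E3
section

/-! From the finite model to the loop soup. -/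

open MeasureTheory Finset Filter Topology Relation
open scoped ENNReal NNReal

namespace Pool.Agent.MP_3a8451_pr

lemma soup_eq [DecidableEq Loop] (α : ℝ≥0) (T : Finset Loop) (P : (T → Bool) → Prop) :
    (soup α).real {N | P fun ℓ => decide (N ℓ ≠ 0)} =
      EE (fun ℓ : T => pr α ℓ) fun ω => ind (P ω) := by
  have : IsProbabilityMeasure (soup α) := by unfold soup; infer_instance
  refine le_antisymm (soup_le α T P) ?_
  have h1 := soup_le α T fun ω => ¬ P ω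
  have h2 := measureReal_union_le (μ := soup α) {N | P fun ℓ => decide (N ℓ ≠ 0)}
    {N | ¬ P fun ℓ => decide (N ℓ ≠ 0)}
  rw [show ({N | P fun ℓ => decide (N ℓ ≠ 0)} ∪ {N | ¬ P fun ℓ => decide (N ℓ ≠ 0)} :
    Set (Loop → ℕ)) = Set.univ from Set.union_compl_self _, probReal_univ] at h2
  have h3 : (EE (fun ℓ : T => pr α ℓ) fun ω => ind (P ω)) +
      (EE (fun ℓ : T => pr α ℓ) fun ω => ind (¬ P ω)) = 1 := by
    rw [← EE_add, ← EE_const (fun ℓ : T => pr α ℓ) 1]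
    congr 1
    funext ω
    by_cases h : P ω <;> simp [ind, h]
  linarith

/-- The loop carried by an index of the finite model. -/
def e3_lp {N : ℕ} (i : Ix N) : Loop :=
  ⟨verts i.1.1 i.1.2, (two_le_length (e2_closed i)).trans_eq (length_verts _ _).symm,
    verts_chain _ (e2_closed i)⟩

lemma e3_mem {N : ℕ} (i : Ix N) {z : V} : z ∈ (e3_lp i).1 ↔ z ∈ SS N i :=
  Cycle.mem_coe_iff.trans (mem_verts (e2_closed i))

lemma e3_surj {ℓ : Loop} {l : List V} (h : (l : Cycle V) = ℓ.1) :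
    ∃ x s, Closed s ∧ verts x s = l :=
  verts_surj (by have := ℓ.2.1; rwa [← h] at this) (h ▸ ℓ.2.2)

lemma e3_mu {N : ℕ} (i : Ix N) :
    ∑ i' : Ix N, wl i'.1.2 * ind (e3_lp i' = e3_lp i) = mu (e3_lp i) := by
  classical
  simp only [ind, mul_ite, mul_one, mul_zero, ← sum_filter, mu, NNReal.coe_sum]
  refine sum_bij (fun i' _ => verts i'.1.1 i'.1.2) (fun i' h => ?_) (fun i _ i' _ e =>
    Subtype.ext (Prod.ext_iff.2 (verts_inj (e2_closed i) (e2_closed i') e))) (fun l hl => ?_)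
    fun i' _ => by simp only [wl, one_div, inv_pow, length_verts, NNReal.coe_mul, NNReal.coe_inv, NNReal.coe_natCast, NNReal.coe_pow, NNReal.coe_ofNat]
  · exact Multiset.mem_toFinset.2 (Cycle.mem_lists_iff_coe_eq.2
      (congrArg Subtype.val (mem_filter.1 h).2))
  · have e := Cycle.mem_lists_iff_coe_eq.1 (Multiset.mem_toFinset.1 hl)
    obtain ⟨x, s, h1, rfl⟩ := e3_surj e
    obtain ⟨a, -, b⟩ := mem_BLs.1 i.2
    have e' := congrArg Cycle.length e
    refine ⟨⟨(x, s), mem_BLs.2 ⟨?_, h1, fun z hz => b ((e3_mem i).1 ?_)⟩⟩,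
      mem_filter.2 ⟨mem_univ _, Subtype.ext e⟩, rfl⟩
    · simp only [e3_lp, Cycle.length_coe, length_verts] at e'
      exact e'.trans_le a
    · exact e ▸ Cycle.mem_coe_iff.2 ((mem_verts h1).2 hz)

lemma PN_tendsto (α : ℝ≥0) (X Y : Set V) :
    Tendsto (fun N => PN α N X Y) atTop (𝓝 (PP α X Y)) := by
  classical
  have : IsProbabilityMeasure (soup α) := by unfold soup; infer_instance
  obtain ⟨T, hT⟩ : ∃ T : ℕ → Finset Loop, ∀ N ℓ, ℓ ∈ T N ↔ ∃ i : Ix N, e3_lp i = ℓ :=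
    ⟨fun N => univ.image (e3_lp (N := N)), fun _ _ => by simp only [mem_image, mem_univ, true_and]⟩
  obtain ⟨R, hR⟩ : ∃ R : ℕ → (Loop → ℕ) → V → V → Prop, ∀ N M a b,
    R N M a b ↔ ∃ ℓ ∈ T N, M ℓ ≠ 0 ∧ a ∈ ℓ.1 ∧ b ∈ ℓ.1 := ⟨_, fun _ _ _ _ => Iff.rfl⟩
  have m : ∀ {N N'}, N ≤ N' → ∀ {M a b}, ReflTransGen (R N M) a b → ReflTransGen (R N' M) a b :=
    fun {N N'} h M _ _ => ReflTransGen.mono (r := R N M) (p := R N' M) (fun a b h' => by
      obtain ⟨ℓ, h1, h2⟩ := (hR _ _ _ _).1 h'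
      obtain ⟨i, rfl⟩ := (hT _ _).1 h1
      exact (hR _ _ _ _).2 ⟨_, (hT _ _).2 ⟨⟨i.1, e1_mono h i.2⟩, rfl⟩, h2⟩) _ _
  have e1 : ∀ N, PN α N X Y = (soup α).real {M | ∃ x ∈ X, ∃ y ∈ Y, ReflTransGen (R N M) x y} :=
    fun N => by
      have a1 := EE_group (T N) e3_lp (fun i : Ix N => α * wl i.1.2) fun τ =>
        ind (∃ y ∈ Cl (fun ℓ : T N => {z | z ∈ ℓ.1.1}) (fun _ => True) τ X, y ∈ Y)
      have a2 : (fun σ : T N => 1 - Real.exp (-∑ i : Ix N, α * wl i.1.2 * ind (e3_lp i = σ.1))) =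
          fun σ : T N => pr α σ := funext fun ⟨σ, hσ⟩ => by
        obtain ⟨i, rfl⟩ := (hT _ _).1 hσ
        simp only [mul_assoc, ← mul_sum, e3_mu, pr, NNReal.coe_mul]
      have a3 : ∀ ω, Step (fun ℓ : T N => {z | z ∈ ℓ.1.1}) (fun _ => True) (pres (T N) e3_lp ω) =
          Step (SS N) (fun _ => True) ω := fun ω => funext₂ fun a b => propext
        ⟨fun ⟨⟨ℓ, _⟩, _, h, h'⟩ => by
          obtain ⟨i, rfl, k⟩ := @of_decide_eq_true _ (_) h
          exact ⟨i, trivial, k, (e3_mem i).1 h'.1, (e3_mem i).1 h'.2⟩,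
        fun ⟨i, _, h, h1, h2⟩ => ⟨⟨e3_lp i, (hT _ _).2 ⟨i, rfl⟩⟩, trivial,
          @decide_eq_true _ (_) ⟨i, rfl, h⟩, (e3_mem i).2 h1, (e3_mem i).2 h2⟩⟩
      have a4 : ∀ M : Loop → ℕ, Step (fun ℓ : T N => {z | z ∈ ℓ.1.1}) (fun _ => True)
          (fun ℓ => decide (M ℓ ≠ 0)) = R N M := fun M => funext₂ fun a b => propext
        ⟨fun ⟨ℓ, _, h, h'⟩ => (hR _ _ _ _).2 ⟨ℓ.1, ℓ.2, of_decide_eq_true h, h'⟩, fun h =>
          let ⟨ℓ, h1, h2, h3⟩ := (hR _ _ _ _).1 h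
          ⟨⟨ℓ, h1⟩, trivial, decide_eq_true h2, h3⟩⟩
      rw [a2, ← soup_eq] at a1
      simp only [Cl, a3, a4] at a1
      refine a1.trans ?_
      congr 1
      ext M
      exact ⟨fun ⟨y, ⟨x, a, b⟩, c⟩ => ⟨x, a, y, c, b⟩, fun ⟨x, a, y, c, b⟩ => ⟨y, ⟨x, a, b⟩, c⟩⟩
  have e2 : {M | ∃ x ∈ X, ∃ y ∈ Y, ReflTransGen (Link M) x y} =
      ⋃ N, {M | ∃ x ∈ X, ∃ y ∈ Y, ReflTransGen (R N M) x y} := by
    ext M
    refine ⟨fun ⟨x, hx, y, hy, h⟩ => ?_, fun h => ?_⟩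
    · suffices ∃ N, ReflTransGen (R N M) x y from
        Set.mem_iUnion.2 (this.imp fun _ h => ⟨x, hx, y, hy, h⟩)
      clear hy
      induction h with
      | refl => exact ⟨0, .refl⟩
      | tail _ h3 ih =>
        obtain ⟨N, hN⟩ := ih
        obtain ⟨ℓ, h3⟩ := h3
        obtain ⟨l, hl⟩ := Quotient.exists_rep ℓ.1
        obtain ⟨z, s, h1, rfl⟩ := e3_surj (ℓ := ℓ) hl
        exact ⟨_, (m (le_max_left _ _) hN).tail ((hR _ _ _ _).2 ⟨ℓ, (hT _ _).2
          ⟨⟨_, e1_mono (le_max_right _ _) (e1_exh h1)⟩, Subtype.ext hl⟩, h3⟩)⟩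
    · obtain ⟨N, x, hx, y, hy, h⟩ := Set.mem_iUnion.1 h
      exact ⟨x, hx, y, hy, ReflTransGen.mono (fun a b h' =>
        let ⟨ℓ, _, h2⟩ := (hR _ _ _ _).1 h'; ⟨ℓ, h2⟩) _ _ h⟩
  simp only [e1]
  rw [PP, e2]
  exact (ENNReal.tendsto_toReal (measure_ne_top _ _)).comp (tendsto_measure_iUnion_atTop
    fun N N' h M ⟨x, hx, y, hy, h'⟩ => ⟨x, hx, y, hy, m h h'⟩)

end Pool.Agent.MP_3a8451_pr

end

-- part Lp/E4
section

/-! The arm event, and the final real analysis lemma. -/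

open Finset Filter Topology
open scoped ENNReal NNReal

namespace Pool.Agent.MP_3a8451_pr

lemma e4_ivt {f : ℕ → ℕ} (h : ∀ t, f (t + 1) ≤ f t + 1 ∧ f t ≤ f (t + 1) + 1) {n a b : ℕ}
    (ha : f a < n) (hb : n ≤ f b) : ∃ t, f t = n := by
  by_contra hn
  push Not at hn
  have k : ∀ t, f t < n ↔ f 0 < n := fun t => by
    induction t with
    | zero => rfl
    | succ t ih => have := h t; have := hn t; have := hn (t + 1); omega
  have := k a
  have := k b
  omega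

lemma arm_eq (α : ℝ≥0) {n : ℕ} (hn : 1 ≤ n) : arm α n = PP α {0} (Bx 0 (n - 1))ᶜ := by
  unfold arm PP
  congr 1
  ext N
  simp only [Set.mem_ofPred_eq, Set.mem_singleton_iff, exists_eq_left, Set.mem_compl_iff, mem_Bx0]
  refine ⟨fun ⟨y, h1, h2⟩ => ⟨y, by unfold nrm; omega, h2⟩, fun ⟨y, h1, h2⟩ => ?_⟩
  replace h1 : n ≤ nrm y := by omega
  induction h2 with
  | refl => rw [nrm_zero] at h1; omega
  | @tail b c hb hbc ih =>
    rcases le_or_gt n (nrm b) with h | h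
    · exact ih h
    obtain ⟨⟨ℓ, l2, l3⟩, k1, k2, k3⟩ := hbc
    induction ℓ using Quotient.inductionOn' with
    | h l =>
    obtain ⟨x, s, hs, rfl⟩ := verts_surj (l := l) l2 l3
    obtain ⟨t1, rfl⟩ := (mem_verts hs).1 k2
    obtain ⟨t2, rfl⟩ := (mem_verts hs).1 k3
    obtain ⟨t, ht⟩ := e4_ivt (f := fun t => nrm (pt x s t)) (fun t => by
      have h1 := nrm_pt_sub x s t 1
      have h2 := nrm_tri (pt x s (t + 1)) (pt x s t) 0
      have h3 := nrm_tri (pt x s t) (pt x s (t + 1)) 0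
      rw [nrm_comm (pt x s t) (pt x s (t + 1))] at h3
      simp only [sub_zero] at h2 h3
      omega) h h1
    exact ⟨pt x s t, ht, hb.tail ⟨_, k1, k2, (mem_verts hs).2 ⟨t, rfl⟩⟩⟩

lemma e4_log : Tendsto (fun n : ℕ => Real.log n) atTop atTop :=
  Real.tendsto_log_atTop.comp tendsto_natCast_atTop_atTop

lemma e4_idx {L r : ℕ} (hL : 2 ≤ L) (hr : 1 ≤ r) : ∃ I : ℕ → ℕ,
    (∀ᶠ n : ℕ in atTop, L ^ I n * r ≤ n - 1 ∧ n - 1 ≤ L ^ (I n + 1) * r ∧ 0 < Real.log n) ∧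
      Tendsto (fun n : ℕ => (I n : ℝ) / Real.log n) atTop (𝓝 (1 / Real.log L)) := by
  have L1 : (1 : ℝ) < L := by exact_mod_cast hL
  have r1 : (1 : ℝ) ≤ r := by exact_mod_cast hr
  have l0 := Real.log_pos L1
  have h : ∀ᶠ n : ℕ in atTop, L ^ Nat.log L ((n - 1) / r) * r ≤ n - 1 ∧
      n ≤ L ^ (Nat.log L ((n - 1) / r) + 1) * r ∧ 0 < Real.log n ∧ 1 ≤ n := by
    filter_upwards [eventually_ge_atTop (r + 1), e4_log.eventually_gt_atTop 0] with n hn h0
    have h1 : (n - 1) / r ≠ 0 := (Nat.div_pos (by omega) hr).ne'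
    have h2 := (Nat.div_lt_iff_lt_mul hr).1 (Nat.lt_pow_succ_log_self hL ((n - 1) / r))
    exact ⟨(Nat.mul_le_mul_right r (Nat.pow_log_le_self L h1)).trans (Nat.div_mul_le_self _ _),
      by rw [Nat.succ_eq_add_one] at h2; omega, h0, by omega⟩
  refine ⟨fun n => Nat.log L ((n - 1) / r), h.mono fun n hn => 
    ⟨hn.1, (Nat.sub_le _ _).trans hn.2.1, hn.2.2.1⟩, ?_⟩
  have t1 : Tendsto (fun n : ℕ => 1 / Real.log L - (1 + Real.log r / Real.log L) / Real.log n)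
      atTop (𝓝 (1 / Real.log L)) := by
    simpa only [one_div, sub_zero] using (e4_log.const_div_atTop (1 + Real.log r / Real.log L)).const_sub (1 / Real.log L)
  refine tendsto_of_tendsto_of_tendsto_of_le_of_le' t1 tendsto_const_nhds ?_ ?_
  · filter_upwards [h] with n ⟨_, h2, h3, h4⟩
    have : Real.log n ≤ Real.log ((L : ℝ) ^ (Nat.log L ((n - 1) / r) + 1) * r) :=
      Real.log_le_log (by exact_mod_cast h4) (by exact_mod_cast h2)
    rw [Real.log_mul (by positivity) (by positivity), Real.log_pow] at this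
    push_cast at this
    rw [sub_le_iff_le_add, ← add_div, div_le_div_iff₀ l0 h3]
    have e : Real.log r / Real.log L * Real.log L = Real.log r := by field_simp
    linarith only [this, e]
  · filter_upwards [h] with n ⟨h1, _, h3, _⟩
    have h5 : L ^ Nat.log L ((n - 1) / r) ≤ n :=
      (Nat.le_mul_of_pos_right _ hr).trans (h1.trans (Nat.sub_le _ _))
    have : Real.log ((L : ℝ) ^ Nat.log L ((n - 1) / r)) ≤ Real.log n :=
      Real.log_le_log (by positivity) (by exact_mod_cast h5)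
    rw [Real.log_pow] at this
    rw [div_le_div_iff₀ h3 l0]
    linarith only [this]

lemma up_lemma {p : ℕ → ℝ} (h0 : ∀ n, 0 < p n) (ha : Antitone p) {a : ℝ} {L r : ℕ} (hL : 2 ≤ L)
    (hr : 1 ≤ r) (h : ∀ i, p (L ^ i * r) ≤ a ^ i) {ε : ℝ} (hε : 0 < ε) :
    ∀ᶠ n : ℕ in atTop, Real.log (p (n - 1)) / Real.log n ≤ Real.log a / Real.log L + ε := by
  obtain ⟨I, h1, h2⟩ := e4_idx hL hr
  have h3 := (h2.mul_const (Real.log a)).eventually
    (eventually_le_nhds (lt_add_of_pos_right _ hε))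
  filter_upwards [h1, h3] with n ⟨k1, _, k3⟩ k4
  have := Real.log_le_log (h0 _) ((ha k1).trans (h _))
  rw [Real.log_pow] at this
  calc _ ≤ I n * Real.log a / Real.log n := by gcongr
    _ = I n / Real.log n * Real.log a := by ring
    _ ≤ _ := k4.trans_eq (by ring)

lemma low_lemma {p : ℕ → ℝ} (ha : Antitone p) {a b : ℝ} (ha0 : 0 < a) (hb : 0 < b) {L r : ℕ}
    (hL : 2 ≤ L) (hr : 1 ≤ r) (h : ∀ i, b * a ^ i ≤ p (L ^ i * r)) {ε : ℝ} (hε : 0 < ε) :
    ∀ᶠ n : ℕ in atTop, Real.log a / Real.log L - ε ≤ Real.log (p (n - 1)) / Real.log n := by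
  obtain ⟨I, h1, h2⟩ := e4_idx hL hr
  have h3 := ((h2.mul_const (Real.log a)).add
    (e4_log.const_div_atTop (Real.log a + Real.log b))).eventually
      (eventually_ge_nhds (sub_lt_self _ hε))
  filter_upwards [h1, h3] with n ⟨_, k2, k3⟩ k4
  have := Real.log_le_log (by positivity) ((h _).trans (ha k2))
  rw [Real.log_mul hb.ne' (by positivity), Real.log_pow] at this
  push_cast at this
  calc _ = 1 / Real.log L * Real.log a + 0 - ε := by ring
    _ ≤ _ := k4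
    _ = (Real.log b + (I n + 1) * Real.log a) / Real.log n := by ring
    _ ≤ _ := by gcongr

lemma e4_gap {A B x m j : ℝ} (hm : 0 < m) (hj : 1 ≤ j) (h1 : B - (2 * j + 2) * m ≤ x) :
    (A + x) / ((2 * j + 4) * m) - (B + x) / (2 * j * m) ≤ (|A| + 2 * |B| + 4 * m) / (2 * m) / j := by
  have e : (A + x) / ((2 * j + 4) * m) - (B + x) / (2 * j * m) =
      (2 * j / (2 * j + 4) * A - B + 4 / (2 * j + 4) * -x) / (2 * m) / j := by
    field_simp; ring
  have b1 : 2 * j / (2 * j + 4) ≤ 1 := by rw [div_le_one (by positivity)]; linarith only []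
  have b2 : 4 / (2 * j + 4) ≤ 1 := by rw [div_le_one (by positivity)]; linarith only [hj]
  have b3 : 2 * j / (2 * j + 4) * A ≤ |A| :=
    (mul_le_mul_of_nonneg_left (le_abs_self A) (by positivity)).trans
      (mul_le_of_le_one_left (abs_nonneg _) b1)
  have b4 : 4 / (2 * j + 4) * -x ≤ 4 / (2 * j + 4) * (|B| + (2 * j + 4) * m) := by
    gcongr
    have := neg_abs_le B
    linarith only [hm, h1, this]
  have b5 : 4 / (2 * j + 4) * ((2 * j + 4) * m) = 4 * m := by field_simp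
  have b6 := mul_le_of_le_one_left (abs_nonneg B) b2
  rw [mul_add, b5] at b4
  have := neg_abs_le B
  have := abs_nonneg B
  rw [e]
  exact div_le_div_of_nonneg_right (div_le_div_of_nonneg_right (by linarith) (by positivity))
    (by positivity)

lemma final {p : ℕ → ℝ} {q : ℕ → ℕ → ℝ} {M : ℕ} (hM : 16 ≤ M) {C c : ℝ} (hC : 0 < C) (hc : 0 < c)
    (h0 : ∀ n, 0 < p n) (h1 : ∀ n, p n ≤ 1) (ha : Antitone p) (_hq1 : ∀ r R, q r R ≤ 1)
    (hqa : ∀ r, Antitone (q r))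
    (hU : ∀ r R, 1 ≤ r → M * r ≤ R → p R ≤ C * p r * q (M * r) R)
    (hL : ∀ k t, k ≤ t →
      c * p (M ^ (2 * k + 1)) * q (M ^ (2 * k)) (M ^ (2 * t + 2)) ≤ p (M ^ (2 * t + 2)))
    (hQ : ∀ r R : ℕ, 1 ≤ r → M * r ≤ R → c * r / R ≤ q r R)
    (hS : ∀ Λ ≥ 1, ∀ δ > 0, ∃ n0, ∀ n ≥ n0, ∀ m ≥ n0, q n (16 * Λ * n) ≤ q m (Λ * m) + δ) :
    ∃ e, Tendsto (fun n : ℕ => Real.log (p (n - 1)) / Real.log n) atTop (𝓝 e) := by
  have M1 : 1 < M := by omega
  have M0 : (1 : ℝ) < M := by exact_mod_cast M1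
  have m0 := Real.log_pos M0
  have P2 : ∀ k, 1 ≤ k → M ≤ M ^ k := fun k hk => Nat.le_self_pow (by omega) M
  have P1 : ∀ k, 1 ≤ M ^ k := fun k => Nat.one_le_pow _ _ (by omega)
  refine cauchySeq_tendsto_of_complete (Metric.cauchySeq_iff.2 fun ε hε => ?_)
  obtain ⟨j, j1, j2⟩ := (((tendsto_natCast_atTop_atTop (R := ℝ)).const_div_atTop
    ((|Real.log (2 * C)| + 2 * |Real.log c| + 4 * Real.log M) / (2 * Real.log M))).eventually
      (eventually_lt_nhds (show 0 < ε / 3 by positivity))).and (eventually_ge_atTop 1) |>.exists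
  obtain ⟨Λ, hΛ⟩ : ∃ Λ, Λ = M ^ (2 * j + 2) := ⟨_, rfl⟩
  have Λ1 : M ≤ Λ := hΛ ▸ P2 _ (by omega)
  have Λ0 : (0 : ℝ) < Λ := by exact_mod_cast (show 0 < Λ by omega)
  obtain ⟨n0, hn0⟩ := hS Λ (by omega) (c / Λ) (by positivity)
  have lo : ∀ m, n0 + 1 ≤ m → c / Λ ≤ q m (Λ * m) := fun m hm => by
    have : (0 : ℝ) < m := by exact_mod_cast (show 0 < m by omega)
    refine le_trans (le_of_eq ?_) (hQ m (Λ * m) (by omega) (Nat.mul_le_mul_right _ Λ1))
    push_cast; field_simp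
  obtain ⟨Q, Q1, Q2⟩ := Real.exists_isGLB (s := {x | ∃ m, n0 + 1 ≤ m ∧ x = q m (Λ * m)})
    ⟨_, _, le_rfl, rfl⟩ ⟨c / Λ, fun _ ⟨m, hm, e⟩ => e ▸ lo m hm⟩
  have Q3 : c / Λ ≤ Q := Q2 fun _ ⟨m, hm, e⟩ => e ▸ lo m hm
  have Q0 : 0 < Q := lt_of_lt_of_le (by positivity) Q3
  have Q4 : ∀ n, n0 + 1 ≤ n → q n (16 * Λ * n) ≤ 2 * Q := fun n hn => by
    have : q n (16 * Λ * n) - c / Λ ≤ Q := Q2 fun _ ⟨m, hm, e⟩ => by
      rw [e]; linarith only [hn0 n (by omega) m (by omega)]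
    linarith only [Q3, this]
  have U : ∀ i, p ((M ^ (2 * j + 4)) ^ i * (n0 + 1)) ≤ (2 * C * Q) ^ i := fun i => by
    induction i with
    | zero => simpa using h1 _
    | succ i ih =>
      obtain ⟨r, hr⟩ : ∃ r, r = (M ^ (2 * j + 4)) ^ i * (n0 + 1) := ⟨_, rfl⟩
      have r1 : n0 + 1 ≤ r := hr ▸ Nat.le_mul_of_pos_left _ (by positivity)
      have e : (M ^ (2 * j + 4)) ^ (i + 1) * (n0 + 1) = M * Λ * (M * r) := by
        rw [hr, hΛ]; ring
      have k1 : M * r ≤ M * Λ * (M * r) :=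
        Nat.le_mul_of_pos_left _ (Nat.mul_pos (by omega) (by omega))
      have k2 : q (M * r) (M * Λ * (M * r)) ≤ 2 * Q :=
        (hqa _ (by gcongr)).trans (Q4 _ (r1.trans (Nat.le_mul_of_pos_left _ (by omega))))
      rw [e]
      rw [← hr] at ih
      have := h0 r
      calc _ ≤ _ := hU r _ (by omega) k1
        _ ≤ C * (2 * C * Q) ^ i * (2 * Q) :=
          (mul_le_mul_of_nonneg_left k2 (by positivity)).trans (by gcongr)
        _ = _ := by ring
  have W : ∀ i, p (M ^ (2 * n0 + 4)) * (c * Q) ^ i ≤ p ((M ^ (2 * j)) ^ i * M ^ (2 * n0 + 4)) :=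
    fun i => by
    induction i with
    | zero => simp
    | succ i ih =>
      obtain ⟨k, hk⟩ : ∃ k, k = n0 + 1 + j * i := ⟨_, rfl⟩
      have e1 : (M ^ (2 * j)) ^ i * M ^ (2 * n0 + 4) = M ^ (2 * k + 2) := by rw [hk]; ring
      have e2 : (M ^ (2 * j)) ^ (i + 1) * M ^ (2 * n0 + 4) = M ^ (2 * (k + j) + 2) := by
        rw [hk]; ring
      have e3 : M ^ (2 * (k + j) + 2) = Λ * M ^ (2 * k) := by rw [hΛ]; ring
      have k1 : n0 + 1 ≤ M ^ (2 * k) := le_trans (by omega) (Nat.lt_pow_self M1).le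
      have k2 : Q ≤ q (M ^ (2 * k)) (M ^ (2 * (k + j) + 2)) := Q1 ⟨_, k1, by rw [e3]⟩
      have k3 : p (M ^ (2 * k + 2)) ≤ p (M ^ (2 * k + 1)) :=
        ha (Nat.pow_le_pow_right (by omega) (by omega))
      rw [e1] at ih
      rw [e2]
      have := h0 (M ^ (2 * k + 1))
      calc _ = c * (p (M ^ (2 * n0 + 4)) * (c * Q) ^ i) * Q := by ring
        _ ≤ c * p (M ^ (2 * k + 1)) * Q := by gcongr; exact ih.trans k3
        _ ≤ c * p (M ^ (2 * k + 1)) * q (M ^ (2 * k)) (M ^ (2 * (k + j) + 2)) := by gcongr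
        _ ≤ _ := hL k (k + j) (by omega)
  have ε3 : 0 < ε / 3 := by positivity
  obtain ⟨N, hN⟩ := eventually_atTop.1
    ((up_lemma h0 ha (le_trans (by omega) (P2 _ (by omega))) (by omega) U ε3).and
      (low_lemma ha (mul_pos hc Q0) (h0 _) (le_trans (by omega) (P2 _ (by omega))) (P1 _) W ε3))
  have g1 : Real.log c - (2 * (j : ℝ) + 2) * Real.log M ≤ Real.log Q := by
    have := Real.log_le_log (by positivity) Q3
    rw [Real.log_div hc.ne' Λ0.ne', hΛ, Nat.cast_pow, Real.log_pow] at this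
    push_cast at this
    exact this
  have g2 := e4_gap (A := Real.log (2 * C)) m0 (by exact_mod_cast j2) g1
  simp only [Nat.cast_pow, Real.log_pow, Real.log_mul (show 2 * C ≠ 0 by positivity) Q0.ne',
    Real.log_mul hc.ne' Q0.ne'] at hN
  push_cast at hN
  refine ⟨N, fun m hm n hn => ?_⟩
  have := hN m hm
  have := hN n hn
  rw [Real.dist_eq, abs_lt]
  constructor <;> linarith

end Pool.Agent.MP_3a8451_pr

end

-- part Lp/E5
section

/-! Near misses of a cluster are unlikely. -/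

open Finset
open scoped ENNReal NNReal

namespace Pool.Agent.MP_3a8451_pr

lemma e5_scales {M Θ n1 lo hi R0 : ℕ} (hM : 16 ≤ M) (hlo : 1 ≤ lo) (h1 : 33 * M ^ n1 * lo ≤ hi)
    (h2 : R0 ≤ Θ * hi) : ∃ j n, n1 ≤ n ∧ lo ≤ M ^ j ∧ 33 * M ^ (j + n) ≤ M * hi ∧
      R0 + lo ≤ 33 * (Θ + 1) * M ^ (j + n) := by
  obtain ⟨j, a1, a2⟩ : ∃ j, lo ≤ M ^ j ∧ M ^ j ≤ M * lo := by
    refine ⟨Nat.log M lo + 1, (Nat.lt_pow_succ_log_self (by omega) lo).le, ?_⟩
    rw [pow_succ']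
    exact Nat.mul_le_mul_left M (Nat.pow_log_le_self M (by omega))
  have hj : 0 < 33 * M ^ j := by positivity
  have hX : M ^ n1 ≤ M * hi / (33 * M ^ j) := (Nat.le_div_iff_mul_le hj).2
    (calc M ^ n1 * (33 * M ^ j) ≤ M ^ n1 * (33 * (M * lo)) := by gcongr
      _ = M * (33 * M ^ n1 * lo) := by ring
      _ ≤ _ := Nat.mul_le_mul_left M h1)
  have hX0 : M * hi / (33 * M ^ j) ≠ 0 := (lt_of_lt_of_le (by positivity) hX).ne'
  refine ⟨j, Nat.log M (M * hi / (33 * M ^ j)), Nat.le_log_of_pow_le (by omega) hX, a1, ?_, ?_⟩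
  · refine le_trans (le_of_eq ?_) ((Nat.le_div_iff_mul_le hj).1 (Nat.pow_log_le_self M hX0))
    ring
  · have b1 := (Nat.div_lt_iff_lt_mul hj).1
      (Nat.lt_pow_succ_log_self (b := M) (by omega) (M * hi / (33 * M ^ j)))
    generalize Nat.log M (M * hi / (33 * M ^ j)) = n at b1 ⊢
    have b2 : hi ≤ 33 * M ^ (j + n) := Nat.le_of_mul_le_mul_left
      (b1.le.trans_eq (by rw [Nat.succ_eq_add_one]; ring)) (by omega : 0 < M)
    have b3 : lo ≤ hi := (Nat.le_mul_of_pos_left lo (by positivity)).trans h1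
    calc R0 + lo ≤ (Θ + 1) * hi := by rw [add_mul, one_mul]; exact add_le_add h2 b3
      _ ≤ (Θ + 1) * (33 * M ^ (j + n)) := Nat.mul_le_mul_left _ b2
      _ = _ := by ring

lemma e5_num {L ρ X : ℝ} (hL : 0 ≤ L) (h0 : 0 ≤ ρ) (h1 : ρ ≤ 1) (hX : 1 ≤ X) {s n : ℕ}
    (hs : 1 ≤ s) (hn : s ≤ n) (h : L ^ 2 * ρ ^ s ≤ 1 / 2) :
    L ^ (2 * (n / s)) * ρ ^ n + 2 * X ^ n / (2 * X ^ (2 * s)) ^ (n / s) ≤ 3 * (1 / 2) ^ (n / s) := by
  have a1 := Nat.mul_div_le n s
  have a2 := Nat.lt_mul_div_succ n (b := s) hs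
  have a3 : 1 ≤ n / s := (Nat.le_div_iff_mul_le hs).2 (by omega)
  generalize n / s = m at a1 a2 a3
  have b1 : L ^ (2 * m) * ρ ^ n ≤ (1 / 2) ^ m :=
    calc _ ≤ L ^ (2 * m) * ρ ^ (s * m) :=
          mul_le_mul_of_nonneg_left (pow_le_pow_of_le_one h0 h1 a1) (by positivity)
      _ = (L ^ 2 * ρ ^ s) ^ m := by rw [mul_pow, ← pow_mul, ← pow_mul]
      _ ≤ _ := pow_le_pow_left₀ (by positivity) h m
  have b2 : X ^ n ≤ X ^ (2 * s * m) := pow_le_pow_right₀ hX (by nlinarith only [a2, a3])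
  have b3 : 2 * X ^ n / (2 * X ^ (2 * s)) ^ m ≤ 2 * (1 / 2) ^ m := by
    rw [div_le_iff₀ (by positivity), mul_assoc, ← mul_pow, ← mul_assoc (1 / 2),
      show (1 / 2 * 2 : ℝ) = 1 by norm_num, one_mul, ← pow_mul]
    linarith only [b2]
  linarith only [b1, b3]

lemma AB : ∃ α0 : ℝ, 0 < α0 ∧ ∀ δ > 0, ∀ Θ : ℕ, ∃ Ξ lo0 : ℕ, ∀ α, 0 ≤ α → α ≤ α0 →
    ∀ (N : ℕ) (G : Ix N → Prop) (r0 R0 lo hi : ℕ), lo0 ≤ lo → Ξ * lo ≤ hi → hi ≤ r0 →
      R0 ≤ Θ * hi → EE (pp α N) (fun ω => ind (Near (SS N) G r0 R0 lo hi ω)) ≤ δ := by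
  obtain ⟨M1, c1, hM1, hc, hc', hHL⟩ := HL
  obtain ⟨A0, hbox⟩ := good_box
  obtain ⟨Ce, hCe, he⟩ := e2mass
  obtain ⟨M, hMe⟩ : ∃ M, M = 16 ^ M1 := ⟨_, rfl⟩
  have hM : 16 ≤ M := hMe ▸ Nat.le_self_pow (by omega) 16
  have hMM : M1 + 1 ≤ M := hMe ▸ Nat.lt_pow_self (by norm_num)
  have hMr : (1 : ℝ) ≤ M := by exact_mod_cast (by omega : 1 ≤ M)
  obtain ⟨X, hX⟩ : ∃ X, X = 2 * (M : ℝ) ^ 3 := ⟨_, rfl⟩
  have hX1 : 1 ≤ X := by rw [hX]; linarith only [one_le_pow₀ hMr (n := 3), hc, hc']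
  obtain ⟨s1, hs1⟩ := exists_pow_lt_of_lt_one (x := 1 / (2 * (4 * (M : ℝ) ^ 6) ^ 2))
    (y := Real.exp (-(c1 / 2))) (by positivity) (Real.exp_lt_one_iff.2 (by linarith only [hc]))
  obtain ⟨A, hA, r1, hrw⟩ := rw1 (B := 2 * X ^ (2 * (s1 + 1)))
    (by linarith only [one_le_pow₀ hX1 (n := 2 * (s1 + 1)), hc, hc']) (⌈A0⌉₊ + 1)
  have hA1 : (1 : ℝ) ≤ A := by exact_mod_cast (by omega : 1 ≤ A)
  have hA0 : A0 ≤ A := (Nat.le_ceil A0).trans (by exact_mod_cast (by omega))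
  obtain ⟨Cb, hCb, hbr⟩ := bracket hHL hM1 hc hc' hMM hA1
  obtain ⟨s, hs⟩ : ∃ s, s = (s1 + 1) * A := ⟨_, rfl⟩
  have hs0 : 1 ≤ s := hs ▸ Nat.mul_pos (by omega) (by omega)
  obtain ⟨t, ht⟩ : ∃ t, 1 + t = 2 * X ^ (2 * s) := ⟨_, add_sub_cancel _ _⟩
  have ht1 : 1 ≤ t := by linarith only [one_le_pow₀ hX1 (n := 2 * s), ht]
  have htη : t * (1 / (2 * X ^ (2 * (s1 + 1)))) ^ A ≤ 1 := by
    rw [one_div, inv_pow, ← div_eq_mul_inv, div_le_one (by positivity), mul_pow, ← pow_mul,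
      mul_assoc, ← hs]
    have : (2 : ℝ) ≤ 2 ^ A := le_self_pow₀ one_le_two (by omega)
    nlinarith only [ht, ht1, this]
  obtain ⟨κ, hκ⟩ : ∃ κ, κ = c1 / A := ⟨_, rfl⟩
  have κ0 : 0 < κ := hκ ▸ by positivity
  have κ1 : κ ≤ 1 / 2 := hκ ▸ (div_le_self hc.le hA1).trans hc'
  have hρ : (4 * (M : ℝ) ^ 6) ^ 2 * (1 - κ / 2) ^ s ≤ 1 / 2 := by
    have a1 : (1 - κ / 2) ^ s ≤ Real.exp (-(c1 / 2)) ^ s1 :=
      calc _ ≤ Real.exp (-(κ / 2)) ^ s := pow_le_pow_left₀ (by linarith only [κ1])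
            (by linarith only [Real.add_one_le_exp (-(κ / 2))]) s
        _ = Real.exp (-(c1 / 2)) ^ (s1 + 1) := by
            rw [hs, pow_mul', ← Real.exp_nat_mul, hκ]
            congr 2
            field_simp
        _ ≤ _ := pow_le_pow_of_le_one (Real.exp_pos _).le (Real.exp_le_one_iff.2 (by linarith only [hc]))
            (Nat.le_succ _)
    refine (mul_le_mul_of_nonneg_left (a1.trans hs1.le) (by positivity)).trans_eq ?_
    field_simp
  obtain ⟨η, η0, η1, η2⟩ : ∃ η : ℝ, 0 < η ∧ t * η ≤ 1 ∧ η * M ^ 3 ≤ 1 / 4 :=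
    ⟨min (1 / t) (1 / 4 / M ^ 3), lt_min (by positivity) (by positivity),
      (le_div_iff₀' (by positivity)).1 (min_le_left _ _),
      (le_div_iff₀ (by positivity)).1 (min_le_right _ _)⟩
  obtain ⟨α1, hα1, hθ⟩ := theta η0
  refine ⟨min α1 (min (κ / 8 / Cb) (1 / 2 / Ce)),
    lt_min hα1 (lt_min (by positivity) (by positivity)), fun δ hδ Θ => ?_⟩
  obtain ⟨m1, hm1⟩ := exists_pow_lt_of_lt_one (y := (1 / 2 : ℝ))
    (x := δ / (3 * (2 * (33 * (Θ + 1) : ℕ) + 1) ^ 3)) (by positivity) (by norm_num)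
  refine ⟨33 * M ^ (s * (m1 + 1)), r1 + 1, fun α h0 hα N G r0 R0 lo hi h1 h2 h3 h4 => ?_⟩
  obtain ⟨j, n, hn, k1, k2, k3⟩ := e5_scales hM (by omega) h2 h4
  have p0 := pp_nonneg h0 N
  have p1 := pp_le_one α N
  have hβ : α * Cb ≤ κ / 8 := (le_div_iff₀ hCb).1 (hα.trans ((min_le_right _ _).trans
    (min_le_left _ _)))
  have hαe : α * Ce ≤ 1 / 2 := (le_div_iff₀ hCe).1 (hα.trans ((min_le_right _ _).trans
    (min_le_right _ _)))
  have hS : ∀ j c, EE (pp α N) (fun ω => ind (Sev (SS N) c (M ^ j) ω)) ≤ η := fun j c => by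
    refine le_trans (EE_mono p0 p1 fun ω => ind_mono fun ⟨y, hy, hy'⟩ => ?_)
      (hθ α h0 (hα.trans (min_le_left _ _)) N (M1 * j + 1) c)
    rw [pow_succ', pow_mul, ← hMe, ← mul_assoc]
    exact ⟨y, Cl_mono subset_rfl (fun _ _ h => ⟨trivial, h⟩) hy, hy'⟩
  refine (AB0 p0 p1 hM (A := A) (by linarith only [hc, hc', ht1]) η1 (n / s) hS (z := (1 - κ / 2) ^ n)
    (fun K g' => ABq p0 p1 hM A K η0.le (mul_nonneg h0 hCb.le) (σ := 1 - κ) (by linarith only [hc, hc', κ1])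
      (by linarith only [κ0]) ?_ hS (fun j d g' => ?_) n j g') (fun g => ?_) G
    (fun c r a b d => (hbox c r r0 a b d).mono hA0 subset_rfl) k1 k2 h3 k3).trans ?_
  · have : α * Cb * (1 - κ / 2) / (1 - κ / 2 - (1 - κ)) ≤ 1 / 4 := by
      rw [div_le_iff₀ (by linarith only [κ0])]
      linarith only [mul_nonneg (mul_nonneg h0 hCb.le) κ0.le, hβ]
    linarith only [κ1, η2, this]
  · have := pp_sum_le h0 (b := Cb * (1 - κ) ^ d) (mul_nonneg hCb.le (pow_nonneg (by linarith only [hc, hc', κ1]) d)) N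
      (G := fun x s => ∑ g ∈ fib (M ^ (d + 1)) g', WW M A K j (d + 1) g ^ 2 *
        ind (Disjoint (tr x s) K ∧ Big (sc (M ^ j) g) (M ^ j) (tr x s) ∧
          ¬ tr x s ⊆ Bx (ctr M j d g) (16 * M ^ (j + d))))
      (fun _ _ => sum_nonneg fun _ _ => mul_nonneg (sq_nonneg _) (ind_nonneg _))
      (le_trans (le_of_eq ?_) (hκ ▸ hbr K j d g'))
    · simp only [mul_sum] at this ⊢
      rw [sum_comm, mul_assoc]
      simpa only [mul_left_comm (pp α N _), SS] using this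
    · simp only [← Mu_mul_left, ← Mu_sum]
      refine Mu_congr fun x s _ => ?_
      rw [ENNReal.ofReal_sum_of_nonneg fun _ _ => mul_nonneg (sq_nonneg _) (ind_nonneg _)]
      simp only [ENNReal.ofReal_mul (sq_nonneg _), ofReal_ind]
  · refine (pp_sum_le h0 (b := Ce * n) (by positivity) N (fun x s => sub_nonneg.2 ?_)
      (he M A t _ j n g hM (by linarith only [hc, hc', ht1]) (by positivity) htη fun l c => hrw _
        ((by omega : r1 ≤ M ^ j).trans (Nat.pow_le_pow_right (by omega) (by omega))) c)).trans ?_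
    · exact (prod_const_one.ge.trans (prod_le_prod (fun _ _ => zero_le_one) fun _ _ =>
        le_add_of_nonneg_right (mul_nonneg (by linarith only [hc, hc', ht1]) (ind_nonneg _))))
    · rw [← mul_assoc]
      exact (mul_le_mul_of_nonneg_right hαe (Nat.cast_nonneg n)).trans_eq (by ring)
  · rw [ht, ← hX]
    refine (mul_le_mul_of_nonneg_left ((e5_num (by positivity) (by linarith only [κ1]) (by linarith only [κ0]) hX1 hs0
      ((Nat.le_mul_of_pos_right s (by omega)).trans hn) hρ).trans (mul_le_mul_of_nonneg_left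
        ((pow_le_pow_of_le_one (by norm_num) (by norm_num) ((Nat.le_div_iff_mul_le hs0).2
          ((by linarith only [] : m1 * s ≤ s * (m1 + 1)).trans hn))).trans hm1.le) (by norm_num)))
      (by positivity)).trans_eq ?_
    field_simp

end Pool.Agent.MP_3a8451_pr

end

-- part Lp/E6
section

/-! Approximate scale invariance of the crossing probabilities. -/

open Finset Filter Topology
open scoped ENNReal NNReal

namespace Pool.Agent.MP_3a8451_pr

lemma e6_exp {x y : ℝ} (hx : 0 ≤ x) (hy : 0 ≤ y) :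
    |1 - Real.exp (-x) - (1 - Real.exp (-y))| ≤ |x - y| := by
  have key : ∀ x y : ℝ, 0 ≤ y → y ≤ x → |1 - Real.exp (-x) - (1 - Real.exp (-y))| ≤ |x - y| :=
    fun x y hy h => by
      have h1 : Real.exp (-x) ≤ Real.exp (-y) := Real.exp_le_exp.2 (by linarith)
      have h2 : Real.exp (-y) ≤ 1 := Real.exp_le_one_iff.2 (by linarith)
      have h3 := Real.add_one_le_exp (y - x)
      have h4 : Real.exp (-x) = Real.exp (-y) * Real.exp (y - x) := by
        rw [← Real.exp_add]; congr 1; ring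
      rw [abs_of_nonneg (by linarith), abs_of_nonneg (by linarith)]
      nlinarith only [Real.exp_pos (-y), h, h2, h3, h4]
  rcases le_total y x with h | h
  · exact key x y hy h
  · rw [abs_sub_comm, abs_sub_comm x]; exact key y x hx h

lemma type_cmp {k : ℕ} (hk : 1 ≤ k) (T0 T1 Γ : ℕ) {δ : ℝ} (hδ : 0 < δ) :
    ∃ H0 : ℕ, ∀ H ≥ H0, ∀ a ≥ k, ∀ a' ≥ k, Even a → Even a' → ∀ α, 0 ≤ α → α ≤ 1 →
      ∀ P : (TT k T0 T1 Γ H → Bool) → Prop, ∀ᶠ N in atTop,
        EE (pp α N) (fun ω => ind (P (pres _ (fun i : Ix N => typ k a i.1.1 i.1.2) ω))) ≤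
          EE (pp α N) (fun ω => ind (P (pres _ (fun i : Ix N => typ k a' i.1.1 i.1.2) ω))) + δ := by
  obtain ⟨C, hC, hT⟩ := typetotal hk T0 T1 Γ
  obtain ⟨η, hη⟩ : ∃ η, η = min 1 (δ / (7 * C)) := ⟨_, rfl⟩
  have η0 : 0 < η := hη ▸ lt_min one_pos (by positivity)
  have η1 : η ≤ 1 := hη ▸ min_le_left _ _
  have η2 : η * (7 * C) ≤ δ := (le_div_iff₀ (by positivity)).1 (hη ▸ min_le_right _ _)
  obtain ⟨H0, hH⟩ := typemass hk T0 T1 Γ η0
  refine ⟨max H0 1, fun H hH' a ha a' ha' e e' α h0 h1 P => ?_⟩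
  obtain ⟨m, hm⟩ : ∃ m : ℕ → _ → ℝ, ∀ a σ, m a σ = (Mu fun x s => ie (typ k a x s = σ)).toReal :=
    ⟨_, fun _ _ => rfl⟩
  have fin : ∀ a ≥ k, ∀ σ ∈ TT k T0 T1 Γ H, Mu (fun x s => ie (typ k a x s = σ)) ≠ ∞ :=
    fun a ha σ hσ => ne_top_of_le_ne_top ENNReal.ofReal_ne_top ((single_le_sum
      (f := fun σ => Mu fun x s => ie (typ k a x s = σ)) (fun _ _ => zero_le) hσ).trans
        (hT H (le_of_max_le_right hH') a (hk.trans ha)))
  have tot : ∀ a ≥ k, ∑ σ ∈ TT k T0 T1 Γ H, m a σ ≤ C := fun a ha => by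
    simp only [hm]
    rw [← ENNReal.toReal_sum (fin a ha)]
    exact ENNReal.toReal_le_of_le_ofReal hC.le (hT H (le_of_max_le_right hH') a (hk.trans ha))
  have lim : Tendsto (fun N => ∑ σ : TT k T0 T1 Γ H,
      |∑ i : Ix N, wl i.1.2 * ind (typ k a i.1.1 i.1.2 = σ.1) -
        ∑ i : Ix N, wl i.1.2 * ind (typ k a' i.1.1 i.1.2 = σ.1)|) atTop
      (𝓝 (∑ σ : TT k T0 T1 Γ H, |m a σ.1 - m a' σ.1|)) :=
    tendsto_finsetSum _ fun σ _ => by
      rw [hm, hm]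
      exact ((sum_tendsto (P := fun x s => typ k a x s = σ.1) (fin a ha _ σ.2)).sub
        (sum_tendsto (P := fun x s => typ k a' x s = σ.1) (fin a' ha' _ σ.2))).abs
  have lt : ∑ σ : TT k T0 T1 Γ H, |m a σ.1 - m a' σ.1| < δ := by
    rw [sum_coe_sort _ fun σ => |m a σ - m a' σ|]
    refine lt_of_le_of_lt (sum_le_sum (g := fun σ => 3 * η * (m a σ + m a' σ)) fun σ hσ => ?_) ?_
    · obtain ⟨W, -, hW⟩ := hH H (le_of_max_le_left hH') σ hσ
      obtain ⟨a1, a2⟩ := hW a ha e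
      obtain ⟨a3, a4⟩ := hW a' ha' e'
      rw [← hm] at a1 a2 a3 a4
      have b1 : 0 ≤ m a σ := hm a σ ▸ ENNReal.toReal_nonneg
      have b2 : 0 ≤ m a' σ := hm a' σ ▸ ENNReal.toReal_nonneg
      have c1 := a2.trans (mul_le_mul_of_nonneg_left a3 (by positivity))
      have c2 := a4.trans (mul_le_mul_of_nonneg_left a1 (by positivity))
      have d1 := mul_nonneg η0.le b1
      have d2 := mul_nonneg η0.le b2
      have d3 := mul_le_mul_of_nonneg_right η1 d1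
      have d4 := mul_le_mul_of_nonneg_right η1 d2
      exact abs_le.2 ⟨by linarith only [c2, d2, d3], by linarith only [c1, d1, d4]⟩
    · rw [← mul_sum, sum_add_distrib]
      have := mul_le_mul_of_nonneg_left (add_le_add (tot a ha) (tot a' ha')) η0.le
      have := mul_pos η0 hC
      linarith
  refine (lim.eventually (gt_mem_nhds lt)).mono fun N hN => ?_
  have nn : ∀ a (σ : TT k T0 T1 Γ H),
      0 ≤ ∑ i : Ix N, α * wl i.1.2 * ind (typ k a i.1.1 i.1.2 = σ.1) := fun a σ =>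
    sum_nonneg fun i _ => mul_nonneg (mul_nonneg h0 (wl_nonneg _)) (ind_nonneg _)
  have q0 : ∀ {x : ℝ}, 0 ≤ x → 0 ≤ 1 - Real.exp (-x) := fun h =>
    sub_nonneg.2 (Real.exp_le_one_iff.2 (neg_nonpos.2 h))
  have g := fun a => EE_group (TT k T0 T1 Γ H) (fun i : Ix N => typ k a i.1.1 i.1.2)
    (fun i => α * wl i.1.2) fun τ => ind (P τ)
  unfold pp
  rw [g, g]
  refine (EE_lip (fun σ => q0 (nn a σ)) (fun _ => sub_le_self _ (Real.exp_pos _).le)
    (fun σ => q0 (nn a' σ)) (fun _ => sub_le_self _ (Real.exp_pos _).le) P).trans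
    (add_le_add_right (le_trans (sum_le_sum fun σ _ => (e6_exp (nn a σ) (nn a' σ)).trans ?_)
      hN.le) _)
  simp only [mul_assoc, ← mul_sum, ← mul_sub, abs_mul]
  exact mul_le_of_le_one_left (abs_nonneg _) (by rwa [abs_of_nonneg h0])

lemma e6_mesh {H c n m : ℕ} (hH : 1 ≤ H) (hn : 4 * H * (c + 1) ≤ n) (hm : 4 * H * (c + 1) ≤ m) :
    ∃ a a', Even a ∧ Even a' ∧ c + 1 ≤ a ∧ c + 1 ≤ a' ∧ H * a ≤ n ∧ n ≤ 2 * H * a ∧
      2 * H * a' ≤ m ∧ m ≤ 6 * (H * a') := by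
  have u1 : c + 1 ≤ n / (2 * H) := (Nat.le_div_iff_mul_le (by omega)).2 (by linarith only [hn])
  have v1 : c + 1 ≤ m / (4 * H) := (Nat.le_div_iff_mul_le (by omega)).2 (by linarith only [hm])
  have u2 := Nat.div_mul_le_self n (2 * H)
  have u3 := Nat.lt_mul_div_succ n (b := 2 * H) (by omega)
  have v2 := Nat.div_mul_le_self m (4 * H)
  have v3 := Nat.lt_mul_div_succ m (b := 4 * H) (by omega)
  exact ⟨2 * (n / (2 * H)), 2 * (m / (4 * H)), even_two_mul _, even_two_mul _, by omega, by omega,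
    by linarith only [u2], by nlinarith only [hn, u3], by linarith only [v2], by nlinarith only [v1, v3]⟩

lemma e6_arith {Ξ E F h H Λ a m : ℕ} (hE : 1 ≤ E) (hF1 : 1 ≤ F) (hF : 3 * Ξ ≤ F) (hh : 1 ≤ h)
    (hΛ : 1 ≤ Λ) (hH : H = 5 * E * F * h) (v2 : 2 * H * a ≤ m) (v3 : m ≤ 6 * (H * a)) :
    Ξ * (3 * h * a) ≤ F * h * a ∧ F * h * a ≤ m ∧ Λ * m ≤ 30 * Λ * E * (F * h * a) ∧
      Λ * m + (h + 1) * a ≤ 8 * Λ * H * a ∧ 2 * (F * h * a) + a ≤ 3 * (F * h) * a := by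
  have e : H * a = 5 * E * (F * h * a) := by rw [hH]; ring
  have h1 : h ≤ H := hH ▸ Nat.le_mul_of_pos_left h (by positivity)
  have a1 := Nat.mul_le_mul_right (h * a) hF
  have a2 := Nat.mul_le_mul_right (F * h * a) hE
  have a3 := Nat.mul_le_mul_left Λ v3
  have a4 := Nat.mul_le_mul_left Λ (e ▸ v3)
  have a5 := Nat.mul_le_mul_right a h1
  have a6 := Nat.mul_le_mul_right (H * a) hΛ
  have a7 := Nat.mul_le_mul_right a (hh.trans h1)
  have a8 := Nat.mul_le_mul_right a (Nat.mul_pos hF1 hh)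
  exact ⟨by linarith only [a1], by linarith only [v2, e, a2], by linarith only [a4], by linarith only [a3, a5, a6, a7], by linarith only [a8]⟩

lemma cmp_scale : ∃ α0 : ℝ, 0 < α0 ∧ ∀ α, 0 ≤ α → α ≤ α0 → ∀ Λ ≥ 1, ∀ δ > 0, ∃ n0, ∀ n ≥ n0,
    ∀ m ≥ n0, ∀ᶠ N in atTop,
      PN α N (Bx 0 n) (Bx 0 (16 * Λ * n))ᶜ ≤ PN α N (Bx 0 m) (Bx 0 (Λ * m))ᶜ + δ := by
  obtain ⟨α0, hα0, hAB⟩ := AB
  refine ⟨min α0 1, lt_min hα0 one_pos, fun α h0 hα Λ hΛ δ hδ => ?_⟩
  have hα1 := hα.trans (min_le_right _ _)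
  obtain ⟨Ξ1, l1, hA1⟩ := hAB (δ / 4) (by positivity) (8 * Λ)
  obtain ⟨E, hE1, hE⟩ : ∃ E, 1 ≤ E ∧ Ξ1 ≤ E := ⟨_, le_max_right _ 1, le_max_left _ _⟩
  obtain ⟨Ξ2, l2, hA2⟩ := hAB (δ / 4) (by positivity) (30 * Λ * E)
  obtain ⟨F, hF1, hF⟩ : ∃ F, 1 ≤ F ∧ 3 * Ξ2 ≤ F := ⟨_, le_max_right _ 1, le_max_left _ _⟩
  have hP : 1 ≤ 5 * E * F := Nat.mul_pos (by omega) hF1
  obtain ⟨Γ, T0, T1, k, h0', hk, hbad⟩ := badmass hP (Λ := 16 * Λ) (by omega)
    (δ := δ / 4) (by positivity)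
  obtain ⟨H0, hT⟩ := type_cmp (k := k) (by omega) T0 T1 Γ (δ := δ / 4) (by positivity)
  obtain ⟨h, g1, g2, g3⟩ : ∃ h, 1 ≤ h ∧ h0' ≤ h ∧ H0 ≤ h := ⟨h0' + H0 + 1, by omega⟩
  obtain ⟨H, hH⟩ : ∃ H, H = 5 * E * F * h := ⟨_, rfl⟩
  have hH1 : h ≤ H := hH ▸ Nat.le_mul_of_pos_left h hP
  refine ⟨4 * H * (k + l1 + l2 + 1), fun n hn m hm => ?_⟩
  obtain ⟨a, a', ea, ea', u1, v1, u2, u3, v2, v3⟩ := e6_mesh (g1.trans hH1) hn hm
  have hFh : 1 ≤ F * h := Nat.mul_pos hF1 g1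
  have hhF : h ≤ F * h := Nat.le_mul_of_pos_left h hF1
  have eH : E * (5 * (F * h) * a) = H * a := by rw [hH]; ring
  obtain ⟨w1, w2, w3, w4, w5⟩ := e6_arith hE1 hF1 hF g1 hΛ hH v2 v3
  have e1 : 5 * (F * h) * a ≤ n := (Nat.le_mul_of_pos_left _ hE1).trans (eH.le.trans u2)
  refine (hT H (g3.trans hH1) a (by omega) a' (by omega) ea ea' α h0 hα1
    (Yev _ h (3 * (F * h)) (2 * H) (8 * Λ * H))).mono fun N hN => ?_
  have p0 := pp_nonneg h0 N
  have p1 := pp_le_one α N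
  have b1 := hA1 α h0 (hα.trans (min_le_left _ _)) N (fun i => ¬ Small (5 * (F * h) * a) (SS N i))
    n (8 * Λ * n) (5 * (F * h) * a) n ((by omega : l1 ≤ a).trans (Nat.le_mul_of_pos_left _
      (by omega))) ((Nat.mul_le_mul_right _ hE).trans (eH.le.trans u2)) le_rfl le_rfl
  have b2 := hA2 α h0 (hα.trans (min_le_left _ _)) N (fun _ => True) m (Λ * m) (3 * h * a')
    (F * h * a') ((by omega : l2 ≤ a').trans (Nat.le_mul_of_pos_left _ (by omega))) w1 w2 w3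
  have b3 := pp_sum_le h0 (b := δ / 4) (by positivity) N (fun _ _ => ind_nonneg _)
    ((Mu_congr fun _ _ _ => ofReal_ind _).trans_le (hbad h g2 a (by omega)))
  have b4 := (EE_exists_le p0 p1 _).trans b3
  have c1 := EE_mono p0 p1 fun ω => (ind_or_le (dir1 (TT k T0 T1 Γ H) (ω := ω) (by omega)
    (by omega) hΛ u2 u3 e1 (e' := 3 * (F * h)) (f := h) (by omega))).trans
      (add_le_add_right (ind_or_le id) _)
  have c2 := EE_mono p0 p1 fun ω => ind_or_le (dir2 (TT k T0 T1 Γ H) (ω := ω) (a := a') (Λ := Λ)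
    (by omega) v2 (e' := 3 * (F * h)) (f := h) (lo := 3 * h * a') (hi := F * h * a') w4
    (Nat.mul_le_mul_right _ (by omega)) w5)
  simp only [EE_add] at c1 c2
  have b5 := (EE_mono p0 p1 fun ω => ind_mono (P := ∃ i, ω i = true ∧
    ¬ Small (5 * (F * h) * a) (SS N i) ∧ Meets (SS N i) (Bx 0 (8 * Λ * n)) ∧
      ¬ (typ k a i.1.1 i.1.2 ∈ TT k T0 T1 Γ H ∧ Reg k (h * a) i.1.2))
    fun ⟨i, i1, i2, i3, i4⟩ => ⟨i, i1, fun h' => i2 fun x hx y hy => (h' x hx y hy).trans_le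
      (Nat.mul_le_mul_right _ (by omega)), i3.mono subset_rfl (Bx_mono
        ((Nat.mul_le_mul_left _ u3).trans_eq (by rw [hH]; ring))), hH ▸ i4⟩).trans b4
  have : α * (δ / 4) ≤ δ / 4 := mul_le_of_le_one_left (by positivity) hα1
  unfold PN Con
  linarith only [hN, b1, b2, c1, c2, b5, this]

end Pool.Agent.MP_3a8451_pr

end

-- part Lp/E7
section

/-! Quasi-multiplicativity in the finite model. -/

open Finset Filter Topology
open scoped ENNReal NNReal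

namespace Pool.Agent.MP_3a8451_pr

lemma e7_low {ι : Type*} {S : ι → Set V} [Fintype ι] [DecidableEq ι] {p : ι → ℝ}
    (h0 : ∀ i, 0 ≤ p i) (h1 : ∀ i, p i ≤ 1) {X B Y : Set V} (hX : X ⊆ B) (hd : Disjoint B Y)
    (hb : mS S p B Y ≤ 1) : mS S p X Y ≤ 2 * Con S p X Y :=
  ((EE_const p _).ge.trans (EE_mono h0 h1 fun _ => mS_mono h0 sub_Cl sub_Cl)).trans
    (low2 h0 h1 hX subset_rfl hd hb)

lemma e7_disj {r R : ℕ} (h : r ≤ R) : Disjoint (Bx 0 r) (Bx 0 R)ᶜ :=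
  disjoint_compl_right.mono_left (Bx_mono h)

lemma e7_anti {r R : ℕ} (h : r ≤ R) : (Bx 0 R)ᶜ ⊆ (Bx 0 r)ᶜ := Set.compl_subset_compl.2 (Bx_mono h)

lemma QM : ∃ (M : ℕ) (α0 : ℝ), 16 ≤ M ∧ 0 < α0 ∧ ∀ α, 0 < α → α ≤ α0 → ∃ C c : ℝ, 0 < C ∧ 0 < c ∧
    (∀ r R, 1 ≤ r → M * r ≤ R → ∀ᶠ N in atTop, PN α N {0} (Bx 0 R)ᶜ ≤
      C * PN α N {0} (Bx 0 r)ᶜ * PN α N (Bx 0 (M * r)) (Bx 0 R)ᶜ) ∧
    (∀ k t, k ≤ t → ∀ᶠ N in atTop, c * PN α N {0} (Bx 0 (M ^ (2 * k + 1)))ᶜ *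
      PN α N (Bx 0 (M ^ (2 * k))) (Bx 0 (M ^ (2 * t + 2)))ᶜ ≤
        PN α N {0} (Bx 0 (M ^ (2 * t + 2)))ᶜ) ∧
    (∀ r R : ℕ, 1 ≤ r → M * r ≤ R → ∀ᶠ N in atTop, c * r / R ≤ PN α N (Bx 0 r) (Bx 0 R)ᶜ) ∧
    ∀ R : ℕ, M ≤ R → ∀ᶠ N in atTop, c / R ≤ PN α N {0} (Bx 0 R)ᶜ := by
  obtain ⟨M0, hM0⟩ := PL
  obtain ⟨M, hMe⟩ : ∃ M, M = 16 ^ (M0 + 1) := ⟨_, rfl⟩
  have hM : 16 ≤ M := hMe ▸ Nat.le_self_pow (by omega) 16
  have hM1 : 1 ≤ M := by omega
  have hMr : (1 : ℝ) ≤ M := by exact_mod_cast hM1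
  obtain ⟨C, c, hC, hc, hc1, hP, hb, hq, hz⟩ := hM0 M
    (hMe ▸ ((Nat.le_succ _).trans (Nat.lt_pow_self (by norm_num)).le))
  obtain ⟨c', hc'⟩ : ∃ c', c' = c ^ 2 / (4 * (M : ℝ) ^ 3) := ⟨_, rfl⟩
  have c'0 : 0 < c' := by rw [hc']; positivity
  have c'1 : c' ≤ 1 := by
    rw [hc', div_le_one (by positivity)]
    nlinarith only [one_le_pow₀ hMr (n := 3), hc, hc1]
  obtain ⟨α1, hα1, hθ⟩ := theta (η := c' / 2) (by positivity)
  refine ⟨M, min (1 / C) α1, hM, lt_min (by positivity) hα1, fun α h0 hα => ?_⟩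
  have hαC : α * C ≤ 1 := (le_div_iff₀ (by positivity)).1 (hα.trans (min_le_left _ _))
  have hα' : α ≤ 1 := by nlinarith only [hC, hαC]
  have p0 := pp_nonneg h0.le
  have p1 := pp_le_one α
  have up : ∀ N (K O : Set V) R, K ⊆ Bx 0 R → mS (SS N) (pp α N) K O ≤ α * mm K O :=
    fun N K O R h => mS_le h0.le N h O
  have one : ∀ N r R, 1 ≤ r → M * r ≤ R → mS (SS N) (pp α N) (Bx 0 r) (Bx 0 R)ᶜ ≤ 1 :=
    fun N r R hr hR => (mS_mono (p0 N) subset_rfl (e7_anti hR)).trans ((up N _ _ r subset_rfl).trans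
      ((mul_le_mul_of_nonneg_left (hb r hr) h0.le).trans hαC))
  have le1 : ∀ r, r ≤ M * r := fun r => Nat.le_mul_of_pos_left r hM1
  obtain ⟨b, hbe⟩ : ∃ b, b = α * c / (4 * (M : ℝ) ^ 2) := ⟨_, rfl⟩
  have b0 : 0 < b := by rw [hbe]; positivity
  have b1 : b ≤ 1 := by
    rw [hbe, div_le_one (by positivity)]
    nlinarith only [one_le_pow₀ hMr (n := 2), hC, hc, hc1, hαC]
  refine ⟨3 + 4 * (16 * C / α), min (c / (4 * α) * (b * c') ^ 2 / 8) (α * c / 8), by positivity,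
    lt_min (by positivity) (by positivity), fun r R hr hR => ?_, fun k t hk => ?_,
    fun r R hr hR => ?_, fun R hR => ?_⟩
  · refine (mS_ev h0.le hα' R).mono fun N hN => QM_up (p0 N) (p1 N)
      (Set.singleton_subset_iff.2 (self_mem_Bx 0 r)) (Bx_mono (le1 r)) (e7_anti hR) (by positivity)
      (fun K O hK hO hO' => ?_) (one N r _ hr le_rfl)
    have a1 := hN K _ (hK.trans (Bx_mono ((le1 r).trans hR))) (e7_anti hR)
    have a2 := hN _ O (Bx_mono ((le1 r).trans hR)) hO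
    have a3 := (hP r K O hr hK (Set.subset_compl_iff_disjoint_right.1 hO')).1
    refine (up N K O r hK).trans ((mul_le_mul_of_nonneg_left a3 h0.le).trans ?_)
    calc α * (C * mm K (Bx 0 (M * r))ᶜ * mm (Bx 0 r) O)
        = 16 * C / α * (α / 4 * mm K (Bx 0 (M * r))ᶜ) * (α / 4 * mm (Bx 0 r) O) := by
          field_simp; ring
      _ ≤ _ := by
          have := mm_nonneg (Bx 0 r) O
          have := mS_nonneg (S := SS N) (p0 N) K (Bx 0 (M * r))ᶜ
          gcongr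
  · have pw : ∀ {i j}, i ≤ j → M ^ i ≤ M ^ j := fun h => Nat.pow_le_pow_right hM1 h
    have p1' : ∀ i, 1 ≤ M ^ i := fun i => Nat.one_le_pow _ _ hM1
    have hq' : ∀ i, c / (M : ℝ) ^ 3 ≤ mm (Bx 0 (M ^ (2 * i + 1))) (Bx 0 (M ^ (2 * i + 4)))ᶜ :=
      fun i => by
        refine le_trans (le_of_eq ?_) (hq _ _ (p1' _) (by rw [← pow_succ']; exact pw (by omega)))
        push_cast
        field_simp
        ring
    refine (mS_ev h0.le hα' (M ^ (2 * t + 2))).mono fun N hN => le_trans ?_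
      (QM_low (p0 N) (p1 N) (fun i => Bx 0 (M ^ i)) (fun _ _ h => Bx_mono (pw h))
      (Set.singleton_subset_iff.2 (self_mem_Bx 0 _)) hk (c := c / (4 * α)) (by positivity) c'0 c'1
      b0 b1 (θ := c' / 2) (by linarith only []) (fun i => ?_) (fun K O hK hO hO' => ?_)
      (one N _ _ (p1' _) (pow_succ' M _).ge) (fun i hi K hK => ?_) (fun i hi O hO hO' => ?_) ?_ ?_)
    · have := Con_nonneg (S := SS N) (p0 N) (p1 N)
      exact mul_le_mul_of_nonneg_right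
        (mul_le_mul_of_nonneg_right (min_le_left _ _) (this _ _)) (this _ _)
    · have := hθ α h0.le (hα.trans (min_le_right _ _)) N ((M0 + 1) * i) 0
      rw [pow_mul, ← hMe] at this
      exact (Con_mono (p0 N) (p1 N) subset_rfl (e7_anti (by
        rw [pow_succ']; exact Nat.mul_le_mul_right _ (by omega)))).trans this
    · have a3 := (hP _ K O (p1' _) hK (by
        rw [← pow_succ']; exact Set.subset_compl_iff_disjoint_right.1 hO')).2
      rw [← pow_succ'] at a3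
      refine le_trans ?_ ((mul_le_mul_of_nonneg_left a3 (by positivity)).trans
        (hN K O (hK.trans (Bx_mono (pw (by omega)))) hO))
      calc _ ≤ c / (4 * α) * (α * mm K (Bx 0 (M ^ (2 * k + 2)))ᶜ) *
            (α * mm (Bx 0 (M ^ (2 * k + 1))) O) := by
            have := mm_nonneg K (Bx 0 (M ^ (2 * k + 2)))ᶜ
            have := mS_nonneg (S := SS N) (p0 N) (Bx 0 (M ^ (2 * k + 1))) O
            gcongr
            exacts [up N _ _ _ hK, up N _ _ _ subset_rfl]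
        _ = _ := by field_simp
    · have a3 := (hP _ K (Bx 0 (M ^ (2 * i + 4)))ᶜ (p1' _) hK
        (e7_disj (by rw [← pow_succ']; exact pw (by omega))).symm).2
      rw [← pow_succ'] at a3
      refine le_trans ?_ ((mul_le_mul_of_nonneg_left a3 (by positivity)).trans
        (hN K _ (hK.trans (Bx_mono (pw (by omega)))) (e7_anti (pw (by omega)))))
      calc _ ≤ c' * (α * mm K (Bx 0 (M ^ (2 * i + 2)))ᶜ) :=
            mul_le_mul_of_nonneg_left (up N _ _ _ hK) c'0.le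
        _ = α / 4 * (c * mm K (Bx 0 (M ^ (2 * i + 2)))ᶜ * (c / (M : ℝ) ^ 3)) := by
            rw [hc']; field_simp
        _ ≤ _ := by
            have := mm_nonneg K (Bx 0 (M ^ (2 * i + 2)))ᶜ
            gcongr
            exact hq' i
    · have a3 := (hP (M ^ (2 * i + 3)) (Bx 0 (M ^ (2 * i + 1))) O (p1' _) (Bx_mono (pw (by omega)))
        (by rw [← pow_succ']; exact Set.subset_compl_iff_disjoint_right.1 hO')).2
      rw [← pow_succ'] at a3
      refine le_trans ?_ ((mul_le_mul_of_nonneg_left a3 (by positivity)).trans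
        (hN _ O (Bx_mono (pw (by omega))) hO))
      calc _ ≤ c' * (α * mm (Bx 0 (M ^ (2 * i + 3))) O) :=
            mul_le_mul_of_nonneg_left (up N _ _ _ subset_rfl) c'0.le
        _ = α / 4 * (c * (c / (M : ℝ) ^ 3) * mm (Bx 0 (M ^ (2 * i + 3))) O) := by
            rw [hc']; field_simp
        _ ≤ _ := by
            have := mm_nonneg (Bx 0 (M ^ (2 * i + 3))) O
            gcongr
            exact hq' i
    · refine le_trans ?_ (hN _ _ (Set.singleton_subset_iff.2 (self_mem_Bx 0 _))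
        (e7_anti (pw (by omega))))
      refine le_trans (le_of_eq ?_) (mul_le_mul_of_nonneg_left
        (hz (M ^ 2) (Nat.le_self_pow (by omega) M)) (by positivity))
      rw [hbe]; push_cast; field_simp
    · refine le_trans ?_ (hN _ _ (Bx_mono (pw (by omega))) subset_rfl)
      refine le_trans ?_ (mul_le_mul_of_nonneg_left (hq _ _ (p1' _) (pow_succ' M _).ge)
        (by positivity))
      calc b ≤ α * c / (4 * (M : ℝ)) := by
            rw [hbe]
            gcongr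
            exact le_self_pow₀ hMr (by omega)
        _ = _ := by push_cast; field_simp; ring
  · refine (mS_ev h0.le hα' R).mono fun N hN => ?_
    have a1 := e7_low (p0 N) (p1 N) subset_rfl (e7_disj ((le1 r).trans hR)) (one N r R hr hR)
    have a2 := (mul_le_mul_of_nonneg_left (hq r R hr hR) (by positivity)).trans
      (hN _ _ (Bx_mono ((le1 r).trans hR)) subset_rfl)
    calc _ ≤ α * c / 8 * r / R := by gcongr; exact min_le_right _ _
      _ = α / 4 * (c * r / R) / 2 := by ring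
      _ ≤ _ := by rw [PN]; linarith only [a1, a2]
  · refine (mS_ev h0.le hα' R).mono fun N hN => ?_
    have a1 := e7_low (p0 N) (p1 N) (Set.singleton_subset_iff.2 (self_mem_Bx 0 1))
      (e7_disj (hM1.trans hR)) (one N 1 R le_rfl (by omega))
    have a2 := (mul_le_mul_of_nonneg_left (hz R hR) (by positivity)).trans
      (hN _ _ (Set.singleton_subset_iff.2 (self_mem_Bx 0 _)) subset_rfl)
    calc _ ≤ α * c / 8 / R := by gcongr; exact min_le_right _ _
      _ = α / 4 * (c / R) / 2 := by ring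
      _ ≤ _ := by rw [PN]; linarith only [a1, a2]

end Pool.Agent.MP_3a8451_pr

end

-- part Lp/E8
section

/-! Existence of the one-arm exponent at small intensity. -/

open Finset Filter Topology
open scoped ENNReal NNReal

namespace Pool.Agent.MP_3a8451_pr

lemma PP_mono (α : ℝ≥0) (X : Set V) : Antitone fun R => PP α X (Bx 0 R)ᶜ := fun _ _ h =>
  le_of_tendsto_of_tendsto' (PN_tendsto α _ _) (PN_tendsto α _ _) fun N =>
    Con_mono (pp_nonneg α.2 N) (pp_le_one _ N) subset_rfl (Set.compl_subset_compl.2 (Bx_mono h))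

lemma PP_le_one (α : ℝ≥0) (X Y : Set V) : PP α X Y ≤ 1 :=
  le_of_tendsto' (PN_tendsto α X Y) fun N => Con_le_one (pp_nonneg α.2 N) (pp_le_one _ N) X Y

theorem exists_exponent : ∃ α0 : ℝ, 0 < α0 ∧ ∀ α : ℝ≥0, 0 < α → (α : ℝ) < α0 →
    ∃ c : ℝ, Tendsto (fun n : ℕ => Real.log (arm α n) / Real.log n) atTop (𝓝 c) := by
  obtain ⟨M, α1, hM, h1, hQ⟩ := QM
  obtain ⟨α2, h2, hS⟩ := cmp_scale
  refine ⟨min α1 α2, lt_min h1 h2, fun α h0 hα => ?_⟩
  obtain ⟨C, c, hC, hc, hU, hL, hq, hp⟩ := hQ α (by exact_mod_cast h0) (hα.le.trans (min_le_left _ _))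
  have T := PN_tendsto α
  obtain ⟨e, he⟩ := final (p := fun n => PP α {0} (Bx 0 n)ᶜ)
    (q := fun r R => PP α (Bx 0 r) (Bx 0 R)ᶜ) hM hC hc
    (fun n => lt_of_lt_of_le (div_pos hc (by exact_mod_cast (by omega : 0 < max M n)))
      ((ge_of_tendsto (T _ _) (hp _ (le_max_left M n))).trans (PP_mono α _ (le_max_right M n))))
    (fun _ => PP_le_one α _ _) (PP_mono α _) (fun _ _ => PP_le_one α _ _) (fun _ => PP_mono α _)
    (fun r R hr hR => le_of_tendsto_of_tendsto (T _ _) (((T _ _).const_mul C).mul (T _ _))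
      (hU r R hr hR))
    (fun k t hk => le_of_tendsto_of_tendsto (((T _ _).const_mul c).mul (T _ _)) (T _ _) (hL k t hk))
    (fun r R hr hR => ge_of_tendsto (T _ _) (hq r R hr hR))
    fun Λ hΛ δ hδ => (hS α α.2 (hα.le.trans (min_le_right _ _)) Λ hΛ δ hδ).imp fun n0 h n hn m hm =>
      le_of_tendsto_of_tendsto (T _ _) ((T _ _).add_const δ) (h n hn m hm)
  exact ⟨e, he.congr' ((eventually_ge_atTop 1).mono fun n hn => by simp only [arm_eq α hn])⟩

end Pool.Agent.MP_3a8451_pr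

end
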