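import Mathlib
import Pool.Agent.MP_3a8451_pr.Defs

-- part MP_3a8451_pr.Prob
section

/-! Finite independent Bernoulli families, with resampling outside a stopping set. -/

open Finset

namespace Pool.Agent.MP_3a8451_pr

open Classical in
/-- Indicator of a proposition. -/
noncomputable def ind (P : Prop) : ℝ := if P then 1 else 0

lemma ind_nonneg (P : Prop) : 0 ≤ ind P := by unfold ind; split_ifs <;> norm_num

lemma ind_le_one (P : Prop) : ind P ≤ 1 := by unfold ind; split_ifs <;> norm_num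

lemma ind_pos {P : Prop} (h : P) : ind P = 1 := by unfold ind; simp [h]

lemma ind_neg {P : Prop} (h : ¬ P) : ind P = 0 := by unfold ind; simp [h]

lemma ind_mono {P Q : Prop} (h : P → Q) : ind P ≤ ind Q := by
  by_cases hP : P
  · rw [ind_pos hP, ind_pos (h hP)]
  · rw [ind_neg hP]; exact ind_nonneg _

lemma ind_le {P : Prop} {a : ℝ} (h0 : 0 ≤ a) (h : P → 1 ≤ a) : ind P ≤ a := by
  by_cases hP : P
  · rw [ind_pos hP]; exact h hP
  · rw [ind_neg hP]; exact h0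

lemma ind_or_le {P Q R : Prop} (h : P → Q ∨ R) : ind P ≤ ind Q + ind R := by
  refine ind_le (add_nonneg (ind_nonneg _) (ind_nonneg _)) fun hP => ?_
  rcases h hP with h | h
  · rw [ind_pos h]; linarith [ind_nonneg R]
  · rw [ind_pos h]; linarith [ind_nonneg Q]

lemma ind_le_sum {τ : Type*} {P : Prop} {T : Finset τ} {f : τ → ℝ} (h0 : ∀ t ∈ T, 0 ≤ f t)
    (h : P → ∃ t ∈ T, 1 ≤ f t) : ind P ≤ ∑ t ∈ T, f t := by
  refine ind_le (sum_nonneg h0) fun hP => ?_
  obtain ⟨t, ht, h1⟩ := h hP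
  exact h1.trans (single_le_sum h0 ht)

variable {ι : Type*} [Fintype ι] [DecidableEq ι]

/-- Product Bernoulli weight. -/
noncomputable def wt (p : ι → ℝ) (ω : ι → Bool) : ℝ := ∏ i, if ω i then p i else 1 - p i

/-- Expectation under the product Bernoulli weight. -/
noncomputable def EE (p : ι → ℝ) (f : (ι → Bool) → ℝ) : ℝ := ∑ ω, wt p ω * f ω

open Classical in
/-- Glue two configurations along a set of indices. -/
noncomputable def pw (A : Set ι) (ω ω' : ι → Bool) : ι → Bool :=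
  fun i => if i ∈ A then ω i else ω' i

omit [Fintype ι] [DecidableEq ι] in
lemma pw_in {A : Set ι} {ω ω' : ι → Bool} {i : ι} (h : i ∈ A) : pw A ω ω' i = ω i := by
  simp [pw, h]

omit [Fintype ι] [DecidableEq ι] in
lemma pw_out {A : Set ι} {ω ω' : ι → Bool} {i : ι} (h : i ∉ A) : pw A ω ω' i = ω' i := by
  simp [pw, h]

lemma EE_prod (p : ι → ℝ) (h : ι → Bool → ℝ) :
    EE p (fun ω => ∏ j, h j (ω j)) = ∏ j, (p j * h j true + (1 - p j) * h j false) := by
  have e : ∀ j, p j * h j true + (1 - p j) * h j false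
      = ∑ b : Bool, (if b then p j else 1 - p j) * h j b := by
    intro j; simp
  simp only [e]
  rw [Finset.prod_univ_sum, Fintype.piFinset_univ]
  unfold EE wt
  exact sum_congr rfl fun ω _ => by rw [prod_mul_distrib]

lemma sum_wt (p : ι → ℝ) : ∑ ω, wt p ω = 1 := by
  have := EE_prod p (fun _ _ => 1)
  simpa [EE] using this

lemma EE_const (p : ι → ℝ) (a : ℝ) : EE p (fun _ => a) = a := by
  unfold EE; rw [← sum_mul, sum_wt, one_mul]

lemma EE_coord (p : ι → ℝ) (i : ι) : EE p (fun ω => ind (ω i = true)) = p i := by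
  have := EE_prod p (fun j b => if j = i then ind (b = true) else 1)
  simp only [prod_ite_eq', mem_univ, if_true] at this
  rw [this, prod_eq_single i]
  · simp [ind]
  · intro j _ hj; simp [hj]
  · simp

lemma EE_add (p : ι → ℝ) (f g : (ι → Bool) → ℝ) :
    EE p (fun ω => f ω + g ω) = EE p f + EE p g := by
  unfold EE; simp only [mul_add, sum_add_distrib]

lemma EE_mul_left (p : ι → ℝ) (a : ℝ) (f : (ι → Bool) → ℝ) :
    EE p (fun ω => a * f ω) = a * EE p f := by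
  unfold EE; rw [mul_sum]; exact sum_congr rfl fun ω _ => by ring

lemma EE_mul_right (p : ι → ℝ) (a : ℝ) (f : (ι → Bool) → ℝ) :
    EE p (fun ω => f ω * a) = EE p f * a := by
  unfold EE; rw [sum_mul]; exact sum_congr rfl fun ω _ => by ring

lemma EE_sum {τ : Type*} (p : ι → ℝ) (T : Finset τ) (f : τ → (ι → Bool) → ℝ) :
    EE p (fun ω => ∑ t ∈ T, f t ω) = ∑ t ∈ T, EE p (f t) := by
  unfold EE; simp only [mul_sum]; rw [sum_comm]

variable {p : ι → ℝ}

omit [DecidableEq ι] in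
lemma wt_nonneg (h0 : ∀ i, 0 ≤ p i) (h1 : ∀ i, p i ≤ 1) (ω : ι → Bool) : 0 ≤ wt p ω :=
  prod_nonneg fun i _ => by
    split_ifs
    · exact h0 i
    · linarith [h1 i]

lemma EE_mono (h0 : ∀ i, 0 ≤ p i) (h1 : ∀ i, p i ≤ 1) {f g : (ι → Bool) → ℝ}
    (h : ∀ ω, f ω ≤ g ω) : EE p f ≤ EE p g :=
  sum_le_sum fun ω _ => mul_le_mul_of_nonneg_left (h ω) (wt_nonneg h0 h1 ω)

lemma EE_nonneg (h0 : ∀ i, 0 ≤ p i) (h1 : ∀ i, p i ≤ 1) {f : (ι → Bool) → ℝ}
    (h : ∀ ω, 0 ≤ f ω) : 0 ≤ EE p f :=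
  sum_nonneg fun ω _ => mul_nonneg (wt_nonneg h0 h1 ω) (h ω)

/-- Resampling outside a stopping set does not change the law. -/
lemma resample (p : ι → ℝ) (A : (ι → Bool) → Set ι)
    (hA : ∀ ω ω', A (pw (A ω) ω ω') = A ω) (g : (ι → Bool) → ℝ) :
    EE p g = EE p (fun ω => EE p (fun ω' => g (pw (A ω) ω ω'))) := by
  let σ : (ι → Bool) × (ι → Bool) → (ι → Bool) × (ι → Bool) :=
    fun z => (pw (A z.1) z.1 z.2, pw (A z.1) z.2 z.1)
  have hσ : Function.Involutive σ := by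
    rintro ⟨ω, ω'⟩
    simp only [σ, hA]
    refine Prod.ext ?_ ?_ <;> funext i <;> by_cases h : i ∈ A ω <;> simp [pw, h]
  have hw : ∀ z, wt p (σ z).1 * wt p (σ z).2 = wt p z.1 * wt p z.2 := by
    rintro ⟨ω, ω'⟩
    simp only [σ, wt, ← prod_mul_distrib]
    refine prod_congr rfl fun i _ => ?_
    by_cases h : i ∈ A ω
    · simp only [pw_in h]
    · simp only [pw_out h]; exact mul_comm _ _
  have e1 := Equiv.sum_comp hσ.toPerm
    (fun z : (ι → Bool) × (ι → Bool) => wt p z.1 * wt p z.2 * g z.1)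
  simp only [Function.Involutive.coe_toPerm, hw] at e1
  rw [Fintype.sum_prod_type, Fintype.sum_prod_type] at e1
  unfold EE
  simp only [mul_sum, ← mul_assoc]
  rw [e1]
  refine sum_congr rfl fun ω _ => ?_
  dsimp only
  rw [← sum_mul, ← mul_sum, sum_wt, mul_one]

end Pool.Agent.MP_3a8451_pr

end

-- part MP_3a8451_pr.Cross
section

/-! Clusters of an independent family of sets and crossings of annuli. -/

open Finset Relation

namespace Pool.Agent.MP_3a8451_pr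

/-- Closed sup-norm box. -/
def Box (x : V) (r : ℤ) : Set V := {y | ∀ c, |y c - x c| ≤ r}

/-- Integer grid. -/
@[irreducible] noncomputable def grid (m : ℕ) : Finset V :=
  Fintype.piFinset fun _ => Icc (-(m : ℤ)) m

lemma card_grid (m : ℕ) : ((grid m).card : ℝ) = (2 * m + 1) ^ 3 := by
  have : (Icc (-(m : ℤ)) m).card = 2 * m + 1 := by rw [Int.card_Icc]; omega
  simp [grid, Fintype.card_piFinset, this]

lemma mem_grid {m : ℕ} {g : V} : g ∈ grid m ↔ ∀ c, |g c| ≤ m := by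
  simp [grid, Fintype.mem_piFinset, abs_le]

lemma Box_mono {x : V} {r r' : ℤ} (h : r ≤ r') : Box x r ⊆ Box x r' :=
  fun _ hy c => (hy c).trans h

lemma cover {x y : V} {L : ℤ} (hL : 0 < L) {m : ℕ} (hy : y ∈ Box x (m * L)) :
    ∃ g ∈ grid m, y ∈ Box (fun c => x c + L * g c) L := by
  refine ⟨fun c => (y c - x c) / L, mem_grid.2 fun c => ?_, fun c => ?_⟩
  all_goals
    have h1 := Int.emod_nonneg (y c - x c) hL.ne'
    have h2 := Int.emod_lt_of_pos (y c - x c) hL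
    have h3 := Int.mul_ediv_add_emod (y c - x c) L
    have h4 := abs_le.1 (hy c)
    refine abs_le.2 ⟨?_, ?_⟩
  · by_contra h
    nlinarith [mul_le_mul_of_nonneg_left (show (y c - x c) / L ≤ -m - 1 by omega) hL.le]
  · by_contra h
    nlinarith [mul_le_mul_of_nonneg_left (show m + 1 ≤ (y c - x c) / L by omega) hL.le]
  · dsimp only
    linarith
  · dsimp only
    linarith

variable {ι : Type*} (S : ι → Set V)

/-- One step through an allowed open set. -/
def Step (G : ι → Prop) (ω : ι → Bool) (a b : V) : Prop :=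
  ∃ i, G i ∧ ω i = true ∧ a ∈ S i ∧ b ∈ S i

/-- The cluster of a set. -/
def Cl (G : ι → Prop) (ω : ι → Bool) (X : Set V) : Set V :=
  {y | ∃ x ∈ X, ReflTransGen (Step S G ω) x y}

/-- Diameter less than `16 ^ k`. -/
def Sm (k : ℕ) (i : ι) : Prop := ∀ a ∈ S i, ∀ b ∈ S i, ∀ c, |a c - b c| < 16 ^ k

/-- The set with index `i` meets `K`. -/
def Hits (i : ι) (K : Set V) : Prop := ∃ a ∈ S i, a ∈ K

/-- Crossing of an annulus by small sets. -/
def Cr (k : ℕ) (x : V) (R : ℤ) (ω : ι → Bool) : Prop :=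
  ∃ y ∈ Cl S (Sm S k) ω (Box x R), y ∉ Box x (2 * R)

variable {S}

lemma sub_Cl {G : ι → Prop} {ω : ι → Bool} {X : Set V} : X ⊆ Cl S G ω X :=
  fun x hx => ⟨x, hx, ReflTransGen.refl⟩

lemma Cl_step {G : ι → Prop} {ω : ι → Bool} {X : Set V} {a b : V} (ha : a ∈ Cl S G ω X)
    (h : Step S G ω a b) : b ∈ Cl S G ω X :=
  let ⟨x, hx, h'⟩ := ha
  ⟨x, hx, h'.tail h⟩

lemma Cl_ind {G : ι → Prop} {ω : ι → Bool} {X : Set V} {P : V → Prop} (h0 : ∀ x ∈ X, P x)
    (hs : ∀ a b, P a → Step S G ω a b → P b) {y : V} (hy : y ∈ Cl S G ω X) : P y := by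
  obtain ⟨x, hx, h⟩ := hy
  induction h with
  | refl => exact h0 x hx
  | tail _ h ih => exact hs _ _ ih h

lemma Cl_mono {G G' : ι → Prop} {ω ω' : ι → Bool} {X X' : Set V} (hX : X ⊆ X')
    (h : ∀ i, G i → ω i = true → G' i ∧ ω' i = true) : Cl S G ω X ⊆ Cl S G' ω' X' :=
  fun _ hy => Cl_ind (P := fun y => y ∈ Cl S G' ω' X') (fun _ hx => sub_Cl (hX hx))
    (fun _ _ ha ⟨i, h1, h2, h3, h4⟩ => Cl_step ha ⟨i, (h i h1 h2).1, (h i h1 h2).2, h3, h4⟩) hy

lemma first_exit {G : ι → Prop} {ω : ι → Bool} {X B : Set V} {y : V} (hy : y ∈ Cl S G ω X)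
    (hB : y ∉ B) : ∃ y' ∈ Cl S (fun i => G i ∧ Hits S i B) ω X, y' ∉ B := by
  have := Cl_ind (P := fun y => y ∈ Cl S (fun i => G i ∧ Hits S i B) ω X ∨
    ∃ y' ∈ Cl S (fun i => G i ∧ Hits S i B) ω X, y' ∉ B) (fun _ hx => Or.inl (sub_Cl hx)) ?_ hy
  · exact this.elim (fun h => ⟨y, h, hB⟩) id
  rintro a b (ha | ha) ⟨i, h1, h2, h3, h4⟩
  · by_cases h : a ∈ B
    · exact Or.inl (Cl_step ha ⟨i, ⟨h1, a, h3, h⟩, h2, h3, h4⟩)
    · exact Or.inr ⟨a, ha, h⟩
  · exact Or.inr ha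

lemma mid_point {k : ℕ} {ω : ι → Bool} {x a y : V} {t : ℤ}
    (h : ReflTransGen (Step S (Sm S k) ω) a y) (hy : y ∉ Box x t) (ha : a ∈ Box x t) :
    ∃ z, z ∉ Box x t ∧ z ∈ Box x (t + 16 ^ k) ∧ ReflTransGen (Step S (Sm S k) ω) z y := by
  induction h using ReflTransGen.head_induction_on with
  | refl => exact absurd ha hy
  | @head a b h1 h2 ih =>
    by_cases hb : b ∈ Box x t
    · exact ih hb
    · obtain ⟨i, h3, -, h4, h5⟩ := h1
      refine ⟨b, hb, fun c => ?_, h2⟩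
      have e1 := abs_le.1 (ha c)
      have e2 := abs_lt.1 (h3 a h4 b h5 c)
      exact abs_le.2 ⟨by linarith, by linarith⟩

lemma cr_split {k : ℕ} {ω : ι → Bool} {x : V} {R : ℤ} (hR : 16 ^ k ≤ R)
    (h : Cr S k x (16 * R) ω) : ∃ g ∈ grid 25, ∃ g' ∈ grid 25,
      (∃ c, 5 * R < |x c + R * g c - (x c + R * g' c)|) ∧
      Cr S k (fun c => x c + R * g c) R ω ∧ Cr S k (fun c => x c + R * g' c) R ω := by
  have h0 : (0 : ℤ) < R := lt_of_lt_of_le (by positivity) hR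
  obtain ⟨y, ⟨a, ha, hay⟩, hy⟩ := h
  obtain ⟨z, z1, z2, z3⟩ := mid_point (x := x) (t := 24 * R) hay
    (fun h => hy (Box_mono (by linarith) h)) (Box_mono (by linarith) ha)
  obtain ⟨g, hg, hag⟩ := cover (m := 25) h0 (Box_mono (by push_cast; linarith) ha)
  obtain ⟨g', hg', hzg⟩ := cover (m := 25) h0 (Box_mono (by push_cast; linarith) z2)
  refine ⟨g, hg, g', hg', ?_, ⟨y, ⟨a, hag, hay⟩, fun h => hy fun c => ?_⟩,
    ⟨y, ⟨z, hzg, z3⟩, fun h => hy fun c => ?_⟩⟩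
  · obtain ⟨c, hc⟩ := not_forall.1 z1
    have e1 := abs_le.1 (ha c)
    have e2 := abs_le.1 (hag c)
    have e3 := abs_le.1 (hzg c)
    dsimp only at e2 e3
    refine ⟨c, ?_⟩
    rcases lt_abs.1 (not_le.1 hc) with e4 | e4
    · exact lt_abs.2 (Or.inr (by linarith))
    · exact lt_abs.2 (Or.inl (by linarith))
  · have e1 := abs_le.1 (ha c)
    have e2 := abs_le.1 (hag c)
    have e3 := abs_le.1 (h c)
    dsimp only at e2 e3
    exact abs_le.2 ⟨by linarith, by linarith⟩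
  · have e1 := abs_le.1 (z2 c)
    have e2 := abs_le.1 (hzg c)
    have e3 := abs_le.1 (h c)
    dsimp only at e2 e3
    exact abs_le.2 ⟨by linarith, by linarith⟩

lemma Cl_zero {ω : ι → Bool} {X : Set V} : Cl S (Sm S 0) ω X ⊆ X :=
  fun _ hy => Cl_ind (P := fun y => y ∈ X) (fun _ hx => hx) (fun a b ha ⟨_, h1, _, h3, h4⟩ => by
    have : a = b := funext fun c => by
      have := abs_lt.1 (h1 a h3 b h4 c)
      omega
    exact this ▸ ha) hy

variable [Fintype ι] [DecidableEq ι]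

variable (S) in
/-- Total weight of the large sets meeting `K`. -/
noncomputable def Phi (p : ι → ℝ) (j : ℕ) (K : Set V) : ℝ :=
  ∑ i, p i * ind (¬ Sm S j i ∧ Hits S i K)

variable {p : ι → ℝ} (h0 : ∀ i, 0 ≤ p i) (h1 : ∀ i, p i ≤ 1)

section
omit [DecidableEq ι]
include h0

lemma Phi_nonneg (j : ℕ) (K : Set V) : 0 ≤ Phi S p j K :=
  sum_nonneg fun i _ => mul_nonneg (h0 i) (ind_nonneg _)

lemma Phi_mono (j : ℕ) {K K' : Set V} (h : K ⊆ K') : Phi S p j K ≤ Phi S p j K' :=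
  sum_le_sum fun i _ => mul_le_mul_of_nonneg_left
    (ind_mono fun ⟨a, b, c, d⟩ => ⟨a, b, c, h d⟩) (h0 i)

lemma Phi_le (j : ℕ) (K : Set V) : Phi S p j K ≤ ∑ i, p i :=
  sum_le_sum fun i _ => mul_le_of_le_one_right (h0 i) (ind_le_one _)

lemma Phi_cover {τ : Type*} (j : ℕ) {K K0 : Set V} {T : Finset τ} {q : τ → Prop} {C : τ → Set V}
    (h : ∀ y ∈ K, y ∈ K0 ∨ ∃ t ∈ T, q t ∧ y ∈ C t) :
    Phi S p j K ≤ Phi S p j K0 + ∑ t ∈ T, ind (q t) * Phi S p j (C t) := by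
  unfold Phi
  simp only [mul_sum]
  rw [sum_comm, ← sum_add_distrib]
  refine sum_le_sum fun i _ => ?_
  simp only [mul_left_comm _ (p i), ← mul_sum, ← mul_add]
  refine mul_le_mul_of_nonneg_left ?_ (h0 i)
  have hs : ∀ t ∈ T, 0 ≤ ind (q t) * ind (¬ Sm S j i ∧ Hits S i (C t)) :=
    fun t _ => mul_nonneg (ind_nonneg _) (ind_nonneg _)
  refine ind_le (add_nonneg (ind_nonneg _) (sum_nonneg hs)) fun ⟨a, b, c, d⟩ => ?_
  rcases h b d with h | ⟨t, ht, h, h'⟩
  · rw [ind_pos ⟨a, b, c, h⟩]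
    linarith [sum_nonneg hs]
  · have := single_le_sum hs ht
    rw [ind_pos h, ind_pos ⟨a, b, c, h'⟩] at this
    linarith [ind_nonneg (¬ Sm S j i ∧ Hits S i K0)]

lemma Phi_sum {τ : Type*} (j : ℕ) {K : Set V} {T : Finset τ} {C : τ → Set V} {b : ℝ}
    (h : ∀ y ∈ K, ∃ t ∈ T, y ∈ C t) (hb : ∀ t ∈ T, Phi S p j (C t) ≤ b) :
    Phi S p j K ≤ T.card * b := by
  have := Phi_cover (S := S) h0 j (K := K) (K0 := ∅) (T := T) (q := fun _ => True) (C := C)
    fun y hy => Or.inr (by simpa using h y hy)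
  have e : Phi S p j ∅ = 0 := sum_eq_zero fun i _ => by
    rw [ind_neg fun ⟨_, _, _, d⟩ => d, mul_zero]
  rw [e, zero_add] at this
  refine this.trans ?_
  simp only [ind_pos trivial, one_mul]
  exact (sum_le_card_nsmul _ _ _ hb).trans_eq (nsmul_eq_mul _ _)

end

include h0 h1

lemma open_le (j : ℕ) (K : Set V) :
    EE p (fun ω => ind (∃ i, ω i = true ∧ ¬ Sm S j i ∧ Hits S i K)) ≤ Phi S p j K := by
  refine (EE_mono h0 h1 (g := fun ω => ∑ i, ind (ω i = true) * ind (¬ Sm S j i ∧ Hits S i K))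
    fun ω => ind_le_sum (fun _ _ => mul_nonneg (ind_nonneg _) (ind_nonneg _))
      fun ⟨i, a, b⟩ => ⟨i, mem_univ _, by rw [ind_pos a, ind_pos b, one_mul]⟩).trans_eq ?_
  rw [EE_sum]
  exact sum_congr rfl fun i _ => by rw [EE_mul_right, EE_coord]

lemma cr_indep {k : ℕ} {x x' : V} {R : ℤ} (hR : 16 ^ k ≤ R) (hf : ∃ c, 5 * R < |x c - x' c|) :
    EE p (fun ω => ind (Cr S k x R ω ∧ Cr S k x' R ω)) ≤
      EE p (fun ω => ind (Cr S k x R ω)) * EE p (fun ω => ind (Cr S k x' R ω)) := by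
  rw [resample p (fun _ => {i | Sm S k i ∧ Hits S i (Box x (2 * R))}) (fun _ _ => rfl),
    ← EE_mul_right]
  refine EE_mono h0 h1 fun ω => ?_
  rw [← EE_mul_left]
  refine EE_mono h0 h1 fun ω' => ?_
  refine ind_le (mul_nonneg (ind_nonneg _) (ind_nonneg _)) fun ⟨⟨y, a, b⟩, ⟨y', a', b'⟩⟩ => ?_
  obtain ⟨z, z1, z2⟩ := first_exit a b
  obtain ⟨z', z1', z2'⟩ := first_exit a' b'
  have c1 : Cr S k x R ω := ⟨z, Cl_mono subset_rfl (fun i hi ho =>
    ⟨hi.1, by rwa [pw_in (by exact hi)] at ho⟩) z1, z2⟩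
  have c2 : Cr S k x' R ω' := by
    refine ⟨z', Cl_mono subset_rfl (fun i hi ho => ⟨hi.1, ?_⟩) z1', z2'⟩
    rwa [pw_out] at ho
    rintro ⟨-, u, u1, u2⟩
    obtain ⟨hs, v, v1, v2⟩ := hi
    obtain ⟨c, hc⟩ := hf
    have e1 := abs_lt.1 (hs u u1 v v1 c)
    have e2 := abs_le.1 (u2 c)
    have e3 := abs_le.1 (v2 c)
    rcases lt_abs.1 hc with e | e <;> linarith
  rw [ind_pos c1, ind_pos c2, one_mul]

lemma cr_sq {k : ℕ} {R : ℤ} (hR : 16 ^ k ≤ R) {u : ℝ}
    (hu : ∀ x, EE p (fun ω => ind (Cr S k x R ω)) ≤ u) (x : V) :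
    EE p (fun ω => ind (Cr S k x (16 * R) ω)) ≤ 51 ^ 6 * u ^ 2 := by
  have hn := fun x => EE_nonneg h0 h1 (f := fun ω => ind (Cr S k x R ω)) fun _ => ind_nonneg _
  refine (EE_mono h0 h1 (g := fun ω => ∑ z ∈ grid 25 ×ˢ grid 25,
    ind ((∃ c, 5 * R < |x c + R * z.1 c - (x c + R * z.2 c)|) ∧
      Cr S k (fun c => x c + R * z.1 c) R ω ∧ Cr S k (fun c => x c + R * z.2 c) R ω))
    fun ω => ind_le_sum (fun _ _ => ind_nonneg _) fun h => ?_).trans ?_
  · obtain ⟨g, hg, g', hg', h⟩ := cr_split hR h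
    exact ⟨(g, g'), mem_product.2 ⟨hg, hg'⟩, (ind_pos h).ge⟩
  rw [EE_sum]
  refine (sum_le_card_nsmul _ _ (u ^ 2) fun z _ => ?_).trans_eq ?_
  · by_cases hf : ∃ c, 5 * R < |x c + R * z.1 c - (x c + R * z.2 c)|
    · simp only [hf, true_and]
      refine (cr_indep h0 h1 hR hf).trans ?_
      rw [sq]
      exact mul_le_mul (hu _) (hu _) (hn _) ((hn x).trans (hu x))
    · simp only [hf, false_and, EE_const, ind_neg not_false]
      positivity
  · rw [nsmul_eq_mul, card_product, Nat.cast_mul, card_grid]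
    norm_num

lemma cr_up (k : ℕ) (x : V) (R : ℤ) :
    EE p (fun ω => ind (Cr S (k + 1) x R ω)) ≤
      Phi S p k (Box x (2 * R)) + EE p (fun ω => ind (Cr S k x R ω)) := by
  refine le_trans ?_ (add_le_add_left (open_le h0 h1 k _) _)
  rw [← EE_add]
  refine EE_mono h0 h1 fun ω => ind_or_le fun ⟨y, a, b⟩ => ?_
  obtain ⟨z, z1, z2⟩ := first_exit a b
  refine or_iff_not_imp_left.2 fun h => ⟨z, Cl_mono subset_rfl (fun i hi ho => ⟨?_, ho⟩) z1, z2⟩
  by_contra hs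
  exact h ⟨i, ho, hs, hi.2⟩

end Pool.Agent.MP_3a8451_pr

end

-- part MP_3a8451_pr.Arm
section

/-! The multiscale exploration of the cluster of the origin. -/

open Finset Relation

namespace Pool.Agent.MP_3a8451_pr

variable {ι : Type*} {S : ι → Set V}

lemma decomp (k : ℕ) {G : ι → Prop} {ω : ι → Bool} {y : V} (hy : y ∈ Cl S G ω {0}) :
    y ∈ Cl S (Sm S k) ω {0} ∨ ∃ i, (ω i = true ∧ ¬ Sm S k i ∧ G i ∧ Hits S i (Cl S (Sm S k) ω {0}))
      ∧ y ∈ Cl S (fun j => G j ∧ ¬ Hits S j (Cl S (Sm S k) ω {0})) ω (S i) := by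
  refine Cl_ind (P := fun y => y ∈ Cl S (Sm S k) ω {0} ∨ ∃ i, (ω i = true ∧ ¬ Sm S k i ∧ G i ∧
    Hits S i (Cl S (Sm S k) ω {0})) ∧
      y ∈ Cl S (fun j => G j ∧ ¬ Hits S j (Cl S (Sm S k) ω {0})) ω (S i))
    (fun _ hx => Or.inl (sub_Cl hx)) ?_ hy
  rintro a b ha ⟨j, h1, h2, h3, h4⟩
  by_cases h : Hits S j (Cl S (Sm S k) ω {0})
  · by_cases hs : Sm S k j
    · obtain ⟨c, c1, c2⟩ := h
      exact Or.inl (Cl_step c2 ⟨j, hs, h2, c1, h4⟩)
    · exact Or.inr ⟨j, ⟨h2, hs, h1, h⟩, sub_Cl h4⟩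
  · rcases ha with ha | ⟨i, hi, ha⟩
    · exact absurd ⟨a, h3, ha⟩ h
    · exact Or.inr ⟨i, hi, Cl_step ha ⟨j, ⟨h1, h⟩, h2, h3, h4⟩⟩

lemma stop (G : ι → Prop) (X : Set V) (ω ω' : ι → Bool) :
    Cl S G (pw {i | G i ∧ Hits S i (Cl S G ω X)} ω ω') X = Cl S G ω X := by
  refine Set.Subset.antisymm (fun y hy => ?_) fun y hy => ?_
  · refine Cl_ind (P := fun y => y ∈ Cl S G ω X) (fun _ hx => sub_Cl hx) ?_ hy
    rintro a b ha ⟨j, h1, h2, h3, h4⟩
    rw [pw_in (by exact ⟨h1, a, h3, ha⟩)] at h2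
    exact Cl_step ha ⟨j, h1, h2, h3, h4⟩
  · refine (Cl_ind (P := fun y => y ∈ Cl S G ω X ∧
      y ∈ Cl S G (pw {i | G i ∧ Hits S i (Cl S G ω X)} ω ω') X)
      (fun _ hx => ⟨sub_Cl hx, sub_Cl hx⟩) ?_ hy).2
    rintro a b ⟨ha, ha'⟩ ⟨j, h1, h2, h3, h4⟩
    exact ⟨Cl_step ha ⟨j, h1, h2, h3, h4⟩,
      Cl_step ha' ⟨j, h1, by rwa [pw_in (by exact ⟨h1, a, h3, ha⟩)], h3, h4⟩⟩

lemma sm_sub {k : ℕ} {i : ι} (h : Sm S k i) {x : V} (hx : x ∈ S i) {R : ℤ} (hR : 16 ^ k ≤ R) :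
    S i ⊆ Box x R := fun a ha c => (h a ha x hx c).le.trans hR

variable [Fintype ι] [DecidableEq ι] {p : ι → ℝ} (h0 : ∀ i, 0 ≤ p i) (h1 : ∀ i, p i ≤ 1)

omit [DecidableEq ι] in
include h0 in
lemma box_of {A : ℝ} (hA0 : 0 ≤ A)
    (hA : ∀ j x (r : ℕ), 4 * r ≤ 16 ^ j → Phi S p j (Box x r) ≤ A * (r + 1) / 16 ^ j)
    (k j : ℕ) (x : V) (hk : k ≤ j) : Phi S p j (Box x (16 ^ k)) ≤ 2 ^ 16 * A * 16 ^ k / 16 ^ j := by
  have a : ∀ k j x, k < j → Phi S p j (Box x (16 ^ k)) ≤ 2 * A * 16 ^ k / 16 ^ j := by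
    intro k j x h
    have b := hA j x (16 ^ k) (le_trans (by rw [pow_succ]; omega)
      (Nat.pow_le_pow_right (by norm_num) (Nat.succ_le_of_lt h)))
    have c : (1 : ℝ) ≤ 16 ^ k := one_le_pow₀ (by norm_num)
    push_cast at b
    exact b.trans (div_le_div_of_nonneg_right (by nlinarith) (by positivity))
  have c : 0 ≤ A * 16 ^ k / 16 ^ j := by positivity
  rw [mul_assoc, mul_div_assoc]
  rcases hk.lt_or_eq with h | rfl
  · have b := a k j x h
    rw [mul_assoc, mul_div_assoc] at b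
    linarith
  rcases k with _ | k
  · have b := Phi_sum (S := S) h0 0 (K := Box x (16 ^ 0)) (T := grid 1)
      (C := fun g => Box (x + g) (0 : ℕ))
      (fun y hy => ⟨y - x, mem_grid.2 fun c => by simpa using hy c, fun c => by simp⟩)
      fun g _ => hA 0 _ 0 (by norm_num)
    rw [card_grid] at b
    norm_num at b ⊢
    linarith
  · have b := Phi_sum (S := S) h0 (k + 1) (K := Box x ((16 : ℕ) * 16 ^ k))
      (fun y hy => cover (by positivity) hy) fun g _ => a k (k + 1) _ k.lt_succ_self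
    rw [card_grid, show (2 : ℝ) * A * 16 ^ k / 16 ^ (k + 1) = A * 16 ^ (k + 1) / 16 ^ (k + 1) / 8 by
      field_simp; ring] at b
    rw [pow_succ' (16 : ℤ)]
    push_cast at b
    linarith

include h0 h1

lemma main_step (k : ℕ) (G : ι → Prop) {ψ : ι → Set V → ℝ} (hψ : ∀ i C, 0 ≤ ψ i C)
    (hm : ∀ i C C', C ⊆ C' → ψ i C ≤ ψ i C') {b : ℝ} (hb0 : 0 ≤ b)
    (hb : ∀ i, G i → (S i).Nonempty → EE p (fun ω => ψ i (Cl S G ω (S i))) ≤ b) :
    EE p (fun ω => ∑ i, ind (ω i = true ∧ ¬ Sm S k i ∧ G i ∧ Hits S i (Cl S (Sm S k) ω {0})) *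
      ψ i (Cl S (fun j => G j ∧ ¬ Hits S j (Cl S (Sm S k) ω {0})) ω (S i))) ≤
      b * EE p (fun ω => Phi S p k (Cl S (Sm S k) ω {0})) := by
  rw [resample p (fun ω => {i | Sm S k i ∧ Hits S i (Cl S (Sm S k) ω {0})})
    (fun ω ω' => by rw [stop]), ← EE_mul_left]
  refine EE_mono h0 h1 fun ω => ?_
  simp only [stop]
  rw [EE_sum, Phi, mul_sum]
  refine sum_le_sum fun i _ => ?_
  by_cases hi : ¬ Sm S k i ∧ G i ∧ Hits S i (Cl S (Sm S k) ω {0})
  swap
  · simp only [hi, and_false, ind_neg not_false, zero_mul, EE_const]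
    exact mul_nonneg hb0 (mul_nonneg (h0 i) (ind_nonneg _))
  rw [ind_pos ⟨hi.1, hi.2.2⟩, mul_one]
  refine (EE_mono h0 h1 (g := fun ω' => ind (ω' i = true) *
    ψ i (Cl S (fun j => G j ∧ j ≠ i) ω' (S i))) fun ω' => ?_).trans ?_
  · refine mul_le_mul (ind_mono fun h => ?_) (hm _ _ _ (Cl_mono subset_rfl fun j hj ho =>
      ⟨⟨hj.1, fun e => hj.2 (e ▸ hi.2.2)⟩, ?_⟩)) (hψ _ _) (ind_nonneg _)
    · rw [pw_out fun h => hi.1 h.1] at h
      exact h.1
    · rwa [pw_out fun h => hj.2 h.2] at ho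
  rw [resample p (fun _ => {i}) (fun _ _ => rfl), ← EE_coord p i, ← EE_mul_left]
  refine EE_mono h0 h1 fun ω₁ => ?_
  simp only [pw_in (Set.mem_singleton i)]
  rw [EE_mul_left, mul_comm]
  refine mul_le_mul_of_nonneg_right (le_trans (EE_mono h0 h1 fun ω₂ => hm _ _ _
    (Cl_mono subset_rfl fun j hj ho => ⟨hj.1, ?_⟩)) (hb i hi.2.1 ⟨_, hi.2.2.choose_spec.1⟩))
    (ind_nonneg _)
  rwa [pw_out (by exact hj.2)] at ho

variable {B : ℝ} (hB0 : 0 ≤ B) (hB : B ≤ 1 / (2 * 65 ^ 3 * (51 ^ 6 * 16 ^ 4)))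
  (H : ∀ k j x, k ≤ j → Phi S p j (Box x (16 ^ k)) ≤ B * 16 ^ k / 16 ^ j)

include H

omit [DecidableEq ι] h1 in
lemma box_le {k j : ℕ} (hk : k ≤ j) (m : ℕ) (x : V) :
    Phi S p j (Box x (m * 16 ^ k)) ≤ (2 * m + 1) ^ 3 * (B * 16 ^ k / 16 ^ j) := by
  rw [← card_grid]
  exact Phi_sum h0 j (fun y hy => cover (by positivity) hy) fun g _ => H k j _ hk

include hB

lemma cr_bound (k m : ℕ) (x : V) :
    EE p (fun ω => ind (Cr S k x (16 ^ (k + m)) ω)) ≤ 1 / 16 ^ (4 * m) := by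
  have iter : ∀ k, (∀ x, EE p (fun ω => ind (Cr S k x (16 ^ k) ω)) ≤ 1 / (51 ^ 6 * 16 ^ 4)) →
      ∀ m x, EE p (fun ω => ind (Cr S k x (16 ^ (k + m)) ω)) ≤
        1 / (51 ^ 6 * 16 ^ 4) / 16 ^ (4 * m) := by
    intro k hk m
    induction m with
    | zero => simpa using hk
    | succ m ih =>
      intro x
      rw [← add_assoc, pow_succ']
      refine (cr_sq h0 h1 (pow_le_pow_right₀ (by norm_num) (by omega)) ih x).trans ?_
      have : (1 : ℝ) ≤ 16 ^ (4 * m) := one_le_pow₀ (by norm_num)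
      rw [mul_add, pow_add]
      generalize (16 : ℝ) ^ (4 * m) = t at this
      rw [div_pow, mul_div_assoc', div_le_div_iff₀ (by positivity) (by positivity)]
      nlinarith
  have base : ∀ k x, EE p (fun ω => ind (Cr S k x (16 ^ k) ω)) ≤ 1 / (51 ^ 6 * 16 ^ 4) := by
    intro k
    induction k with
    | zero =>
      intro x
      refine (EE_mono h0 h1 (g := fun _ => 0) fun ω => (ind_neg fun ⟨y, a, b⟩ =>
        b (Box_mono (by norm_num) (Cl_zero a))).le).trans ?_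
      rw [EE_const]
      positivity
    | succ k ih =>
      intro x
      refine (cr_up h0 h1 k x _).trans ?_
      have a := iter k ih 1 x
      have b := box_le h0 H (le_refl k) 32 x
      rw [mul_div_assoc, div_self (by positivity)] at b
      rw [show (2 : ℤ) * 16 ^ (k + 1) = (32 : ℕ) * 16 ^ k by push_cast; ring]
      norm_num at a b hB ⊢
      linarith
  refine (iter k (base k) m x).trans (div_le_div_of_nonneg_right (by norm_num) (by positivity))

include hB0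

lemma clus_phi {k j : ℕ} (hk : k ≤ j) (x : V) :
    EE p (fun ω => Phi S p j (Cl S (Sm S k) ω (Box x (16 ^ k)))) ≤
      2 ^ 21 * (B * 16 ^ k / 16 ^ j) := by
  obtain ⟨b, hb⟩ : ∃ b, B * 16 ^ k / 16 ^ j = b := ⟨_, rfl⟩
  have b0 : 0 ≤ b := by rw [← hb]; positivity
  have a1 : ∀ M ω, ¬ Cr S k x (16 ^ (k + M)) ω →
      Phi S p j (Cl S (Sm S k) ω (Box x (16 ^ k))) ≤ 125 * 16 ^ (3 * M) * b := fun M ω h => by
    refine (Phi_mono h0 j (K' := Box x ((2 * 16 ^ M : ℕ) * 16 ^ k)) fun y hy => ?_).trans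
      ((box_le h0 H hk _ x).trans ?_)
    · by_contra hn
      refine h ⟨y, Cl_mono (Box_mono (pow_le_pow_right₀ (by norm_num) (by omega)))
        (fun _ a b => ⟨a, b⟩) hy, fun h' => hn (Box_mono (le_of_eq ?_) h')⟩
      push_cast
      ring
    · rw [hb, pow_mul', show (125 : ℝ) = 5 ^ 3 by norm_num, ← mul_pow]
      have : (1 : ℝ) ≤ 16 ^ M := one_le_pow₀ (by norm_num)
      push_cast
      gcongr
      linarith
  have t0 : ∀ m ω, 0 ≤ 125 * 16 ^ (3 * (m + 1)) * b * ind (Cr S k x (16 ^ (k + m)) ω) :=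
    fun m ω => mul_nonneg (by positivity) (ind_nonneg _)
  have a2 : ∀ ω M, ¬ Cr S k x (16 ^ (k + M)) ω → Phi S p j (Cl S (Sm S k) ω (Box x (16 ^ k))) ≤
      125 * b + ∑ m ∈ range M, 125 * 16 ^ (3 * (m + 1)) * b * ind (Cr S k x (16 ^ (k + m)) ω) := by
    intro ω M
    induction M with
    | zero => simpa using a1 0 ω
    | succ M ih =>
      intro h
      rw [sum_range_succ]
      by_cases h' : Cr S k x (16 ^ (k + M)) ω
      · rw [ind_pos h', mul_one]
        linarith [a1 _ ω h, sum_nonneg fun m (_ : m ∈ range M) => t0 m ω]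
      · linarith [ih h', t0 M ω]
  have W0 : 0 ≤ ∑ i, p i := sum_nonneg fun i _ => h0 i
  have a3 : ∀ M, EE p (fun ω => Phi S p j (Cl S (Sm S k) ω (Box x (16 ^ k)))) ≤
      2 ^ 21 * b + (∑ i, p i) * (1 / 16) ^ M := fun M => by
    refine (EE_mono h0 h1 (g := fun ω => 125 * b + ∑ m ∈ range M, 125 * 16 ^ (3 * (m + 1)) * b *
      ind (Cr S k x (16 ^ (k + m)) ω) + (∑ i, p i) * ind (Cr S k x (16 ^ (k + M)) ω))
      fun ω => ?_).trans ?_
    · by_cases h : Cr S k x (16 ^ (k + M)) ω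
      · rw [ind_pos h, mul_one]
        linarith [Phi_le (S := S) h0 j (Cl S (Sm S k) ω (Box x (16 ^ k))),
          sum_nonneg fun m (_ : m ∈ range M) => t0 m ω]
      · rw [ind_neg h, mul_zero, add_zero]
        exact a2 ω M h
    rw [EE_add, EE_add, EE_const, EE_sum, EE_mul_left]
    have c1 : ∑ m ∈ range M, EE p (fun ω => 125 * 16 ^ (3 * (m + 1)) * b *
        ind (Cr S k x (16 ^ (k + m)) ω)) ≤ ∑ m ∈ range M, 125 * 4096 * b * (1 / 2) ^ m := by
      refine sum_le_sum fun m _ => ?_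
      rw [EE_mul_left]
      refine (mul_le_mul_of_nonneg_left (cr_bound h0 h1 hB H k m x) (by positivity)).trans ?_
      have : (2 : ℝ) ^ m ≤ 16 ^ m := pow_le_pow_left₀ (by norm_num) (by norm_num) m
      rw [show (125 : ℝ) * 16 ^ (3 * (m + 1)) * b * (1 / 16 ^ (4 * m)) =
        125 * 4096 * b * (1 / 16 ^ m) by field_simp; ring, one_div_pow]
      gcongr
    rw [← mul_sum] at c1
    have c2 := mul_le_mul_of_nonneg_left (sum_geometric_two_le M) (show 0 ≤ 125 * 4096 * b by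
      positivity)
    have c3 : (1 : ℝ) / 16 ^ (4 * M) ≤ (1 / 16) ^ M := by
      rw [one_div_pow]
      exact one_div_le_one_div_of_le (by positivity) (pow_le_pow_right₀ (by norm_num) (by omega))
    have c4 := mul_le_mul_of_nonneg_left ((cr_bound h0 h1 hB H k M x).trans c3) W0
    linarith
  rw [hb]
  refine ge_of_tendsto' (x := Filter.atTop) ?_ a3
  simpa using ((tendsto_pow_atTop_nhds_zero_of_lt_one (r := (1 / 16 : ℝ)) (by norm_num)
    (by norm_num)).const_mul (∑ i, p i)).const_add (2 ^ 21 * b)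

lemma phi_K (k : ℕ) : ∀ j, k ≤ j → EE p (fun ω => Phi S p j (Cl S (Sm S k) ω {0})) ≤
    B * (1 + 2 ^ 25 * B) ^ k / 16 ^ j := by
  induction k with
  | zero =>
    intro j hj
    refine (EE_mono h0 h1 (g := fun _ => B * 16 ^ 0 / 16 ^ j) fun ω => (Phi_mono h0 j
      (Cl_zero.trans ?_)).trans (H 0 j 0 hj)).trans (by simp [EE_const])
    rintro _ rfl c
    simp
  | succ k ih =>
    intro j hj
    have a := main_step h0 h1 k (Sm S (k + 1)) (ψ := fun _ C => Phi S p j C)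
      (fun _ C => Phi_nonneg h0 j C) (fun _ _ _ h => Phi_mono h0 j h)
      (b := 2 ^ 21 * (B * 16 ^ (k + 1) / 16 ^ j)) (by positivity) fun i hi ⟨x, hx⟩ =>
        (EE_mono h0 h1 fun ω => Phi_mono h0 j (Cl_mono (sm_sub hi hx le_rfl)
          fun _ a b => ⟨a, b⟩)).trans (clus_phi h0 h1 hB0 hB H hj x)
    refine (EE_mono h0 h1 fun ω => Phi_cover h0 j (T := univ) fun y hy =>
      (decomp k hy).imp_right fun ⟨i, hi⟩ => ⟨i, mem_univ _, hi⟩).trans ?_
    rw [EE_add]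
    refine (add_le_add (ih j (by omega)) (a.trans (mul_le_mul_of_nonneg_left (ih k le_rfl)
      (by positivity)))).trans (le_of_eq ?_)
    field_simp
    ring

lemma rad_K (J k : ℕ) (hk : k ≤ J) :
    EE p (fun ω => ind (∃ y ∈ Cl S (Sm S k) ω {0}, y ∉ Box 0 (16 * 4 ^ (J + k)))) ≤
      256 * (B * (1 + 2 ^ 25 * B) ^ J) * 16 ^ k / 16 ^ (2 * J) := by
  induction k with
  | zero =>
    refine ((EE_mono h0 h1 (g := fun _ => 0) fun ω =>
      (ind_neg fun ⟨y, a, b⟩ => b ?_).le).trans (EE_const p 0).le).trans (by positivity)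
    rw [Cl_zero a]
    intro c
    simp
  | succ k ih =>
    have e : (16 : ℤ) ^ (k + 1 + (J - k) / 2) ≤ 16 * 4 ^ (J + k) := by
      rw [show (16 : ℤ) = 4 ^ 2 by norm_num, ← pow_mul, ← pow_add]
      exact pow_le_pow_right₀ (by norm_num) (by omega)
    have e' : (16 : ℤ) ^ (k + 1) ≤ 16 ^ (k + 1 + (J - k) / 2) :=
      pow_le_pow_right₀ (by norm_num) (by omega)
    have a := main_step h0 h1 k (Sm S (k + 1))
      (ψ := fun i C => ind (∃ a ∈ S i, ∃ y ∈ C, y ∉ Box a (48 * 4 ^ (J + k))))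
      (fun _ _ => ind_nonneg _) (fun _ _ _ h => ind_mono fun ⟨a, a1, y, y1, y2⟩ =>
        ⟨a, a1, y, h y1, y2⟩) (b := 1 / 16 ^ (4 * ((J - k) / 2))) (by positivity)
      fun i hi ⟨x, hx⟩ => (EE_mono h0 h1 fun ω => ind_mono fun ⟨a, a1, y, y1, y2⟩ =>
        ⟨y, Cl_mono (sm_sub hi hx e') (fun _ a b => ⟨a, b⟩) y1, fun h => y2 fun c => by
          have b1 := abs_le.1 (h c)
          have b2 := abs_le.1 (sm_sub hi hx e' a1 c)
          exact abs_le.2 ⟨by linarith, by linarith⟩⟩).trans (cr_bound h0 h1 hB H (k + 1) _ x)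
    refine le_trans (le_trans (EE_mono h0 h1 fun ω => ?_) (EE_add p _ _).le) ((add_le_add
      (ih (by omega)) (a.trans (mul_le_mul_of_nonneg_left (phi_K h0 h1 hB0 hB H k k le_rfl)
        (by positivity)))).trans ?_)
    · have s0 := fun i (_ : i ∈ univ) => mul_nonneg (ind_nonneg (ω i = true ∧ ¬ Sm S k i ∧
        Sm S (k + 1) i ∧ Hits S i (Cl S (Sm S k) ω {0}))) (ind_nonneg (∃ a ∈ S i, ∃ y ∈ Cl S
          (fun j => Sm S (k + 1) j ∧ ¬ Hits S j (Cl S (Sm S k) ω {0})) ω (S i),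
            y ∉ Box a (48 * 4 ^ (J + k))))
      by_cases h : ∃ y ∈ Cl S (Sm S k) ω {0}, y ∉ Box 0 (16 * 4 ^ (J + k))
      · rw [ind_pos h]
        exact (ind_le_one _).trans (le_add_of_nonneg_right (sum_nonneg s0))
      rw [ind_neg h, zero_add]
      refine ind_le_sum s0 fun ⟨y, y1, y2⟩ => ?_
      push Not at h
      have e4 : (16 : ℤ) * 4 ^ (J + (k + 1)) = 64 * 4 ^ (J + k) := by ring
      have e5 : (0 : ℤ) < 4 ^ (J + k) := by positivity
      rcases decomp k y1 with h2 | ⟨i, hi, h2⟩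
      · exact absurd (Box_mono (by linarith) (h y h2)) y2
      obtain ⟨a, a1, a2⟩ := hi.2.2.2
      have b0 : y ∉ Box a (48 * 4 ^ (J + k)) := fun h3 => y2 fun c => by
        have b1 := abs_le.1 (h3 c)
        have b2 := abs_le.1 (h a a2 c)
        exact abs_le.2 ⟨by linarith, by linarith⟩
      exact ⟨i, mem_univ _, (mul_one 1).ge.trans
        (mul_le_mul (ind_pos hi).ge (ind_pos ⟨a, a1, y, h2, b0⟩).ge zero_le_one (ind_nonneg _))⟩
    · have c1 : (1 + 2 ^ 25 * B) ^ k ≤ (1 + 2 ^ 25 * B) ^ J :=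
        pow_le_pow_right₀ (le_add_of_nonneg_right (by positivity)) (by omega)
      have c2 : (16 : ℝ) ^ (2 * J) ≤ 16 ^ 2 * (16 ^ (4 * ((J - k) / 2)) * 16 ^ k * 16 ^ k) := by
        rw [← pow_add, ← pow_add, ← pow_add]
        exact pow_le_pow_right₀ (by norm_num) (by omega)
      have c3 : 1 / 16 ^ (4 * ((J - k) / 2)) * (B * (1 + 2 ^ 25 * B) ^ k / 16 ^ k) ≤
          256 * (B * (1 + 2 ^ 25 * B) ^ J) * 16 ^ k / 16 ^ (2 * J) := by
        rw [div_mul_div_comm, one_mul, div_le_div_iff₀ (by positivity) (by positivity)]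
        refine (mul_le_mul (mul_le_mul_of_nonneg_left c1 hB0) c2 (by positivity)
          (by positivity)).trans (le_of_eq (by ring))
      have c4 : 0 ≤ 256 * (B * (1 + 2 ^ 25 * B) ^ J) * 16 ^ k / 16 ^ (2 * J) := by positivity
      rw [pow_succ (16 : ℝ) k, ← mul_assoc _ _ (16 : ℝ), mul_div_right_comm _ (16 : ℝ)]
      linarith

lemma arm_aux (J : ℕ) (t : ℤ) :
    EE p (fun ω => ind (∃ y ∈ Cl S (fun _ => True) ω {0}, y ∉ Box 0 t)) ≤
      EE p (fun ω => ind (∃ y ∈ Cl S (Sm S J) ω {0}, y ∉ Box 0 t)) +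
        B * (1 + 2 ^ 25 * B) ^ J / 16 ^ J := by
  have a := main_step h0 h1 (S := S) J (fun _ => True) (ψ := fun _ _ => 1) (fun _ _ => zero_le_one)
    (fun _ _ _ _ => le_rfl) zero_le_one fun _ _ _ => (EE_const p 1).le
  rw [one_mul] at a
  refine le_trans (le_trans (EE_mono h0 h1 fun ω => ?_) (EE_add p _ _).le)
    (add_le_add_right (a.trans (phi_K h0 h1 hB0 hB H J J le_rfl)) _)
  have s0 := fun i (_ : i ∈ univ) => mul_nonneg (ind_nonneg (ω i = true ∧ ¬ Sm S J i ∧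
    True ∧ Hits S i (Cl S (Sm S J) ω {0}))) zero_le_one
  by_cases h : ∃ y ∈ Cl S (Sm S J) ω {0}, y ∉ Box 0 t
  · rw [ind_pos h]
    exact (ind_le_one _).trans (le_add_of_nonneg_right (sum_nonneg s0))
  rw [ind_neg h, zero_add]
  refine ind_le_sum s0 fun ⟨y, y1, y2⟩ => ?_
  rcases decomp J y1 with h2 | ⟨i, hi, -⟩
  · exact absurd ⟨y, h2, y2⟩ h
  · exact ⟨i, mem_univ _, by rw [ind_pos hi, one_mul]⟩

lemma arm_le {n : ℕ} (hn : 1 ≤ n) :
    EE p (fun ω => ind (∃ y ∈ Cl S (fun _ => True) ω {0}, y ∉ Box 0 (n - 1))) ≤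
      2 ^ 17 * B * (n : ℝ) ^ (-1 + 2 ^ 25 * B) := by
  have n0 : (0 : ℝ) < n := Nat.cast_pos.2 hn
  have x0 : 0 ≤ 2 ^ 25 * B := by positivity
  rw [Real.rpow_add n0, Real.rpow_neg_one]
  by_cases h : n ≤ 16
  · have a := arm_aux h0 h1 hB0 hB H 0 (n - 1)
    have b : EE p (fun ω => ind (∃ y ∈ Cl S (Sm S 0) ω {0}, y ∉ Box 0 (n - 1))) ≤ 0 := by
      refine (EE_mono h0 h1 (g := fun _ => 0) fun ω =>
        (ind_neg fun ⟨y, a, b⟩ => b ?_).le).trans (EE_const p 0).le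
      rw [Cl_zero a]
      intro c
      simp [hn]
    have c : (1 : ℝ) ≤ (n : ℝ) ^ (2 ^ 25 * B) := Real.one_le_rpow (Nat.one_le_cast.2 hn) x0
    have d : (16 : ℝ)⁻¹ ≤ (n : ℝ)⁻¹ := inv_anti₀ n0 (by exact_mod_cast h)
    have e := mul_le_mul_of_nonneg_left (mul_le_mul d c zero_le_one (by positivity)) hB0
    simp only [pow_zero, mul_one, div_one] at a
    nlinarith
  obtain ⟨J, j1, j2⟩ : ∃ J, 16 ^ (J + 1) ≤ n - 1 ∧ n - 1 < 16 ^ (J + 2) := by
    have a := Nat.pow_log_le_self 16 (show n - 1 ≠ 0 by omega)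
    have b := Nat.lt_pow_succ_log_self (show 1 < 16 by norm_num) (n - 1)
    have c := Nat.log_pos (show 1 < 16 by norm_num) (show 16 ≤ n - 1 by omega)
    obtain ⟨J, hJ⟩ : ∃ J, Nat.log 16 (n - 1) = J + 1 := ⟨_, (Nat.succ_pred_eq_of_pos c).symm⟩
    rw [hJ] at a b
    exact ⟨J, a, b⟩
  have a := arm_aux h0 h1 hB0 hB H J (n - 1)
  have b := (EE_mono h0 h1 fun ω => ind_mono (P := ∃ y ∈ Cl S (Sm S J) ω {0}, y ∉ Box 0 (n - 1))
    fun ⟨y, y1, y2⟩ => ⟨y, y1, fun h => y2 (Box_mono (by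
      rw [← two_mul, pow_mul]
      zify [hn] at j1
      rw [pow_succ'] at j1
      exact j1) h)⟩).trans (rad_K h0 h1 hB0 hB H J J le_rfl)
  have c : (1 + 2 ^ 25 * B) ^ J ≤ (n : ℝ) ^ (2 ^ 25 * B) := by
    have c1 : 1 + 2 ^ 25 * B ≤ (16 : ℝ) ^ (2 ^ 25 * B) := by
      rw [add_comm]
      refine (Real.add_one_le_exp _).trans ?_
      rw [← Real.exp_one_rpow]
      exact Real.rpow_le_rpow (Real.exp_pos _).le (by linarith [Real.exp_one_lt_d9]) x0
    refine (pow_le_pow_left₀ (by positivity) c1 J).trans ?_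
    rw [← Real.rpow_natCast, ← Real.rpow_mul (by norm_num), mul_comm, Real.rpow_mul (by norm_num),
      Real.rpow_natCast]
    refine Real.rpow_le_rpow (by positivity) ?_ x0
    have : 16 ^ J ≤ n := by
      rw [pow_succ] at j1
      omega
    exact_mod_cast this
  have d : (1 : ℝ) / 16 ^ J ≤ 256 * (n : ℝ)⁻¹ := by
    have : n ≤ 256 * 16 ^ J := by
      rw [pow_add] at j2
      omega
    rw [← div_eq_mul_inv, div_le_div_iff₀ (by positivity) n0, one_mul]
    exact_mod_cast this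
  have e := mul_le_mul_of_nonneg_left (mul_le_mul d c (by positivity) (by positivity)) hB0
  have f : 256 * (B * (1 + 2 ^ 25 * B) ^ J) * 16 ^ J / 16 ^ (2 * J) +
      B * (1 + 2 ^ 25 * B) ^ J / 16 ^ J = 257 * (B * (1 / 16 ^ J * (1 + 2 ^ 25 * B) ^ J)) := by
    field_simp
    ring
  have g : 0 ≤ B * ((n : ℝ)⁻¹ * (n : ℝ) ^ (2 ^ 25 * B)) := by positivity
  nlinarith

end Pool.Agent.MP_3a8451_pr

end

-- part MP_3a8451_pr.Walk
section

/-! Simple random walk as an average over words. -/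

open Finset

namespace Pool.Agent.MP_3a8451_pr

/-- The six directions. -/
abbrev D := Fin 3 × Bool

/-- The unit vector of a direction. -/
def dir (d : D) : V := Pi.single d.1 (if d.2 then 1 else -1)

/-- The displacement along a word. -/
def pos (s : List D) : V := (s.map dir).sum

/-- The reversed word. -/
def rev (s : List D) : List D := (s.map fun d => (d.1, !d.2)).reverse

/-- The average over words of length `n`. -/
noncomputable def Ex : ℕ → (List D → ℝ) → ℝ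
  | 0, F => F []
  | n + 1, F => 1 / 6 * ∑ d, Ex n fun s => F (d :: s)

@[simp] lemma pos_nil : pos [] = 0 := rfl

@[simp] lemma pos_cons (d : D) (s : List D) : pos (d :: s) = dir d + pos s := by simp [pos]

@[simp] lemma pos_append (s t : List D) : pos (s ++ t) = pos s + pos t := by simp [pos]

lemma rev_append (s t : List D) : rev (s ++ t) = rev t ++ rev s := by simp [rev]

lemma rev_cons (d : D) (s : List D) : rev (d :: s) = rev s ++ [(d.1, !d.2)] := by simp [rev]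

@[simp] lemma length_rev (s : List D) : (rev s).length = s.length := by simp [rev]

@[simp] lemma pos_rev (s : List D) : pos (rev s) = -pos s := by
  induction s with
  | nil => simp [rev]
  | cons d s ih =>
    obtain ⟨c, b⟩ := d
    cases b <;> simp [rev_cons, ih, dir, Pi.single_neg]

lemma abs_pos_le (s : List D) (c : Fin 3) : |pos s c| ≤ s.length := by
  induction s with
  | nil => simp
  | cons d s ih =>
    have : |dir d c| ≤ 1 := by
      simp only [dir, Pi.single_apply]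
      split_ifs <;> simp
    rw [pos_cons, Pi.add_apply, List.length_cons]
    push_cast
    linarith [abs_add_le (dir d c) (pos s c)]

lemma Ex_mono {n : ℕ} {F G : List D → ℝ} (h : ∀ s, s.length = n → F s ≤ G s) :
    Ex n F ≤ Ex n G := by
  induction n generalizing F G with
  | zero => exact h _ rfl
  | succ n ih =>
    exact mul_le_mul_of_nonneg_left (sum_le_sum fun d _ => ih fun s hs => h _ (by simp [hs]))
      (by norm_num)

lemma Ex_const (n : ℕ) (a : ℝ) : Ex n (fun _ => a) = a := by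
  induction n with
  | zero => rfl
  | succ n ih =>
    simp only [Ex, ih, sum_const, card_univ, Fintype.card_prod, Fintype.card_fin, Fintype.card_bool,
      nsmul_eq_mul]
    push_cast
    ring

lemma Ex_nonneg {n : ℕ} {F : List D → ℝ} (h : ∀ s, 0 ≤ F s) : 0 ≤ Ex n F :=
  (Ex_const n 0).ge.trans (Ex_mono fun s _ => h s)

lemma Ex_add (n : ℕ) (F G : List D → ℝ) : Ex n (fun s => F s + G s) = Ex n F + Ex n G := by
  induction n generalizing F G with
  | zero => rfl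
  | succ n ih => simp only [Ex, ih, sum_add_distrib, mul_add]

lemma Ex_mul (n : ℕ) (a : ℝ) (F : List D → ℝ) : Ex n (fun s => a * F s) = a * Ex n F := by
  induction n generalizing F with
  | zero => rfl
  | succ n ih => simp only [Ex, ih, ← mul_sum, mul_left_comm a]

lemma Ex_sum {τ : Type*} (n : ℕ) (T : Finset τ) (F : τ → List D → ℝ) :
    Ex n (fun s => ∑ t ∈ T, F t s) = ∑ t ∈ T, Ex n (F t) := by
  induction n generalizing F with
  | zero => rfl
  | succ n ih =>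
    simp only [Ex, ih, ← mul_sum]
    rw [sum_comm]

lemma Ex_append (a b : ℕ) (F : List D → ℝ) :
    Ex (a + b) F = Ex a fun s => Ex b fun t => F (s ++ t) := by
  induction a generalizing F with
  | zero => simp [Ex]
  | succ a ih => simp only [Nat.succ_add, Ex, ih, List.cons_append]

lemma Ex_comm (a b : ℕ) (F : List D → List D → ℝ) :
    (Ex a fun s => Ex b fun t => F s t) = Ex b fun t => Ex a fun s => F s t := by
  induction a generalizing F with
  | zero => rfl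
  | succ a ih => simp only [Ex, ih, Ex_mul, Ex_sum]

lemma Ex_rev (n : ℕ) (F : List D → ℝ) : Ex n (fun s => F (rev s)) = Ex n F := by
  induction n generalizing F with
  | zero => rfl
  | succ n ih =>
    rw [Ex_append n 1 F]
    simp only [Ex, rev_cons, Ex_mul, Ex_sum]
    congr 1
    exact Fintype.sum_equiv (Function.Involutive.toPerm (fun d : D => (d.1, !d.2))
      fun d => by simp) _ _ fun d => ih fun s => F (s ++ [(d.1, !d.2)])

/-- The walk from `x` visits `B`. -/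
def Hit (B : Set V) (x : V) (s : List D) : Prop := ∃ s₁ s₂, s = s₁ ++ s₂ ∧ x + pos s₁ ∈ B

/-- The walk from `x` visits `Q` and then `B`. -/
def HT (Q B : Set V) (x : V) (s : List D) : Prop :=
  ∃ s₁ s₂ s₃, s = s₁ ++ s₂ ++ s₃ ∧ x + pos s₁ ∈ Q ∧ x + pos s₁ + pos s₂ ∈ B

variable {Q B : Set V} {x : V} {s t : List D}

lemma Hit.left (h : Hit B x s) (t : List D) : Hit B x (s ++ t) :=
  let ⟨a, b, e, h⟩ := h
  ⟨a, b ++ t, by simp [e], h⟩

lemma Hit.right (h : Hit B (x + pos s) t) : Hit B x (s ++ t) :=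
  let ⟨a, b, e, h⟩ := h
  ⟨s ++ a, b, by simp [e], by simpa [add_assoc] using h⟩

lemma Hit.split (h : Hit B x (s ++ t)) : Hit B x s ∨ Hit B (x + pos s) t := by
  obtain ⟨a, b, e, h⟩ := h
  rcases List.append_eq_append_iff.1 e with ⟨c, rfl, rfl⟩ | ⟨c, rfl, rfl⟩
  · exact Or.inr ⟨c, b, rfl, by simpa [add_assoc] using h⟩
  · exact Or.inl ⟨a, c, rfl, h⟩

lemma Hit.both (h : Hit Q x s) (h' : Hit B x s) : HT Q B x s ∨ HT Q B (x + pos s) (rev s) := by
  obtain ⟨a, b, rfl, h⟩ := h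
  obtain ⟨a', b', e, h'⟩ := h'
  rcases List.append_eq_append_iff.1 e with ⟨c, rfl, rfl⟩ | ⟨c, rfl, rfl⟩
  · exact Or.inl ⟨a, c, b', by simp, h, by simpa [add_assoc] using h'⟩
  · exact Or.inr ⟨rev b, rev c, rev a', by simp [rev_append], by simpa [add_assoc] using h,
      by simpa [add_assoc] using h'⟩

lemma HT.hit (h : HT Q B x s) : Hit B x s :=
  let ⟨a, b, c, e, _, h⟩ := h
  ⟨a ++ b, c, e, by simpa [add_assoc] using h⟩

lemma super {E : V → List D → Prop} {g : ℕ → V → ℝ} (g0 : ∀ x, 0 ≤ g 0 x)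
    (gs : ∀ n x, 1 / 6 * ∑ d, g n (x + dir d) ≤ g (n + 1) x)
    (h1 : ∀ n, ∀ x ∈ Q, Ex n (fun s => ind (E x s)) ≤ g n x)
    (h2 : ∀ x ∉ Q, ¬ E x [] ∧ ∀ d s, E x (d :: s) → E (x + dir d) s) (n : ℕ) (x : V) :
    Ex n (fun s => ind (E x s)) ≤ g n x := by
  induction n generalizing x with
  | zero =>
    by_cases h : x ∈ Q
    · exact h1 0 x h
    · exact (ind_neg (h2 x h).1).le.trans (g0 x)
  | succ n ih =>
    by_cases h : x ∈ Q
    · exact h1 _ x h
    · exact (mul_le_mul_of_nonneg_left (sum_le_sum fun d _ => (Ex_mono fun s _ =>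
        ind_mono ((h2 x h).2 d s)).trans (ih _)) (by norm_num)).trans (gs n x)

lemma far_le {y : V} {t : ℝ} (ht : 0 < t) (hB : ∀ z ∈ B, ∃ c, t ≤ |(z c : ℝ) - y c|) (n : ℕ) :
    Ex n (fun s => ind (Hit B y s)) ≤ 4 * n ^ 2 / t ^ 4 := by
  refine (super (Q := B) (E := Hit B)
    (g := fun n z => (∑ c, ((z c : ℝ) - y c) ^ 2 + 2 * n) ^ 2 / t ^ 4) (fun _ => by positivity)
    (fun n z => ?_) (fun n z hz => ((Ex_mono fun s _ => ind_le_one _).trans_eq
      (Ex_const n 1)).trans ?_) (fun z hz => ⟨?_, ?_⟩) n y).trans_eq (by simp; ring)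
  · rw [← sum_div, ← mul_div_assoc]
    refine div_le_div_of_nonneg_right ?_ (by positivity)
    simp only [Fintype.sum_prod_type, Fin.sum_univ_three, Fintype.sum_bool, dir, Pi.add_apply]
    simp
    have := Nat.cast_nonneg (α := ℝ) n
    linarith [sq_nonneg ((z 0 : ℝ) - y 0), sq_nonneg ((z 1 : ℝ) - y 1),
      sq_nonneg ((z 2 : ℝ) - y 2)]
  · obtain ⟨c, hc⟩ := hB z hz
    have a := single_le_sum (f := fun c => ((z c : ℝ) - y c) ^ 2) (fun _ _ => sq_nonneg _)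
      (mem_univ c)
    have b := pow_le_pow_left₀ ht.le hc 2
    rw [sq_abs] at b
    rw [one_le_div (by positivity), show t ^ 4 = (t ^ 2) ^ 2 by ring]
    exact pow_le_pow_left₀ (by positivity) (by linarith [Nat.cast_nonneg (α := ℝ) n]) 2
  · rintro ⟨a, b, e, h⟩
    obtain ⟨rfl, rfl⟩ := List.append_eq_nil_iff.1 e.symm
    exact hz (by simpa using h)
  · rintro d s ⟨_ | ⟨d', a⟩, b, e, h⟩
    · exact absurd (by simpa using h) hz
    · obtain ⟨rfl, rfl⟩ := List.cons.inj e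
      exact ⟨a, b, rfl, by simpa [add_assoc] using h⟩

lemma sum_shift_le (F F' : Finset V) (v : V) {f : V → ℝ} (h0 : ∀ y, 0 ≤ f y)
    (h : ∀ y, f y ≠ 0 → y ∈ F') : ∑ x ∈ F, f (x + v) ≤ ∑ y ∈ F', f y := by
  rw [← sum_image (g := fun x => x + v) fun _ _ _ _ e => add_right_cancel e, ← sum_filter_ne_zero]
  exact sum_le_sum_of_subset_of_nonneg (fun y hy => h y (mem_filter.1 hy).2) fun y _ _ => h0 y

/-- The expected time spent in `Q`. -/
noncomputable def occ (Q : Set V) (m : ℕ) (x : V) : ℝ :=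
  ∑ i ∈ range m, Ex i fun s => ind (x + pos s ∈ Q)

lemma occ_sum (F : Finset V) (x₀ : V) (ρ m : ℕ) :
    ∑ x ∈ F, occ (Box x₀ ρ) m x ≤ m * (2 * ρ + 1) ^ 3 := by
  unfold occ
  rw [sum_comm]
  refine (sum_le_card_nsmul _ _ ((2 * (ρ : ℝ) + 1) ^ 3) fun i _ => ?_).trans_eq (by simp)
  rw [← Ex_sum]
  refine (Ex_mono fun s _ => ?_).trans_eq (Ex_const i _)
  have := sum_shift_le F (grid ρ) (pos s - x₀) (f := fun y => ind (y + x₀ ∈ Box x₀ ρ))
    (fun _ => ind_nonneg _) fun y hy => mem_grid.2 fun c => by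
      by_contra h
      exact hy (ind_neg fun h' => h (by simpa using h' c))
  simp only [add_assoc, sub_add_cancel] at this
  refine this.trans ((sum_le_card_nsmul _ _ 1 fun _ _ => ind_le_one _).trans_eq ?_)
  rw [nsmul_eq_mul, mul_one, card_grid]

lemma occ_low {x₀ y : V} {r : ℕ} (hy : y ∈ Box x₀ r) (n : ℕ) :
    3 / 4 * ((r : ℝ) + 1) ^ 2 ≤ occ (Box x₀ (3 * r + 2 : ℕ)) (n + (r + 1) ^ 2) y := by
  refine le_trans ?_ (sum_le_sum_of_subset_of_nonneg (range_subset_range.2 (Nat.le_add_left _ n))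
    fun _ _ _ => Ex_nonneg fun _ => ind_nonneg _)
  refine le_trans (le_of_eq ?_) (card_nsmul_le_sum _ _ (3 / 4) fun i hi => ?_)
  · simp [mul_comm]
  have a := far_le (B := (Box x₀ (3 * r + 2 : ℕ))ᶜ) (y := y) (t := 2 * (r + 1)) (by positivity)
    (fun z hz => by
      obtain ⟨c, hc⟩ := not_forall.1 hz
      have b : 2 * ((r : ℤ) + 1) ≤ |z c - y c| := by
        have := abs_sub_le (z c) (y c) (x₀ c)
        have := hy c
        push_cast at hc
        linarith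
      exact ⟨c, by exact_mod_cast b⟩) i
  have b : Ex i (fun _ => 1) ≤ Ex i fun s => ind (y + pos s ∈ Box x₀ (3 * r + 2 : ℕ)) +
      ind (Hit (Box x₀ (3 * r + 2 : ℕ))ᶜ y s) := Ex_mono fun s _ =>
    (ind_pos trivial).ge.trans (ind_or_le fun _ => (em _).imp_right fun h => ⟨s, [], by simp, h⟩)
  rw [Ex_const, Ex_add] at b
  have c : (i : ℝ) ≤ (r + 1) ^ 2 := by exact_mod_cast (mem_range.1 hi).le
  have d : 4 * (i : ℝ) ^ 2 / (2 * (r + 1)) ^ 4 ≤ 1 / 4 := by
    rw [div_le_iff₀ (by positivity)]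
    nlinarith [pow_le_pow_left₀ (Nat.cast_nonneg i) c 2]
  linarith

lemma ht_sum {x₀ : V} {r : ℕ} {τ : ℕ → ℝ} (τ0 : ∀ n, 0 ≤ τ n) (τm : ∀ n, τ n ≤ τ (n + 1))
    (hτ : ∀ n, ∀ y ∈ Box x₀ r, Ex n (fun s => ind (Hit B y s)) ≤ τ n) (F : Finset V) (n : ℕ) :
    Ex n (fun s => ∑ x ∈ F, ind (HT (Box x₀ r) B x s)) ≤
      288 * τ n * (r + 1) * (n + (r + 1) ^ 2) := by
  have o0 : ∀ m x, 0 ≤ occ (Box x₀ (3 * r + 2 : ℕ)) m x := fun m x =>
    sum_nonneg fun _ _ => Ex_nonneg fun _ => ind_nonneg _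
  have hp : 0 < 3 / 4 * ((r : ℝ) + 1) ^ 2 := by positivity
  have a := super (Q := Box x₀ r) (E := HT (Box x₀ r) B) (g := fun n x =>
    τ n / (3 / 4 * ((r : ℝ) + 1) ^ 2) * occ (Box x₀ (3 * r + 2 : ℕ)) (n + (r + 1) ^ 2) x)
    (fun x => mul_nonneg (div_nonneg (τ0 0) hp.le) (o0 _ _)) (fun n x => ?_)
    (fun n x hx => ((Ex_mono fun s _ => ind_mono HT.hit).trans (hτ n x hx)).trans ?_)
    (fun z hz => ⟨?_, ?_⟩) n
  · rw [Ex_sum]
    refine (sum_le_sum fun x _ => a x).trans ?_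
    rw [← mul_sum]
    refine (mul_le_mul_of_nonneg_left (occ_sum F x₀ _ _) (div_nonneg (τ0 n) hp.le)).trans ?_
    have b : (2 * ((3 * r + 2 : ℕ) : ℝ) + 1) ^ 3 ≤ (6 * (r + 1)) ^ 3 :=
      pow_le_pow_left₀ (by positivity) (by push_cast; linarith) 3
    refine (mul_le_mul_of_nonneg_left (mul_le_mul_of_nonneg_left b (Nat.cast_nonneg _))
      (div_nonneg (τ0 n) hp.le)).trans_eq ?_
    push_cast
    field_simp
    ring
  · rw [← mul_sum, mul_left_comm]
    refine mul_le_mul (div_le_div_of_nonneg_right (τm n) hp.le) ?_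
      (mul_nonneg (by norm_num) (sum_nonneg fun _ _ => o0 _ _)) (div_nonneg (τ0 _) hp.le)
    unfold occ
    rw [Nat.add_right_comm, sum_range_succ', sum_comm, mul_sum]
    simp only [Ex, pos_cons, add_assoc]
    exact le_add_of_nonneg_right (ind_nonneg _)
  · rw [div_mul_eq_mul_div, le_div_iff₀ hp]
    exact mul_le_mul_of_nonneg_left (occ_low hx n) (τ0 n)
  · rintro ⟨a, b, c, e, h, -⟩
    obtain ⟨rfl, -⟩ := List.append_eq_nil_iff.1 (List.append_eq_nil_iff.1 e.symm).1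
    exact hz (by simpa using h)
  · rintro d s ⟨_ | ⟨d', a⟩, b, c, e, h, h'⟩
    · exact absurd (by simpa using h) hz
    · obtain ⟨rfl, rfl⟩ := List.cons.inj e
      exact ⟨a, b, c, rfl, by simpa [add_assoc] using h, by simpa [add_assoc] using h'⟩

end Pool.Agent.MP_3a8451_pr

end

-- part MP_3a8451_pr.Heat
section

/-! The uniform heat kernel bound. -/

open Finset

namespace Pool.Agent.MP_3a8451_pr

/-- The transition probabilities of the one-dimensional walk. -/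
noncomputable def q1 : ℕ → ℤ → ℝ
  | 0, z => ind (z = 0)
  | a + 1, z => (q1 a (z - 1) + q1 a (z + 1)) / 2

lemma q1_nonneg (a : ℕ) (z : ℤ) : 0 ≤ q1 a z := by
  induction a generalizing z with
  | zero => exact ind_nonneg _
  | succ a ih => exact div_nonneg (add_nonneg (ih _) (ih _)) zero_le_two

lemma q1_zero (a : ℕ) (z : ℤ) (h : z < -a ∨ (a + z) % 2 = 1) : q1 a z = 0 := by
  induction a generalizing z with
  | zero => exact ind_neg (by omega)
  | succ a ih => rw [q1, ih _ (by omega), ih _ (by omega), add_zero, zero_div]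

lemma q1_eq (a k : ℕ) : q1 a (2 * k - a) = a.choose k / 2 ^ a := by
  induction a generalizing k with
  | zero =>
    rcases k with _ | k
    · simp [q1, ind]
    · rw [q1, ind_neg (by omega)]
      simp
  | succ a ih =>
    rcases k with _ | k
    · have h := ih 0
      rw [q1, q1_zero a _ (by omega), show 2 * ((0 : ℕ) : ℤ) - (a + 1 : ℕ) + 1 = 2 * (0 : ℕ) - a by
        omega, h, pow_succ]
      simp only [Nat.choose_zero_right, zero_add, div_div]
    · rw [q1, show 2 * ((k + 1 : ℕ) : ℤ) - (a + 1 : ℕ) - 1 = 2 * k - a by omega,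
        show 2 * ((k + 1 : ℕ) : ℤ) - (a + 1 : ℕ) + 1 = 2 * (k + 1 : ℕ) - a by omega, ih, ih,
        Nat.choose_succ_succ', pow_succ]
      push_cast
      ring

lemma central_le (m : ℕ) : ((m.centralBinom : ℝ) / 2 ^ (2 * m)) ^ 2 ≤ 1 / (2 * m + 1) := by
  induction m with
  | zero => simp
  | succ m ih =>
    have h : ((m : ℝ) + 1) * (m + 1).centralBinom = 2 * (2 * m + 1) * m.centralBinom := by
      exact_mod_cast Nat.succ_mul_centralBinom_succ m
    have e : ((m + 1).centralBinom : ℝ) / 2 ^ (2 * (m + 1)) =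
        (2 * m + 1) / (2 * m + 2) * (m.centralBinom / 2 ^ (2 * m)) := by
      rw [(eq_div_iff (by positivity)).2 ((mul_comm _ _).trans h)]
      field_simp
      ring
    rw [e, mul_pow]
    refine (mul_le_mul_of_nonneg_left ih (by positivity)).trans ?_
    push_cast
    rw [div_pow, div_mul_div_comm, div_le_div_iff₀ (by positivity) (by positivity)]
    nlinarith [Nat.cast_nonneg (α := ℝ) m]

lemma q1_even (m : ℕ) (z : ℤ) : q1 (2 * m) z ≤ m.centralBinom / 2 ^ (2 * m) := by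
  by_cases h : z < -((2 * m : ℕ) : ℤ) ∨ (((2 * m : ℕ) : ℤ) + z) % 2 = 1
  · rw [q1_zero _ _ h]
    positivity
  · rw [show z = 2 * ((((2 * m : ℕ) : ℤ) + z) / 2).toNat - (2 * m : ℕ) by omega, q1_eq]
    exact div_le_div_of_nonneg_right (Nat.cast_le.2 (Nat.choose_le_centralBinom _ _))
      (by positivity)

lemma q1_sq (a : ℕ) (z : ℤ) : q1 a z ^ 2 ≤ 2 / (a + 1) := by
  obtain ⟨m, rfl | rfl⟩ := Nat.even_or_odd' a
  · refine ((pow_le_pow_left₀ (q1_nonneg _ _) (q1_even m z) 2).trans (central_le m)).trans ?_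
    push_cast
    gcongr
    norm_num
  · have h : q1 (2 * m + 1) z ≤ m.centralBinom / 2 ^ (2 * m) := by
      rw [q1]
      linarith [q1_even m (z - 1), q1_even m (z + 1)]
    refine ((pow_le_pow_left₀ (q1_nonneg _ _) h 2).trans (central_le m)).trans ?_
    push_cast
    rw [div_le_div_iff₀ (by positivity) (by positivity)]
    linarith [Nat.cast_nonneg (α := ℝ) m]

lemma heat_alg1 {A P : ℝ} (hA : 1 ≤ A) (hP : 0 < P) :
    1 / ((A + 1) * P) ≤ (1 - A⁻¹ / 2) / (A * P) := by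
  have h : A * A⁻¹ = 1 := mul_inv_cancel₀ (by linarith)
  have h1 : A⁻¹ ≤ 1 := inv_le_one_of_one_le₀ hA
  rw [div_le_div_iff₀ (by positivity) (by positivity), ← mul_assoc, ← mul_assoc]
  exact mul_le_mul_of_nonneg_right (by nlinarith) hP.le

lemma heat_alg {A B C : ℝ} (hA : 1 ≤ A) (hB : 1 ≤ B) (hC : 1 ≤ C) :
    (1 / ((A + 1) * B * C) + 1 / (A * (B + 1) * C) + 1 / (A * B * (C + 1))) / 3 ≤
      1 / ((A + 1 / 6) * (B + 1 / 6) * (C + 1 / 6)) := by
  have a := heat_alg1 hA (show 0 < B * C by positivity)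
  have b := heat_alg1 hB (show 0 < A * C by positivity)
  have c := heat_alg1 hC (show 0 < A * B by positivity)
  rw [← mul_assoc, ← mul_assoc] at a
  rw [← mul_assoc, ← mul_assoc, mul_comm (B + 1), mul_comm B] at b
  rw [mul_comm (C + 1), mul_comm C] at c
  have e : ∀ X : ℝ, 1 ≤ X → X + 1 / 6 = X * (1 + X⁻¹ / 6) := fun X h => by field_simp
  have d : (1 - (A⁻¹ / 6 + B⁻¹ / 6 + C⁻¹ / 6)) / (A * B * C) ≤
      1 / ((A + 1 / 6) * (B + 1 / 6) * (C + 1 / 6)) := by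
    rw [e A hA, e B hB, e C hC, div_le_div_iff₀ (by positivity) (by positivity)]
    have x0 : 0 ≤ A⁻¹ / 6 := by positivity
    have y0 : 0 ≤ B⁻¹ / 6 := by positivity
    have z0 : 0 ≤ C⁻¹ / 6 := by positivity
    generalize A⁻¹ / 6 = x at x0 ⊢
    generalize B⁻¹ / 6 = y at y0 ⊢
    generalize C⁻¹ / 6 = z at z0 ⊢
    have f : (1 - (x + y + z)) * ((1 + x) * (1 + y) * (1 + z)) ≤ 1 := by
      have := mul_nonneg (mul_nonneg x0 y0) z0
      have := mul_nonneg (show 0 ≤ x + y + z by positivity)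
        (show 0 ≤ x * y + y * z + z * x + x * y * z by positivity)
      nlinarith [sq_nonneg (x - y), sq_nonneg (y - z), sq_nonneg (z - x), mul_nonneg x0 y0,
        mul_nonneg y0 z0, mul_nonneg z0 x0]
    exact (le_of_eq (by ring)).trans
      (mul_le_mul_of_nonneg_right f (show 0 ≤ A * B * C by positivity))
  refine le_trans ?_ d
  rw [show (1 - (A⁻¹ / 6 + B⁻¹ / 6 + C⁻¹ / 6)) / (A * B * C) = ((1 - A⁻¹ / 2) / (A * B * C) +
    (1 - B⁻¹ / 2) / (A * B * C) + (1 - C⁻¹ / 2) / (A * B * C)) / 3 by ring]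
  linarith

lemma heat_ind (y : V) (n a b c : ℕ) :
    (Ex n fun s => q1 a (y 0 - pos s 0) * q1 b (y 1 - pos s 1) * q1 c (y 2 - pos s 2)) ^ 2 ≤
      8 * (1 / ((a + 1 + n / 6) * (b + 1 + n / 6) * (c + 1 + n / 6))) := by
  induction n generalizing a b c with
  | zero =>
    simp only [Ex, mul_pow]
    refine (mul_le_mul (mul_le_mul (q1_sq _ _) (q1_sq _ _) (sq_nonneg _) (by positivity))
      (q1_sq _ _) (sq_nonneg _) (by positivity)).trans_eq ?_
    push_cast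
    field_simp
    ring
  | succ n ih =>
    have e : (Ex (n + 1) fun s => q1 a (y 0 - pos s 0) * q1 b (y 1 - pos s 1) *
        q1 c (y 2 - pos s 2)) = 1 / 3 * ((Ex n fun s => q1 (a + 1) (y 0 - pos s 0) *
        q1 b (y 1 - pos s 1) * q1 c (y 2 - pos s 2)) + (Ex n fun s => q1 a (y 0 - pos s 0) *
        q1 (b + 1) (y 1 - pos s 1) * q1 c (y 2 - pos s 2)) + Ex n fun s => q1 a (y 0 - pos s 0) *
        q1 b (y 1 - pos s 1) * q1 (c + 1) (y 2 - pos s 2)) := by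
      rw [Ex, ← Ex_sum, ← Ex_mul, ← Ex_add, ← Ex_add, ← Ex_mul]
      congr 1
      funext s
      have e1 : ∀ u v : ℤ, u - (1 + v) = u - v - 1 := fun u v => by ring
      have e2 : ∀ u v : ℤ, u - (-1 + v) = u - v + 1 := fun u v => by ring
      simp only [Fintype.sum_prod_type, Fin.sum_univ_three, Fintype.sum_bool, dir, Pi.add_apply,
        pos_cons, q1]
      simp [e1, e2]
      ring
    have h1 := ih (a + 1) b c
    have h2 := ih a (b + 1) c
    have h3 := ih a b (c + 1)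
    have n0 : (0 : ℝ) ≤ n / 6 := by positivity
    have h4 := heat_alg (A := a + 1 + n / 6) (B := b + 1 + n / 6) (C := c + 1 + n / 6)
      (by linarith [Nat.cast_nonneg (α := ℝ) a]) (by linarith [Nat.cast_nonneg (α := ℝ) b])
      (by linarith [Nat.cast_nonneg (α := ℝ) c])
    rw [e]
    push_cast at h1 h2 h3 ⊢
    simp only [add_right_comm _ (1 : ℝ) ((n : ℝ) / 6), add_div, ← add_assoc] at h1 h2 h3 h4 ⊢
    generalize (Ex n _) = X at h1 ⊢
    generalize (Ex n _) = Y at h2 ⊢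
    generalize (Ex n _) = Z at h3 ⊢
    nlinarith [sq_nonneg (X - Y), sq_nonneg (Y - Z), sq_nonneg (Z - X)]

lemma heat {m n : ℕ} (hn : 1 ≤ n) (h : n ≤ 3 * m + 2) (y : V) :
    (Ex m fun s => ind (pos s = y)) ≤ 216 / (n * √n) := by
  have n0 : (0 : ℝ) < n := Nat.cast_pos.2 hn
  have a := heat_ind y m 0 0 0
  have b : (Ex m fun s => ind (pos s = y)) ≤ Ex m fun s =>
      q1 0 (y 0 - pos s 0) * q1 0 (y 1 - pos s 1) * q1 0 (y 2 - pos s 2) := Ex_mono fun s _ =>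
    ind_le (mul_nonneg (mul_nonneg (q1_nonneg _ _) (q1_nonneg _ _)) (q1_nonneg _ _)) fun e => by
      simp [e, q1, ind]
  refine b.trans (le_of_sq_le_sq (a.trans ?_) (by positivity))
  have c : (n : ℝ) / 18 ≤ 1 + m / 6 := by
    have : (n : ℝ) ≤ 3 * m + 2 := by exact_mod_cast h
    linarith
  rw [div_pow, mul_pow, Real.sq_sqrt n0.le, show (216 : ℝ) ^ 2 / (n ^ 2 * n) =
    8 * (1 / (n / 18 * (n / 18) * (n / 18))) by field_simp; norm_num]
  simp only [Nat.cast_zero, zero_add]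
  gcongr

end Pool.Agent.MP_3a8451_pr

end

-- part MP_3a8451_pr.Loop
section

/-! The loop measure of large loops that visit a box. -/

open Finset

namespace Pool.Agent.MP_3a8451_pr

lemma tri {n a b c : ℕ} (hn : 1 ≤ n) (hc : n ≤ 3 * c + 2) {G : List D → ℝ} (G0 : ∀ s, 0 ≤ G s)
    {M : ℝ} (hG : Ex (a + b) G ≤ M) :
    (Ex a fun s₁ => Ex b fun s₂ => Ex c fun s₃ => G (s₁ ++ s₂) *
      ind (pos s₁ + pos s₂ + pos s₃ = 0)) ≤ 216 / (n * √n) * M := by
  refine le_trans ?_ (mul_le_mul_of_nonneg_left hG (by positivity))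
  rw [Ex_append, ← Ex_mul]
  refine Ex_mono fun s₁ _ => ?_
  rw [← Ex_mul]
  refine Ex_mono fun s₂ _ => ?_
  rw [Ex_mul, mul_comm]
  exact mul_le_mul_of_nonneg_right ((Ex_mono fun s₃ _ => ind_mono fun h =>
    eq_neg_of_add_eq_zero_right h).trans (heat hn hc _)) (G0 _)

lemma Ex_cyc (a b c : ℕ) (F : List D → List D → List D → ℝ) :
    (Ex a fun s₁ => Ex b fun s₂ => Ex c fun s₃ => F s₁ s₂ s₃) =
      Ex b fun s₂ => Ex c fun s₃ => Ex a fun s₁ => F s₁ s₂ s₃ := by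
  rw [Ex_comm]
  congr 1
  funext s₂
  rw [Ex_comm]

lemma closed_le {B : Set V} {x₀ : V} {r : ℕ} {τ : ℕ → ℝ} (τ0 : ∀ n, 0 ≤ τ n)
    (τm : ∀ n, τ n ≤ τ (n + 1)) (hτ : ∀ n, ∀ y ∈ Box x₀ r, Ex n (fun s => ind (Hit B y s)) ≤ τ n)
    (F : Finset V) {n : ℕ} (hn : 1 ≤ n) :
    Ex n (fun s => ∑ x ∈ F, ind (pos s = 0 ∧ Hit (Box x₀ r) x s ∧ Hit B x s)) ≤
      3 * (216 / (n * √n) * (576 * τ n * (r + 1) * (n + (r + 1) ^ 2))) := by
  obtain ⟨N, N0, N1, N2⟩ : ∃ N : List D → ℝ, (∀ s, 0 ≤ N s) ∧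
      (∀ m ≤ n, Ex m N ≤ 576 * τ n * (r + 1) * (n + (r + 1) ^ 2)) ∧ ∀ v s, s.length ≤ n →
        ∑ x ∈ F, ind (Hit (Box x₀ r) (x + v) s ∧ Hit B (x + v) s) ≤ N s := by
    have s0 := fun s => sum_nonneg fun x (_ : x ∈ (grid (r + n)).image (· + x₀)) =>
      ind_nonneg (HT (Box x₀ r) B x s)
    have s1 : ∀ v s, s.length ≤ n → ∑ x ∈ F, ind (HT (Box x₀ r) B (x + v) s) ≤
        ∑ x ∈ (grid (r + n)).image (· + x₀), ind (HT (Box x₀ r) B x s) := fun v s hs => by
      refine sum_shift_le F _ v (f := fun x => ind (HT (Box x₀ r) B x s)) (fun _ => ind_nonneg _)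
        fun y hy => mem_image.2 ⟨y - x₀, mem_grid.2 fun c => ?_, sub_add_cancel _ _⟩
      obtain ⟨a, b, d, e, h, -⟩ : HT (Box x₀ r) B y s := by
        by_contra h
        exact hy (ind_neg h)
      have h1 := abs_le.1 (h c)
      have h2 := abs_le.1 (abs_pos_le a c)
      have h3 : (a.length : ℤ) ≤ n := by
        rw [e, List.length_append, List.length_append] at hs
        omega
      rw [Pi.add_apply] at h1
      rw [Pi.sub_apply]
      push_cast
      exact abs_le.2 ⟨by linarith, by linarith⟩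
    refine ⟨fun s => _ + _, fun s => add_nonneg (s0 s) (s0 (rev s)), fun m hm => ?_,
      fun v s hs => ?_⟩
    · rw [Ex_add, Ex_rev m fun s => ∑ x ∈ _, ind (HT (Box x₀ r) B x s)]
      have a := (ht_sum τ0 τm hτ ((grid (r + n)).image (· + x₀)) m).trans
        (show _ ≤ 288 * τ n * (r + 1) * (n + (r + 1) ^ 2) by
          have := τ0 n
          have := monotone_nat_of_le_succ τm hm
          gcongr)
      linarith
    · refine (sum_le_sum fun x _ => ind_or_le fun h => h.1.both h.2).trans ?_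
      rw [sum_add_distrib]
      simp only [add_assoc]
      exact add_le_add (s1 v s hs) (s1 _ _ (by simpa using hs))
  obtain ⟨a, c, e, ha, hc⟩ : ∃ a c, n = a + (a + c) ∧ n ≤ 3 * a + 2 ∧ n ≤ 3 * c + 2 :=
    ⟨n / 3, n - 2 * (n / 3), by omega, by omega, by omega⟩
  have t1 := tri hn hc N0 (N1 (a + a) (by omega))
  have t2 := tri hn ha N0 (N1 (a + c) (by omega))
  have t3 := tri hn ha N0 (N1 (c + a) (by omega))
  rw [← Ex_cyc] at t2
  rw [Ex_cyc] at t3
  refine le_trans ?_ ((add_le_add (add_le_add t1 t2) t3).trans_eq (by ring))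
  rw [← Ex_add, ← Ex_add]
  refine (congrArg (Ex · _) e).le.trans ((Ex_append _ _ _).le.trans (Ex_mono fun s₁ h₁ => ?_))
  rw [← Ex_add, ← Ex_add, Ex_append]
  refine Ex_mono fun s₂ h₂ => ?_
  rw [← Ex_add, ← Ex_add]
  refine Ex_mono fun s₃ h₃ => ?_
  by_cases h : pos s₁ + pos s₂ + pos s₃ = 0
  swap
  · rw [sum_eq_zero fun x _ => ind_neg fun h' => h (by simpa [add_assoc] using h'.1)]
    exact add_nonneg (add_nonneg (mul_nonneg (N0 _) (ind_nonneg _)) (mul_nonneg (N0 _)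
      (ind_nonneg _))) (mul_nonneg (N0 _) (ind_nonneg _))
  rw [ind_pos h, ind_pos (show pos s₂ + pos s₃ + pos s₁ = 0 by rw [← h]; abel),
    ind_pos (show pos s₃ + pos s₁ + pos s₂ = 0 by rw [← h]; abel), mul_one, mul_one, mul_one]
  refine le_trans ?_ (add_le_add (add_le_add (N2 0 (s₁ ++ s₂) (by simp; omega))
    (N2 (pos s₁) (s₂ ++ s₃) (by simp; omega))) (N2 (pos s₁ + pos s₂) (s₃ ++ s₁) (by simp; omega)))
  rw [← sum_add_distrib, ← sum_add_distrib]
  refine sum_le_sum fun x _ => (ind_or_le (Q := _ ∨ _) fun h' => ?_).trans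
    (add_le_add_left (ind_or_le id) _)
  have key : ∀ X, Hit X x (s₁ ++ (s₂ ++ s₃)) →
      (Hit X (x + 0) (s₁ ++ s₂) ∧ Hit X (x + (pos s₁ + pos s₂)) (s₃ ++ s₁)) ∨
      (Hit X (x + 0) (s₁ ++ s₂) ∧ Hit X (x + pos s₁) (s₂ ++ s₃)) ∨
      (Hit X (x + pos s₁) (s₂ ++ s₃) ∧ Hit X (x + (pos s₁ + pos s₂)) (s₃ ++ s₁)) := fun X hX => by
    rw [add_zero]
    rcases hX.split with b | b
    · exact Or.inl ⟨b.left _, Hit.right (by rwa [add_assoc, h, add_zero])⟩
    rcases b.split with d | d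
    · exact Or.inr (Or.inl ⟨d.right, b⟩)
    · exact Or.inr (Or.inr ⟨b, Hit.left (by rwa [← add_assoc]) _⟩)
  have k1 := key _ h'.2.1
  have k2 := key _ h'.2.2
  tauto

lemma tele {σ : ℝ} (hσ : 0 < σ) (M : ℕ) :
    ∑ n ∈ range (M + 1), 1 / (√n * (σ ^ 2 + n)) ≤ 4 * (1 / σ - 1 / (σ + √M)) := by
  induction M with
  | zero => simp
  | succ M ih =>
    rw [sum_range_succ]
    have a := Real.sq_sqrt (Nat.cast_nonneg (α := ℝ) M)
    have b := Real.sq_sqrt (Nat.cast_nonneg (α := ℝ) (M + 1))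
    have c := Real.sqrt_nonneg (M : ℝ)
    have d : √M < √((M + 1 : ℕ) : ℝ) := Real.sqrt_lt_sqrt (Nat.cast_nonneg _) (by simp)
    have e : 1 / (√((M + 1 : ℕ) : ℝ) * (σ ^ 2 + (M + 1 : ℕ))) ≤
        4 * (1 / (σ + √M) - 1 / (σ + √((M + 1 : ℕ) : ℝ))) := by
      have f : √((M + 1 : ℕ) : ℝ) ^ 2 = √M ^ 2 + 1 := by rw [a, b, Nat.cast_succ]
      rw [← b, Real.sqrt_sq (c.trans d.le)]
      generalize √((M + 1 : ℕ) : ℝ) = y at d f
      generalize √(M : ℝ) = x at c d f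
      have y0 : 0 < y := c.trans_lt d
      rw [div_sub_div _ _ (by positivity) (by positivity), ← mul_div_assoc,
        div_le_div_iff₀ (by positivity) (by positivity)]
      have g : 1 ≤ 2 * ((y - x) * y) := by nlinarith
      have h : (σ + x) * (σ + y) ≤ 2 * (σ ^ 2 + y ^ 2) := by nlinarith [sq_nonneg (σ - y)]
      nlinarith [mul_le_mul_of_nonneg_right g (show 0 ≤ σ ^ 2 + y ^ 2 by positivity)]
    linarith

/-- All words of a given length. -/
def words : ℕ → Finset (List D)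
  | 0 => {[]}
  | n + 1 => (univ ×ˢ words n).image fun z => z.1 :: z.2

lemma mem_words (s : List D) : s ∈ words s.length := by
  induction s with
  | nil => simp [words]
  | cons d s ih => exact mem_image.2 ⟨(d, s), mem_product.2 ⟨mem_univ _, ih⟩, rfl⟩

lemma Ex_eq (n : ℕ) (G : List D → ℝ) : Ex n G = (1 / 6) ^ n * ∑ s ∈ words n, G s := by
  induction n generalizing G with
  | zero => simp [Ex, words]
  | succ n ih =>
    rw [words, sum_image fun _ _ _ _ h => Prod.ext (List.cons.inj h).1 (List.cons.inj h).2,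
      sum_product]
    simp only [Ex, ih, ← mul_sum]
    ring

/-- The vertices of a walk, without the last one. -/
def verts : V → List D → List V
  | _, [] => []
  | x, d :: s => x :: verts (x + dir d) s

lemma hit_verts {X : Set V} {z x : V} {s : List D} (h : z ∈ verts x s) (hz : z ∈ X) :
    Hit X x s := by
  induction s generalizing x with
  | nil => simp [verts] at h
  | cons d s ih =>
    rcases List.mem_cons.1 h with rfl | h
    · exact ⟨[], _, rfl, by simpa using hz⟩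
    · exact Hit.right (s := [d]) (by simpa using ih h)

lemma adj_dir {a b : V} (h : Adj a b) : ∃ d, b = a + dir d := by
  rw [Adj, Fin.sum_univ_three] at h
  have : (b 0 = a 0 + 1 ∨ b 0 = a 0 + -1) ∧ b 1 = a 1 ∧ b 2 = a 2 ∨
      (b 1 = a 1 + 1 ∨ b 1 = a 1 + -1) ∧ b 0 = a 0 ∧ b 2 = a 2 ∨
      (b 2 = a 2 + 1 ∨ b 2 = a 2 + -1) ∧ b 0 = a 0 ∧ b 1 = a 1 := by
    rcases abs_cases (a 0 - b 0) with h0 | h0 <;> rcases abs_cases (a 1 - b 1) with h1 | h1 <;>
      rcases abs_cases (a 2 - b 2) with h2 | h2 <;> omega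
  rcases this with ⟨h | h, h1, h2⟩ | ⟨h | h, h1, h2⟩ | ⟨h | h, h1, h2⟩
  exacts [⟨(0, true), funext fun c => by fin_cases c <;> simp [dir, h, h1, h2]⟩,
    ⟨(0, false), funext fun c => by fin_cases c <;> simp [dir, h, h1, h2]⟩,
    ⟨(1, true), funext fun c => by fin_cases c <;> simp [dir, h, h1, h2]⟩,
    ⟨(1, false), funext fun c => by fin_cases c <;> simp [dir, h, h1, h2]⟩,
    ⟨(2, true), funext fun c => by fin_cases c <;> simp [dir, h, h1, h2]⟩,
    ⟨(2, false), funext fun c => by fin_cases c <;> simp [dir, h, h1, h2]⟩]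

lemma exists_word (l : List V) (a y : V) (h : List.IsChain Adj (a :: (l ++ [y]))) :
    ∃ s, s.length = l.length + 1 ∧ a + pos s = y ∧ a :: l = verts a s := by
  induction l generalizing a with
  | nil =>
    obtain ⟨d, rfl⟩ := adj_dir (List.isChain_pair.1 h)
    exact ⟨[d], rfl, by simp, rfl⟩
  | cons b l ih =>
    obtain ⟨h1, h2⟩ := List.isChain_cons_cons.1 h
    obtain ⟨d, rfl⟩ := adj_dir h1
    obtain ⟨s, s1, s2, s3⟩ := ih _ h2
    exact ⟨d :: s, by simp [s1], by simpa [add_assoc] using s2, by rw [verts, s3]⟩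

lemma lists_le {x₀ : V} {r σ : ℕ} (hσ : 1 ≤ σ) (hr : 4 * r ≤ σ) (L : Finset (List V))
    (hL : ∀ l ∈ L, 2 ≤ l.length ∧ (l : Cycle V).Chain Adj ∧ (∃ a ∈ l, a ∈ Box x₀ r) ∧
      ∃ a ∈ l, ∃ b ∈ l, ∃ c, (σ : ℤ) ≤ |a c - b c|) :
    ∑ l ∈ L, 1 / (l.length : ℝ) * (1 / 6) ^ l.length ≤ 2 ^ 33 * (r + 1) / σ := by
  obtain ⟨B, hB⟩ : ∃ B : Set V, B = {z | ∃ c, (σ : ℤ) ≤ 2 * |z c - x₀ c|} := ⟨_, rfl⟩
  have σ0 : (0 : ℝ) < σ := Nat.cast_pos.2 hσ
  have h : ∀ l ∈ L, ∃ x s, l = verts x s ∧ s.length = l.length ∧ pos s = 0 ∧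
      Hit (Box x₀ r) x s ∧ Hit B x s := by
    rintro (_ | ⟨a, l⟩) hl
    · exact absurd (hL _ hl).1 (by simp)
    obtain ⟨-, h1, ⟨u, u1, u2⟩, v, v1, w, w1, c, h2⟩ := hL _ hl
    obtain ⟨s, s1, s2, s3⟩ := exists_word l a a h1
    rw [s3] at u1 v1 w1
    refine ⟨a, s, s3, s1, by simpa using s2, hit_verts u1 u2, ?_⟩
    have := abs_sub_le (v c) (x₀ c) (w c)
    rw [abs_sub_comm (x₀ c)] at this
    rcases le_total |v c - x₀ c| |w c - x₀ c| with h3 | h3
    · exact hit_verts w1 (hB ▸ ⟨c, by linarith⟩)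
    · exact hit_verts v1 (hB ▸ ⟨c, by linarith⟩)
  choose! x s e1 e2 e3 using h
  have c1 := sum_image (s := L) (g := fun l => (⟨l.length, (s l, x l)⟩ : Σ _ : ℕ, List D × V))
    (f := fun z => 1 / (z.1 : ℝ) * ((1 / 6) ^ z.1 *
      ind (pos z.2.1 = 0 ∧ Hit (Box x₀ r) z.2.2 z.2.1 ∧ Hit B z.2.2 z.2.1))) fun l hl l' hl' e => by
        have := Prod.mk.inj (eq_of_heq (Sigma.mk.inj e).2)
        rw [e1 l hl, e1 l' hl', this.1, this.2]
  refine le_trans (le_of_eq ((sum_congr rfl fun l hl => by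
    dsimp only; rw [ind_pos (e3 l hl), mul_one]).trans c1.symm)) ?_
  refine (sum_le_sum_of_subset_of_nonneg (t := (range (L.sup List.length + 1)).sigma fun n =>
    words n ×ˢ L.image x) (image_subset_iff.2 fun l hl => mem_sigma.2 ⟨mem_range.2
      (Nat.lt_succ_of_le (le_sup hl)), mem_product.2 ⟨e2 l hl ▸ mem_words _,
        mem_image_of_mem _ hl⟩⟩) fun _ _ _ => mul_nonneg (by positivity)
          (mul_nonneg (by positivity) (ind_nonneg _))).trans ?_
  rw [sum_sigma]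
  simp only [sum_product, ← mul_sum, ← Ex_eq]
  have R1 : (r : ℝ) + 1 ≤ σ := by exact_mod_cast (show r + 1 ≤ σ by omega)
  have c2 := fun n (hn : 1 ≤ n) => closed_le (B := B) (x₀ := x₀) (r := r)
    (τ := fun n => min 1 (4 * n ^ 2 / (σ / 4) ^ 4)) (fun _ => by positivity)
    (fun n => min_le_min_left _ (by push_cast; gcongr; linarith))
    (fun n y hy => le_min ((Ex_mono fun _ _ => ind_le_one _).trans_eq (Ex_const _ _))
      (far_le (by positivity) (fun z hz => by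
        obtain ⟨c, hc⟩ : ∃ c, (σ : ℤ) ≤ 2 * |z c - x₀ c| := by rwa [hB] at hz
        have b : (σ : ℤ) ≤ 4 * |z c - y c| := by
          have := abs_sub_le (z c) (y c) (x₀ c)
          have := hy c
          omega
        exact ⟨c, (div_le_iff₀' (by norm_num)).2 (by exact_mod_cast b)⟩) n)) (L.image x) hn
  refine (sum_le_sum (g := fun n : ℕ => 2 ^ 31 * (r + 1) * (1 / (√n * (σ ^ 2 + n))))
    fun n _ => ?_).trans ?_
  · rcases Nat.eq_zero_or_pos n with rfl | hn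
    · simp
    refine (mul_le_mul_of_nonneg_left (c2 n hn) (by positivity)).trans ?_
    have n0 : (0 : ℝ) < n := Nat.cast_pos.2 hn
    have q0 := Real.sqrt_pos.2 n0
    obtain ⟨t, ht⟩ : ∃ t : ℝ, min 1 (4 * (n : ℝ) ^ 2 / (σ / 4) ^ 4) = t := ⟨_, rfl⟩
    have t0 : 0 ≤ t := by rw [← ht]; positivity
    have d : t * (σ ^ 2 + n) ^ 2 ≤ 4096 * n ^ 2 := by
      rcases le_total ((σ : ℝ) ^ 2) n with h | h
      · have := pow_le_pow_left₀ (by positivity) (show (σ : ℝ) ^ 2 + n ≤ 2 * n by linarith) 2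
        nlinarith [mul_le_of_le_one_left (sq_nonneg ((σ : ℝ) ^ 2 + n)) (ht ▸ min_le_left _ _)]
      · refine (mul_le_mul (ht ▸ min_le_right _ _) (pow_le_pow_left₀ (by positivity)
          (show (σ : ℝ) ^ 2 + n ≤ 2 * σ ^ 2 by linarith) 2) (by positivity)
            (by positivity)).trans_eq ?_
        field_simp
        norm_num
    have d2 : t * (n + (r + 1) ^ 2) ≤ 4096 * n ^ 2 / (σ ^ 2 + n) := by
      rw [le_div_iff₀ (by positivity)]
      refine le_trans ?_ d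
      rw [sq (_ + (n : ℝ)), ← mul_assoc, add_comm (n : ℝ)]
      gcongr
    rw [ht, show 1 / (n : ℝ) * (3 * (216 / (n * √n) * (576 * t * (r + 1) * (n + (r + 1) ^ 2)))) =
      373248 * (r + 1) / (n ^ 2 * √n) * (t * (n + (r + 1) ^ 2)) by field_simp; ring]
    refine (mul_le_mul_of_nonneg_left d2 (by positivity)).trans ?_
    rw [show 373248 * ((r : ℝ) + 1) / (n ^ 2 * √n) * (4096 * n ^ 2 / (σ ^ 2 + n)) =
      373248 * 4096 * (r + 1) * (1 / (√n * (σ ^ 2 + n))) by field_simp]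
    gcongr
    norm_num
  · rw [← mul_sum]
    refine (mul_le_mul_of_nonneg_left ((tele σ0 _).trans (mul_le_mul_of_nonneg_left
      (sub_le_self _ (by positivity)) (by norm_num))) (by positivity)).trans_eq (by ring)

end Pool.Agent.MP_3a8451_pr

end

-- part MP_3a8451_pr.Soup
section

/-! From finite families of loops to the loop soup. -/

open MeasureTheory ProbabilityTheory Finset Relation
open scoped NNReal

namespace Pool.Agent.MP_3a8451_pr

/-- The probability that a loop is present. -/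
noncomputable def pr (α : ℝ≥0) (ℓ : Loop) : ℝ := 1 - Real.exp (-(α * mu ℓ : ℝ≥0))

lemma pr_nonneg (α : ℝ≥0) (ℓ : Loop) : 0 ≤ pr α ℓ :=
  sub_nonneg.2 (Real.exp_le_one_iff.2 (neg_nonpos.2 (NNReal.coe_nonneg _)))

lemma pr_le_one (α : ℝ≥0) (ℓ : Loop) : pr α ℓ ≤ 1 := sub_le_self _ (Real.exp_pos _).le

lemma pr_le (α : ℝ≥0) (ℓ : Loop) :
    pr α ℓ ≤ α * ∑ l ∈ ℓ.1.lists.toFinset, 1 / (l.length : ℝ) * (1 / 6) ^ l.length := by
  have := Real.add_one_le_exp (-(α * mu ℓ : ℝ≥0))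
  refine (show pr α ℓ ≤ (α * mu ℓ : ℝ≥0) by rw [pr]; linarith).trans_eq ?_
  simp [mu]

lemma phi_le (α : ℝ≥0) (T : Finset Loop) (j : ℕ) (x : V) (r : ℕ) (hr : 4 * r ≤ 16 ^ j) :
    Phi (fun ℓ : T => {z | z ∈ ℓ.1.1}) (fun ℓ => pr α ℓ) j (Box x r) ≤
      2 ^ 33 * α * (r + 1) / 16 ^ j := by
  classical
  obtain ⟨Q, hQ⟩ : ∃ Q : T → Prop, Q = fun i => ¬ Sm (fun ℓ : T => {z | z ∈ ℓ.1.1}) j i ∧
    Hits (fun ℓ : T => {z | z ∈ ℓ.1.1}) i (Box x r) := ⟨_, rfl⟩
  have h := lists_le (x₀ := x) (Nat.one_le_pow j 16 (by norm_num)) hr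
    ((univ.filter Q).biUnion fun ℓ => ℓ.1.1.lists.toFinset) fun l hl => by
      obtain ⟨ℓ, h1, h2⟩ := mem_biUnion.1 hl
      have e := Cycle.mem_lists_iff_coe_eq.1 (Multiset.mem_toFinset.1 h2)
      have h3 := (mem_filter.1 h1).2
      have h4 := ℓ.1.2
      simp only [hQ, Sm, Hits, Set.mem_ofPred_eq, not_forall, not_lt, ← e, Cycle.mem_coe_iff] at h3
      rw [← e] at h4
      obtain ⟨⟨a, ha, b, hb, c, hc⟩, h5⟩ := h3
      exact ⟨h4.1, h4.2, h5, a, ha, b, hb, c, by exact_mod_cast hc⟩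
  rw [sum_biUnion (by
    exact fun ℓ _ ℓ' _ ne => disjoint_left.2 fun l h1 h2 => ne (Subtype.ext (Subtype.ext
      ((Cycle.mem_lists_iff_coe_eq.1 (Multiset.mem_toFinset.1 h1)).symm.trans
        (Cycle.mem_lists_iff_coe_eq.1 (Multiset.mem_toFinset.1 h2)))))), sum_filter] at h
  refine le_trans ?_ ((mul_le_mul_of_nonneg_left h (NNReal.coe_nonneg α)).trans_eq
    (by push_cast; ring))
  rw [mul_sum]
  refine sum_le_sum fun i _ => ?_
  split_ifs with hi
  · exact (mul_le_of_le_one_right (pr_nonneg _ _) (ind_le_one _)).trans (pr_le _ _)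
  · rw [ind_neg (by rwa [hQ] at hi), mul_zero, mul_zero]

variable [DecidableEq Loop]

lemma soup_le (α : ℝ≥0) (T : Finset Loop) (P : (T → Bool) → Prop) :
    (soup α).real {N | P fun ℓ => decide (N ℓ ≠ 0)} ≤
      EE (fun ℓ : T => pr α ℓ) fun ω => ind (P ω) := by
  classical
  unfold soup
  obtain ⟨F, hF⟩ : ∃ F : (T → Bool) → Set (Loop → ℕ), F = fun ω => Set.pi T fun ℓ =>
    {k | ∀ h : ℓ ∈ T, decide (k ≠ 0) = ω ⟨ℓ, h⟩} := ⟨_, rfl⟩
  refine le_trans (measureReal_mono (fun N hN => ?_) (measure_ne_top _ _))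
    ((measureReal_biUnion_finset_le (univ.filter P) F).trans ?_)
  · exact Set.mem_iUnion₂.2 ⟨fun ℓ => decide (N ℓ ≠ 0), mem_filter.2 ⟨mem_univ _, hN⟩,
      by rw [hF]; exact fun _ _ _ => rfl⟩
  rw [sum_filter]
  refine sum_le_sum fun ω _ => ?_
  dsimp only
  split_ifs with h
  · rw [ind_pos h, mul_one, measureReal_def, hF, Measure.infinitePi_pi _ fun _ _ => .of_discrete,
      ENNReal.toReal_prod, ← prod_coe_sort]
    refine (prod_congr rfl fun ℓ _ => ?_).le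
    have e := poissonMeasure_real_singleton (α * mu ℓ) 0
    simp only [pow_zero, mul_one, Nat.factorial_zero, Nat.cast_one, div_one] at e
    rw [← measureReal_def]
    cases hω : ω ℓ
    · rw [show {k : ℕ | ∀ h : ℓ.1 ∈ T, decide (k ≠ 0) = ω ⟨ℓ, h⟩} = {0} by
        ext k; simp [hω], e]
      simp [pr]
    · rw [show {k : ℕ | ∀ h : ℓ.1 ∈ T, decide (k ≠ 0) = ω ⟨ℓ, h⟩} = {0}ᶜ by
        ext k; simp [hω], probReal_compl_eq_one_sub .of_discrete, e]
      simp [pr]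
  · rw [ind_neg h, mul_zero]

lemma arm_le_of {α : ℝ≥0} {n : ℕ} {b : ℝ} (h : ∀ T : Finset Loop, EE (fun ℓ : T => pr α ℓ)
    (fun ω => ind (∃ y ∈ Cl (fun ℓ : T => {z | z ∈ ℓ.1.1}) (fun _ => True) ω {0},
      y ∉ Box 0 (n - 1))) ≤ b) : arm α n ≤ b := by
  classical
  have : Countable Loop := by unfold Loop Cycle; infer_instance
  have : IsProbabilityMeasure (soup α) := by unfold soup; infer_instance
  obtain ⟨R, hR⟩ : ∃ R : Finset Loop → (Loop → ℕ) → V → V → Prop,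
    R = fun T N a b => ∃ ℓ ∈ T, N ℓ ≠ 0 ∧ a ∈ ℓ.1 ∧ b ∈ ℓ.1 := ⟨_, rfl⟩
  have m {T T' : Finset Loop} (hT : T ≤ T') {N a b} (h : ReflTransGen (R T N) a b) :
      ReflTransGen (R T' N) a b := ReflTransGen.mono (r := R T N) (p := R T' N) (fun a b => by
    rw [hR]
    exact fun ⟨ℓ, h1, h2⟩ => ⟨ℓ, hT h1, h2⟩) _ _ h
  have b0 : 0 ≤ b := (EE_nonneg (fun _ => pr_nonneg _ _) (fun _ => pr_le_one _ _)
    fun _ => ind_nonneg _).trans (h ∅)
  refine ENNReal.toReal_le_of_le_ofReal b0 ((measure_mono (t := ⋃ T : Finset Loop,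
    {N | ∃ y ∉ Box 0 (n - 1), ReflTransGen (R T N) 0 y}) ?_).trans ?_)
  · rintro N ⟨y, h1, h2⟩
    have : ∃ T, ReflTransGen (R T N) 0 y := by
      clear h1
      induction h2 with
      | refl => exact ⟨∅, .refl⟩
      | tail _ h3 ih =>
        obtain ⟨T, hT⟩ := ih
        obtain ⟨ℓ, h3⟩ := h3
        exact ⟨insert ℓ T, (m (subset_insert _ _) hT).tail
          (by rw [hR]; exact ⟨ℓ, mem_insert_self _ _, h3⟩)⟩
    obtain ⟨T, hT⟩ := this
    refine Set.mem_iUnion.2 ⟨T, y, fun hy => ?_, hT⟩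
    obtain ⟨c, -, hc⟩ := exists_mem_eq_sup univ univ_nonempty fun c => (y c).natAbs
    have := hy c
    rw [Pi.zero_apply, sub_zero, ← Int.natCast_natAbs] at this
    omega
  rw [Monotone.measure_iUnion (by exact fun T T' hT N ⟨y, h1, h2⟩ => ⟨y, h1, m hT h2⟩)]
  refine iSup_le fun T => ?_
  rw [← ofReal_measureReal]
  refine ENNReal.ofReal_le_ofReal ((measureReal_mono ?_).trans ((soup_le α T _).trans (h T)))
  rintro N ⟨y, h1, h2⟩
  refine ⟨y, ⟨0, rfl, ReflTransGen.mono (r := R T N) (fun a b => ?_) _ _ h2⟩, h1⟩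
  rw [hR]
  exact fun ⟨ℓ, h1, h2, h3⟩ => ⟨⟨ℓ, h1⟩, trivial, decide_eq_true h2, h3⟩

omit [DecidableEq Loop] in
lemma arm_small {α : ℝ≥0} (hα : (2 : ℝ) ^ 16 * (2 ^ 33 * α) ≤ 1 / (2 * 65 ^ 3 * (51 ^ 6 * 16 ^ 4)))
    {n : ℕ} (hn : 1 ≤ n) : arm α n ≤ 2 ^ 17 * (2 ^ 16 * (2 ^ 33 * α)) *
      (n : ℝ) ^ (-1 + 2 ^ 25 * ((2 : ℝ) ^ 16 * (2 ^ 33 * α))) := by
  classical
  exact arm_le_of fun T => arm_le (fun _ => pr_nonneg _ _) (fun _ => pr_le_one _ _) (by positivity) hα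
    (fun k j x hk => box_of (fun _ => pr_nonneg _ _) (by positivity) (phi_le α T) k j x hk) hn

end Pool.Agent.MP_3a8451_pr

end
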